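import Pool.Agent.ORD.C1

/-!
# FRS [A1]: extensions of a free pro-`p` group by an induced module split
-/

set_option autoImplicit false

namespace Pool.Agent.FRS

open Pool.Agent.MP_6fb7ad_al Pool.Agent.ORD

/-- the underlying set of the extension -/
structure SE (p : ℕ) (Q : Type) where
  /-- the first component -/
  a : ZMod p → ZMod p
  /-- the second component -/
  x : Q

theorem SE_mk {p : ℕ} {Q : Type} {f g : ZMod p → ZMod p} {x y : Q} (h : ∀ c, f c = g c)
    (h' : x = y) : (SE.mk f x : SE p Q) = SE.mk g y := by rw [funext h, h']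

/-- the group extension given by a 2-cocycle with values in the functions `ZMod p → ZMod p`, on
which `Q` acts by translations through `χ` -/
@[reducible] def SE_group {p : ℕ} {Q : Type} [Group Q] (χ : Q → ZMod p)
    (hχ : ∀ g h, χ (g * h) = χ g + χ h) (f : Q → Q → ZMod p → ZMod p)
    (hf : ∀ g h k c, f h k (c + χ g) + f g (h * k) c = f (g * h) k c + f g h c) :
    Group (SE p Q) where
  mul u v := ⟨fun c => u.a c + v.a (c + χ u.x) + f u.x v.x c, u.x * v.x⟩
  one := ⟨fun c => -f 1 1 c, 1⟩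
  inv u := ⟨fun c => -f 1 1 c - u.a (c + χ u.x⁻¹) - f u.x⁻¹ u.x c, u.x⁻¹⟩
  mul_assoc u v w := by
    refine SE_mk (fun c => ?_) (mul_assoc _ _ _)
    show (u.a c + v.a (c + χ u.x) + f u.x v.x c) + w.a (c + χ (u.x * v.x)) + f (u.x * v.x) w.x c =
      u.a c + (v.a (c + χ u.x) + w.a (c + χ u.x + χ v.x) + f v.x w.x (c + χ u.x)) +
        f u.x (v.x * w.x) c
    rw [hχ, ← add_assoc c]
    linear_combination - hf u.x v.x w.x c
  one_mul u := by
    refine SE_mk (fun c => ?_) (one_mul _)
    have h1 : χ 1 = 0 := by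
      have := hχ 1 1
      rw [mul_one] at this
      exact left_eq_add.1 this
    show -f 1 1 c + u.a (c + χ 1) + f 1 u.x c = u.a c
    have h := hf 1 1 u.x c
    rw [one_mul, one_mul, h1, add_zero] at h
    rw [h1, add_zero]
    linear_combination h
  mul_one u := by
    refine SE_mk (fun c => ?_) (mul_one _)
    show u.a c + -f 1 1 (c + χ u.x) + f u.x 1 c = u.a c
    have h := hf u.x 1 1 c
    rw [one_mul, mul_one] at h
    linear_combination - h
  inv_mul_cancel u := by
    refine SE_mk (fun c => ?_) (inv_mul_cancel _)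
    show -f 1 1 c - u.a (c + χ u.x⁻¹) - f u.x⁻¹ u.x c + u.a (c + χ u.x⁻¹) + f u.x⁻¹ u.x c =
      -f 1 1 c
    ring

/-- the underlying set is a product -/
def SE_equiv (p : ℕ) (Q : Type) : SE p Q ≃ (ZMod p → ZMod p) × Q where
  toFun u := (u.a, u.x)
  invFun v := ⟨v.1, v.2⟩
  left_inv _ := rfl
  right_inv _ := rfl

variable {p : ℕ} [Fact p.Prime] {X F : Type} [Group F] [TopologicalSpace F]
  [IsTopologicalGroup F] {i : X → F}

theorem free_fin_co (hF : IsFreeProP p i) {Q : Type} [Group Q] [Finite Q] [TopologicalSpace Q]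
    [DiscreteTopology Q] [IsTopologicalGroup Q] (hQ : IsPGroup p Q) (q : F →* Q)
    (hq : Continuous q) (χ : Q → ZMod p) (hχ : ∀ g h, χ (g * h) = χ g + χ h)
    (f : Q → Q → ZMod p → ZMod p)
    (hf : ∀ g h k c, f h k (c + χ g) + f g (h * k) c = f (g * h) k c + f g h c) :
    ∃ φ : F → ZMod p → ZMod p, IsLocallyConstant φ ∧
      ∀ g h c, f (q g) (q h) c = φ g c + φ h (c + χ (q g)) - φ (g * h) c := by
  classical
  let : Group (SE p Q) := SE_group χ hχ f hf
  let : TopologicalSpace (SE p Q) := ⊥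
  have : DiscreteTopology (SE p Q) := ⟨rfl⟩
  have : NeZero p := ⟨(Fact.out : p.Prime).ne_zero⟩
  have : Finite (SE p Q) := Finite.of_equiv _ (SE_equiv p Q).symm
  have hE : IsPGroup p (SE p Q) := by
    obtain ⟨n, hn⟩ := IsPGroup.iff_card.1 hQ
    refine IsPGroup.of_card (n := n + p) ?_
    rw [Nat.card_congr (SE_equiv p Q), Nat.card_prod, hn, Nat.card_fun, Nat.card_zmod, pow_add,
      mul_comm]
  let s₀ : X → SE p Q := fun x => if q (i x) = 1 then 1 else ⟨fun _ => 0, q (i x)⟩
  have hfin : {x | s₀ x ≠ 1}.Finite := by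
    have h1 : IsOpen ((⊥ : Subgroup Q) : Set Q) := isOpen_discrete _
    refine (a2a_conv hF q hq ⊥ h1).subset ?_
    intro x hx hx2
    apply hx
    have hx3 : q (i x) = 1 := by simpa using hx2
    show (if q (i x) = 1 then (1 : SE p Q) else ⟨fun _ => 0, q (i x)⟩) = 1
    rw [if_pos hx3]
  obtain ⟨s, ⟨hs1, hs2⟩, -⟩ := hF.univ (SE p Q) (isProP_of_finite hE) s₀ (convOne_of_finite s₀ hfin)
  let π : SE p Q →* Q :=
    { toFun := fun u => u.x
      map_one' := rfl
      map_mul' := fun _ _ => rfl }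
  have hπ : π.comp s = q := by
    refine free_uniq hF hQ (π.comp s) q ((continuous_of_discreteTopology (f := π)).comp hs1) hq
      (fun x => ?_)
    show (s (i x)).x = q (i x)
    rw [hs2]
    show (if q (i x) = 1 then (1 : SE p Q) else ⟨fun _ => 0, q (i x)⟩).x = q (i x)
    split_ifs with h
    · rw [h]
      rfl
    · rfl
  have hx : ∀ g, (s g).x = q g := fun g => DFunLike.congr_fun hπ g
  have hmul : ∀ (u v : SE p Q) c, (u * v).a c = u.a c + v.a (c + χ u.x) + f u.x v.x c :=
    fun _ _ _ => rfl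
  refine ⟨fun g c => -(s g).a c, ?_, fun g h c => ?_⟩
  · exact ((IsLocallyConstant.iff_continuous s).2 hs1).comp (fun u c => -u.a c)
  · have h1 := hmul (s g) (s h) c
    rw [← map_mul, hx, hx] at h1
    show f (q g) (q h) c = -(s g).a c + -(s h).a (c + χ (q g)) - -(s (g * h)).a c
    rw [h1]
    ring

end Pool.Agent.FRS
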