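import Pool.Agent.FRS.A1

/-!
# FRS [A2]: the kernel of a character of a free pro-`p` group has trivial second cohomology
-/

set_option autoImplicit false

namespace Pool.Agent.FRS

open Pool.Agent.MP_6fb7ad_al Pool.Agent.ORD

variable {p : ℕ} [Fact p.Prime] {X F : Type} [Group F] [TopologicalSpace F]
  [IsTopologicalGroup F] {i : X → F}

theorem E_H2 (hF : IsFreeProP p i) {E : Subgroup F} (χ : F → ZMod p) (hχ : IsChar p χ)
    (hEχ : ∀ x, x ∈ E ↔ χ x = 0) (t : F) (ht : χ t = 1) (φ : F → F → ZMod p)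
    (hφ : ∀ a ∈ E, ∀ b ∈ E, ∀ c ∈ E, φ b c + φ a (b * c) = φ (a * b) c + φ a b)
    {W : Subgroup F} (hW : ON W) (hWE : W ≤ E)
    (hWφ : ∀ a ∈ E, ∀ b ∈ E, ∀ w ∈ W, ∀ w' ∈ W, φ (a * w) (b * w') = φ a b) :
    ∃ f : F → ZMod p, (∀ x, x ∉ E → f x = 0) ∧
      (∃ W' : Subgroup F, ON W' ∧ ∀ x, ∀ w ∈ W', f (x * w) = f x) ∧
      ∀ a ∈ E, ∀ b ∈ E, φ a b = f a + f b - f (a * b) := by
  classical
  have hpz : NeZero p := ⟨(Fact.out : p.Prime).ne_zero⟩
  have hcpt : CompactSpace F := hF.proP.compact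
  have hχ1 : χ 1 = 0 := by
    have := hχ.mul 1 1
    rw [mul_one] at this
    exact left_eq_add.mp this
  have hχi : ∀ f, χ f⁻¹ = - χ f := by
    intro f
    have h1 := hχ.mul f⁻¹ f
    rw [inv_mul_cancel, hχ1] at h1
    exact (neg_eq_of_add_eq_zero_left h1.symm).symm
  have hχt : ∀ n : ℕ, χ (t ^ n) = n := by
    intro n
    induction n with
    | zero => rw [pow_zero, Nat.cast_zero, hχ1]
    | succ n ih => rw [pow_succ, hχ.mul, ih, ht, Nat.cast_succ]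
  have hWχ : ∀ w ∈ W, χ w = 0 := fun w hw => (hEχ w).1 (hWE hw)
  have hs : ∀ c : ZMod p, χ (t ^ c.val) = c := by
    intro c
    rw [hχt, ZMod.natCast_zmod_val]
  let u : ZMod p → F → F := fun c f => t ^ c.val * f * (t ^ (c + χ f).val)⁻¹
  have hu : ∀ c f, u c f ∈ E := by
    intro c f
    rw [hEχ]
    show χ (t ^ c.val * f * (t ^ (c + χ f).val)⁻¹) = 0
    rw [hχ.mul, hχ.mul, hχi, hs, hs]
    ring
  have hum : ∀ c f g, u c (f * g) = u c f * u (c + χ f) g := by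
    intro c f g
    show t ^ c.val * (f * g) * (t ^ (c + χ (f * g)).val)⁻¹ =
      t ^ c.val * f * (t ^ (c + χ f).val)⁻¹ *
        (t ^ (c + χ f).val * g * (t ^ (c + χ f + χ g).val)⁻¹)
    rw [hχ.mul, ← add_assoc c]
    group
  have huW : ∀ c g, ∀ w ∈ W, ∃ w' ∈ W, u c (g * w) = u c g * w' := by
    intro c g w hw
    refine ⟨t ^ (c + χ g).val * w * (t ^ (c + χ g).val)⁻¹, hW.1.conj_mem w hw _, ?_⟩
    show t ^ c.val * (g * w) * (t ^ (c + χ (g * w)).val)⁻¹ =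
      t ^ c.val * g * (t ^ (c + χ g).val)⁻¹ * (t ^ (c + χ g).val * w * (t ^ (c + χ g).val)⁻¹)
    rw [hχ.mul, hWχ w hw, add_zero]
    group
  have hWn : W.Normal := hW.1
  obtain ⟨hfin, hpg⟩ := quot_fin hF.proP W hW.2
  have hdisc : DiscreteTopology (F ⧸ W) := QuotientGroup.discreteTopology hW.2
  have hq : Continuous (QuotientGroup.mk' W) := QuotientGroup.continuous_mk
  let χ' : F ⧸ W → ZMod p := fun a => χ a.out
  have hχ' : ∀ g : F, χ' (QuotientGroup.mk' W g) = χ g := by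
    intro g
    obtain ⟨w, hw⟩ := QuotientGroup.mk_out_eq_mul W g
    show χ (g : F ⧸ W).out = χ g
    rw [hw, hχ.mul, hWχ w w.2, add_zero]
  have hχ'm : ∀ a b, χ' (a * b) = χ' a + χ' b := by
    intro a b
    obtain ⟨g, rfl⟩ := QuotientGroup.mk'_surjective W a
    obtain ⟨h, rfl⟩ := QuotientGroup.mk'_surjective W b
    rw [← map_mul, hχ', hχ', hχ', hχ.mul]
  let f' : F ⧸ W → F ⧸ W → ZMod p → ZMod p := fun a b c => φ (u c a.out) (u (c + χ a.out) b.out)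
  have hf' : ∀ (g h : F) (c : ZMod p), f' (QuotientGroup.mk' W g) (QuotientGroup.mk' W h) c =
      φ (u c g) (u (c + χ g) h) := by
    intro g h c
    obtain ⟨w, hw⟩ := QuotientGroup.mk_out_eq_mul W g
    obtain ⟨w', hw'⟩ := QuotientGroup.mk_out_eq_mul W h
    show φ (u c (g : F ⧸ W).out) (u (c + χ (g : F ⧸ W).out) (h : F ⧸ W).out) =
      φ (u c g) (u (c + χ g) h)
    rw [hw, hw', hχ.mul, hWχ w w.2, add_zero]
    obtain ⟨v, hv, hv'⟩ := huW c g w w.2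
    obtain ⟨z, hz, hz'⟩ := huW (c + χ g) h w' w'.2
    rw [hv', hz']
    exact hWφ _ (hu _ _) _ (hu _ _) v hv z hz
  have hcoc : ∀ g h k c, f' h k (c + χ' g) + f' g (h * k) c = f' (g * h) k c + f' g h c := by
    intro a b c d
    obtain ⟨g, rfl⟩ := QuotientGroup.mk'_surjective W a
    obtain ⟨h, rfl⟩ := QuotientGroup.mk'_surjective W b
    obtain ⟨k, rfl⟩ := QuotientGroup.mk'_surjective W c
    rw [← map_mul, ← map_mul, hf', hf', hf', hf', hχ', hum, hum, hχ.mul, ← add_assoc d]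
    exact hφ _ (hu _ _) _ (hu _ _) _ (hu _ _)
  obtain ⟨ψ, hψ, hψ'⟩ := free_fin_co hF hpg (QuotientGroup.mk' W) hq χ' hχ'm f' hcoc
  obtain ⟨W', hW1, hW2, hW3⟩ := exists_open_normal ψ hψ
  have hu0 : ∀ a ∈ E, u 0 a = a := by
    intro a ha
    show t ^ (0 : ZMod p).val * a * (t ^ (0 + χ a).val)⁻¹ = a
    rw [(hEχ a).1 ha, add_zero, ZMod.val_zero, pow_zero, inv_one, one_mul, mul_one]
  refine ⟨fun x => if x ∈ E then ψ x 0 else 0, fun x hx => if_neg hx,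
    ⟨W' ⊓ W, ON.inf ⟨hW1, hW2⟩ hW, fun x w hw => ?_⟩, fun a ha b hb => ?_⟩
  · have h1 : x * w ∈ E ↔ x ∈ E := by
      rw [hEχ, hEχ, hχ.mul, hWχ w hw.2, add_zero]
    have h2 := hW3 w hw.1 x 1
    rw [mul_one, mul_one] at h2
    simp only [h1, h2]
  · have hab : a * b ∈ E := E.mul_mem ha hb
    simp only [if_pos ha, if_pos hb, if_pos hab]
    have h1 := hψ' a b 0
    rw [hf', hχ', (hEχ a).1 ha, add_zero, hu0 a ha, hu0 b hb] at h1
    exact h1

end Pool.Agent.FRS
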