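import Pool.Agent.ORD.C1

/-!
# FRS [B1]: characters of a subgroup of index `p` that separate `p`-th powers
-/

set_option autoImplicit false

namespace Pool.Agent.FRS

open Pool.Agent.MP_6fb7ad_al Pool.Agent.ORD

variable {p : ℕ} [Fact p.Prime] {Q : Type} [Group Q] [TopologicalSpace Q] [IsTopologicalGroup Q]

/-- Every linear form on the space of characters of a pro-`p` group is the evaluation at a point. -/
theorem exists_eval (hQ : IsProP p Q) (g : Ch p Q →ₗ[ZMod p] ZMod p) :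
    ∃ w : Q, ∀ ξ : Ch p Q, (ξ : Q → ZMod p) w = g ξ := by
  have := hQ.compact
  let b := Module.Basis.ofVectorSpace (ZMod p) (Ch p Q)
  have h1 : (⋂ i, {w : Q | (b i : Q → ZMod p) w = g (b i)}).Nonempty := by
    apply CompactSpace.iInter_nonempty
    · intro i
      exact ((b i).2.lc.isClosed_fiber (g (b i)))
    · intro S
      obtain ⟨w, hw⟩ := c2a_surj b.linearIndependent S (fun i => g (b i))
      exact ⟨w, Set.mem_iInter₂.2 fun i hi => hw i hi⟩
  obtain ⟨w, hw⟩ := h1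
  refine ⟨w, fun ξ => ?_⟩
  let evw : Ch p Q →ₗ[ZMod p] ZMod p :=
    { toFun := fun ξ => (ξ : Q → ZMod p) w
      map_add' := fun _ _ => rfl
      map_smul' := fun _ _ => rfl }
  have h2 : evw = g := b.ext fun i => Set.mem_iInter.1 hw i
  exact LinearMap.congr_fun h2 ξ

theorem exists_eval_sub (hQ : IsProP p Q) {U : Subgroup Q} (hU : IsClosed (U : Set Q))
    (g : (Q → ZMod p) →ₗ[ZMod p] ZMod p) : ∃ w ∈ U, ∀ ξ ∈ Hm p U, ξ w = g ξ := by
  classical
  have hUp : IsProP p U := isProP_sub hQ U hU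
  let f : Ch p U →ₗ[ZMod p] (Q → ZMod p) :=
    { toFun := fun χ x => if h : x ∈ U then χ.1 ⟨x, h⟩ else 0
      map_add' := by
        intro χ ψ
        funext x
        simp only [Pi.add_apply]
        split_ifs
        · rfl
        · simp
      map_smul' := by
        intro c χ
        funext x
        simp only [Pi.smul_apply, RingHom.id_apply]
        split_ifs
        · rfl
        · simp }
  obtain ⟨w, hw⟩ := exists_eval hUp (g.comp f)
  refine ⟨w, w.2, fun ξ hξ => ?_⟩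
  obtain ⟨h1, h2, W, hW, h3⟩ := hξ
  have hch : IsChar p (fun r : U => ξ r) := by
    refine ⟨?_, fun g h => h2 _ g.2 _ h.2⟩
    rw [IsLocallyConstant.iff_exists_open]
    intro x
    refine ⟨{y : U | (x : Q)⁻¹ * (y : Q) ∈ W}, ?_, ?_, ?_⟩
    · exact hW.2.preimage ((continuous_const_mul (x : Q)⁻¹).comp continuous_subtype_val)
    · show (x : Q)⁻¹ * x ∈ W
      rw [inv_mul_cancel]
      exact W.one_mem
    · intro y hy
      have hy' : (x : Q)⁻¹ * (y : Q) ∈ W := hy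
      have h4 := h2 _ x.2 _ (U.mul_mem (U.inv_mem x.2) y.2)
      rw [mul_inv_cancel_left, h3 _ hy', add_zero] at h4
      exact h4
  have h4 : f ⟨fun r : U => ξ r, hch⟩ = ξ := by
    funext x
    show (if h : x ∈ U then ξ x else 0) = ξ x
    split_ifs with h
    · rfl
    · exact (h1 x h).symm
  have h5 := hw ⟨fun r : U => ξ r, hch⟩
  rw [LinearMap.comp_apply, h4] at h5
  exact h5

/-- conjugation preserves the homomorphisms on a normal subgroup -/
theorem cj_mem {U : Subgroup Q} (hU : U.Normal) (a : Q) {ξ : Q → ZMod p} (hξ : ξ ∈ Hm p U) :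
    cj p a ξ ∈ Hm p U := by
  obtain ⟨h1, h2, W, hW, h3⟩ := hξ
  have hc : ∀ x, a⁻¹ * x * a ∈ U ↔ x ∈ U := by
    intro x
    constructor
    · intro h
      have h4 := hU.conj_mem _ h a
      have h5 : a * (a⁻¹ * x * a) * a⁻¹ = x := by group
      rwa [h5] at h4
    · intro h
      have h4 := hU.conj_mem _ h a⁻¹
      rwa [inv_inv] at h4
  refine ⟨fun x hx => ?_, fun x hx y hy => ?_, W, hW, fun w hw => ?_⟩
  · rw [cj_apply]
    exact h1 _ fun h => hx ((hc x).1 h)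
  · rw [cj_apply, cj_apply, cj_apply, ← h2 _ ((hc x).2 hx) _ ((hc y).2 hy)]
    congr 1
    group
  · rw [cj_apply]
    exact h3 _ (hW.conj hw a)

/-- the powers of `t * w` -/
theorem pow_mul_mem {U : Subgroup Q} (hU : U.Normal) (t : Q) {w : Q} (hw : w ∈ U) (n : ℕ) :
    ∃ P ∈ U, (t * w) ^ n = t ^ n * P ∧
      ∀ ξ ∈ Hm p U, ξ P = ∑ j ∈ Finset.range n, cj p (t ^ j) ξ w := by
  induction n with
  | zero =>
    refine ⟨1, U.one_mem, by rw [pow_zero, pow_zero, one_mul], fun ξ hξ => ?_⟩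
    rw [Finset.range_zero, Finset.sum_empty]
    have h1 := hξ.2.1 1 U.one_mem 1 U.one_mem
    rw [mul_one] at h1
    exact left_eq_add.1 h1
  | succ n ih =>
    obtain ⟨P, hP, h1, h2⟩ := ih
    have h3 : (t ^ n)⁻¹ * w * t ^ n ∈ U := by
      have := hU.conj_mem w hw (t ^ n)⁻¹
      rwa [inv_inv] at this
    refine ⟨(t ^ n)⁻¹ * w * t ^ n * P, U.mul_mem h3 hP, ?_, fun ξ hξ => ?_⟩
    · rw [pow_succ' (t * w) n, h1, pow_succ' t n]
      group
    · rw [hξ.2.1 _ h3 _ hP, h2 ξ hξ, Finset.sum_range_succ, cj_apply, add_comm]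

/-- If no element outside of the kernel `U` of the character `χ` has its `p`-th power in the
Frattini subgroup of `U` then some character of `U` of norm zero takes the value one at `t ^ p`. -/
theorem exists_xi (hQ : IsProP p Q) {U : Subgroup Q} (hUn : U.Normal) (hUc : IsClosed (U : Set Q))
    (χ : Q → ZMod p) (hχ : ∀ g h, χ (g * h) = χ g + χ h) (hUχ : ∀ x, x ∈ U ↔ χ x = 0)
    (t : Q) (ht : χ t = 1)
    (hV : ∀ v, v ∉ U → ∃ ξ ∈ Hm p U, ξ (v ^ p) ≠ 0) :
    ∃ ξ ∈ Hm p U, (∑ j ∈ Finset.range p, cj p (t ^ j) ξ = 0) ∧ ξ (t ^ p) = 1 := by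
  have hχ1 : χ 1 = 0 := by
    have := hχ 1 1
    rw [mul_one] at this
    exact left_eq_add.mp this
  have hχt : ∀ n : ℕ, χ (t ^ n) = n := by
    intro n
    induction n with
    | zero => rw [pow_zero, Nat.cast_zero, hχ1]
    | succ n ih => rw [pow_succ, hχ, ih, ht, Nat.cast_succ]
  have htp : t ^ p ∈ U := by
    rw [hUχ, hχt, ZMod.natCast_self]
  by_cases hex : ∃ ξ ∈ Hm p U, (∑ j ∈ Finset.range p, cj p (t ^ j) ξ = 0) ∧ ξ (t ^ p) ≠ 0
  · obtain ⟨ξ, h1, h2, h3⟩ := hex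
    refine ⟨(ξ (t ^ p))⁻¹ • ξ, (Hm p U).smul_mem _ h1, ?_, ?_⟩
    · have h4 : ∀ j, cj p (t ^ j) ((ξ (t ^ p))⁻¹ • ξ) = (ξ (t ^ p))⁻¹ • cj p (t ^ j) ξ :=
        fun j => map_smul _ _ _
      rw [Finset.sum_congr rfl fun j _ => h4 j, ← Finset.smul_sum, h2, smul_zero]
    · exact inv_mul_cancel₀ h3
  · exfalso
    push Not at hex
    let N : (Q → ZMod p) →ₗ[ZMod p] (Q → ZMod p) := ∑ j ∈ Finset.range p, cj p (t ^ j)
    have hN : ∀ ξ, N ξ = ∑ j ∈ Finset.range p, cj p (t ^ j) ξ := fun ξ => LinearMap.sum_apply _ _ _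
    let e : (Q → ZMod p) →ₗ[ZMod p] ZMod p := LinearMap.proj (t ^ p)
    have h1 : (e.comp (Hm p U).subtype : Module.Dual (ZMod p) (Hm p U)) ∈
        (LinearMap.ker (N.comp (Hm p U).subtype)).dualAnnihilator := by
      rw [Submodule.mem_dualAnnihilator]
      intro ξ hξ
      rw [LinearMap.mem_ker, LinearMap.comp_apply, hN] at hξ
      exact hex ξ ξ.2 hξ
    rw [← LinearMap.range_dualMap_eq_dualAnnihilator_ker] at h1
    obtain ⟨g, hg⟩ := h1
    have hg' : ∀ ξ ∈ Hm p U, g (N ξ) = ξ (t ^ p) := fun ξ hξ => LinearMap.congr_fun hg ⟨ξ, hξ⟩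
    obtain ⟨w, hw, hw'⟩ := exists_eval_sub hQ hUc (-g)
    obtain ⟨P, hP, h2, h3⟩ := pow_mul_mem (p := p) hUn t hw p
    have htw : t * w ∉ U := by
      rw [hUχ, hχ, ht, (hUχ w).1 hw, add_zero]
      exact one_ne_zero
    obtain ⟨ξ, hξ, hξ'⟩ := hV _ htw
    apply hξ'
    have hNξ : N ξ ∈ Hm p U := by
      rw [hN]
      exact Submodule.sum_mem _ fun j _ => cj_mem hUn _ hξ
    rw [h2, hξ.2.1 _ htp _ hP, h3 ξ hξ]
    have h4 : ∑ j ∈ Finset.range p, cj p (t ^ j) ξ w = N ξ w := by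
      rw [hN, Finset.sum_apply]
    rw [h4, hw' _ hNξ, LinearMap.neg_apply, hg' ξ hξ, add_neg_cancel]

end Pool.Agent.FRS
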