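import Mathlib

/-!
# FRS [C1]: an operator identity in characteristic `p`
-/

set_option autoImplicit false

namespace Pool.Agent.FRS

variable {p : ℕ} [Fact p.Prime] {M : Type} [AddCommGroup M] [Module (ZMod p) M]

/-- If `y c - c y = 1` on the stable subspace `S` then `y (c ^ n z) = c ^ n (y z) + n c ^ (n - 1) z`
for `z ∈ S`. -/
theorem comm_pow (S : Submodule (ZMod p) M) (y c : M →ₗ[ZMod p] M) (hc : ∀ z ∈ S, c z ∈ S)
    (h : ∀ z ∈ S, y (c z) - c (y z) = z) (κ : M) (hκ : κ ∈ S) (hy : y κ = 0) (n : ℕ) :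
    (c ^ n) κ ∈ S ∧ y ((c ^ (n + 1)) κ) = ((n + 1 : ℕ) : ZMod p) • (c ^ n) κ := by
  induction n with
  | zero =>
    refine ⟨hκ, ?_⟩
    have h1 := h κ hκ
    rw [hy, map_zero, sub_zero] at h1
    rw [zero_add, pow_one, h1, pow_zero, Nat.cast_one, one_smul]
    rfl
  | succ n ih =>
    have e1 : (c ^ (n + 1)) κ = c ((c ^ n) κ) := by
      rw [pow_succ', Module.End.mul_apply]
    have e2 : (c ^ (n + 1 + 1)) κ = c ((c ^ (n + 1)) κ) := by
      rw [pow_succ' c (n + 1), Module.End.mul_apply]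
    have h0 : (c ^ (n + 1)) κ ∈ S := by
      rw [e1]
      exact hc _ ih.1
    refine ⟨h0, ?_⟩
    have h1 := h _ h0
    rw [ih.2, map_smul, ← e1, ← e2] at h1
    rw [sub_eq_iff_eq_add.1 h1]
    push_cast
    rw [add_smul ((n : ZMod p) + 1), one_smul, add_comm]

theorem pow_pow (S : Submodule (ZMod p) M) (y c : M →ₗ[ZMod p] M) (hc : ∀ z ∈ S, c z ∈ S)
    (h : ∀ z ∈ S, y (c z) - c (y z) = z) (κ : M) (hκ : κ ∈ S) (hy : y κ = 0) (n : ℕ) :
    (y ^ n) ((c ^ n) κ) = (n.factorial : ZMod p) • κ := by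
  induction n with
  | zero =>
    rw [pow_zero, pow_zero, Nat.factorial_zero, Nat.cast_one, one_smul]
    rfl
  | succ n ih =>
    rw [pow_succ y, Module.End.mul_apply, (comm_pow S y c hc h κ hκ hy n).2, map_smul, ih,
      smul_smul, Nat.factorial_succ]
    push_cast
    rfl

/-- If `T` and `T'` are inverse to each other, preserve `S`, and `T c T' - c = 1` on `S` then every
fixed vector of `T` in `S` is `(T - 1) ^ (p - 1) m` for some `m ∈ S`. -/
theorem fixed_norm (S : Submodule (ZMod p) M) (T T' c : M →ₗ[ZMod p] M)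
    (hTT' : ∀ z, T' (T z) = z)
    (hT' : ∀ z ∈ S, T' z ∈ S) (hc : ∀ z ∈ S, c z ∈ S)
    (h : ∀ z ∈ S, T (c (T' z)) - c z = z) (κ : M) (hκ : κ ∈ S) (hTκ : T κ = κ) :
    ∃ m ∈ S, ((T - 1) ^ (p - 1)) m = κ := by
  have hp : p.Prime := Fact.out
  have h1 : ∀ z ∈ S, (T - 1) ((c.comp T') z) - (c.comp T') ((T - 1) z) = z := by
    intro z hz
    have e1 : (T - 1) ((c.comp T') z) = T (c (T' z)) - c (T' z) := rfl
    have e2 : (c.comp T') ((T - 1) z) = c (T' (T z - z)) := rfl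
    have h2 := h z hz
    rw [e1, e2, map_sub, map_sub, hTT']
    rw [sub_eq_iff_eq_add] at h2
    rw [h2]
    abel
  have h2 : ∀ z ∈ S, (c.comp T') z ∈ S := fun z hz => hc _ (hT' z hz)
  have hyκ : (T - 1) κ = 0 := by
    have e1 : (T - 1) κ = T κ - κ := rfl
    rw [e1, hTκ, sub_self]
  have h3 := pow_pow S (T - 1) (c.comp T') h2 h1 κ hκ hyκ (p - 1)
  have h4 := (comm_pow S (T - 1) (c.comp T') h2 h1 κ hκ hyκ (p - 1)).1
  rw [ZMod.wilsons_lemma p] at h3
  refine ⟨-((c.comp T') ^ (p - 1)) κ, S.neg_mem h4, ?_⟩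
  rw [map_neg, h3, neg_smul, one_smul, neg_neg]

end Pool.Agent.FRS
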