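import Pool.Agent.FRS.A2
import Pool.Agent.ORD.S1

/-!
# FRS [D1]: functions whose coboundary is a cup product
-/

set_option autoImplicit false

namespace Pool.Agent.FRS

open Pool.Agent.MP_6fb7ad_al Pool.Agent.ORD

section

variable {F : Type} [Group F] [TopologicalSpace F]

/-- `f` is a continuous function on `E`, extended by zero, and
`f (a * b) = f a + f b - ξ a * ζ b` for `a, b ∈ E`. -/
def Cb (p : ℕ) (E : Subgroup F) (ξ ζ f : F → ZMod p) : Prop :=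
  (∀ x, x ∉ E → f x = 0) ∧ (∃ W : Subgroup F, ON W ∧ ∀ x, ∀ w ∈ W, f (x * w) = f x) ∧
    ∀ a ∈ E, ∀ b ∈ E, f (a * b) = f a + f b - ξ a * ζ b

end

variable {p : ℕ} [Fact p.Prime] {X F : Type} [Group F] [TopologicalSpace F]
  [IsTopologicalGroup F] {i : X → F}

theorem nc {R : Subgroup F} (hR : R.Normal) (a x : F) : a⁻¹ * x * a ∈ R ↔ x ∈ R := by
  constructor
  · intro h
    have := hR.conj_mem _ h a
    have e : a * (a⁻¹ * x * a) * a⁻¹ = x := by group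
    rwa [e] at this
  · intro h
    have := hR.conj_mem _ h a⁻¹
    rwa [inv_inv] at this

theorem Hm_one {V : Subgroup F} {h : F → ZMod p} (hh : h ∈ Hm p V) : h 1 = 0 := by
  have h1 := hh.2.1 1 V.one_mem 1 V.one_mem
  rw [one_mul] at h1
  exact left_eq_add.1 h1

theorem ind_cj {R : Subgroup F} (hR : R.Normal) (a : F) (f : F → ZMod p) :
    ind p R (cj p a f) = cj p a (ind p R f) := by
  funext x
  rw [cj_apply]
  by_cases hx : x ∈ R
  · rw [ind_of_mem hx, ind_of_mem ((nc hR a x).2 hx), cj_apply]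
  · rw [ind_of_notMem hx, ind_of_notMem fun h => hx ((nc hR a x).1 h)]

/-- the cup product of two characters of `E` is a coboundary -/
theorem exists_cb (hF : IsFreeProP p i) {E : Subgroup F} (hE : ON E) (χ : F → ZMod p)
    (hχ : IsChar p χ) (hEχ : ∀ x, x ∈ E ↔ χ x = 0) (t : F) (ht : χ t = 1) {ξ ζ : F → ZMod p}
    (hξ : ξ ∈ Hm p E) (hζ : ζ ∈ Hm p E) : ∃ f, Cb p E ξ ζ f := by
  obtain ⟨h1, h2, W, hW, h3⟩ := hξ
  obtain ⟨k1, k2, W', hW', k3⟩ := hζ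
  obtain ⟨f, hf1, hf2, hf3⟩ := E_H2 hF χ hχ hEχ t ht (fun a b => ξ a * ζ b)
    (fun a ha b hb c hc => by
      show ξ b * ζ c + ξ a * ζ (b * c) = ξ (a * b) * ζ c + ξ a * ζ b
      rw [h2 a ha b hb, k2 b hb c hc]
      ring)
    (W := W ⊓ W' ⊓ E) ((hW.inf hW').inf hE) inf_le_right
    (fun a ha b hb w hw w' hw' => by
      show ξ (a * w) * ζ (b * w') = ξ a * ζ b
      rw [h2 a ha w hw.2, k2 b hb w' hw'.2, h3 w hw.1.1, k3 w' hw'.1.2, add_zero, add_zero])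
  refine ⟨f, hf1, hf2, fun a ha b hb => ?_⟩
  have h4 : ξ a * ζ b = f a + f b - f (a * b) := hf3 a ha b hb
  rw [h4]
  ring

section

variable {E R : Subgroup F} {ξ ζ f : F → ZMod p}

theorem cb_one (hξ : ξ ∈ Hm p E) (h : Cb p E ξ ζ f) : f 1 = 0 := by
  have h1 := h.2.2 1 E.one_mem 1 E.one_mem
  rw [mul_one, Hm_one hξ, zero_mul, sub_zero] at h1
  exact left_eq_add.1 h1

theorem cb_R (hRE : R ≤ E) (hξ : ξ ∈ Hm p E) (hξR : ∀ r ∈ R, ξ r = 0) (h : Cb p E ξ ζ f) :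
    ind p R f ∈ Hm p R := by
  have h0 := cb_one hξ h
  obtain ⟨h1, ⟨W, hW, h2⟩, h3⟩ := h
  refine ⟨fun x hx => ind_of_notMem hx f, fun x hx y hy => ?_, W, hW, fun w hw => ?_⟩
  · rw [ind_of_mem hx, ind_of_mem hy, ind_of_mem (R.mul_mem hx hy), h3 x (hRE hx) y (hRE hy),
      hξR x hx, zero_mul, sub_zero]
  · by_cases hx : w ∈ R
    · have h4 := h2 1 w hw
      rw [one_mul, h0] at h4
      rw [ind_of_mem hx, h4]
    · rw [ind_of_notMem hx]

theorem cb_cj (hR : R.Normal) (hRE : R ≤ E) (hξR : ∀ r ∈ R, ξ r = 0)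
    (hζ : ∀ e ∈ E, ∀ r ∈ R, ζ (e⁻¹ * r * e) = ζ r) (h : Cb p E ξ ζ f) (e : F) (he : e ∈ E) :
    cj p e (ind p R f) = ind p R f + ξ e • ind p R ζ := by
  obtain ⟨h1, -, h3⟩ := h
  funext x
  rw [cj_apply, Pi.add_apply, Pi.smul_apply, smul_eq_mul]
  by_cases hx : x ∈ R
  · have hx' := (nc hR e x).2 hx
    rw [ind_of_mem hx, ind_of_mem hx, ind_of_mem hx']
    have e1 := h3 x (hRE hx) e he
    have e2 := h3 e he _ (hRE hx')
    have e3 : e * (e⁻¹ * x * e) = x * e := by group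
    rw [e3, e1, hξR x hx, hζ e he x hx] at e2
    linear_combination - e2
  · rw [ind_of_notMem hx, ind_of_notMem hx, ind_of_notMem fun h => hx ((nc hR e x).1 h), mul_zero,
      add_zero]

theorem Cb.sub {ζ' f' : F → ZMod p} (h : Cb p E ξ ζ f) (h' : Cb p E ξ ζ' f') :
    Cb p E ξ (ζ - ζ') (f - f') := by
  obtain ⟨h1, ⟨W, hW, h2⟩, h3⟩ := h
  obtain ⟨k1, ⟨W', hW', k2⟩, k3⟩ := h'
  refine ⟨fun x hx => ?_, ⟨W ⊓ W', hW.inf hW', fun x w hw => ?_⟩, fun a ha b hb => ?_⟩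
  · rw [Pi.sub_apply, h1 x hx, k1 x hx, sub_zero]
  · rw [Pi.sub_apply, Pi.sub_apply, h2 x w hw.1, k2 x w hw.2]
  · rw [Pi.sub_apply, Pi.sub_apply, Pi.sub_apply, Pi.sub_apply, h3 a ha b hb, k3 a ha b hb]
    ring

theorem Cb.add {ζ' f' : F → ZMod p} (h : Cb p E ξ ζ f) (h' : Cb p E ξ ζ' f') :
    Cb p E ξ (ζ + ζ') (f + f') := by
  obtain ⟨h1, ⟨W, hW, h2⟩, h3⟩ := h
  obtain ⟨k1, ⟨W', hW', k2⟩, k3⟩ := h'
  refine ⟨fun x hx => ?_, ⟨W ⊓ W', hW.inf hW', fun x w hw => ?_⟩, fun a ha b hb => ?_⟩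
  · rw [Pi.add_apply, h1 x hx, k1 x hx, add_zero]
  · rw [Pi.add_apply, Pi.add_apply, h2 x w hw.1, k2 x w hw.2]
  · rw [Pi.add_apply, Pi.add_apply, Pi.add_apply, Pi.add_apply, h3 a ha b hb, k3 a ha b hb]
    ring

theorem Cb.smul (c : ZMod p) (h : Cb p E ξ ζ f) : Cb p E ξ (c • ζ) (c • f) := by
  obtain ⟨h1, ⟨W, hW, h2⟩, h3⟩ := h
  refine ⟨fun x hx => ?_, ⟨W, hW, fun x w hw => ?_⟩, fun a ha b hb => ?_⟩
  · rw [Pi.smul_apply, h1 x hx, smul_zero]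
  · rw [Pi.smul_apply, Pi.smul_apply, h2 x w hw]
  · simp only [Pi.smul_apply, smul_eq_mul, h3 a ha b hb]
    ring

theorem Cb.zero : Cb p E ξ 0 0 := by
  refine ⟨fun _ _ => rfl, ⟨⊤, ON.top, fun _ _ _ => rfl⟩, fun a _ b _ => ?_⟩
  show (0 : ZMod p) = 0 + 0 - ξ a * 0
  ring

end

/-- The sum of the conjugates of the functions `G j` with coboundary `ξ ∪ (cj (t ^ j)⁻¹ ζ)` is a
homomorphism if the sum of the conjugates of `ξ` is zero. -/
theorem sum_cb {E : Subgroup F} (hE : ON E) (t : F) {ξ ζ : F → ZMod p} (hξ : ξ ∈ Hm p E)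
    (hN : ∑ j ∈ Finset.range p, cj p (t ^ j) ξ = 0) (G : ℕ → F → ZMod p)
    (hG : ∀ j, Cb p E ξ (cj p (t ^ j)⁻¹ ζ) (G j)) :
    ∑ j ∈ Finset.range p, cj p (t ^ j) (G j) ∈ Hm p E := by
  classical
  have hch : ∀ n : ℕ, ∃ W : Subgroup F, ON W ∧ ∀ j < n, ∀ w ∈ W, G j w = 0 := by
    intro n
    induction n with
    | zero => exact ⟨⊤, ON.top, fun j hj => absurd hj (Nat.not_lt_zero j)⟩
    | succ n ih =>
      obtain ⟨W, hW, h1⟩ := ih
      obtain ⟨W', hW', h2⟩ := (hG n).2.1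
      refine ⟨W ⊓ W', hW.inf hW', fun j hj w hw => ?_⟩
      rcases Nat.lt_succ_iff_lt_or_eq.1 hj with h3 | h3
      · exact h1 j h3 w hw.1
      · rw [h3]
        have h4 := h2 1 w hw.2
        rw [one_mul, cb_one hξ (hG n)] at h4
        exact h4
  obtain ⟨W, hW, hW'⟩ := hch p
  refine ⟨fun x hx => ?_, fun a ha b hb => ?_, W, hW, fun w hw => ?_⟩
  · rw [Finset.sum_apply]
    refine Finset.sum_eq_zero fun j _ => ?_
    rw [cj_apply]
    exact (hG j).1 _ fun h => hx ((nc hE.1 _ _).1 h)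
  · rw [Finset.sum_apply, Finset.sum_apply, Finset.sum_apply, ← Finset.sum_add_distrib]
    have e1 : ∀ j, cj p (t ^ j) (G j) (a * b) =
        (cj p (t ^ j) (G j) a + cj p (t ^ j) (G j) b) - cj p (t ^ j) ξ a * ζ b := by
      intro j
      have e2 : (t ^ j)⁻¹ * (a * b) * t ^ j = ((t ^ j)⁻¹ * a * t ^ j) * ((t ^ j)⁻¹ * b * t ^ j) := by
        group
      rw [cj_apply, cj_apply, cj_apply, cj_apply, e2,
        (hG j).2.2 _ ((nc hE.1 _ _).2 ha) _ ((nc hE.1 _ _).2 hb), cj_apply]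
      congr 3
      group
    rw [Finset.sum_congr rfl fun j _ => e1 j, Finset.sum_sub_distrib, ← Finset.sum_mul]
    have e3 : ∑ j ∈ Finset.range p, cj p (t ^ j) ξ a = 0 := by
      have := congrFun hN a
      rwa [Finset.sum_apply] at this
    rw [e3, zero_mul, sub_zero]
  · rw [Finset.sum_apply]
    refine Finset.sum_eq_zero fun j hj => ?_
    rw [cj_apply]
    exact hW' j (Finset.mem_range.1 hj) _ (hW.conj hw _)

/-- The second step: a function with coboundary `ξ ∪ f' - (ξ ^ 2 / 2) ∪ η`. -/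
theorem exists_second (hF : IsFreeProP p i) (hp2 : p ≠ 2) {E R : Subgroup F} (hE : ON E)
    (hR : R.Normal) (hRE : R ≤ E)
    (χ : F → ZMod p) (hχ : IsChar p χ) (hEχ : ∀ x, x ∈ E ↔ χ x = 0) (t : F) (ht : χ t = 1)
    {ξ η f' : F → ZMod p} (hξ : ξ ∈ Hm p E) (hξR : ∀ r ∈ R, ξ r = 0) (hη : η ∈ Hm p E)
    (hηR : ∀ r ∈ R, η r = 0) (hf' : Cb p E ξ η f') :
    ∃ θ ∈ Hm p R, ∀ e ∈ E, cj p e θ = θ + ξ e • ind p R f' := by
  have hp : p.Prime := Fact.out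
  have h2ne : (2 : ZMod p) ≠ 0 := by
    intro h
    have h1 : ((2 : ℕ) : ZMod p) = 0 := by exact_mod_cast h
    rw [ZMod.natCast_eq_zero_iff] at h1
    exact hp2 ((Nat.prime_dvd_prime_iff_eq hp Nat.prime_two).1 h1)
  have hξ1 := Hm_one hξ
  have hf1 := cb_one hξ hf'
  obtain ⟨h1, h2, W, hW, h3⟩ := hξ
  obtain ⟨k1, k2, W', hW', k3⟩ := hη
  obtain ⟨l1, ⟨W'', hW'', l2⟩, l3⟩ := hf'
  obtain ⟨c, hc⟩ : ∃ c : ZMod p, 2 * c = 1 := ⟨2⁻¹, mul_inv_cancel₀ h2ne⟩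
  obtain ⟨g, hg1, ⟨W₀, hW₀, hg2⟩, hg3⟩ := E_H2 hF χ hχ hEχ t ht
    (fun a b => ξ a * f' b - c * ξ a ^ 2 * η b)
    (fun a ha b hb d hd => by
      show ξ b * f' d - c * ξ b ^ 2 * η d + (ξ a * f' (b * d) - c * ξ a ^ 2 * η (b * d)) =
        ξ (a * b) * f' d - c * ξ (a * b) ^ 2 * η d + (ξ a * f' b - c * ξ a ^ 2 * η b)
      rw [h2 a ha b hb, k2 b hb d hd, l3 b hb d hd]
      linear_combination (ξ a * ξ b * η d) * hc)
    (W := W ⊓ W' ⊓ W'' ⊓ E) (((hW.inf hW').inf hW'').inf hE) inf_le_right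
    (fun a ha b hb w hw w' hw' => by
      show ξ (a * w) * f' (b * w') - c * ξ (a * w) ^ 2 * η (b * w') =
        ξ a * f' b - c * ξ a ^ 2 * η b
      rw [h2 a ha w hw.2, k2 b hb w' hw'.2, h3 w hw.1.1.1, k3 w' hw'.1.1.2, l2 b w' hw'.1.2,
        add_zero, add_zero])
  have hg4 : ∀ a ∈ E, ∀ b ∈ E, g (a * b) = g a + g b - (ξ a * f' b - c * ξ a ^ 2 * η b) := by
    intro a ha b hb
    have e1 : ξ a * f' b - c * ξ a ^ 2 * η b = g a + g b - g (a * b) := hg3 a ha b hb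
    rw [e1]
    ring
  have hg5 : g 1 = 0 := by
    have e1 := hg4 1 E.one_mem 1 E.one_mem
    rw [mul_one, hξ1] at e1
    have e2 : g 1 = g 1 + g 1 := by
      linear_combination e1
    exact left_eq_add.1 e2
  have hf2 : ∀ e ∈ E, ∀ r ∈ R, f' (e⁻¹ * r * e) = f' r := by
    intro e he r hr
    have hr' := (nc hR e r).2 hr
    have e1 := l3 r (hRE hr) e he
    have e2 := l3 e he _ (hRE hr')
    have e3 : e * (e⁻¹ * r * e) = r * e := by group
    rw [e3, e1, hξR r hr, hηR _ hr'] at e2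
    linear_combination - e2
  refine ⟨ind p R g, ⟨fun x hx => ind_of_notMem hx g, fun x hx y hy => ?_, W₀, hW₀,
    fun w hw => ?_⟩, fun e he => ?_⟩
  · rw [ind_of_mem hx, ind_of_mem hy, ind_of_mem (R.mul_mem hx hy), hg4 x (hRE hx) y (hRE hy),
      hξR x hx]
    ring
  · by_cases hx : w ∈ R
    · have h4 := hg2 1 w hw
      rw [one_mul, hg5] at h4
      rw [ind_of_mem hx, h4]
    · rw [ind_of_notMem hx]
  · funext x
    rw [cj_apply, Pi.add_apply, Pi.smul_apply, smul_eq_mul]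
    by_cases hx : x ∈ R
    · have hx' := (nc hR e x).2 hx
      rw [ind_of_mem hx, ind_of_mem hx, ind_of_mem hx']
      have e1 := hg4 x (hRE hx) e he
      have e2 := hg4 e he _ (hRE hx')
      have e3 : e * (e⁻¹ * x * e) = x * e := by group
      rw [e3, e1, hξR x hx, hf2 e he x hx, hηR _ hx'] at e2
      linear_combination - e2
    · rw [ind_of_notMem hx, ind_of_notMem hx, ind_of_notMem fun h => hx ((nc hR e x).1 h),
        mul_zero, add_zero]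

end Pool.Agent.FRS
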