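import Pool.Agent.FRS.D1
import Pool.Agent.FRS.C1
import Pool.Agent.ORD.H1

/-!
# FRS [E1]: the operators
-/

set_option autoImplicit false

namespace Pool.Agent.FRS

open Pool.Agent.MP_6fb7ad_al Pool.Agent.ORD

variable {p : ℕ} [Fact p.Prime] {F : Type} [Group F] [TopologicalSpace F] [IsTopologicalGroup F]

/-- A linear map with values in a relation. -/
theorem exists_lin {M : Type} [AddCommGroup M] [Module (ZMod p) M] (S : Submodule (ZMod p) M)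
    (G : Submodule (ZMod p) (M × M)) (hG : ∀ z ∈ S, ∃ θ, (z, θ) ∈ G) :
    ∃ Ψ : M →ₗ[ZMod p] M, ∀ z ∈ S, (z, Ψ z) ∈ G := by
  let G' : Submodule (ZMod p) (M × M) := G ⊓ S.comap (LinearMap.fst (ZMod p) M M)
  have hG' : ∀ x : G', (x : M × M).1 ∈ S := fun x => x.2.2
  let f : G' →ₗ[ZMod p] S :=
    { toFun := fun x => ⟨(x : M × M).1, hG' x⟩
      map_add' := fun _ _ => rfl
      map_smul' := fun _ _ => rfl }
  have hf : LinearMap.range f = ⊤ := by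
    rw [LinearMap.range_eq_top]
    rintro ⟨z, hz⟩
    obtain ⟨θ, hθ⟩ := hG z hz
    exact ⟨⟨(z, θ), hθ, hz⟩, rfl⟩
  obtain ⟨g, hg⟩ := f.exists_rightInverse_of_surjective hf
  obtain ⟨Ψ, hΨ⟩ := LinearMap.exists_extend
    ((LinearMap.snd (ZMod p) M M).comp (G'.subtype.comp g))
  refine ⟨Ψ, fun z hz => ?_⟩
  have h1 : Ψ z = (g ⟨z, hz⟩ : M × M).2 := LinearMap.congr_fun hΨ ⟨z, hz⟩
  have h2 : (g ⟨z, hz⟩ : M × M).1 = z := congrArg Subtype.val (LinearMap.congr_fun hg ⟨z, hz⟩)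
  have h3 : ((g ⟨z, hz⟩ : M × M).1, (g ⟨z, hz⟩ : M × M).2) ∈ G := (g ⟨z, hz⟩).2.1
  rw [h2] at h3
  rw [h1]
  exact h3

omit [TopologicalSpace F] [IsTopologicalGroup F] [Fact p.Prime] in
theorem cj_cj (a b : F) (z : F → ZMod p) : cj p a (cj p b z) = cj p (a * b) z := by
  rw [map_mul]
  rfl

/-- The sum of the conjugates of an operator. -/
noncomputable def Sg (t : F) (Ψ : (F → ZMod p) →ₗ[ZMod p] (F → ZMod p)) :
    (F → ZMod p) →ₗ[ZMod p] (F → ZMod p) :=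
  ∑ j ∈ Finset.range p, (cj p (t ^ j)).comp (Ψ.comp (cj p (t ^ j)⁻¹))

omit [TopologicalSpace F] [IsTopologicalGroup F] in
theorem Sg_apply (t : F) (Ψ : (F → ZMod p) →ₗ[ZMod p] (F → ZMod p)) (z : F → ZMod p) :
    Sg t Ψ z = ∑ j ∈ Finset.range p, cj p (t ^ j) (Ψ (cj p (t ^ j)⁻¹ z)) := by
  rw [Sg, LinearMap.sum_apply]
  rfl

omit [TopologicalSpace F] [IsTopologicalGroup F] in
/-- `T (Sg (T⁻¹ z)) - Sg z = T ^ p Ψ (T⁻¹ ^ p z) - Ψ z`. -/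
theorem Sg_comm (t : F) (Ψ : (F → ZMod p) →ₗ[ZMod p] (F → ZMod p)) (z : F → ZMod p) :
    cj p t (Sg t Ψ (cj p t⁻¹ z)) - Sg t Ψ z = cj p (t ^ p) (Ψ (cj p (t ^ p)⁻¹ z)) - Ψ z := by
  have e1 : cj p t (Sg t Ψ (cj p t⁻¹ z)) =
      ∑ j ∈ Finset.range p, cj p (t ^ (j + 1)) (Ψ (cj p (t ^ (j + 1))⁻¹ z)) := by
    rw [Sg_apply, map_sum]
    refine Finset.sum_congr rfl fun j _ => ?_
    rw [cj_cj, cj_cj, ← mul_inv_rev, ← pow_succ']
  have e2 : ∑ j ∈ Finset.range p, cj p (t ^ (j + 1)) (Ψ (cj p (t ^ (j + 1))⁻¹ z)) + Ψ z =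
      ∑ j ∈ Finset.range p, cj p (t ^ j) (Ψ (cj p (t ^ j)⁻¹ z)) +
        cj p (t ^ p) (Ψ (cj p (t ^ p)⁻¹ z)) := by
    rw [← Finset.sum_range_succ, Finset.sum_range_succ']
    rw [pow_zero, inv_one, map_one, Module.End.one_apply, Module.End.one_apply]
  rw [e1, Sg_apply, sub_eq_sub_iff_add_eq_add, e2, add_comm]

/-- If `(e - 1) Ψ z = ξ e z` for `e ∈ E` then `Sg` preserves the `E`-fixed vectors. -/
theorem Sg_fix {E R : Subgroup F} (hE : ON E) (hR : R.Normal) (t : F)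
    {ξ : F → ZMod p} (hN : ∑ j ∈ Finset.range p, cj p (t ^ j) ξ = 0)
    (S : Submodule (ZMod p) (F → ZMod p)) (hS : ∀ z ∈ S, ∀ a, cj p a z ∈ S)
    (Ψ : (F → ZMod p) →ₗ[ZMod p] (F → ZMod p)) (hΨ1 : ∀ z ∈ S, Ψ z ∈ Hm p R)
    (hΨ2 : ∀ z ∈ S, ∀ e ∈ E, cj p e (Ψ z) = Ψ z + ξ e • z) (z : F → ZMod p) (hz : z ∈ S) :
    Sg t Ψ z ∈ Hm p R ∧ ∀ e ∈ E, cj p e (Sg t Ψ z) = Sg t Ψ z := by
  refine ⟨?_, fun e he => ?_⟩
  · rw [Sg_apply]
    exact Submodule.sum_mem _ fun j _ => cj_mem_Hm hR (hΨ1 _ (hS _ hz _)) _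
  · rw [Sg_apply, map_sum]
    have e1 : ∀ j, cj p e (cj p (t ^ j) (Ψ (cj p (t ^ j)⁻¹ z))) =
        cj p (t ^ j) (Ψ (cj p (t ^ j)⁻¹ z)) + cj p (t ^ j) ξ e • z := by
      intro j
      have e2 : e * t ^ j = t ^ j * ((t ^ j)⁻¹ * e * t ^ j) := by group
      rw [← Module.End.mul_apply, ← map_mul, e2, map_mul, Module.End.mul_apply,
        hΨ2 _ (hS _ hz _) _ ((nc hE.1 _ _).2 he), map_add, map_smul, cj_apply]
      congr 2
      rw [← Module.End.mul_apply, ← map_mul, mul_inv_cancel, map_one, Module.End.one_apply]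
    rw [Finset.sum_congr rfl fun j _ => e1 j, Finset.sum_add_distrib, ← Finset.sum_smul]
    have e3 : ∑ j ∈ Finset.range p, cj p (t ^ j) ξ e = 0 := by
      have := congrFun hN e
      rwa [Finset.sum_apply] at this
    rw [e3, zero_smul, add_zero]

/-- The fixed vectors in `S` are norms. -/
theorem fixed_of {E : Subgroup F} (t : F) (htp : t ^ p ∈ E)
    {ξ : F → ZMod p} (hξt : ξ (t ^ p) = 1)
    (S : Submodule (ZMod p) (F → ZMod p)) (hS : ∀ z ∈ S, ∀ a, cj p a z ∈ S)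
    (hSE : ∀ z ∈ S, ∀ e ∈ E, cj p e z = z)
    (Ψ : (F → ZMod p) →ₗ[ZMod p] (F → ZMod p))
    (hΨ2 : ∀ z ∈ S, ∀ e ∈ E, cj p e (Ψ z) = Ψ z + ξ e • z)
    (hc : ∀ z ∈ S, Sg t Ψ z ∈ S) (κ : F → ZMod p) (hκ : κ ∈ S) (hTκ : cj p t κ = κ) :
    ∃ m ∈ S, ((cj p t - 1) ^ (p - 1)) m = κ := by
  refine fixed_norm S (cj p t) (cj p t⁻¹) (Sg t Ψ) ?_ (fun z hz => hS z hz _) hc ?_ κ hκ hTκ
  · intro z
    rw [← Module.End.mul_apply, ← map_mul, inv_mul_cancel, map_one, Module.End.one_apply]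
  · intro z hz
    rw [Sg_comm, hSE z hz _ (E.inv_mem htp), hΨ2 z hz _ htp, hξt, one_smul, add_sub_cancel_left]

end Pool.Agent.FRS
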