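import Pool.Agent.FRS.E1

/-!
# FRS [E2]: the space of invariant homomorphisms on the relators
-/

set_option autoImplicit false

namespace Pool.Agent.FRS

open Pool.Agent.MP_6fb7ad_al Pool.Agent.ORD

variable {p : ℕ} [Fact p.Prime] {X F : Type} [Group F] [TopologicalSpace F]
  [IsTopologicalGroup F] {i : X → F}

/-- the case that all cup products with `ξ` vanish on `E / R` -/
theorem dep_A (hF : IsFreeProP p i) {E R : Subgroup F} (hE : ON E) (hR : R.Normal) (hRE : R ≤ E)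
    (χ : F → ZMod p) (hχ : IsChar p χ) (hEχ : ∀ x, x ∈ E ↔ χ x = 0) (t : F) (ht : χ t = 1)
    (htp : t ^ p ∈ E) (hmin : ∀ g : F → ZMod p, IsChar p g → ∀ r ∈ R, g r = 0)
    {ξ : F → ZMod p} (hξ : ξ ∈ Hm p E) (hξR : ∀ r ∈ R, ξ r = 0)
    (hN : ∑ j ∈ Finset.range p, cj p (t ^ j) ξ = 0) (hξt : ξ (t ^ p) = 1)
    (hA : ∀ η ∈ Hm p E, (∀ r ∈ R, η r = 0) → ∀ f, Cb p E ξ η f → ind p R f ∈ Rs p E R)
    (κ : F → ZMod p) (hκ : κ ∈ Rs p E R) (hTκ : cj p t κ = κ) : κ = 0 := by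
  let G : Submodule (ZMod p) ((F → ZMod p) × (F → ZMod p)) :=
    { carrier := {x | ∃ ζ ∈ Hm p E, ∃ f, Cb p E ξ ζ f ∧ ind p R ζ = x.1 ∧ ind p R f = x.2}
      add_mem' := by
        rintro x y ⟨ζ, h1, f, h2, h3, h4⟩ ⟨ζ', h1', f', h2', h3', h4'⟩
        refine ⟨ζ + ζ', Submodule.add_mem _ h1 h1', f + f', h2.add h2', ?_, ?_⟩
        · rw [map_add, h3, h3']
          rfl
        · rw [map_add, h4, h4']
          rfl
      zero_mem' := ⟨0, Submodule.zero_mem _, 0, Cb.zero, map_zero _, map_zero _⟩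
      smul_mem' := by
        rintro c x ⟨ζ, h1, f, h2, h3, h4⟩
        refine ⟨c • ζ, Submodule.smul_mem _ c h1, c • f, h2.smul c, ?_, ?_⟩
        · rw [map_smul, h3]
          rfl
        · rw [map_smul, h4]
          rfl }
  obtain ⟨Ψ, hΨ⟩ := exists_lin (Rs p E R) G (by
    rintro z ⟨ζ, hζ, rfl⟩
    obtain ⟨f, hf⟩ := exists_cb hF hE χ hχ hEχ t ht hξ hζ
    exact ⟨ind p R f, ζ, hζ, f, hf, rfl, rfl⟩)
  have hΨ2 : ∀ z ∈ Rs p E R, ∀ e ∈ E, cj p e (Ψ z) = Ψ z + ξ e • z := by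
    intro z hz e he
    obtain ⟨ζ, h1, f, h2, h3, h4⟩ := hΨ z hz
    replace h3 : ind p R ζ = z := h3
    replace h4 : ind p R f = Ψ z := h4
    rw [← h4, ← h3]
    exact cb_cj hR hRE hξR (fun e he r hr => Hm_conj h1 he (hRE hr)) h2 e he
  have hS : ∀ z ∈ Rs p E R, ∀ a, cj p a z ∈ Rs p E R := fun z hz a => cj_mem_Rs hE.1 hR hz a
  have hc : ∀ z ∈ Rs p E R, Sg t Ψ z ∈ Rs p E R := by
    intro z hz
    obtain ⟨ζ, hζ, hζz⟩ := hz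
    have hz : z ∈ Rs p E R := ⟨ζ, hζ, hζz⟩
    have hG : ∀ j : ℕ, ∃ g, Cb p E ξ (cj p (t ^ j)⁻¹ ζ) g := fun j =>
      exists_cb hF hE χ hχ hEχ t ht hξ (cj_mem_Hm hE.1 hζ _)
    choose g hg using hG
    have h1 := sum_cb hE t hξ hN g hg
    have hD : ∀ j : ℕ, Ψ (cj p (t ^ j)⁻¹ z) - ind p R (g j) ∈ Rs p E R := by
      intro j
      obtain ⟨ζ', k1, f, k2, k3, k4⟩ := hΨ _ (hS z hz (t ^ j)⁻¹)
      replace k3 : ind p R ζ' = cj p (t ^ j)⁻¹ z := k3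
      replace k4 : ind p R f = Ψ (cj p (t ^ j)⁻¹ z) := k4
      rw [← k4, ← map_sub]
      refine hA (ζ' - cj p (t ^ j)⁻¹ ζ) (Submodule.sub_mem _ k1 (cj_mem_Hm hE.1 hζ _)) ?_ _
        (k2.sub (hg j))
      intro r hr
      have k5 : ind p R ζ' = ind p R (cj p (t ^ j)⁻¹ ζ) := by
        rw [k3, ind_cj hR]
        exact congrArg _ hζz.symm
      have k6 := congrFun k5 r
      rw [ind_of_mem hr, ind_of_mem hr] at k6
      rw [Pi.sub_apply, k6, sub_self]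
    rw [Sg_apply]
    have h2 : ∀ j, cj p (t ^ j) (Ψ (cj p (t ^ j)⁻¹ z)) =
        cj p (t ^ j) (Ψ (cj p (t ^ j)⁻¹ z) - ind p R (g j)) + ind p R (cj p (t ^ j) (g j)) := by
      intro j
      rw [map_sub, ind_cj hR, sub_add_cancel]
    rw [Finset.sum_congr rfl fun j _ => h2 j, Finset.sum_add_distrib, ← map_sum]
    exact Submodule.add_mem _ (Submodule.sum_mem _ fun j _ => hS _ (hD j) _) ⟨_, h1, rfl⟩
  obtain ⟨m, hm, hm'⟩ := fixed_of t htp hξt (Rs p E R) hS (fun z hz e he => Rs_fx hRE hR hz he) Ψ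
    hΨ2 hc κ hκ hTκ
  obtain ⟨h, hh, hhm⟩ := hm
  rw [← hm', ← hhm]
  exact transfer hE χ hχ hEχ t ht hR hRE hmin hh

/-- The invariant homomorphisms `R → ZMod p` form a space of dimension at most one. -/
theorem dep (hF : IsFreeProP p i) (hp2 : p ≠ 2) {E R : Subgroup F} (hE : ON E) (hR : R.Normal)
    (hRE : R ≤ E)
    (χ : F → ZMod p) (hχ : IsChar p χ) (hEχ : ∀ x, x ∈ E ↔ χ x = 0) (t : F) (ht : χ t = 1)
    (htp : t ^ p ∈ E) (hmin : ∀ g : F → ZMod p, IsChar p g → ∀ r ∈ R, g r = 0)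
    {ξ : F → ZMod p} (hξ : ξ ∈ Hm p E) (hξR : ∀ r ∈ R, ξ r = 0)
    (hN : ∑ j ∈ Finset.range p, cj p (t ^ j) ξ = 0) (hξt : ξ (t ^ p) = 1)
    (hdim : ∀ θ₁ ∈ Hm p R, ∀ θ₂ ∈ Hm p R, (∀ a ∈ E, cj p a θ₁ = θ₁) →
      (∀ a ∈ E, cj p a θ₂ = θ₂) → ∃ c₁ c₂ : ZMod p, (c₁ ≠ 0 ∨ c₂ ≠ 0) ∧
      ∃ h ∈ Hm p E, c₁ • θ₁ + c₂ • θ₂ = ind p R h)
    (θ₁ : F → ZMod p) (h₁ : θ₁ ∈ Hm p R) (θ₂ : F → ZMod p) (h₂ : θ₂ ∈ Hm p R)
    (k₁ : ∀ a, cj p a θ₁ = θ₁) (k₂ : ∀ a, cj p a θ₂ = θ₂) :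
    ∃ c₁ c₂ : ZMod p, (c₁ ≠ 0 ∨ c₂ ≠ 0) ∧ c₁ • θ₁ + c₂ • θ₂ = 0 := by
  by_cases hA : ∀ η ∈ Hm p E, (∀ r ∈ R, η r = 0) → ∀ f, Cb p E ξ η f → ind p R f ∈ Rs p E R
  · obtain ⟨c₁, c₂, hc, h, h3, h4⟩ := hdim θ₁ h₁ θ₂ h₂ (fun a _ => k₁ a) (fun a _ => k₂ a)
    refine ⟨c₁, c₂, hc, ?_⟩
    refine dep_A hF hE hR hRE χ hχ hEχ t ht htp hmin hξ hξR hN hξt hA _ ⟨h, h3, h4.symm⟩ ?_
    rw [map_add, map_smul, map_smul, k₁, k₂]
  · push Not at hA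
    obtain ⟨η, hη, hηR, f', hf', hne⟩ := hA
    have hθR : ind p R f' ∈ Hm p R := cb_R hRE hξ hξR hf'
    have hθE : ∀ e ∈ E, cj p e (ind p R f') = ind p R f' := by
      intro e he
      rw [cb_cj hR hRE hξR (fun e he r hr => Hm_conj hη he (hRE hr)) hf' e he]
      have h3 : ind p R η = 0 := by
        funext x
        by_cases hx : x ∈ R
        · rw [ind_of_mem hx, hηR x hx]
          rfl
        · rw [ind_of_notMem hx]
          rfl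
      rw [h3, smul_zero, add_zero]
    let S : Submodule (ZMod p) (F → ZMod p) := Hm p R ⊓ fx (cj p) E
    have hSm : ∀ z, z ∈ S ↔ z ∈ Hm p R ∧ ∀ e ∈ E, cj p e z = z := fun z => Iff.rfl
    have hS : ∀ z ∈ S, ∀ a, cj p a z ∈ S := by
      intro z hz a
      rw [hSm] at hz ⊢
      refine ⟨cj_mem_Hm hR hz.1 a, fun e he => ?_⟩
      have e1 : e * a = a * (a⁻¹ * e * a) := by group
      rw [cj_cj, e1, ← cj_cj, hz.2 _ ((nc hE.1 a e).2 he)]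
    let G : Submodule (ZMod p) ((F → ZMod p) × (F → ZMod p)) :=
      { carrier := {x | x.2 ∈ Hm p R ∧ ∀ e ∈ E, cj p e x.2 = x.2 + ξ e • x.1}
        add_mem' := by
          rintro x y ⟨h3, h4⟩ ⟨h3', h4'⟩
          refine ⟨Submodule.add_mem _ h3 h3', fun e he => ?_⟩
          show cj p e (x.2 + y.2) = x.2 + y.2 + ξ e • (x.1 + y.1)
          rw [map_add, h4 e he, h4' e he, smul_add]
          abel
        zero_mem' := by
          refine ⟨Submodule.zero_mem _, fun e _ => ?_⟩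
          show cj p e 0 = 0 + ξ e • 0
          rw [map_zero, smul_zero, add_zero]
        smul_mem' := by
          rintro c x ⟨h3, h4⟩
          refine ⟨Submodule.smul_mem _ c h3, fun e he => ?_⟩
          show cj p e (c • x.2) = c • x.2 + ξ e • (c • x.1)
          rw [map_smul, h4 e he, smul_add, smul_comm] }
    have hGm : ∀ z θ, (z, θ) ∈ G ↔ θ ∈ Hm p R ∧ ∀ e ∈ E, cj p e θ = θ + ξ e • z :=
      fun z θ => Iff.rfl
    obtain ⟨Θ, hΘ1, hΘ2⟩ := exists_second hF hp2 hE hR hRE χ hχ hEχ t ht hξ hξR hη hηR hf'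
    have hGΘ : (ind p R f', Θ) ∈ G := ⟨hΘ1, hΘ2⟩
    obtain ⟨Ψ, hΨ⟩ := exists_lin S G (by
      intro z hz
      rw [hSm] at hz
      obtain ⟨c₁, c₂, hc, h, h3, h4⟩ := hdim z hz.1 _ hθR hz.2 hθE
      have hc1 : c₁ ≠ 0 := by
        rintro rfl
        have hc2 : c₂ ≠ 0 := hc.resolve_left fun h => h rfl
        apply hne
        rw [zero_smul, zero_add] at h4
        have h6 : ind p R f' = c₂⁻¹ • ind p R h := by
          rw [← h4, smul_smul, inv_mul_cancel₀ hc2, one_smul]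
        rw [h6]
        exact Submodule.smul_mem _ _ ⟨h, h3, rfl⟩
      obtain ⟨f, hf⟩ := exists_cb hF hE χ hχ hEχ t ht hξ h3
      have hGf : (ind p R h, ind p R f) ∈ G := by
        rw [hGm]
        exact ⟨cb_R hRE hξ hξR hf,
          fun e he => cb_cj hR hRE hξR (fun e he r hr => Hm_conj h3 he (hRE hr)) hf e he⟩
      refine ⟨c₁⁻¹ • ind p R f - (c₁⁻¹ * c₂) • Θ, ?_⟩
      have h5 := G.sub_mem (G.smul_mem c₁⁻¹ hGf) (G.smul_mem (c₁⁻¹ * c₂) hGΘ)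
      have h6 : z = c₁⁻¹ • ind p R h - (c₁⁻¹ * c₂) • ind p R f' := by
        rw [← h4, smul_add, smul_smul, smul_smul, inv_mul_cancel₀ hc1, one_smul,
          add_sub_cancel_right]
      rw [h6]
      exact h5)
    have hΨ2 : ∀ z ∈ S, ∀ e ∈ E, cj p e (Ψ z) = Ψ z + ξ e • z := fun z hz => (hΨ z hz).2
    have hc : ∀ z ∈ S, Sg t Ψ z ∈ S := fun z hz =>
      (hSm _).2 (Sg_fix hE hR t hN S hS Ψ (fun z hz => (hΨ z hz).1) hΨ2 z hz)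
    have hSE : ∀ z ∈ S, ∀ e ∈ E, cj p e z = z := fun z hz => ((hSm z).1 hz).2
    obtain ⟨m₁, hm₁, hm₁'⟩ := fixed_of t htp hξt S hS hSE Ψ hΨ2 hc θ₁
      ((hSm _).2 ⟨h₁, fun a _ => k₁ a⟩) (k₁ t)
    obtain ⟨m₂, hm₂, hm₂'⟩ := fixed_of t htp hξt S hS hSE Ψ hΨ2 hc θ₂
      ((hSm _).2 ⟨h₂, fun a _ => k₂ a⟩) (k₂ t)
    obtain ⟨c₁, c₂, hc', h, h3, h4⟩ := hdim m₁ ((hSm _).1 hm₁).1 m₂ ((hSm _).1 hm₂).1
      ((hSm _).1 hm₁).2 ((hSm _).1 hm₂).2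
    refine ⟨c₁, c₂, hc', ?_⟩
    rw [← hm₁', ← hm₂', ← map_smul, ← map_smul, ← map_add, h4]
    exact transfer hE χ hχ hEχ t ht hR hRE hmin h3

end Pool.Agent.FRS
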