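import Pool.Agent.FRS.E2

/-!
# FRS [E3]: the space of invariant homomorphisms on the relators, for `p = 2` and in general
-/

set_option autoImplicit false

namespace Pool.Agent.FRS

open Pool.Agent.MP_6fb7ad_al Pool.Agent.ORD

variable {p : ℕ} [Fact p.Prime] {X F : Type} [Group F] [TopologicalSpace F]
  [IsTopologicalGroup F] {i : X → F}

/-- the case `p = 2` -/
theorem dep_two (hF : IsFreeProP p i) (hp2 : p = 2) {E R : Subgroup F} (hE : ON E) (hR : R.Normal)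
    (hRE : R ≤ E)
    (χ : F → ZMod p) (hχ : IsChar p χ) (hEχ : ∀ x, x ∈ E ↔ χ x = 0) (t : F) (ht : χ t = 1)
    (htp : t ^ p ∈ E) (hmin : ∀ g : F → ZMod p, IsChar p g → ∀ r ∈ R, g r = 0)
    {ξ : F → ZMod p} (hξ : ξ ∈ Hm p E) (hξR : ∀ r ∈ R, ξ r = 0)
    (hN : ∑ j ∈ Finset.range p, cj p (t ^ j) ξ = 0) (hξt : ξ (t ^ p) = 1)
    (hdim : ∀ θ₁ ∈ Hm p R, ∀ θ₂ ∈ Hm p R, (∀ a ∈ E, cj p a θ₁ = θ₁) →
      (∀ a ∈ E, cj p a θ₂ = θ₂) → ∃ c₁ c₂ : ZMod p, (c₁ ≠ 0 ∨ c₂ ≠ 0) ∧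
      ∃ h ∈ Hm p E, c₁ • θ₁ + c₂ • θ₂ = ind p R h)
    (θ₁ : F → ZMod p) (h₁ : θ₁ ∈ Hm p R) (θ₂ : F → ZMod p) (h₂ : θ₂ ∈ Hm p R)
    (k₁ : ∀ a, cj p a θ₁ = θ₁) (k₂ : ∀ a, cj p a θ₂ = θ₂) :
    ∃ c₁ c₂ : ZMod p, (c₁ ≠ 0 ∨ c₂ ≠ 0) ∧ c₁ • θ₁ + c₂ • θ₂ = 0 := by
  let G : Submodule (ZMod p) ((F → ZMod p) × (F → ZMod p)) :=
    { carrier := {x | x.2 ∈ Hm p R ∧ ∀ e ∈ E, cj p e x.2 = x.2 + ξ e • x.1}
      add_mem' := by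
        rintro x y ⟨h3, h4⟩ ⟨h3', h4'⟩
        refine ⟨Submodule.add_mem _ h3 h3', fun e he => ?_⟩
        show cj p e (x.2 + y.2) = x.2 + y.2 + ξ e • (x.1 + y.1)
        rw [map_add, h4 e he, h4' e he, smul_add]
        abel
      zero_mem' := by
        refine ⟨Submodule.zero_mem _, fun e _ => ?_⟩
        show cj p e 0 = 0 + ξ e • 0
        rw [map_zero, smul_zero, add_zero]
      smul_mem' := by
        rintro c x ⟨h3, h4⟩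
        refine ⟨Submodule.smul_mem _ c h3, fun e he => ?_⟩
        show cj p e (c • x.2) = c • x.2 + ξ e • (c • x.1)
        rw [map_smul, h4 e he, smul_add, smul_comm] }
  obtain ⟨Ψ, hΨ⟩ := exists_lin (Rs p E R) G (by
    rintro z ⟨ζ, hζ, rfl⟩
    obtain ⟨f, hf⟩ := exists_cb hF hE χ hχ hEχ t ht hξ hζ
    exact ⟨ind p R f, cb_R hRE hξ hξR hf,
      fun e he => cb_cj hR hRE hξR (fun e he r hr => Hm_conj hζ he (hRE hr)) hf e he⟩)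
  have hS : ∀ z ∈ Rs p E R, ∀ a, cj p a z ∈ Rs p E R := fun z hz a => cj_mem_Rs hE.1 hR hz a
  have hΨ2 : ∀ z ∈ Rs p E R, ∀ e ∈ E, cj p e (Ψ z) = Ψ z + ξ e • z := fun z hz => (hΨ z hz).2
  -- a fixed vector in the image of `Hm p E` is `(T - 1) m`
  have key : ∀ κ ∈ Rs p E R, cj p t κ = κ → ∃ m ∈ Hm p R, (∀ e ∈ E, cj p e m = m) ∧
      cj p t m - m = κ := by
    intro κ hκ hTκ
    have h3 := Sg_fix hE hR t hN (Rs p E R) hS Ψ (fun z hz => (hΨ z hz).1) hΨ2 κ hκ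
    refine ⟨Sg t Ψ κ, h3.1, h3.2, ?_⟩
    have h4 := Sg_comm t Ψ κ
    have h5 : cj p t⁻¹ κ = κ := by
      have h6 : cj p t⁻¹ (cj p t κ) = κ := by
        rw [cj_cj, inv_mul_cancel, map_one, Module.End.one_apply]
      rwa [hTκ] at h6
    rw [h5, Rs_fx hRE hR hκ (E.inv_mem htp), hΨ2 κ hκ _ htp, hξt, one_smul,
      add_sub_cancel_left] at h4
    exact h4
  have htr : ∀ z ∈ Rs p E R, cj p t z - z = 0 := by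
    rintro z ⟨h, hh, rfl⟩
    have h3 := transfer hE χ hχ hEχ t ht hR hRE hmin hh
    have h4 : p - 1 = 1 := by omega
    rw [h4, pow_one] at h3
    exact h3
  obtain ⟨c₁, c₂, hc, h, h3, h4⟩ := hdim θ₁ h₁ θ₂ h₂ (fun a _ => k₁ a) (fun a _ => k₂ a)
  by_cases h0 : c₁ • θ₁ + c₂ • θ₂ = 0
  · exact ⟨c₁, c₂, hc, h0⟩
  have hκ : c₁ • θ₁ + c₂ • θ₂ ∈ Rs p E R := ⟨h, h3, h4.symm⟩
  have hTκ : cj p t (c₁ • θ₁ + c₂ • θ₂) = c₁ • θ₁ + c₂ • θ₂ := by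
    rw [map_add, map_smul, map_smul, k₁, k₂]
  obtain ⟨m, hm1, hm2, hm3⟩ := key _ hκ hTκ
  have hmem : ∀ θ ∈ Hm p R, (∀ a, cj p a θ = θ) → θ ∈ Rs p E R := by
    intro θ hθ hθ'
    obtain ⟨a, b, hab, h', h5, h6⟩ := hdim m hm1 θ hθ hm2 (fun e _ => hθ' e)
    have h7 := htr (a • m + b • θ) ⟨h', h5, h6.symm⟩
    have h8 : cj p t (a • m + b • θ) - (a • m + b • θ) = a • (cj p t m - m) := by
      rw [map_add, map_smul, map_smul, hθ', smul_sub]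
      abel
    rw [h8, hm3] at h7
    have ha : a = 0 := by
      rcases smul_eq_zero.1 h7 with h9 | h9
      · exact h9
      · exact absurd h9 h0
    have hb : b ≠ 0 := hab.resolve_left fun h9 => h9 ha
    rw [ha, zero_smul, zero_add] at h6
    have h9 : θ = b⁻¹ • ind p R h' := by
      rw [← h6, smul_smul, inv_mul_cancel₀ hb, one_smul]
    rw [h9]
    exact Submodule.smul_mem _ _ ⟨h', h5, rfl⟩
  obtain ⟨m₁, a1, a2, a3⟩ := key θ₁ (hmem θ₁ h₁ k₁) (k₁ t)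
  obtain ⟨m₂, b1, b2, b3⟩ := key θ₂ (hmem θ₂ h₂ k₂) (k₂ t)
  obtain ⟨d₁, d₂, hd, h', h5, h6⟩ := hdim m₁ a1 m₂ b1 a2 b2
  refine ⟨d₁, d₂, hd, ?_⟩
  have h7 := htr (d₁ • m₁ + d₂ • m₂) ⟨h', h5, h6.symm⟩
  rw [← a3, ← b3, ← h7, map_add, map_smul, map_smul, smul_sub, smul_sub]
  abel

/-- The invariant homomorphisms `R → ZMod p` form a space of dimension at most one. -/
theorem dep_all (hF : IsFreeProP p i) {E R : Subgroup F} (hE : ON E) (hR : R.Normal)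
    (hRE : R ≤ E)
    (χ : F → ZMod p) (hχ : IsChar p χ) (hEχ : ∀ x, x ∈ E ↔ χ x = 0) (t : F) (ht : χ t = 1)
    (htp : t ^ p ∈ E) (hmin : ∀ g : F → ZMod p, IsChar p g → ∀ r ∈ R, g r = 0)
    {ξ : F → ZMod p} (hξ : ξ ∈ Hm p E) (hξR : ∀ r ∈ R, ξ r = 0)
    (hN : ∑ j ∈ Finset.range p, cj p (t ^ j) ξ = 0) (hξt : ξ (t ^ p) = 1)
    (hdim : ∀ θ₁ ∈ Hm p R, ∀ θ₂ ∈ Hm p R, (∀ a ∈ E, cj p a θ₁ = θ₁) →
      (∀ a ∈ E, cj p a θ₂ = θ₂) → ∃ c₁ c₂ : ZMod p, (c₁ ≠ 0 ∨ c₂ ≠ 0) ∧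
      ∃ h ∈ Hm p E, c₁ • θ₁ + c₂ • θ₂ = ind p R h)
    (θ₁ : F → ZMod p) (h₁ : θ₁ ∈ Hm p R) (θ₂ : F → ZMod p) (h₂ : θ₂ ∈ Hm p R)
    (k₁ : ∀ a, cj p a θ₁ = θ₁) (k₂ : ∀ a, cj p a θ₂ = θ₂) :
    ∃ c₁ c₂ : ZMod p, (c₁ ≠ 0 ∨ c₂ ≠ 0) ∧ c₁ • θ₁ + c₂ • θ₂ = 0 := by
  by_cases hp2 : p = 2
  · exact dep_two hF hp2 hE hR hRE χ hχ hEχ t ht htp hmin hξ hξR hN hξt hdim θ₁ h₁ θ₂ h₂ k₁ k₂
  · exact dep hF hp2 hE hR hRE χ hχ hEχ t ht htp hmin hξ hξR hN hξt hdim θ₁ h₁ θ₂ h₂ k₁ k₂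

end Pool.Agent.FRS
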