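import Pool.Agent.FRS.E3
import Pool.Agent.FRS.B1
import Pool.Agent.ORD.H0

/-!
# FRS [F1]: one step of index `p`
-/

set_option autoImplicit false

namespace Pool.Agent.FRS

open Pool.Agent.MP_6fb7ad_al Pool.Agent.ORD

variable {p : ℕ} [Fact p.Prime] {Q : Type} [Group Q] [TopologicalSpace Q] [IsTopologicalGroup Q]

theorem fstep_one (hQ : IsProP p Q) (χ : Q → ZMod p) (hχ : IsChar p χ) (q₀ : Q)
    (hq₀ : χ q₀ ≠ 0) (U : Subgroup Q) (hU : ∀ q, q ∈ U ↔ χ q = 0)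
    (hr : Module.rank (ZMod p) (H2 p U) ≤ 1)
    (hV : ∀ v, v ∉ U → ∃ ξ ∈ Hm p U, ξ (v ^ p) ≠ 0) : OneRelator p Q := by
  have hT2 : T2Space Q := hQ.t2
  obtain ⟨X, F, _, _, _, i, π, hF, hπ, hs, hmin⟩ := exists_min (p := p) hQ
  have hFp := hF.proP
  have hT2F : T2Space F := hFp.t2
  have hχpow : ∀ (q : Q) (n : ℕ), χ (q ^ n) = n * χ q := by
    intro q n
    induction n with
    | zero => rw [pow_zero, char_one hχ, Nat.cast_zero, zero_mul]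
    | succ n ih =>
      rw [pow_succ, hχ.mul, ih]
      push_cast
      ring
  -- an element of value one
  obtain ⟨t', ht'⟩ : ∃ t' : Q, χ t' = 1 := by
    refine ⟨q₀ ^ ((χ q₀)⁻¹).val, ?_⟩
    rw [hχpow, ZMod.natCast_zmod_val, inv_mul_cancel₀ hq₀]
  obtain ⟨t, rfl⟩ := hs t'
  have hU0 : (U : Set Q) = χ ⁻¹' {0} := by
    ext q
    exact hU q
  have hUo : IsOpen (U : Set Q) := by
    rw [hU0]
    exact hχ.lc _
  have hUc : IsClosed (U : Set Q) := Subgroup.isClosed_of_isOpen _ hUo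
  have hRn : π.ker.Normal := inferInstance
  have hEχ : ∀ x, x ∈ U.comap π ↔ χ (π x) = 0 := fun x => hU _
  have hRE : π.ker ≤ U.comap π := by
    intro x hx
    rw [Subgroup.mem_comap, MonoidHom.mem_ker.1 hx]
    exact U.one_mem
  have hχF : IsChar p (fun x => χ (π x)) :=
    ⟨hχ.lc.comp_continuous hπ, fun a b => by rw [map_mul, hχ.mul]⟩
  have hUn : U.Normal := by
    refine ⟨fun n hn g => ?_⟩
    rw [hU] at hn ⊢
    have h1 := hχ.mul g g⁻¹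
    rw [mul_inv_cancel, char_one hχ] at h1
    rw [hχ.mul, hχ.mul, hn, add_zero, ← h1]
  have hE : ON (U.comap π) := ⟨hUn.comap π, hUo.preimage hπ⟩
  have hdim := dim_le (p := p) hFp π hπ hs U hUo hr
  obtain ⟨ξ, hξ, hN, hξt⟩ := exists_xi hQ hUn hUc χ hχ.mul hU (π t) ht' hV
  have htp : t ^ p ∈ U.comap π := by
    rw [hEχ, map_pow, hχpow, ZMod.natCast_self, zero_mul]
  -- the pull-back of `ξ`
  have hξF : (fun x => ξ (π x)) ∈ Hm p (U.comap π) := by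
    obtain ⟨h1, h2, W, hW, h3⟩ := hξ
    refine ⟨fun x hx => h1 _ hx, fun x hx y hy => ?_, W.comap π,
      ⟨hW.1.comap π, hW.2.preimage hπ⟩, fun w hw => h3 _ hw⟩
    show ξ (π (x * y)) = ξ (π x) + ξ (π y)
    rw [map_mul, h2 _ hx _ hy]
  have hξR : ∀ r ∈ π.ker, (fun x => ξ (π x)) r = 0 := by
    intro r hr
    show ξ (π r) = 0
    rw [MonoidHom.mem_ker.1 hr]
    exact Hm_one hξ
  have hNF : ∑ j ∈ Finset.range p, cj p (t ^ j) (fun x => ξ (π x)) = 0 := by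
    funext x
    rw [Finset.sum_apply, Pi.zero_apply]
    have h1 := congrFun hN (π x)
    rw [Finset.sum_apply, Pi.zero_apply] at h1
    rw [← h1]
    refine Finset.sum_congr rfl fun j _ => ?_
    rw [cj_apply, cj_apply, map_mul, map_mul, map_inv, map_pow]
  have hξtF : (fun x => ξ (π x)) (t ^ p) = 1 := by
    show ξ (π (t ^ p)) = 1
    rw [map_pow]
    exact hξt
  have hd : ∀ θ₁ ∈ Hm p π.ker, ∀ θ₂ ∈ Hm p π.ker, (∀ a, cj p a θ₁ = θ₁) →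
      (∀ a, cj p a θ₂ = θ₂) →
      ∃ c₁ c₂ : ZMod p, (c₁ ≠ 0 ∨ c₂ ≠ 0) ∧ c₁ • θ₁ + c₂ • θ₂ = 0 :=
    fun θ₁ h₁ θ₂ h₂ k₁ k₂ => dep_all hF hE hRn hRE (fun x => χ (π x)) hχF hEχ t ht' htp hmin hξF hξR
      hNF hξtF (fun θ₁ h₁ θ₂ h₂ k₁ k₂ => hdim θ₁ θ₂ h₁ h₂ k₁ k₂) θ₁ h₁ θ₂ h₂ k₁ k₂
  obtain ⟨r, hr1, hr2⟩ := exists_rel hFp π hd
  exact ⟨X, F, inferInstance, inferInstance, inferInstance, i, r, π, hF, hπ, hs, hr1, hr2⟩

end Pool.Agent.FRS
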