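import Mathlib

/-!
# FRS: the definition used in the statement
-/

set_option autoImplicit false

namespace Pool.Agent.FRS.St

/-- `W` is an open subgroup of index `p` of the subgroup `V` of `G`, and for every `v ∈ V` outside
of `W` the power `v ^ p`, which lies in `W`, is not in the kernel of some continuous homomorphism
`ξ : W → ℤ / p`; that is, no `v ∈ V` outside of `W` has its `p`-th power in the Frattini subgroup
of `W`. -/
def FStep (p : ℕ) {G : Type} [Group G] [TopologicalSpace G] (V W : Subgroup G) : Prop :=
  W ≤ V ∧ IsOpen ((W.subgroupOf V : Subgroup V) : Set V) ∧ W.relIndex V = p ∧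
    ∀ v ∈ V, v ∉ W → ∃ ξ : W →* Multiplicative (ZMod p), IsLocallyConstant ξ ∧
      ∃ w : W, (w : G) = v ^ p ∧ ξ w ≠ 1

end Pool.Agent.FRS.St
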