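import Pool.Agent.FRS.F1
import Pool.Agent.FRS.St
import Pool.Agent.ORD.I4

/-!
# FRS [F2]: chains
-/

set_option autoImplicit false

namespace Pool.Agent.FRS

open Pool.Agent.MP_6fb7ad_al Pool.Agent.ORD

variable {p : ℕ} [Fact p.Prime] {G : Type} [Group G] [TopologicalSpace G] [IsTopologicalGroup G]

/-- A character of the subgroup `W` of `V`, extended by zero. -/
theorem exists_Hm {V W : Subgroup G} (hV : IsProP p V)
    (hWo : IsOpen ((W.subgroupOf V : Subgroup V) : Set V))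
    (ξ : W →* Multiplicative (ZMod p)) (hξ : IsLocallyConstant ξ) :
    ∃ ζ ∈ Hm p (W.subgroupOf V), ∀ (x : V) (h : (x : G) ∈ W),
      ζ x = Multiplicative.toAdd (ξ ⟨x, h⟩) := by
  classical
  let ζ : V → ZMod p := fun x => if h : (x : G) ∈ W then Multiplicative.toAdd (ξ ⟨x, h⟩) else 0
  have hζ : ∀ (x : V) (h : (x : G) ∈ W), ζ x = Multiplicative.toAdd (ξ ⟨x, h⟩) :=
    fun x h => dif_pos h
  refine ⟨ζ, ⟨fun x hx => dif_neg hx, fun x hx y hy => ?_, ?_⟩, hζ⟩
  · have hxy : ((x * y : V) : G) ∈ W := mul_mem (Subgroup.mem_subgroupOf.1 hx)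
      (Subgroup.mem_subgroupOf.1 hy)
    rw [hζ _ hxy, hζ _ (Subgroup.mem_subgroupOf.1 hx), hζ _ (Subgroup.mem_subgroupOf.1 hy),
      ← toAdd_mul, ← map_mul]
    rfl
  · -- the kernel is a neighbourhood of one
    have h1 : IsOpen (ξ ⁻¹' {1}) := hξ {1}
    obtain ⟨A, hA, hA'⟩ := isOpen_induced_iff.1 h1
    have h2 : IsOpen ((Subtype.val ⁻¹' A : Set V) ∩ ((W.subgroupOf V : Subgroup V) : Set V)) :=
      (hA.preimage continuous_subtype_val).inter hWo
    have h3 : (1 : V) ∈ (Subtype.val ⁻¹' A : Set V) ∩ ((W.subgroupOf V : Subgroup V) : Set V) := by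
      refine ⟨?_, Subgroup.one_mem _⟩
      have h4 : (1 : W) ∈ (Subtype.val ⁻¹' A : Set W) := by
        rw [hA']
        exact map_one ξ
      exact h4
    obtain ⟨N, hN1, hN2, hN3⟩ := exists_normal_le hV _ h2 h3
    refine ⟨N, ⟨hN1, hN2⟩, fun w hw => ?_⟩
    obtain ⟨h5, h6⟩ := hN3 hw
    have h7 : (w : G) ∈ W := Subgroup.mem_subgroupOf.1 h6
    rw [hζ _ h7]
    have h8 : (⟨(w : G), h7⟩ : W) ∈ (Subtype.val ⁻¹' A : Set W) := h5
    rw [hA'] at h8
    have h9 : ξ ⟨(w : G), h7⟩ = 1 := h8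
    rw [h9]
    rfl

theorem fstep_rank (hG : IsProP p G) {V U : Subgroup G} (hV : IsClosed (V : Set G))
    (h : St.FStep p V U) (hr : Module.rank (ZMod p) (H2 p U) ≤ 1) :
    Module.rank (ZMod p) (H2 p V) ≤ 1 := by
  obtain ⟨hUV, hUo, hidx, hξ⟩ := h
  have hp : p.Prime := Fact.out
  have hVp : IsProP p V := isProP_sub hG V hV
  have hT2 : T2Space V := hVp.t2
  have hUc : IsClosed ((U.subgroupOf V : Subgroup V) : Set V) :=
    Subgroup.isClosed_of_isOpen _ hUo
  have hidx' : (U.subgroupOf V).index = p := hidx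
  have hne : U.subgroupOf V ≠ ⊤ := by
    intro h1
    rw [h1, Subgroup.index_top] at hidx'
    exact hp.one_lt.ne hidx'
  obtain ⟨χ, hχ, hχU, q₀, hq₀⟩ := exists_char hVp (U.subgroupOf V) hUc hne
  let H₁ : Subgroup V :=
    { carrier := {x | χ x = 0}
      mul_mem' := by
        intro a b ha hb
        show χ (a * b) = 0
        rw [hχ.mul, show χ a = 0 from ha, show χ b = 0 from hb, add_zero]
      one_mem' := char_one hχ
      inv_mem' := by
        intro a ha
        have h2 := hχ.mul a a⁻¹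
        rw [mul_inv_cancel, char_one hχ, show χ a = 0 from ha, zero_add] at h2
        exact h2.symm }
  have hH₁ : ∀ x, x ∈ H₁ ↔ χ x = 0 := fun _ => Iff.rfl
  have hle : U.subgroupOf V ≤ H₁ := fun x hx => hχU x hx
  have hmul := Subgroup.relIndex_mul_index hle
  rw [hidx'] at hmul
  have hH₁1 : H₁.index ≠ 1 := by
    intro h1
    rw [Subgroup.index_eq_one] at h1
    apply hq₀
    have h2 : q₀ ∈ H₁ := by
      rw [h1]
      exact Subgroup.mem_top _
    exact h2
  have hrel : (U.subgroupOf V).relIndex H₁ = 1 := by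
    have h1 : H₁.index ∣ p := Dvd.intro_left _ hmul
    rcases (Nat.dvd_prime hp).1 h1 with h2 | h2
    · exact absurd h2 hH₁1
    · rw [h2] at hmul
      exact Nat.eq_of_mul_eq_mul_right hp.pos (by rw [hmul, one_mul])
  have hge : H₁ ≤ U.subgroupOf V := Subgroup.relIndex_eq_one.1 hrel
  have hU : ∀ q, q ∈ U.subgroupOf V ↔ χ q = 0 := fun q => ⟨fun hq => hle hq, fun hq => hge hq⟩
  have h1 : Module.rank (ZMod p) (H2 p (U.subgroupOf V)) ≤ 1 :=
    (rank_H2_le hUV (U.subgroupOf V) fun x => Subgroup.mem_subgroupOf).trans hr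
  refine rank_le_one (fstep_one hVp χ hχ q₀ hq₀ (U.subgroupOf V) hU h1 fun v hv => ?_)
  obtain ⟨ξ, hξ1, w, hw, hw'⟩ := hξ v v.2 fun h2 => hv (Subgroup.mem_subgroupOf.2 h2)
  obtain ⟨ζ, hζ, hζ'⟩ := exists_Hm hVp hUo ξ hξ1
  refine ⟨ζ, hζ, ?_⟩
  have h3 : ((v ^ p : V) : G) ∈ U := by
    have h4 : ((v ^ p : V) : G) = w := by
      rw [hw]
      rfl
    rw [h4]
    exact w.2
  rw [hζ' (v ^ p) h3]
  have h5 : (⟨((v ^ p : V) : G), h3⟩ : U) = w := by
    refine Subtype.ext ?_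
    rw [hw]
    rfl
  rw [h5]
  exact hw'

theorem main (hG : IsProP p G) (U : Subgroup G)
    (hU : Relation.ReflTransGen (fun V W => St.FStep p V W ∨ ORD.St.NStep p V W ∨
      ORD.St.ResStep V W) ⊤ U) (h : OneRelator p U) : OneRelator p G := by
  have hT2 := hG.t2
  refine oneRelator_of_rank_le hG (rank_top.trans ?_)
  have key : IsClosed (U : Set G) ∧ (Module.rank (ZMod p) (H2 p U) ≤ 1 →
      Module.rank (ZMod p) (H2 p (⊤ : Subgroup G)) ≤ 1) := by
    clear h
    induction hU with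
    | refl => exact ⟨isClosed_univ, id⟩
    | @tail V' U' h1 h2 ih =>
      have hcl : ∀ (h3 : U' ≤ V') (h4 : IsOpen ((U'.subgroupOf V' : Subgroup V') : Set V')),
          IsClosed (U' : Set G) := by
        intro h3 h4
        have h5 : (U' : Set G) = Subtype.val '' ((U'.subgroupOf V' : Subgroup V') : Set V') := by
          ext x
          constructor
          · intro hx
            exact ⟨⟨x, h3 hx⟩, hx, rfl⟩
          · rintro ⟨y, hy, rfl⟩
            exact hy
        rw [h5]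
        exact ih.1.isClosedMap_subtype_val _ (Subgroup.isClosed_of_isOpen (U'.subgroupOf V') h4)
      rcases h2 with h2 | h2 | h2
      · exact ⟨hcl h2.1 h2.2.1, fun h3 => ih.2 (fstep_rank hG ih.1 h2 h3)⟩
      · exact ⟨hcl h2.1 h2.2.1, fun h3 => ih.2 (dom_rank hG ih.1
          (nstep_nstep0 ih.1 (nstep_of h2)) h3)⟩
      · exact ⟨hcl h2.1 h2.2.1, fun h3 => ih.2 (dom_rank hG ih.1
          (nstep_nstep0 ih.1 (res_nstep hG ih.1 (resStep_of h2))) h3)⟩
  exact key.2 (rank_le_one h)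

end Pool.Agent.FRS
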