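import Mathlib

/-!
# FRS: definitions for the restriction step
-/

set_option autoImplicit false

namespace Pool.Agent.FRS.St

/-- `f` is a continuous 2-cocycle of `W` with values in `ℤ / p` (trivial action). -/
def Coc (p : ℕ) {G : Type} [Group G] [TopologicalSpace G] (W : Subgroup G)
    (f : W → W → ZMod p) : Prop :=
  IsLocallyConstant (fun x : W × W => f x.1 x.2) ∧
    ∀ a b c : W, f b c + f a (b * c) = f (a * b) c + f a b

/-- The restriction of `f` to the subgroup `K ≤ W` is the coboundary of a continuous function. -/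
def Cob (p : ℕ) {G : Type} [Group G] [TopologicalSpace G] {W K : Subgroup G} (h : K ≤ W)
    (f : W → W → ZMod p) : Prop :=
  ∃ ψ : K → ZMod p, IsLocallyConstant ψ ∧
    ∀ a b : K, f ⟨a, h a.2⟩ ⟨b, h b.2⟩ = ψ a + ψ b - ψ (a * b)

/-- `W` is an open subgroup of index `p` of the subgroup `V` of `G`, and there is a closed subgroup
`K` of `W`, normalized by `V`, such that every `v ∈ V` with `v ^ p ∈ K` lies in `W` and the
restriction `H²(W, 𝔽_p) → H²(K, 𝔽_p)` is injective. -/
def RStep (p : ℕ) {G : Type} [Group G] [TopologicalSpace G] (V W : Subgroup G) : Prop :=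
  W ≤ V ∧ IsOpen ((W.subgroupOf V : Subgroup V) : Set V) ∧ W.relIndex V = p ∧
    ∃ (K : Subgroup G) (h : K ≤ W), IsClosed (K : Set G) ∧ (∀ v ∈ V, ∀ k ∈ K, v * k * v⁻¹ ∈ K) ∧
      (∀ v ∈ V, v ^ p ∈ K → v ∈ W) ∧
      ∀ f : W → W → ZMod p, Coc p W f → Cob p h f → Cob p le_rfl f

end Pool.Agent.FRS.St
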