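import Pool.Agent.FRS.D1
import Pool.Agent.FRS.StR
import Pool.Agent.ORD.H2

/-!
# FRS [KE]: injectivity of the restriction in terms of homomorphisms on the relators
-/

set_option autoImplicit false

namespace Pool.Agent.FRS

open Pool.Agent.MP_6fb7ad_al Pool.Agent.ORD

variable {p : ℕ} [Fact p.Prime] {F : Type} [Group F] [TopologicalSpace F] [IsTopologicalGroup F]

/-- the restriction of an element of `Hm p π.ker` invariant under `U.comap π` -/
theorem ke_inv {G : Type} [Group G] (π : F →* G) (U : Subgroup G) (θ : F → ZMod p)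
    (h : θ ∈ Hm p π.ker) (k : ∀ a ∈ U.comap π, cj p a θ = θ) :
    IsInv p (π.subgroupComap U).ker (fun a => θ ((a : U.comap π) : F)) := by
  obtain ⟨h1, h2, W, hW, h3⟩ := h
  have hk : ∀ a : (π.subgroupComap U).ker, ((a : U.comap π) : F) ∈ π.ker := by
    intro a
    have := a.2
    rw [MonoidHom.mem_ker] at this
    exact congrArg Subtype.val this
  refine ⟨?_, fun a b => ?_, fun g a b hb => ?_⟩
  · rw [IsLocallyConstant.iff_eventually_eq]
    intro a
    have hc : Continuous (fun y : (π.subgroupComap U).ker =>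
        ((a : U.comap π) : F)⁻¹ * ((y : U.comap π) : F)) :=
      continuous_const.mul (continuous_subtype_val.comp continuous_subtype_val)
    have hm : ((a : U.comap π) : F)⁻¹ * ((a : U.comap π) : F) ∈ (W : Set F) := by
      rw [inv_mul_cancel]
      exact W.one_mem
    filter_upwards [(hW.2.preimage hc).mem_nhds hm] with y hy
    have e1 : ((y : U.comap π) : F) =
        ((a : U.comap π) : F) * (((a : U.comap π) : F)⁻¹ * ((y : U.comap π) : F)) := by
      rw [mul_inv_cancel_left]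
    rw [e1, h2 _ (hk a) _ (mul_mem (inv_mem (hk a)) (hk y)), h3 _ hy, add_zero]
  · exact h2 _ (hk a) _ (hk b)
  · have e1 := congrFun (k g g.2) ((b : U.comap π) : F)
    rw [cj_apply] at e1
    show θ ((b : U.comap π) : F) = θ ((a : U.comap π) : F)
    rw [← e1]
    congr 1
    rw [hb]
    simp only [Subgroup.coe_mul, Subgroup.coe_inv]
    group

/-- a function on `F` invariant under the kernel and locally constant descends -/
theorem ke_desc [CompactSpace F] {Q : Type} [Group Q] [TopologicalSpace Q]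
    [T2Space Q] (π : F →* Q) (hπ : Continuous π)
    (hs : Function.Surjective π) {φ : F → ZMod p} (hlc : IsLocallyConstant φ)
    (hi : ∀ x, ∀ n ∈ π.ker, φ (x * n) = φ x) :
    ∃ φ' : Q → ZMod p, IsLocallyConstant φ' ∧ ∀ x, φ x = φ' (π x) := by
  have hx : ∀ x, φ x = φ (Function.surjInv hs (π x)) := by
    intro x
    have h4 : x⁻¹ * Function.surjInv hs (π x) ∈ π.ker := by
      rw [MonoidHom.mem_ker, map_mul, map_inv, Function.surjInv_eq hs, inv_mul_cancel]
    have h5 := hi x _ h4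
    rw [mul_inv_cancel_left] at h5
    exact h5.symm
  have hq : Topology.IsQuotientMap π := hπ.isClosedMap.isQuotientMap hπ hs
  refine ⟨fun q => φ (Function.surjInv hs q), fun s => ?_, hx⟩
  rw [← hq.isOpen_preimage]
  have h6 : π ⁻¹' ((fun q => φ (Function.surjInv hs q)) ⁻¹' s) = φ ⁻¹' s := by
    ext x
    show φ (Function.surjInv hs (π x)) ∈ s ↔ φ x ∈ s
    rw [← hx]
  rw [h6]
  exact hlc s

/-- extension by zero of the difference of a locally constant function on `E` and an element of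
`Hm` on an open subgroup of `E` -/
theorem ke_lc {E V : Subgroup F} (hVE : V ≤ E) (hV : IsOpen (V : Set F))
    {h : F → ZMod p} (hh : h ∈ Hm p V) {Θ : E → ZMod p} (hΘ : IsLocallyConstant Θ)
    (φ : F → ZMod p) (h1 : ∀ x (hx : x ∈ V), φ x = Θ ⟨x, hVE hx⟩ - h x)
    (h2 : ∀ x, x ∉ V → φ x = 0) : IsLocallyConstant φ := by
  have hE : IsOpen (E : Set F) := Subgroup.isOpen_mono hVE hV
  have hVc : IsClosed (V : Set F) := V.isClosed_of_isOpen hV
  obtain ⟨-, hm, W, hW, hw⟩ := hh
  rw [IsLocallyConstant.iff_eventually_eq]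
  intro x
  by_cases hx : x ∈ V
  · have o1 : IsOpen {y : E | Θ y = Θ ⟨x, hVE hx⟩} := hΘ {Θ ⟨x, hVE hx⟩}
    have o2 := hE.isOpenMap_subtype_val _ o1
    have hc : Continuous (fun y : F => x⁻¹ * y) := continuous_const.mul continuous_id
    have hm1 : x⁻¹ * x ∈ (W : Set F) := by
      rw [inv_mul_cancel]
      exact W.one_mem
    filter_upwards [hV.mem_nhds hx, o2.mem_nhds ⟨⟨x, hVE hx⟩, rfl, rfl⟩,
      (hW.2.preimage hc).mem_nhds hm1] with y hy hy2 hy3
    obtain ⟨z, hz, rfl⟩ := hy2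
    rw [h1 _ hy, h1 _ hx]
    have e1 : h (z : F) = h x := by
      have e2 : (z : F) = x * (x⁻¹ * (z : F)) := by rw [mul_inv_cancel_left]
      rw [e2, hm _ hx _ (mul_mem (inv_mem hx) hy), hw _ hy3, add_zero]
    rw [e1]
    congr 1
  · filter_upwards [hVc.isOpen_compl.mem_nhds hx] with y hy
    rw [h2 _ hx, h2 _ hy]

/-- Let `π : F → Q` be a continuous surjection from a pro-`p` group to a Hausdorff group,
`K ≤ W ≤ Q` with `W` open and `K` closed, and suppose that `H²(W) → H²(K)` is injective. Let `K₁` be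
open with `K ≤ K₁ ≤ W`. Then every `W`-invariant homomorphism `θ` on the kernel `R` of `π` that
extends to the preimage of `K₁` extends to the preimage `E` of `W`.
Proof. As in `dim_le` (ORD.H2, with `H2_inv` and `exists_trans` for `π' : E → W`): there are a
continuous 2-cocycle `f` of `W` and a locally constant `Θ : E → ZMod p` with
`Θ (g * n) = Θ g + θ n` for `n ∈ R` (see the statement of `exists_trans`) and
`f (π g) (π h) = Θ g + Θ h - Θ (g * h)`. Let `θ = ind p R h` with `h ∈ Hm p (K₁.comap π)`. On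
`K₁.comap π` the function `Θ - h` is invariant under right translation by `R`, so it descends to
`ψ : K₁ → ZMod p`, locally constant as `π` is a quotient map (continuous, surjective, from a compact
space to a Hausdorff space: see the proof of `exists_LC` in ORD.N1a), and
`f a b = ψ a + ψ b - ψ (a * b)` for `a, b ∈ K₁`. Restricting to `K` and using the hypothesis, `f` is
the coboundary of a locally constant `ψ'` on `W`, and `Θ - ψ' ∘ π` is a character of `E`;
extended by zero it lies in `Hm p E` (see the end of the proof of `dim_le`) and its restriction to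
`R` is `θ`. -/
theorem res_ext (hF : IsProP p F) {Q : Type} [Group Q] [TopologicalSpace Q]
    [IsTopologicalGroup Q] [T2Space Q] (π : F →* Q) (hπ : Continuous π)
    (hs : Function.Surjective π) {W K K₁ : Subgroup Q} (hW : IsOpen (W : Set Q)) (hKW : K ≤ W)
    (hinj : ∀ f : W → W → ZMod p, St.Coc p W f → St.Cob p hKW f → St.Cob p le_rfl f)
    (hKK : K ≤ K₁) (hKW₁ : K₁ ≤ W) (hK₁ : IsOpen (K₁ : Set Q)) (θ : F → ZMod p)
    (hθ : θ ∈ Rs p (K₁.comap π) π.ker) (hθW : ∀ a ∈ W.comap π, cj p a θ = θ) :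
    θ ∈ Rs p (W.comap π) π.ker := by
  classical
  have hcF := hF.compact
  have hEo : IsOpen ((W.comap π : Subgroup F) : Set F) := hW.preimage hπ
  have hVo : IsOpen ((K₁.comap π : Subgroup F) : Set F) := hK₁.preimage hπ
  have hVE : K₁.comap π ≤ W.comap π := Subgroup.comap_mono hKW₁
  have hkV : π.ker ≤ K₁.comap π := by
    intro x hx
    rw [Subgroup.mem_comap, MonoidHom.mem_ker.1 hx]
    exact K₁.one_mem
  have hEp : IsProP p (W.comap π) := isProP_sub hF _ ((W.comap π).isClosed_of_isOpen hEo)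
  have hπ' : Continuous (π.subgroupComap W) :=
    Continuous.subtype_mk (hπ.comp continuous_subtype_val) _
  have hs' : Function.Surjective (π.subgroupComap W) := by
    rintro ⟨u, hu⟩
    obtain ⟨x, rfl⟩ := hs u
    exact ⟨⟨x, hu⟩, rfl⟩
  obtain ⟨h, hh, rfl⟩ := mem_Rs.1 hθ
  have hθm : ind p π.ker h ∈ Hm p π.ker := by
    obtain ⟨-, a2, V, hV, a3⟩ := hh
    refine ⟨fun x hx => ind_of_notMem hx h, fun x hx y hy => ?_, V, hV, fun w hw => ?_⟩
    · rw [ind_of_mem hx, ind_of_mem hy, ind_of_mem (mul_mem hx hy)]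
      exact a2 _ (hkV hx) _ (hkV hy)
    · by_cases hx : w ∈ π.ker
      · rw [ind_of_mem hx, a3 w hw]
      · rw [ind_of_notMem hx]
  obtain ⟨f, Θ, lΘ, eΘ, mΘ⟩ := exists_trans hEp (π.subgroupComap W) hπ' hs' _
    (ke_inv π W _ hθm hθW)
  -- the function on `K₁`
  let φ : F → ZMod p := fun x => if hx : x ∈ K₁.comap π then Θ ⟨x, hVE hx⟩ - h x else 0
  have φ1 : ∀ x (hx : x ∈ K₁.comap π), φ x = Θ ⟨x, hVE hx⟩ - h x := fun x hx => dif_pos hx
  have φ2 : ∀ x, x ∉ K₁.comap π → φ x = 0 := fun x hx => dif_neg hx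
  have lφ : IsLocallyConstant φ := ke_lc hVE hVo hh lΘ φ φ1 φ2
  have iφ : ∀ x, ∀ n ∈ π.ker, φ (x * n) = φ x := by
    intro x n hn
    by_cases hx : x ∈ K₁.comap π
    · have hxn : x * n ∈ K₁.comap π := mul_mem hx (hkV hn)
      have hnE : n ∈ W.comap π := hVE (hkV hn)
      have hnk : (⟨n, hnE⟩ : W.comap π) ∈ (π.subgroupComap W).ker := by
        rw [MonoidHom.mem_ker]
        exact Subtype.ext (MonoidHom.mem_ker.1 hn)
      have e1 := eΘ ⟨x, hVE hx⟩ ⟨⟨n, hnE⟩, hnk⟩
      have e2 : ind p π.ker h n = h n := ind_of_mem hn h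
      have e3 := hh.2.1 _ hx _ (hkV hn)
      rw [φ1 _ hx, φ1 _ hxn, e3]
      have e4 : Θ ⟨x * n, hVE hxn⟩ = Θ ⟨x, hVE hx⟩ + h n := by
        rw [← e2]
        exact e1
      rw [e4]
      ring
    · have hxn : x * n ∉ K₁.comap π := by
        intro hc
        apply hx
        have := mul_mem hc (inv_mem (hkV hn))
        rwa [mul_inv_cancel_right] at this
      rw [φ2 _ hx, φ2 _ hxn]
  obtain ⟨ψ, lψ, hψ⟩ := ke_desc π hπ hs lφ iφ
  have hcoc : St.Coc p W f.1 := f.2
  have hcob : St.Cob p hKW f.1 := by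
    refine ⟨fun k => ψ (k : Q), lψ.comp_continuous continuous_subtype_val, ?_⟩
    rintro ⟨a, ha⟩ ⟨b, hb⟩
    obtain ⟨x, rfl⟩ := hs a
    obtain ⟨y, rfl⟩ := hs b
    have hx : x ∈ K₁.comap π := hKK ha
    have hy : y ∈ K₁.comap π := hKK hb
    have hxy : x * y ∈ K₁.comap π := mul_mem hx hy
    have e1 := mΘ ⟨x, hVE hx⟩ ⟨y, hVE hy⟩
    have e3 := hh.2.1 _ hx _ hy
    show f.1 ⟨π x, hKW ha⟩ ⟨π y, hKW hb⟩ = ψ (π x) + ψ (π y) - ψ (π x * π y)
    rw [← map_mul, ← hψ, ← hψ, ← hψ, φ1 _ hx, φ1 _ hy, φ1 _ hxy, e3]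
    have e4 : f.1 ⟨π x, hKW ha⟩ ⟨π y, hKW hb⟩ =
        Θ ⟨x, hVE hx⟩ + Θ ⟨y, hVE hy⟩ - Θ ⟨x * y, hVE hxy⟩ := e1
    rw [e4]
    ring
  obtain ⟨ψ', lψ', hψ'⟩ := hinj f.1 hcoc hcob
  let χ : W.comap π → ZMod p := fun g => Θ g - ψ' (π.subgroupComap W g)
  have hχ : IsChar p χ := by
    refine ⟨?_, fun g h => ?_⟩
    · exact lΘ.sub (lψ'.comp_continuous hπ')
    · have t1 := mΘ g h
      have t3 : f.1 (π.subgroupComap W g) (π.subgroupComap W h) =
        ψ' (π.subgroupComap W g) + ψ' (π.subgroupComap W h) -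
        ψ' (π.subgroupComap W g * π.subgroupComap W h) :=
        hψ' (π.subgroupComap W g) (π.subgroupComap W h)
      show Θ (g * h) - ψ' (π.subgroupComap W (g * h)) =
        Θ g - ψ' (π.subgroupComap W g) + (Θ h - ψ' (π.subgroupComap W h))
      rw [map_mul]
      linear_combination t1 - t3
  have hχ1 : χ 1 = 0 := by
    have := hχ.mul 1 1
    rw [mul_one] at this
    simpa using this
  have hχn : ∀ n : (π.subgroupComap W).ker, χ n = ind p π.ker h ((n : W.comap π) : F) := by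
    intro n
    have t3 := eΘ 1 n
    rw [one_mul] at t3
    have t5 : π.subgroupComap W (n : W.comap π) = π.subgroupComap W 1 := by
      rw [map_one]
      exact n.2
    have t1 : χ n = Θ n - ψ' (π.subgroupComap W n) := rfl
    have t2 : χ 1 = Θ 1 - ψ' (π.subgroupComap W 1) := rfl
    rw [t5] at t1
    rw [hχ1] at t2
    linear_combination t1 - t2 + t3
  let h' : F → ZMod p := fun x => if hx : x ∈ W.comap π then χ ⟨x, hx⟩ else 0
  have hh' : ∀ x (hx : x ∈ W.comap π), h' x = χ ⟨x, hx⟩ := fun x hx => dif_pos hx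
  refine mem_Rs.2 ⟨h', ⟨fun x hx => dif_neg hx, fun x hx y hy => ?_, ?_⟩, ?_⟩
  · rw [hh' x hx, hh' y hy, hh' _ (mul_mem hx hy)]
    exact hχ.mul ⟨x, hx⟩ ⟨y, hy⟩
  · have o1 : IsOpen {x : W.comap π | χ x = 0} := hχ.lc {0}
    have o2 := hEo.isOpenMap_subtype_val _ o1
    obtain ⟨V, w1, w2, w3⟩ := exists_normal_le hF _ o2 ⟨1, hχ1, rfl⟩
    refine ⟨V, ⟨w1, w2⟩, fun w hw => ?_⟩
    obtain ⟨x, hx, rfl⟩ := w3 hw
    rw [hh' x x.2]
    exact hx
  · funext x
    by_cases hx : x ∈ π.ker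
    · have hxE : x ∈ W.comap π := hVE (hkV hx)
      have hxk : (⟨x, hxE⟩ : W.comap π) ∈ (π.subgroupComap W).ker := by
        rw [MonoidHom.mem_ker]
        exact Subtype.ext (MonoidHom.mem_ker.1 hx)
      rw [ind_of_mem hx, hh' x hxE]
      exact hχn ⟨⟨x, hxE⟩, hxk⟩
    · rw [ind_of_notMem hx, ind_of_notMem hx]

end Pool.Agent.FRS
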