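import Pool.Agent.ORD.Def

/-!
# FRS [KG]: compactness
-/

set_option autoImplicit false

namespace Pool.Agent.FRS

open Pool.Agent.MP_6fb7ad_al Pool.Agent.ORD

theorem kg_inf {Q : Type} [Group Q] [TopologicalSpace Q] (N : Q → Subgroup Q) (t : Finset Q) :
    (∀ v ∈ t, ON (N v)) → ∃ M : Subgroup Q, ON M ∧ ∀ v ∈ t, M ≤ N v := by
  classical
  induction t using Finset.induction with
  | empty => exact fun _ => ⟨⊤, ON.top, fun v hv => absurd hv (Finset.notMem_empty v)⟩
  | insert a t _ ih =>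
    intro h
    obtain ⟨M, hM, hM'⟩ := ih fun v hv => h v (Finset.mem_insert_of_mem hv)
    refine ⟨M ⊓ N a, hM.inf (h a (Finset.mem_insert_self _ _)), fun v hv => ?_⟩
    rcases Finset.mem_insert.1 hv with rfl | hv
    · exact inf_le_right
    · exact inf_le_left.trans (hM' v hv)

/-- Let `Q` be a pro-`p` group, `K` a closed normal subgroup contained in the open subgroup `W`, and
suppose that every `v` with `v ^ p ∈ K` lies in `W`. Then there is an open normal subgroup `K₁` with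
`K ≤ K₁ ≤ W` such that every `v` with `v ^ p ∈ K₁` lies in `W`.
Proof. The subgroups `K ⊔ N` with `N` open normal are open normal subgroups, directed downwards,
with intersection `K` (`exists_sep` in A1: a closed subgroup is the intersection of the open
subgroups `K * N`). The sets `{v ∉ W | v ^ p ∈ K ⊔ N}` are closed (compact, as `W` is open and
`K ⊔ N` is open, hence closed), directed, with empty intersection, so one of them is empty
(`IsCompact.nonempty_iInter_of_directed_nonempty_isCompact_isClosed` or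
`IsCompact.elim_directed_family_closed_of_isCompact`). Intersect `N` with an open normal subgroup
contained in `W` (`exists_normal_le`) to have `K ⊔ N ≤ W`. -/
theorem exists_open_of {p : ℕ} {Q : Type} [Group Q] [TopologicalSpace Q] [IsTopologicalGroup Q]
    (hQ : IsProP p Q) {K W : Subgroup Q} (hK : K.Normal) (hKc : IsClosed (K : Set Q))
    (hW : IsOpen (W : Set Q)) (hKW : K ≤ W) (h : ∀ v : Q, v ^ p ∈ K → v ∈ W) :
    ∃ K₁ : Subgroup Q, ON K₁ ∧ K ≤ K₁ ∧ K₁ ≤ W ∧ ∀ v : Q, v ^ p ∈ K₁ → v ∈ W := by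
  classical
  have hcomp := hQ.compact
  have hZ : IsCompact ((W : Set Q)ᶜ) := hW.isClosed_compl.isCompact
  have hsep : ∀ v : Q, v ∉ W → ∃ N : Subgroup Q, ON N ∧ ∀ w ∈ N, v ^ p * w ∉ K := by
    intro v hv
    obtain ⟨N, h1, h2, h3⟩ := exists_sep hQ K hKc (v ^ p) fun hh => hv (h v hh)
    exact ⟨N, ⟨h1, h2⟩, h3⟩
  choose! N hN hNK using hsep
  obtain ⟨t, ht, htc⟩ := hZ.elim_nhds_subcover (fun v => {u : Q | (v ^ p)⁻¹ * u ^ p ∈ N v}) (by
    intro v hv
    have hc : Continuous fun u : Q => (v ^ p)⁻¹ * u ^ p :=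
      continuous_const.mul (continuous_id.pow p)
    refine (((hN v hv).2).preimage hc).mem_nhds ?_
    show (v ^ p)⁻¹ * v ^ p ∈ N v
    rw [inv_mul_cancel]
    exact (N v).one_mem)
  obtain ⟨M, hM, hMt⟩ := kg_inf N t fun v hv => hN v (ht v hv)
  obtain ⟨N₀, n1, n2, n3⟩ := exists_normal_le hQ (W : Set Q) hW W.one_mem
  have hMN : ON (M ⊓ N₀) := hM.inf ⟨n1, n2⟩
  have hn := hMN.1
  refine ⟨K ⊔ (M ⊓ N₀), ⟨Subgroup.sup_normal _ _, ?_⟩, le_sup_left, ?_, ?_⟩
  · exact Subgroup.isOpen_mono le_sup_right hMN.2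
  · exact sup_le hKW (inf_le_right.trans n3)
  · intro u hu
    by_contra huW
    have h1 := htc (show u ∈ (W : Set Q)ᶜ from huW)
    simp only [Set.mem_iUnion] at h1
    obtain ⟨v, hv, hvu⟩ := h1
    change (v ^ p)⁻¹ * u ^ p ∈ N v at hvu
    have hnv : (N v).Normal := (hN v (ht v hv)).1
    have h2 : u ^ p ∈ K ⊔ N v :=
      (sup_le_sup_left (inf_le_left.trans (hMt v hv)) K) hu
    have h3 : v ^ p ∈ K ⊔ N v := by
      have e : v ^ p = u ^ p * ((v ^ p)⁻¹ * u ^ p)⁻¹ := by group
      rw [e]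
      exact (K ⊔ N v).mul_mem h2 ((K ⊔ N v).inv_mem (Subgroup.mem_sup_right hvu))
    rw [← SetLike.mem_coe, Subgroup.mul_normal K (N v)] at h3
    obtain ⟨k, hk, m, hm, hkm⟩ := h3
    refine hNK v (ht v hv) m⁻¹ ((N v).inv_mem hm) ?_
    have e : v ^ p * m⁻¹ = k := by
      rw [← hkm]
      exact mul_inv_cancel_right k m
    rw [e]
    exact hk

end Pool.Agent.FRS
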