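import Pool.Agent.FRS.KD
import Pool.Agent.FRS.KE
import Pool.Agent.FRS.KG
import Pool.Agent.FRS.F1

/-!
# FRS [F3]: one step of index `p`, restriction version
-/

set_option autoImplicit false

namespace Pool.Agent.FRS

open Pool.Agent.MP_6fb7ad_al Pool.Agent.ORD

variable {p : ℕ} [Fact p.Prime] {Q : Type} [Group Q] [TopologicalSpace Q] [IsTopologicalGroup Q]

/-- restriction of a homomorphism to a smaller subgroup -/
theorem f3_ind {E E₁ : Subgroup Q} {h : Q → ZMod p} (hh : h ∈ Hm p E) (h1 : E₁ ≤ E) :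
    ind p E₁ h ∈ Hm p E₁ := by
  obtain ⟨a1, a2, W, hW, a3⟩ := hh
  refine ⟨fun x hx => ind_of_notMem hx h, fun x hx y hy => ?_, W, hW, fun w hw => ?_⟩
  · rw [ind_of_mem hx, ind_of_mem hy, ind_of_mem (E₁.mul_mem hx hy), a2 x (h1 hx) y (h1 hy)]
  · by_cases hx : w ∈ E₁
    · rw [ind_of_mem hx, a3 w hw]
    · rw [ind_of_notMem hx]

/-- The analogue of `fstep_one` (F1) for the restriction step. Proof: the beginning is that of
`fstep_one` (`exists_min`, `t` with `χ (π t) = 1`, `hE : ON (U.comap π)`, `hdim := dim_le …`), without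
`ξ`. By `exists_open_of` (KG) there is `K₁` with `ON K₁`, `K ≤ K₁ ≤ U` and `v ^ p ∈ K₁ → v ∈ U`. Put
`E = U.comap π`, `E₁ = K₁.comap π`, `R = π.ker`. By `res_ext` (KE) every `E`-invariant element of
`Rs p E₁ R` lies in `Rs p E R`, so `Rs p E R = 0` by `Rs_zero` (KD) (`θ ∈ Rs p E R` lies in
`Rs p E₁ R`: restrict the homomorphism `E → ZMod p` to `E₁`). `hdim` says: for `E`-invariant
`θ₁ θ₂ ∈ Hm p R` some nontrivial linear combination lies in `Rs p E R`, so it is zero, and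
`exists_rel` gives the relator, as at the end of `fstep_one`. -/
theorem rstep_one (hQ : IsProP p Q) (χ : Q → ZMod p) (hχ : IsChar p χ) (q₀ : Q)
    (hq₀ : χ q₀ ≠ 0) (U : Subgroup Q) (hU : ∀ q, q ∈ U ↔ χ q = 0)
    (hr : Module.rank (ZMod p) (H2 p U) ≤ 1) (K : Subgroup Q) (hK : K.Normal)
    (hKc : IsClosed (K : Set Q)) (hKU : K ≤ U) (hv : ∀ v : Q, v ^ p ∈ K → v ∈ U)
    (hinj : ∀ f : U → U → ZMod p, St.Coc p U f → St.Cob p hKU f → St.Cob p le_rfl f) :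
    OneRelator p Q := by
  have hT2 : T2Space Q := hQ.t2
  obtain ⟨X, F, _, _, _, i, π, hF, hπ, hs, hmin⟩ := exists_min (p := p) hQ
  have hFp := hF.proP
  have hT2F : T2Space F := hFp.t2
  have hχpow : ∀ (q : Q) (n : ℕ), χ (q ^ n) = n * χ q := by
    intro q n
    induction n with
    | zero => rw [pow_zero, char_one hχ, Nat.cast_zero, zero_mul]
    | succ n ih =>
      rw [pow_succ, hχ.mul, ih]
      push_cast
      ring
  -- an element of value one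
  obtain ⟨t', ht'⟩ : ∃ t' : Q, χ t' = 1 := by
    refine ⟨q₀ ^ ((χ q₀)⁻¹).val, ?_⟩
    rw [hχpow, ZMod.natCast_zmod_val, inv_mul_cancel₀ hq₀]
  obtain ⟨t, rfl⟩ := hs t'
  have hU0 : (U : Set Q) = χ ⁻¹' {0} := by
    ext q
    exact hU q
  have hUo : IsOpen (U : Set Q) := by
    rw [hU0]
    exact hχ.lc _
  have hRn : π.ker.Normal := inferInstance
  have hEχ : ∀ x, x ∈ U.comap π ↔ χ (π x) = 0 := fun x => hU _
  have hχF : IsChar p (fun x => χ (π x)) :=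
    ⟨hχ.lc.comp_continuous hπ, fun a b => by rw [map_mul, hχ.mul]⟩
  have hUn : U.Normal := by
    refine ⟨fun n hn g => ?_⟩
    rw [hU] at hn ⊢
    have h1 := hχ.mul g g⁻¹
    rw [mul_inv_cancel, char_one hχ] at h1
    rw [hχ.mul, hχ.mul, hn, add_zero, ← h1]
  have hE : ON (U.comap π) := ⟨hUn.comap π, hUo.preimage hπ⟩
  have hdim := dim_le (p := p) hFp π hπ hs U hUo hr
  obtain ⟨K₁, hK₁, hKK, hK₁U, hvK⟩ := exists_open_of hQ hK hKc hUo hKU hv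
  have hE₁ : ON (K₁.comap π) := ⟨hK₁.1.comap π, hK₁.2.preimage hπ⟩
  have hE₁E : K₁.comap π ≤ U.comap π := fun x hx => hK₁U hx
  have hRE₁ : π.ker ≤ K₁.comap π := by
    intro x hx
    rw [Subgroup.mem_comap, MonoidHom.mem_ker.1 hx]
    exact K₁.one_mem
  have hN : ∀ θ ∈ Rs p (K₁.comap π) π.ker, (∀ a ∈ U.comap π, cj p a θ = θ) →
      θ ∈ Rs p (U.comap π) π.ker := fun θ h1 h2 =>
    res_ext hFp π hπ hs hUo hKU hinj hKK hK₁U hK₁.2 θ h1 h2
  have hel : ∀ x : F, x ^ p ∈ K₁.comap π → x ∈ U.comap π := by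
    intro x hx
    rw [Subgroup.mem_comap, map_pow] at hx
    exact hvK _ hx
  have hzero : ∀ θ ∈ Rs p (K₁.comap π) π.ker, θ = 0 := fun θ hθ =>
    Rs_zero hF hE hE₁ hE₁E hRn hRE₁ (fun x => χ (π x)) hχF hEχ t ht' hmin hel hN θ hθ
  have hzE : ∀ h ∈ Hm p (U.comap π), ind p π.ker h = 0 := by
    intro h hh
    refine hzero _ ⟨ind p (K₁.comap π) h, f3_ind hh hE₁E, ?_⟩
    funext x
    by_cases hx : x ∈ π.ker
    · rw [ind_of_mem hx, ind_of_mem hx, ind_of_mem (hRE₁ hx)]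
    · rw [ind_of_notMem hx, ind_of_notMem hx]
  have hd : ∀ θ₁ ∈ Hm p π.ker, ∀ θ₂ ∈ Hm p π.ker, (∀ a, cj p a θ₁ = θ₁) →
      (∀ a, cj p a θ₂ = θ₂) →
      ∃ c₁ c₂ : ZMod p, (c₁ ≠ 0 ∨ c₂ ≠ 0) ∧ c₁ • θ₁ + c₂ • θ₂ = 0 := by
    intro θ₁ h₁ θ₂ h₂ k₁ k₂
    obtain ⟨c₁, c₂, hc, h, hh, e⟩ := hdim θ₁ θ₂ h₁ h₂ (fun a _ => k₁ a) (fun a _ => k₂ a)
    exact ⟨c₁, c₂, hc, e.trans (hzE h hh)⟩
  obtain ⟨r, hr1, hr2⟩ := exists_rel hFp π hd
  exact ⟨X, F, inferInstance, inferInstance, inferInstance, i, r, π, hF, hπ, hs, hr1, hr2⟩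

end Pool.Agent.FRS
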