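import Pool.Agent.FRS.F2
import Pool.Agent.FRS.F3

/-!
# FRS [F4]: chains with restriction steps
-/

set_option autoImplicit false

namespace Pool.Agent.FRS

open Pool.Agent.MP_6fb7ad_al Pool.Agent.ORD

variable {p : ℕ} [Fact p.Prime] {G : Type} [Group G] [TopologicalSpace G] [IsTopologicalGroup G]

/-- The isomorphism from `U` to `U.subgroupOf V`. -/
def f4_e {V U : Subgroup G} (h : U ≤ V) (w : U) : ↥(U.subgroupOf V) :=
  ⟨⟨w, h w.2⟩, Subgroup.mem_subgroupOf.2 w.2⟩

omit [IsTopologicalGroup G] in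
theorem f4_e_cont {V U : Subgroup G} (h : U ≤ V) : Continuous (f4_e h) :=
  (continuous_subtype_val.subtype_mk _).subtype_mk _

/-- The inverse. -/
def f4_i {V U : Subgroup G} (x : ↥(U.subgroupOf V)) : U := ⟨((x : V) : G), Subgroup.mem_subgroupOf.1 x.2⟩

omit [IsTopologicalGroup G] in
theorem f4_i_cont {V U : Subgroup G} : Continuous (f4_i (V := V) (U := U)) :=
  (continuous_subtype_val.comp continuous_subtype_val).subtype_mk _

/-- Transport of the injectivity of the restriction. -/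
theorem f4_inj {V U K : Subgroup G} (hUV : U ≤ V) (hKU : K ≤ U)
    (hinj : ∀ f : U → U → ZMod p, St.Coc p U f → St.Cob p hKU f → St.Cob p le_rfl f)
    (hK' : K.subgroupOf V ≤ U.subgroupOf V)
    (f : ↥(U.subgroupOf V) → ↥(U.subgroupOf V) → ZMod p)
    (hf : St.Coc p (U.subgroupOf V) f) (hc : St.Cob p hK' f) : St.Cob p le_rfl f := by
  have h1 : St.Coc p U (fun a b => f (f4_e hUV a) (f4_e hUV b)) := by
    refine ⟨?_, fun a b c => ?_⟩
    · exact hf.1.comp_continuous (((f4_e_cont hUV).comp continuous_fst).prodMk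
        ((f4_e_cont hUV).comp continuous_snd))
    · exact hf.2 (f4_e hUV a) (f4_e hUV b) (f4_e hUV c)
  have h2 : St.Cob p hKU (fun a b => f (f4_e hUV a) (f4_e hUV b)) := by
    obtain ⟨ψ, hψ, hψ'⟩ := hc
    exact ⟨fun k => ψ (f4_e (hKU.trans hUV) k), hψ.comp_continuous (f4_e_cont (hKU.trans hUV)),
      fun a b => hψ' (f4_e (hKU.trans hUV) a) (f4_e (hKU.trans hUV) b)⟩
  obtain ⟨ψ, hψ, hψ'⟩ := hinj _ h1 h2
  exact ⟨fun x => ψ (f4_i x), hψ.comp_continuous f4_i_cont, fun a b => hψ' (f4_i a) (f4_i b)⟩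

/-- As `fstep_rank` (F2), with `rstep_one` (F3) in place of `fstep_one`: `K.subgroupOf V` is the
closed normal subgroup of `V`; a cocycle `f` of `U.subgroupOf V` gives a cocycle of `U` by the
isomorphism of topological groups `Subgroup.subgroupOf` and `U` (`x ↦ ⟨(x : G), _⟩` with inverse
`w ↦ ⟨⟨w, hUV w.2⟩, _⟩`, both continuous). -/
theorem rstep_rank (hG : IsProP p G) {V U : Subgroup G} (hV : IsClosed (V : Set G))
    (h : St.RStep p V U) (hr : Module.rank (ZMod p) (H2 p U) ≤ 1) :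
    Module.rank (ZMod p) (H2 p V) ≤ 1 := by
  obtain ⟨hUV, hUo, hidx, K, hKU, hKc, hKn, hKp, hinj⟩ := h
  have hp : p.Prime := Fact.out
  have hVp : IsProP p V := isProP_sub hG V hV
  have hT2 : T2Space V := hVp.t2
  have hUc : IsClosed ((U.subgroupOf V : Subgroup V) : Set V) :=
    Subgroup.isClosed_of_isOpen _ hUo
  have hidx' : (U.subgroupOf V).index = p := hidx
  have hne : U.subgroupOf V ≠ ⊤ := by
    intro h1
    rw [h1, Subgroup.index_top] at hidx'
    exact hp.one_lt.ne hidx'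
  obtain ⟨χ, hχ, hχU, q₀, hq₀⟩ := exists_char hVp (U.subgroupOf V) hUc hne
  let H₁ : Subgroup V :=
    { carrier := {x | χ x = 0}
      mul_mem' := by
        intro a b ha hb
        show χ (a * b) = 0
        rw [hχ.mul, show χ a = 0 from ha, show χ b = 0 from hb, add_zero]
      one_mem' := char_one hχ
      inv_mem' := by
        intro a ha
        have h2 := hχ.mul a a⁻¹
        rw [mul_inv_cancel, char_one hχ, show χ a = 0 from ha, zero_add] at h2
        exact h2.symm }
  have hH₁ : ∀ x, x ∈ H₁ ↔ χ x = 0 := fun _ => Iff.rfl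
  have hle : U.subgroupOf V ≤ H₁ := fun x hx => hχU x hx
  have hmul := Subgroup.relIndex_mul_index hle
  rw [hidx'] at hmul
  have hH₁1 : H₁.index ≠ 1 := by
    intro h1
    rw [Subgroup.index_eq_one] at h1
    apply hq₀
    have h2 : q₀ ∈ H₁ := by
      rw [h1]
      exact Subgroup.mem_top _
    exact h2
  have hrel : (U.subgroupOf V).relIndex H₁ = 1 := by
    have h1 : H₁.index ∣ p := Dvd.intro_left _ hmul
    rcases (Nat.dvd_prime hp).1 h1 with h2 | h2
    · exact absurd h2 hH₁1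
    · rw [h2] at hmul
      exact Nat.eq_of_mul_eq_mul_right hp.pos (by rw [hmul, one_mul])
  have hge : H₁ ≤ U.subgroupOf V := Subgroup.relIndex_eq_one.1 hrel
  have hU : ∀ q, q ∈ U.subgroupOf V ↔ χ q = 0 := fun q => ⟨fun hq => hle hq, fun hq => hge hq⟩
  have h1 : Module.rank (ZMod p) (H2 p (U.subgroupOf V)) ≤ 1 :=
    (rank_H2_le hUV (U.subgroupOf V) fun x => Subgroup.mem_subgroupOf).trans hr
  have hK' : K.subgroupOf V ≤ U.subgroupOf V := fun x hx =>
    Subgroup.mem_subgroupOf.2 (hKU (Subgroup.mem_subgroupOf.1 hx))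
  have hKn' : (K.subgroupOf V).Normal := by
    refine ⟨fun k hk v => ?_⟩
    exact Subgroup.mem_subgroupOf.2 (hKn v v.2 k (Subgroup.mem_subgroupOf.1 hk))
  have hKc' : IsClosed ((K.subgroupOf V : Subgroup V) : Set V) :=
    hKc.preimage continuous_subtype_val
  refine rank_le_one (rstep_one hVp χ hχ q₀ hq₀ (U.subgroupOf V) hU h1 (K.subgroupOf V) hKn' hKc' hK'
    (fun v hv => ?_) (fun f hf hc => f4_inj hUV hKU hinj hK' f hf hc))
  exact Subgroup.mem_subgroupOf.2 (hKp v v.2 (Subgroup.mem_subgroupOf.1 hv))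

/-- As `main` (F2), with one more kind. -/
theorem mainR (hG : IsProP p G) (U : Subgroup G)
    (hU : Relation.ReflTransGen (fun V W => St.RStep p V W ∨ St.FStep p V W ∨
      ORD.St.NStep p V W ∨ ORD.St.ResStep V W) ⊤ U) (h : OneRelator p U) : OneRelator p G := by
  have hT2 := hG.t2
  refine oneRelator_of_rank_le hG (rank_top.trans ?_)
  have key : IsClosed (U : Set G) ∧ (Module.rank (ZMod p) (H2 p U) ≤ 1 →
      Module.rank (ZMod p) (H2 p (⊤ : Subgroup G)) ≤ 1) := by
    clear h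
    induction hU with
    | refl => exact ⟨isClosed_univ, id⟩
    | @tail V' U' h1 h2 ih =>
      have hcl : ∀ (h3 : U' ≤ V') (h4 : IsOpen ((U'.subgroupOf V' : Subgroup V') : Set V')),
          IsClosed (U' : Set G) := by
        intro h3 h4
        have h5 : (U' : Set G) = Subtype.val '' ((U'.subgroupOf V' : Subgroup V') : Set V') := by
          ext x
          constructor
          · intro hx
            exact ⟨⟨x, h3 hx⟩, hx, rfl⟩
          · rintro ⟨y, hy, rfl⟩
            exact hy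
        rw [h5]
        exact ih.1.isClosedMap_subtype_val _ (Subgroup.isClosed_of_isOpen (U'.subgroupOf V') h4)
      rcases h2 with h2 | h2 | h2 | h2
      · exact ⟨hcl h2.1 h2.2.1, fun h3 => ih.2 (rstep_rank hG ih.1 h2 h3)⟩
      · exact ⟨hcl h2.1 h2.2.1, fun h3 => ih.2 (fstep_rank hG ih.1 h2 h3)⟩
      · exact ⟨hcl h2.1 h2.2.1, fun h3 => ih.2 (dom_rank hG ih.1
          (nstep_nstep0 ih.1 (nstep_of h2)) h3)⟩
      · exact ⟨hcl h2.1 h2.2.1, fun h3 => ih.2 (dom_rank hG ih.1
          (nstep_nstep0 ih.1 (res_nstep hG ih.1 (resStep_of h2))) h3)⟩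
  exact key.2 (rank_le_one h)

end Pool.Agent.FRS
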