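import Pool.Agent.FRS.KE

/-!
# FRS [L1]: the inflation and the restriction
-/

set_option autoImplicit false

namespace Pool.Agent.FRS

open Pool.Agent.MP_6fb7ad_al Pool.Agent.ORD

variable {p : ℕ} [Fact p.Prime] {X F : Type} [Group F] [TopologicalSpace F]
  [IsTopologicalGroup F] {i : X → F}

/-- Let `π : F → Q` be a continuous surjection from a free pro-`p` group, `U` open in `Q`, and
suppose that every continuous homomorphism of `E = U.comap π` into `ZMod p` vanishes on `R = π.ker`.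
Then `H²(Q) → H²(U)` is injective. Proof. By `free_H2` (MP_6fb7ad_al.A2, with `pullZ`) there is a
locally constant `Θ : F → ZMod p` with `f (π x) (π y) = Θ x + Θ y - Θ (x * y)`. The function
`Θ - ψ ∘ π` on `E`, extended by zero, lies in `Hm p E`, so it vanishes on `R`: `Θ r = ψ 1` for
`r ∈ R`. Also `f 1 1 = ψ 1` and `f q 1 = f 1 1` for all `q` (cocycle identity), so
`Θ (x * r) = Θ x + Θ r - f (π x) 1 = Θ x`, and `Θ` descends (`ke_desc`). -/
theorem inf_inj (hF : IsFreeProP p i) {Q : Type} [Group Q] [TopologicalSpace Q]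
    [IsTopologicalGroup Q] [T2Space Q] (π : F →* Q) (hπ : Continuous π)
    (hs : Function.Surjective π) {U : Subgroup Q} (hU : IsOpen (U : Set Q))
    (hz : ∀ h ∈ Hm p (U.comap π), ind p π.ker h = 0) (f : Q → Q → ZMod p)
    (hf1 : IsLocallyConstant (fun x : Q × Q => f x.1 x.2))
    (hf2 : ∀ a b c, f b c + f a (b * c) = f (a * b) c + f a b)
    (hc : ∃ ψ : U → ZMod p, IsLocallyConstant ψ ∧ ∀ a b : U, f a b = ψ a + ψ b - ψ (a * b)) :
    ∃ ψ : Q → ZMod p, IsLocallyConstant ψ ∧ ∀ a b, f a b = ψ a + ψ b - ψ (a * b) := by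
  classical
  have hcF : CompactSpace F := hF.proP.compact
  obtain ⟨ψ, lψ, hψ⟩ := hc
  obtain ⟨Θ, lΘ, hΘ⟩ := free_H2 hF (pullZ π hπ ⟨f, hf1, hf2⟩)
  have hΘ' : ∀ x y, f (π x) (π y) = Θ x + Θ y - Θ (x * y) := hΘ
  have hEo : IsOpen ((U.comap π : Subgroup F) : Set F) := hU.preimage hπ
  let χ : U.comap π → ZMod p := fun x => Θ x - ψ ⟨π x, x.2⟩
  have hχ : IsLocallyConstant χ := by
    refine (lΘ.comp_continuous continuous_subtype_val).sub (lψ.comp_continuous (f := fun x : U.comap π => (⟨π x, x.2⟩ : U)) ?_)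
    exact Continuous.subtype_mk (hπ.comp continuous_subtype_val) _
  have mχ : ∀ x y : U.comap π, χ (x * y) = χ x + χ y := by
    intro x y
    have t1 := hΘ' x y
    have t2 := hψ ⟨π x, x.2⟩ ⟨π y, y.2⟩
    have t3 : (⟨π ((x * y : U.comap π) : F), (x * y).2⟩ : U) = ⟨π x, x.2⟩ * ⟨π y, y.2⟩ := by
      apply Subtype.ext
      show π ((x : F) * (y : F)) = π x * π y
      rw [map_mul]
    show Θ ((x : F) * (y : F)) - ψ ⟨π ((x * y : U.comap π) : F), (x * y).2⟩ =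
      Θ x - ψ ⟨π x, x.2⟩ + (Θ y - ψ ⟨π y, y.2⟩)
    rw [t3]
    have t4 : f (π x) (π y) = ψ ⟨π x, x.2⟩ + ψ ⟨π y, y.2⟩ - ψ (⟨π x, x.2⟩ * ⟨π y, y.2⟩) := t2
    linear_combination t1 - t4
  have χ1 : χ 1 = 0 := by
    have := mχ 1 1
    rw [mul_one] at this
    simpa using this
  let h : F → ZMod p := fun x => if hx : x ∈ U.comap π then χ ⟨x, hx⟩ else 0
  have h1 : ∀ x (hx : x ∈ U.comap π), h x = χ ⟨x, hx⟩ := fun x hx => dif_pos hx
  have hh : h ∈ Hm p (U.comap π) := by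
    refine ⟨fun x hx => dif_neg hx, fun x hx y hy => ?_, ?_⟩
    · rw [h1 x hx, h1 y hy, h1 _ (mul_mem hx hy)]
      exact mχ ⟨x, hx⟩ ⟨y, hy⟩
    · have o1 : IsOpen {x : U.comap π | χ x = 0} := hχ {0}
      have o2 := hEo.isOpenMap_subtype_val _ o1
      obtain ⟨V, w1, w2, w3⟩ := exists_normal_le hF.proP _ o2 ⟨1, χ1, rfl⟩
      refine ⟨V, ⟨w1, w2⟩, fun w hw => ?_⟩
      obtain ⟨x, hx, rfl⟩ := w3 hw
      rw [h1 x x.2]
      exact hx
  have hz' := hz h hh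
  have hr : ∀ r ∈ π.ker, Θ r = ψ 1 := by
    intro r hr
    have hrE : r ∈ U.comap π := by
      rw [Subgroup.mem_comap, MonoidHom.mem_ker.1 hr]
      exact U.one_mem
    have e1 := congrFun hz' r
    rw [ind_of_mem hr, h1 r hrE] at e1
    have e2 : (⟨π r, hrE⟩ : U) = 1 := Subtype.ext (MonoidHom.mem_ker.1 hr)
    have e3 : Θ r - ψ ⟨π r, hrE⟩ = 0 := e1
    rw [e2] at e3
    exact sub_eq_zero.1 e3
  have f11 : f 1 1 = ψ 1 := by
    have e1 := hψ 1 1
    rw [mul_one, add_sub_cancel_right] at e1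
    exact e1
  have fq1 : ∀ q, f q 1 = ψ 1 := by
    intro q
    have e1 := hf2 q 1 1
    rw [mul_one, mul_one, f11] at e1
    exact (add_right_cancel e1).symm
  have iΘ : ∀ x, ∀ n ∈ π.ker, Θ (x * n) = Θ x := by
    intro x n hn
    have e1 := hΘ' x n
    rw [MonoidHom.mem_ker.1 hn, fq1, hr n hn] at e1
    linear_combination e1
  obtain ⟨φ', lφ', hφ'⟩ := ke_desc π hπ hs lΘ iΘ
  refine ⟨φ', lφ', fun a b => ?_⟩
  obtain ⟨x, rfl⟩ := hs a
  obtain ⟨y, rfl⟩ := hs b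
  rw [← map_mul, ← hφ', ← hφ', ← hφ']
  exact hΘ' x y

end Pool.Agent.FRS
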