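import Pool.Agent.FRS.F3
import Pool.Agent.FRS.F4
import Pool.Agent.FRS.L1
import Pool.Agent.ORD.I2

/-!
# FRS [L2]: the restriction step for open subgroups of any index
-/

set_option autoImplicit false

namespace Pool.Agent.FRS

open Pool.Agent.MP_6fb7ad_al Pool.Agent.ORD

section

variable {p : ℕ} [Fact p.Prime] {Q : Type} [Group Q] [TopologicalSpace Q] [IsTopologicalGroup Q]

/-- `rstep_one` (F3) with one more conclusion: `H²(Q) → H²(U)` is injective. Copy the proof of
`rstep_one`; there `hzE` is the hypothesis `hz` of `inf_inj` (L1). -/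
theorem rstep_two (hQ : IsProP p Q) (χ : Q → ZMod p) (hχ : IsChar p χ) (q₀ : Q)
    (hq₀ : χ q₀ ≠ 0) (U : Subgroup Q) (hU : ∀ q, q ∈ U ↔ χ q = 0)
    (hr : Module.rank (ZMod p) (H2 p U) ≤ 1) (K : Subgroup Q) (hK : K.Normal)
    (hKc : IsClosed (K : Set Q)) (hKU : K ≤ U) (hv : ∀ v : Q, v ^ p ∈ K → v ∈ U)
    (hinj : ∀ f : U → U → ZMod p, St.Coc p U f → St.Cob p hKU f → St.Cob p le_rfl f) :
    OneRelator p Q ∧ ∀ f : Q → Q → ZMod p, IsLocallyConstant (fun x : Q × Q => f x.1 x.2) →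
      (∀ a b c, f b c + f a (b * c) = f (a * b) c + f a b) →
      (∃ ψ : U → ZMod p, IsLocallyConstant ψ ∧ ∀ a b : U, f a b = ψ a + ψ b - ψ (a * b)) →
      ∃ ψ : Q → ZMod p, IsLocallyConstant ψ ∧ ∀ a b, f a b = ψ a + ψ b - ψ (a * b) := by
  have hT2 : T2Space Q := hQ.t2
  obtain ⟨X, F, _, _, _, i, π, hF, hπ, hs, hmin⟩ := exists_min (p := p) hQ
  have hFp := hF.proP
  have hT2F : T2Space F := hFp.t2
  have hχpow : ∀ (q : Q) (n : ℕ), χ (q ^ n) = n * χ q := by
    intro q n
    induction n with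
    | zero => rw [pow_zero, char_one hχ, Nat.cast_zero, zero_mul]
    | succ n ih =>
      rw [pow_succ, hχ.mul, ih]
      push_cast
      ring
  -- an element of value one
  obtain ⟨t', ht'⟩ : ∃ t' : Q, χ t' = 1 := by
    refine ⟨q₀ ^ ((χ q₀)⁻¹).val, ?_⟩
    rw [hχpow, ZMod.natCast_zmod_val, inv_mul_cancel₀ hq₀]
  obtain ⟨t, rfl⟩ := hs t'
  have hU0 : (U : Set Q) = χ ⁻¹' {0} := by
    ext q
    exact hU q
  have hUo : IsOpen (U : Set Q) := by
    rw [hU0]
    exact hχ.lc _
  have hRn : π.ker.Normal := inferInstance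
  have hEχ : ∀ x, x ∈ U.comap π ↔ χ (π x) = 0 := fun x => hU _
  have hχF : IsChar p (fun x => χ (π x)) :=
    ⟨hχ.lc.comp_continuous hπ, fun a b => by rw [map_mul, hχ.mul]⟩
  have hUn : U.Normal := by
    refine ⟨fun n hn g => ?_⟩
    rw [hU] at hn ⊢
    have h1 := hχ.mul g g⁻¹
    rw [mul_inv_cancel, char_one hχ] at h1
    rw [hχ.mul, hχ.mul, hn, add_zero, ← h1]
  have hE : ON (U.comap π) := ⟨hUn.comap π, hUo.preimage hπ⟩
  have hdim := dim_le (p := p) hFp π hπ hs U hUo hr
  obtain ⟨K₁, hK₁, hKK, hK₁U, hvK⟩ := exists_open_of hQ hK hKc hUo hKU hv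
  have hE₁ : ON (K₁.comap π) := ⟨hK₁.1.comap π, hK₁.2.preimage hπ⟩
  have hE₁E : K₁.comap π ≤ U.comap π := fun x hx => hK₁U hx
  have hRE₁ : π.ker ≤ K₁.comap π := by
    intro x hx
    rw [Subgroup.mem_comap, MonoidHom.mem_ker.1 hx]
    exact K₁.one_mem
  have hN : ∀ θ ∈ Rs p (K₁.comap π) π.ker, (∀ a ∈ U.comap π, cj p a θ = θ) →
      θ ∈ Rs p (U.comap π) π.ker := fun θ h1 h2 =>
    res_ext hFp π hπ hs hUo hKU hinj hKK hK₁U hK₁.2 θ h1 h2
  have hel : ∀ x : F, x ^ p ∈ K₁.comap π → x ∈ U.comap π := by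
    intro x hx
    rw [Subgroup.mem_comap, map_pow] at hx
    exact hvK _ hx
  have hzero : ∀ θ ∈ Rs p (K₁.comap π) π.ker, θ = 0 := fun θ hθ =>
    Rs_zero hF hE hE₁ hE₁E hRn hRE₁ (fun x => χ (π x)) hχF hEχ t ht' hmin hel hN θ hθ
  have hzE : ∀ h ∈ Hm p (U.comap π), ind p π.ker h = 0 := by
    intro h hh
    refine hzero _ ⟨ind p (K₁.comap π) h, f3_ind hh hE₁E, ?_⟩
    funext x
    by_cases hx : x ∈ π.ker
    · rw [ind_of_mem hx, ind_of_mem hx, ind_of_mem (hRE₁ hx)]
    · rw [ind_of_notMem hx, ind_of_notMem hx]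
  have hd : ∀ θ₁ ∈ Hm p π.ker, ∀ θ₂ ∈ Hm p π.ker, (∀ a, cj p a θ₁ = θ₁) →
      (∀ a, cj p a θ₂ = θ₂) →
      ∃ c₁ c₂ : ZMod p, (c₁ ≠ 0 ∨ c₂ ≠ 0) ∧ c₁ • θ₁ + c₂ • θ₂ = 0 := by
    intro θ₁ h₁ θ₂ h₂ k₁ k₂
    obtain ⟨c₁, c₂, hc, h, hh, e⟩ := hdim θ₁ θ₂ h₁ h₂ (fun a _ => k₁ a) (fun a _ => k₂ a)
    exact ⟨c₁, c₂, hc, e.trans (hzE h hh)⟩
  obtain ⟨r, hr1, hr2⟩ := exists_rel hFp π hd
  exact ⟨⟨X, F, inferInstance, inferInstance, inferInstance, i, r, π, hF, hπ, hs, hr1, hr2⟩,
    fun f hf1 hf2 hc => inf_inj hF π hπ hs hUo hzE f hf1 hf2 hc⟩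

end

section

variable {p : ℕ} [Fact p.Prime] {G : Type} [Group G] [TopologicalSpace G] [IsTopologicalGroup G]

/-- The restriction step for open subgroups of any index. Proof: induction over the index as in
`dom_rank` (ORD.I2; copy its frame: `main : ∀ n H, IsClosed H → U ≤ H → H ≤ V → U.relIndex H ≤ n →
rank (H2 p H) ≤ 1 ∧ ∀ (h : K ≤ H) (f : H → H → ZMod p), Coc p H f → Cob p h f → Cob p le_rfl f`).
For `H = U` this is `hr` and `hinj`. Otherwise take the kernel `H₁` of a character of `H` that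
vanishes on `U` and its image `H'` in `G`; apply the induction to `H'` and `rstep_two` to
`Q = H`, `U = H₁`, `K.subgroupOf H` (transport of cocycles: `f4_inj` in F4, `rank_H2_le`). A cocycle
`f` of `H` that is a coboundary on `K` is a coboundary on `H'` by induction, hence on `H` by the
second part of `rstep_two`. -/
theorem rstep_any (hG : IsProP p G) {V U : Subgroup G} (hV : IsClosed (V : Set G)) (hUV : U ≤ V)
    (hUo : IsOpen ((U.subgroupOf V : Subgroup V) : Set V)) {K : Subgroup G} (hKU : K ≤ U)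
    (hKc : IsClosed (K : Set G)) (hKn : ∀ v ∈ V, ∀ k ∈ K, v * k * v⁻¹ ∈ K)
    (hT : ∀ v ∈ V, v ^ p ∈ K → v ∈ U)
    (hinj : ∀ f : U → U → ZMod p, St.Coc p U f → St.Cob p hKU f → St.Cob p le_rfl f)
    (hr : Module.rank (ZMod p) (H2 p U) ≤ 1) : Module.rank (ZMod p) (H2 p V) ≤ 1 := by
  have hVp : IsProP p V := isProP_sub hG V hV
  have hVc : CompactSpace V := hVp.compact
  have hfin0 : Finite (V ⧸ U.subgroupOf V) := Subgroup.quotient_finite_of_isOpen _ hUo
  have hfin : (U.subgroupOf V).FiniteIndex := Subgroup.finiteIndex_of_finite_quotient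
  have hUV0 : U.relIndex V ≠ 0 := hfin.index_ne_zero
  have hUVc : IsClosed ((U.subgroupOf V : Subgroup V) : Set V) :=
    Subgroup.isClosed_of_isOpen _ hUo
  have hUc : IsClosed (U : Set G) := by
    have h1 : (U : Set G) = Subtype.val '' ((U.subgroupOf V : Subgroup V) : Set V) := by
      ext x
      constructor
      · intro hx
        exact ⟨⟨x, hUV hx⟩, hx, rfl⟩
      · rintro ⟨y, hy, rfl⟩
        exact hy
    rw [h1]
    exact hV.isClosedMap_subtype_val _ hUVc
  have main : ∀ n : ℕ, ∀ H : Subgroup G, IsClosed (H : Set G) → ∀ hUH : U ≤ H, H ≤ V →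
      U.relIndex H ≤ n → Module.rank (ZMod p) (H2 p H) ≤ 1 ∧
        ∀ f : H → H → ZMod p, St.Coc p H f → St.Cob p (hKU.trans hUH) f →
          St.Cob p le_rfl f := by
    intro n
    induction n with
    | zero =>
      intro H hHc hUH hHV hn
      exfalso
      have h1 := Subgroup.relIndex_mul_relIndex U H V hUH hHV
      rw [Nat.le_zero.1 hn, zero_mul] at h1
      exact hUV0 h1.symm
    | succ n ih =>
      intro H hHc hUH hHV hn
      have hHp : IsProP p H := isProP_sub hG H hHc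
      have hHt : T2Space H := hHp.t2
      by_cases hUH' : H ≤ U
      · have h1 : H = U := le_antisymm hUH' hUH
        subst h1
        exact ⟨hr, hinj⟩
      have hne : U.subgroupOf H ≠ ⊤ := fun h1 => hUH' (Subgroup.subgroupOf_eq_top.1 h1)
      have hUHc : IsClosed ((U.subgroupOf H : Subgroup H) : Set H) :=
        hUc.preimage continuous_subtype_val
      obtain ⟨χ, hχ, hχU, q₀, hq₀⟩ := exists_char hHp (U.subgroupOf H) hUHc hne
      let H₁ : Subgroup H :=
        { carrier := {x | χ x = 0}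
          mul_mem' := by
            intro a b ha hb
            show χ (a * b) = 0
            rw [hχ.mul, show χ a = 0 from ha, show χ b = 0 from hb, add_zero]
          one_mem' := char_one hχ
          inv_mem' := by
            intro a ha
            have h2 := hχ.mul a a⁻¹
            rw [mul_inv_cancel, char_one hχ, show χ a = 0 from ha, zero_add] at h2
            exact h2.symm }
      have hH₁ : ∀ x, x ∈ H₁ ↔ χ x = 0 := fun _ => Iff.rfl
      let H' : Subgroup G := H₁.map H.subtype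
      have hH' : ∀ x : H, x ∈ H₁ ↔ (x : G) ∈ H' := by
        intro x
        constructor
        · intro hx
          exact ⟨x, hx, rfl⟩
        · rintro ⟨y, hy, hyx⟩
          have h2 : y = x := Subtype.ext hyx
          rw [← h2]
          exact hy
      have hUH₁ : U ≤ H' := fun x hx => (hH' ⟨x, hUH hx⟩).1 (hχU _ hx)
      have hH'H : H' ≤ H := Subgroup.map_subtype_le _
      have hH₁c : IsClosed (H₁ : Set H) := hχ.lc.isClosed_fiber 0
      have hH'c : IsClosed (H' : Set G) := by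
        have h1 : (H' : Set G) = Subtype.val '' (H₁ : Set H) := rfl
        rw [h1]
        exact hHc.isClosedMap_subtype_val _ hH₁c
      have hlt : U.relIndex H' ≤ n := by
        have h1 := Subgroup.relIndex_mul_relIndex U H' H hUH₁ hH'H
        have h2 := Subgroup.relIndex_mul_relIndex U H V hUH hHV
        have h3 : U.relIndex H ≠ 0 := by
          intro h4
          rw [h4, zero_mul] at h2
          exact hUV0 h2.symm
        have h4 : H'.relIndex H ≠ 1 := by
          intro h5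
          exact hq₀ ((hH' q₀).2 (Subgroup.relIndex_eq_one.1 h5 q₀.2))
        have h5 : H'.relIndex H ≠ 0 := by
          intro h6
          rw [h6, mul_zero] at h1
          exact h3 h1.symm
        have h6 : 2 ≤ H'.relIndex H := by omega
        have h7 : U.relIndex H' ≠ 0 := by
          intro h8
          rw [h8, zero_mul] at h1
          exact h3 h1.symm
        have h8 : U.relIndex H' * 2 ≤ U.relIndex H := by
          rw [← h1]
          exact Nat.mul_le_mul_left _ h6
        omega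
      have hKn' : (K.subgroupOf H).Normal := by
        refine ⟨fun k hk g => ?_⟩
        exact hKn g (hHV g.2) k hk
      have hKc' : IsClosed ((K.subgroupOf H : Subgroup H) : Set H) :=
        hKc.preimage continuous_subtype_val
      obtain ⟨h3, h3'⟩ := ih H' hH'c hUH₁ (hH'H.trans hHV) hlt
      have hUχ : ∀ q : H, q ∈ H'.subgroupOf H ↔ χ q = 0 := fun q =>
        (Subgroup.mem_subgroupOf.trans (hH' q).symm).trans (hH₁ q)
      have h4 : Module.rank (ZMod p) (H2 p (H'.subgroupOf H)) ≤ 1 :=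
        (rank_H2_le hH'H (H'.subgroupOf H) fun x => Subgroup.mem_subgroupOf).trans h3
      have hKH : K.subgroupOf H ≤ H'.subgroupOf H := fun x hx =>
        Subgroup.mem_subgroupOf.2 (hUH₁ (hKU (Subgroup.mem_subgroupOf.1 hx)))
      obtain ⟨hOR, hext⟩ := rstep_two hHp χ hχ q₀ hq₀ (H'.subgroupOf H) hUχ h4 (K.subgroupOf H)
        hKn' hKc' hKH (fun v hv => Subgroup.mem_subgroupOf.2
          (hUH₁ (hT v (hHV v.2) (Subgroup.mem_subgroupOf.1 hv))))
        (fun f hf hc => f4_inj hH'H (hKU.trans hUH₁) h3' hKH f hf hc)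
      refine ⟨rank_le_one hOR, fun f hf hc => ?_⟩
      refine hext f hf.1 hf.2 ?_
      have h5 : St.Coc p H' (fun a b => f ⟨a, hH'H a.2⟩ ⟨b, hH'H b.2⟩) := by
        refine ⟨?_, fun a b c => hf.2 ⟨a, hH'H a.2⟩ ⟨b, hH'H b.2⟩ ⟨c, hH'H c.2⟩⟩
        exact hf.1.comp_continuous
          (((continuous_subtype_val.comp continuous_fst).subtype_mk _).prodMk
            ((continuous_subtype_val.comp continuous_snd).subtype_mk _))
      obtain ⟨ψ, hψ, hψ'⟩ := h3' _ h5 hc
      exact ⟨fun x => ψ (f4_i x), hψ.comp_continuous f4_i_cont,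
        fun a b => hψ' (f4_i a) (f4_i b)⟩
  exact (main _ V hV hUV le_rfl le_rfl).1

end

end Pool.Agent.FRS
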