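import Pool.Agent.FRS.L8
import Pool.Agent.FRS.F2

/-!
# FRS [L9]: open subgroups with a torsion-free quotient
-/

set_option autoImplicit false

namespace Pool.Agent.FRS

open Pool.Agent.MP_6fb7ad_al Pool.Agent.ORD

variable {p : ℕ} [Fact p.Prime] {G : Type} [Group G] [TopologicalSpace G] [IsTopologicalGroup G]

/-- The second half of `inherit` (ORD.I2): copy its proof. -/
theorem inherit_nzd {H H' K : Subgroup G} (hHp : IsProP p H) (hH'p : IsProP p H') (hle : H' ≤ H)
    (hKn : (K.subgroupOf H).Normal) (H₁ : Subgroup H) (hE : ON H₁)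
    (hH' : ∀ x : H, x ∈ H₁ ↔ (x : G) ∈ H') (hKH : K.subgroupOf H ≤ H₁)
    (h2 : NZD p H (K.subgroupOf H)) : NZD p H' (K.subgroupOf H') := by
  have hT2 : T2Space H := hHp.t2
  have hj : Continuous (Subgroup.inclusion hle) := by
    refine Continuous.subtype_mk ?_ _
    exact continuous_subtype_val
  have hi : Function.Injective (Subgroup.inclusion hle) := Subgroup.inclusion_injective hle
  have hEj : ∀ q, q ∈ H₁ ↔ ∃ x, Subgroup.inclusion hle x = q := by
    intro q
    rw [hH']
    constructor
    · intro hq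
      exact ⟨⟨q, hq⟩, rfl⟩
    · rintro ⟨x, rfl⟩
      exact x.2
  have hcomap : (K.subgroupOf H).comap (Subgroup.inclusion hle) = K.subgroupOf H' := by
    ext x
    exact Iff.rfl
  have h4 : N1 p ⊤ (K.subgroupOf H) := by
    have h5 := N1_top hHp (MonoidHom.id H) continuous_id Function.surjective_id
      (K.subgroupOf H) h2
    rwa [Subgroup.comap_id] at h5
  have h6 := nzd_of_N1 hHp hH'p (Subgroup.inclusion hle) hj hi hE hEj hKH (N1_sub hKn hKH hE h4)
  rw [hcomap] at h6
  exact h6

/-- `dom_rank` (ORD.I2) without the hypothesis on the cohomological dimension: copy its proof, with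
`dstep_one` (L8) in place of `step`; the hypothesis `hT` of `dstep_one` follows from `nzd_tf` (L6),
the hypothesis `NZD p H₁ ((K.subgroupOf H).subgroupOf H₁)` from `N1_top`, `N1_sub` and `nzd_of_N1`
(with `j = H₁.subtype`), as in `inherit`. -/
theorem dstep_any (hG : IsProP p G) {V U : Subgroup G} (hV : IsClosed (V : Set G)) (hUV : U ≤ V)
    (hUo : IsOpen ((U.subgroupOf V : Subgroup V) : Set V)) {K : Subgroup G} (hKU : K ≤ U)
    (hKc : IsClosed (K : Set G)) (hKn : ∀ v ∈ V, ∀ k ∈ K, v * k * v⁻¹ ∈ K)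
    (hND : NZD p V (K.subgroupOf V))
    (hr : Module.rank (ZMod p) (H2 p U) ≤ 1) : Module.rank (ZMod p) (H2 p V) ≤ 1 := by
  have hVp : IsProP p V := isProP_sub hG V hV
  have hVc : CompactSpace V := hVp.compact
  have hfin0 : Finite (V ⧸ U.subgroupOf V) := Subgroup.quotient_finite_of_isOpen _ hUo
  have hfin : (U.subgroupOf V).FiniteIndex := Subgroup.finiteIndex_of_finite_quotient
  have hUV0 : U.relIndex V ≠ 0 := hfin.index_ne_zero
  have hUVc : IsClosed ((U.subgroupOf V : Subgroup V) : Set V) :=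
    Subgroup.isClosed_of_isOpen _ hUo
  have hUc : IsClosed (U : Set G) := by
    have h1 : (U : Set G) = Subtype.val '' ((U.subgroupOf V : Subgroup V) : Set V) := by
      ext x
      constructor
      · intro hx
        exact ⟨⟨x, hUV hx⟩, hx, rfl⟩
      · rintro ⟨y, hy, rfl⟩
        exact hy
    rw [h1]
    exact hV.isClosedMap_subtype_val _ hUVc
  have main : ∀ n : ℕ, ∀ H : Subgroup G, IsClosed (H : Set G) → U ≤ H → H ≤ V →
      U.relIndex H ≤ n → NZD p H (K.subgroupOf H) →
      Module.rank (ZMod p) (H2 p H) ≤ 1 := by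
    intro n
    induction n with
    | zero =>
      intro H hHc hUH hHV hn _
      exfalso
      have h1 := Subgroup.relIndex_mul_relIndex U H V hUH hHV
      rw [Nat.le_zero.1 hn, zero_mul] at h1
      exact hUV0 h1.symm
    | succ n ih =>
      intro H hHc hUH hHV hn hND
      have hHp : IsProP p H := isProP_sub hG H hHc
      have hHt : T2Space H := hHp.t2
      by_cases hUH' : H ≤ U
      · have h1 : H = U := le_antisymm hUH' hUH
        rw [h1]
        exact hr
      have hne : U.subgroupOf H ≠ ⊤ := fun h1 => hUH' (Subgroup.subgroupOf_eq_top.1 h1)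
      have hUHc : IsClosed ((U.subgroupOf H : Subgroup H) : Set H) :=
        hUc.preimage continuous_subtype_val
      obtain ⟨χ, hχ, hχU, q₀, hq₀⟩ := exists_char hHp (U.subgroupOf H) hUHc hne
      let H₁ : Subgroup H :=
        { carrier := {x | χ x = 0}
          mul_mem' := by
            intro a b ha hb
            show χ (a * b) = 0
            rw [hχ.mul, show χ a = 0 from ha, show χ b = 0 from hb, add_zero]
          one_mem' := char_one hχ
          inv_mem' := by
            intro a ha
            have h2 := hχ.mul a a⁻¹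
            rw [mul_inv_cancel, char_one hχ, show χ a = 0 from ha, zero_add] at h2
            exact h2.symm }
      have hH₁ : ∀ x, x ∈ H₁ ↔ χ x = 0 := fun _ => Iff.rfl
      let H' : Subgroup G := H₁.map H.subtype
      have hH' : ∀ x : H, x ∈ H₁ ↔ (x : G) ∈ H' := by
        intro x
        constructor
        · intro hx
          exact ⟨x, hx, rfl⟩
        · rintro ⟨y, hy, hyx⟩
          have h2 : y = x := Subtype.ext hyx
          rw [← h2]
          exact hy
      have hUH₁ : U ≤ H' := fun x hx => (hH' ⟨x, hUH hx⟩).1 (hχU _ hx)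
      have hH'H : H' ≤ H := Subgroup.map_subtype_le _
      have hH₁c : IsClosed (H₁ : Set H) := hχ.lc.isClosed_fiber 0
      have hH'c : IsClosed (H' : Set G) := by
        have h1 : (H' : Set G) = Subtype.val '' (H₁ : Set H) := rfl
        rw [h1]
        exact hHc.isClosedMap_subtype_val _ hH₁c
      have hE : ON H₁ := by
        refine ⟨⟨fun m hm g => ?_⟩, hχ.lc.isOpen_fiber 0⟩
        rw [hH₁] at hm ⊢
        have h1 := hχ.mul g g⁻¹
        rw [mul_inv_cancel, char_one hχ] at h1
        rw [hχ.mul, hχ.mul, hm, add_zero, ← h1]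
      have hlt : U.relIndex H' ≤ n := by
        have h1 := Subgroup.relIndex_mul_relIndex U H' H hUH₁ hH'H
        have h2 := Subgroup.relIndex_mul_relIndex U H V hUH hHV
        have h3 : U.relIndex H ≠ 0 := by
          intro h4
          rw [h4, zero_mul] at h2
          exact hUV0 h2.symm
        have h4 : H'.relIndex H ≠ 1 := by
          intro h5
          exact hq₀ ((hH' q₀).2 (Subgroup.relIndex_eq_one.1 h5 q₀.2))
        have h5 : H'.relIndex H ≠ 0 := by
          intro h6
          rw [h6, mul_zero] at h1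
          exact h3 h1.symm
        have h6 : 2 ≤ H'.relIndex H := by omega
        have h7 : U.relIndex H' ≠ 0 := by
          intro h8
          rw [h8, zero_mul] at h1
          exact h3 h1.symm
        have h8 : U.relIndex H' * 2 ≤ U.relIndex H := by
          rw [← h1]
          exact Nat.mul_le_mul_left _ h6
        omega
      have hKn' : (K.subgroupOf H).Normal := by
        refine ⟨fun k hk g => ?_⟩
        exact hKn g (hHV g.2) k hk
      have hKc' : IsClosed ((K.subgroupOf H : Subgroup H) : Set H) :=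
        hKc.preimage continuous_subtype_val
      have hKH : K.subgroupOf H ≤ H₁ := fun k hk => hχU k (hKU hk)
      have h10 := inherit_nzd hHp (isProP_sub hG H' hH'c) hH'H hKn' H₁ hE hH' hKH hND
      have h3 := ih H' hH'c hUH₁ (hH'H.trans hHV) hlt h10
      have h4 : Module.rank (ZMod p) (H2 p H₁) ≤ 1 := (rank_H2_le hH'H H₁ hH').trans h3
      have h5 : N1 p ⊤ (K.subgroupOf H) := by
        have h6 := N1_top hHp (MonoidHom.id H) continuous_id Function.surjective_id
          (K.subgroupOf H) hND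
        rwa [Subgroup.comap_id] at h6
      have h7 : NZD p H₁ ((K.subgroupOf H).subgroupOf H₁) :=
        nzd_of_N1 hHp (isProP_sub hHp H₁ hH₁c) H₁.subtype continuous_subtype_val
          Subtype.val_injective hE
          (fun q => ⟨fun hq => ⟨⟨q, hq⟩, rfl⟩, by rintro ⟨x, rfl⟩; exact x.2⟩) hKH
          (N1_sub hKn' hKH hE h5)
      exact rank_le_one (dstep_one hHp (K.subgroupOf H) hKn' hKc' χ hχ
        (fun k hk => hχU k (hKU hk)) q₀ hq₀
        (fun q hq => hχU q (hKU (nzd_tf hHp (K.subgroupOf H) hKn' hKc' hND q hq)))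
        H₁ hH₁ h7 h4)
  exact main _ V hV hUV le_rfl le_rfl hND

omit [Fact p.Prime] in
/-- Transport of `NZD` by an isomorphism of topological groups. -/
theorem l9_transport {P P' : Type} [Group P] [TopologicalSpace P] [Group P']
    [TopologicalSpace P'] (e : P ≃* P') (he : Continuous e) (he' : Continuous e.symm)
    (N' : Subgroup P') (N : Subgroup P) (hN : ∀ x, x ∈ N ↔ e x ∈ N') (h : NZD p P N) :
    NZD p P' N' := by
  intro μ ν hμ hν
  obtain ⟨φ₁, hφ₁, h1⟩ := hμ
  obtain ⟨φ₂, hφ₂, h2⟩ := hν
  have key : ∀ φ ∈ LC p P' N', (fun x => φ (e x)) ∈ LC p P N := by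
    rintro φ ⟨h3, h4⟩
    refine ⟨h3.comp_continuous he, fun x n hn => ?_⟩
    show φ (e (x * n)) = φ (e x)
    rw [map_mul]
    exact h4 _ _ ((hN n).1 hn)
  have key' : ∀ φ ∈ LC p P N, (fun x => φ (e.symm x)) ∈ LC p P' N' := by
    rintro φ ⟨h3, h4⟩
    refine ⟨h3.comp_continuous he', fun x n hn => ?_⟩
    show φ (e.symm (x * n)) = φ (e.symm x)
    rw [map_mul]
    refine h4 _ _ ((hN _).2 ?_)
    rwa [MulEquiv.apply_symm_apply]
  let T : (P → ZMod p) →ₗ[ZMod p] (P' → ZMod p) := LinearMap.funLeft (ZMod p) (ZMod p) e.symm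
  have hT : ∀ (f : P → ZMod p), T f = fun x => f (e.symm x) := fun _ => rfl
  have hT' : ∀ (f : P' → ZMod p), T (fun x => f (e x)) = f := by
    intro f
    rw [hT]
    funext x
    show f (e (e.symm x)) = f x
    rw [MulEquiv.apply_symm_apply]
  obtain ⟨φ, hφ, h3⟩ := h (μ.comp T) (ν.comp T)
    ⟨fun x => φ₁ (e x), key _ hφ₁, by rwa [LinearMap.comp_apply, hT']⟩
    ⟨fun x => φ₂ (e x), key _ hφ₂, by rwa [LinearMap.comp_apply, hT']⟩
  refine ⟨fun x => φ (e.symm x), key' _ hφ, ?_⟩
  intro h4
  apply h3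
  rw [LinearMap.comp_apply, hT, ← h4]
  congr 1
  funext y
  rw [LinearMap.comp_apply, hT]
  congr 1
  funext x
  show φ (e.symm x * e.symm y) = φ (e.symm (x * y))
  rw [map_mul]

/-- The isomorphism from `U` to `U.subgroupOf V`. -/
def l9_e {V U : Subgroup G} (h : U ≤ V) : U ≃* ↥(U.subgroupOf V) where
  toFun w := ⟨⟨w, h w.2⟩, Subgroup.mem_subgroupOf.2 w.2⟩
  invFun x := ⟨((x : V) : G), Subgroup.mem_subgroupOf.1 x.2⟩
  left_inv _ := rfl
  right_inv _ := rfl
  map_mul' _ _ := rfl

/-- The step of index `p` in which `V / K` has no elements of order `p` and the group algebra of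
`U / K` has no zero divisors: as `fstep_rank` (F2), with `dstep_one` (L8) in place of `fstep_one`;
transport of `NZD` from `U` to `U.subgroupOf V` by the isomorphism of topological groups
(`f4_e`, `f4_i` in F4 are the two maps). -/
theorem dstep_rank (hG : IsProP p G) {V U : Subgroup G} (hV : IsClosed (V : Set G)) (hUV : U ≤ V)
    (hUo : IsOpen ((U.subgroupOf V : Subgroup V) : Set V)) (hidx : U.relIndex V = p)
    {K : Subgroup G} (hKU : K ≤ U)
    (hKc : IsClosed (K : Set G)) (hKn : ∀ v ∈ V, ∀ k ∈ K, v * k * v⁻¹ ∈ K)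
    (hT : ∀ v ∈ V, v ^ p ∈ K → v ∈ U) (hND : NZD p U (K.subgroupOf U))
    (hr : Module.rank (ZMod p) (H2 p U) ≤ 1) : Module.rank (ZMod p) (H2 p V) ≤ 1 := by
  have hp : p.Prime := Fact.out
  have hVp : IsProP p V := isProP_sub hG V hV
  have hT2 : T2Space V := hVp.t2
  have hUc : IsClosed ((U.subgroupOf V : Subgroup V) : Set V) :=
    Subgroup.isClosed_of_isOpen _ hUo
  have hidx' : (U.subgroupOf V).index = p := hidx
  have hne : U.subgroupOf V ≠ ⊤ := by
    intro h1
    rw [h1, Subgroup.index_top] at hidx'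
    exact hp.one_lt.ne hidx'
  obtain ⟨χ, hχ, hχU, q₀, hq₀⟩ := exists_char hVp (U.subgroupOf V) hUc hne
  let H₁ : Subgroup V :=
    { carrier := {x | χ x = 0}
      mul_mem' := by
        intro a b ha hb
        show χ (a * b) = 0
        rw [hχ.mul, show χ a = 0 from ha, show χ b = 0 from hb, add_zero]
      one_mem' := char_one hχ
      inv_mem' := by
        intro a ha
        have h2 := hχ.mul a a⁻¹
        rw [mul_inv_cancel, char_one hχ, show χ a = 0 from ha, zero_add] at h2
        exact h2.symm }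
  have hH₁ : ∀ x, x ∈ H₁ ↔ χ x = 0 := fun _ => Iff.rfl
  have hle : U.subgroupOf V ≤ H₁ := fun x hx => hχU x hx
  have hmul := Subgroup.relIndex_mul_index hle
  rw [hidx'] at hmul
  have hH₁1 : H₁.index ≠ 1 := by
    intro h1
    rw [Subgroup.index_eq_one] at h1
    apply hq₀
    have h2 : q₀ ∈ H₁ := by
      rw [h1]
      exact Subgroup.mem_top _
    exact h2
  have hrel : (U.subgroupOf V).relIndex H₁ = 1 := by
    have h1 : H₁.index ∣ p := Dvd.intro_left _ hmul
    rcases (Nat.dvd_prime hp).1 h1 with h2 | h2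
    · exact absurd h2 hH₁1
    · rw [h2] at hmul
      exact Nat.eq_of_mul_eq_mul_right hp.pos (by rw [hmul, one_mul])
  have hge : H₁ ≤ U.subgroupOf V := Subgroup.relIndex_eq_one.1 hrel
  have hU : ∀ q, q ∈ U.subgroupOf V ↔ χ q = 0 := fun q => ⟨fun hq => hle hq, fun hq => hge hq⟩
  have h1 : Module.rank (ZMod p) (H2 p (U.subgroupOf V)) ≤ 1 :=
    (rank_H2_le hUV (U.subgroupOf V) fun x => Subgroup.mem_subgroupOf).trans hr
  have hK' : K.subgroupOf V ≤ U.subgroupOf V := fun x hx =>
    Subgroup.mem_subgroupOf.2 (hKU (Subgroup.mem_subgroupOf.1 hx))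
  have hKn' : (K.subgroupOf V).Normal := by
    refine ⟨fun k hk v => ?_⟩
    exact Subgroup.mem_subgroupOf.2 (hKn v v.2 k (Subgroup.mem_subgroupOf.1 hk))
  have hKc' : IsClosed ((K.subgroupOf V : Subgroup V) : Set V) :=
    hKc.preimage continuous_subtype_val
  have h2 : NZD p ↥(U.subgroupOf V) ((K.subgroupOf V).subgroupOf (U.subgroupOf V)) :=
    l9_transport (l9_e hUV) ((continuous_subtype_val.subtype_mk _).subtype_mk _)
      ((continuous_subtype_val.comp continuous_subtype_val).subtype_mk _) _ (K.subgroupOf U)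
      (fun _ => Iff.rfl) hND
  refine rank_le_one (dstep_one hVp (K.subgroupOf V) hKn' hKc' χ hχ
    (fun k hk => (hU k).1 (hK' hk)) q₀ hq₀ (fun q hq => (hU q).1 ?_) (U.subgroupOf V) hU h2 h1)
  exact Subgroup.mem_subgroupOf.2 (hT q q.2 (Subgroup.mem_subgroupOf.1 hq))

end Pool.Agent.FRS
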