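import Pool.Agent.FRS.T5

/-!
# FRS [KF]: projectivity over a finite `p`-group is detected by its elements of order `p`
-/

set_option autoImplicit false

namespace Pool.Agent.FRS

section

variable {p : ℕ} {P : Type} [Group P] [Fintype P] {M : Type} [AddCommGroup M]
  [Module (ZMod p) M]

/-- transfer to a subgroup -/
theorem PTr_sub (ρ : P →* Module.End (ZMod p) M) (H : Subgroup P) [Fintype H] (H' : Subgroup H)
    (l : Module.End (ZMod p) M) :
    PTr (ρ.comp H.subtype) H' l = PTr ρ (H'.map H.subtype) l := by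
  classical
  rw [PTr_eq, PTr_eq]
  refine Fintype.sum_of_injective (fun h : H => (h : P)) Subtype.val_injective _ _
    (fun x hx => ?_) fun h => ?_
  · refine if_neg fun h => hx ?_
    obtain ⟨y, _, hy⟩ := Subgroup.mem_map.1 h
    exact ⟨y, hy⟩
  · by_cases hh : h ∈ H'
    · have hh' : (h : P) ∈ H'.map H.subtype := Subgroup.mem_map_of_mem H.subtype hh
      rw [if_pos hh, if_pos hh']
      rfl
    · rw [if_neg hh, if_neg]
      intro h1
      obtain ⟨y, hy, hy'⟩ := Subgroup.mem_map.1 h1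
      have e : y = h := Subtype.ext hy'
      rw [e] at hy
      exact hh hy

theorem PJ_sub (ρ : P →* Module.End (ZMod p) M) (H : Subgroup P) [Fintype H] (H' : Subgroup H) :
    PJ (ρ.comp H.subtype) H' ↔ PJ ρ (H'.map H.subtype) := by
  constructor
  · rintro ⟨l, hl⟩
    exact ⟨l, by rw [← PTr_sub, hl]⟩
  · rintro ⟨l, hl⟩
    exact ⟨l, by rw [PTr_sub, hl]⟩

/-- the decomposition in cosets -/
noncomputable def cosetEquiv (H : Subgroup P) : P ≃ (P ⧸ H) × H where
  toFun x := ((x : P ⧸ H), ⟨(x : P ⧸ H).out⁻¹ * x, QuotientGroup.eq.1 (QuotientGroup.out_eq' _)⟩)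
  invFun q := q.1.out * q.2
  left_inv x := by
    show (x : P ⧸ H).out * ((x : P ⧸ H).out⁻¹ * x) = x
    rw [mul_inv_cancel_left]
  right_inv q := by
    have h1 : ((q.1.out * q.2 : P) : P ⧸ H) = q.1 := by
      conv_rhs => rw [← QuotientGroup.out_eq' q.1]
      refine QuotientGroup.eq.2 ?_
      rw [mul_inv_rev, inv_mul_cancel_right]
      exact inv_mem q.2.2
    refine Prod.ext h1 (Subtype.ext ?_)
    show ((q.1.out * q.2 : P) : P ⧸ H).out⁻¹ * (q.1.out * q.2) = q.2
    rw [h1, inv_mul_cancel_left]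

theorem PJ_top_mono (ρ : P →* Module.End (ZMod p) M) (h : PJ ρ ⊤) (H : Subgroup P) : PJ ρ H := by
  classical
  obtain ⟨l, hl⟩ := h
  have hfin : Fintype (P ⧸ H) := Fintype.ofFinite _
  have hfin2 : Fintype H := Fintype.ofFinite _
  refine ⟨∑ q : P ⧸ H, ρ q.out⁻¹ * l * ρ q.out, ?_⟩
  rw [← hl, PTr_eq, PTr_eq]
  have h1 : ∑ h : P, (if h ∈ (⊤ : Subgroup P) then ρ h * l * ρ h⁻¹ else 0) =
      ∑ q : (P ⧸ H) × H, ρ (q.1.out * q.2)⁻¹ * l * ρ (q.1.out * q.2) := by
    refine Fintype.sum_equiv ((Equiv.inv P).trans (cosetEquiv H)) _ _ fun x => ?_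
    rw [if_pos (Subgroup.mem_top x)]
    have h2 : ((((Equiv.inv P).trans (cosetEquiv H)) x).1.out *
        ((((Equiv.inv P).trans (cosetEquiv H)) x).2 : P) : P) = x⁻¹ :=
      (cosetEquiv H).left_inv x⁻¹
    rw [h2, inv_inv]
  have h3 : ∑ h : P, (if h ∈ H then
      ρ h * (∑ q : P ⧸ H, ρ q.out⁻¹ * l * ρ q.out) * ρ h⁻¹ else 0) =
      ∑ h : H, ρ (h : P)⁻¹ * (∑ q : P ⧸ H, ρ q.out⁻¹ * l * ρ q.out) * ρ (h : P) := by
    symm
    refine Fintype.sum_of_injective (fun h : H => (h : P)⁻¹)
      (fun a b hab => Subtype.ext (inv_injective hab)) _ _ (fun x hx => ?_) fun h => ?_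
    · refine if_neg fun h => hx ⟨⟨x⁻¹, inv_mem h⟩, ?_⟩
      exact inv_inv x
    · rw [if_pos (inv_mem h.2), inv_inv]
  rw [h1, h3, Fintype.sum_prod_type_right]
  refine Finset.sum_congr rfl fun h _ => ?_
  rw [Finset.mul_sum, Finset.sum_mul]
  refine Finset.sum_congr rfl fun q _ => ?_
  rw [mul_inv_rev, map_mul, map_mul]
  simp only [mul_assoc]

theorem PJ_mono (ρ : P →* Module.End (ZMod p) M) {H D : Subgroup P} (hHD : H ≤ D) (h : PJ ρ D) :
    PJ ρ H := by
  have hfin : Fintype D := Fintype.ofFinite _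
  have h1 : PJ (ρ.comp D.subtype) ⊤ := by
    rw [PJ_sub, ← MonoidHom.range_eq_map, Subgroup.range_subtype]
    exact h
  have h2 := PJ_top_mono _ h1 (H.subgroupOf D)
  rw [PJ_sub, Subgroup.subgroupOf_map_subtype, inf_eq_left.2 hHD] at h2
  exact h2

end

variable {p : ℕ} [Fact p.Prime] {P : Type} [Group P] [Fintype P] {M : Type} [AddCommGroup M]
  [Module (ZMod p) M]

/-- If `M` is projective over the subgroup `D` of the finite `p`-group `P` and `D` contains all
elements of order `p` then `M` is projective over `P`. -/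
theorem FT (hP : IsPGroup p P) (ρ : P →* Module.End (ZMod p) M) (D : Subgroup P) (hD : PJ ρ D)
    (hel : ∀ g : P, g ^ p = 1 → g ∈ D) : PJ ρ ⊤ := by
  classical
  have hp : p.Prime := Fact.out
  have key : ∀ (n : ℕ) (H : Subgroup P), Nat.card H = n → PJ ρ H := by
    intro n
    induction n using Nat.strong_induction_on with
    | _ n ih =>
      intro H hH
      by_cases hHD : H ≤ D
      · exact PJ_mono ρ hHD hD
      · obtain ⟨g, hgH, hgD⟩ := SetLike.not_le_iff_exists.1 hHD
        have hfin : Fintype H := Fintype.ofFinite _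
        have hg1 : g ^ p ≠ 1 := fun h => hgD (hel g h)
        obtain ⟨k, hk⟩ := (IsPGroup.iff_orderOf.1 hP) g
        have hk2 : 2 ≤ k := by
          by_contra hlt
          apply hg1
          rw [← orderOf_dvd_iff_pow_eq_one, hk]
          calc p ^ k ∣ p ^ 1 := pow_dvd_pow p (by omega)
            _ = p := pow_one p
        have hord : p ^ 2 ∣ orderOf (⟨g, hgH⟩ : H) := by
          rw [Subgroup.orderOf_mk, hk]
          exact pow_dvd_pow p hk2
        have h1 : PJ (ρ.comp H.subtype) ⊤ := by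
          refine KT (ρ.comp H.subtype) ⟨g, hgH⟩ hord fun H' hH' => ?_
          rw [PJ_sub]
          refine ih _ ?_ (H'.map H.subtype) rfl
          rw [← hH, Subgroup.card_map_of_injective (Subgroup.subtype_injective H)]
          exact lt_of_le_of_ne (Subgroup.card_le_card_group H')
            fun h => hH' (Subgroup.eq_top_of_card_eq H' h)
        rw [PJ_sub, ← MonoidHom.range_eq_map, Subgroup.range_subtype] at h1
        exact h1
  exact key _ ⊤ rfl

end Pool.Agent.FRS
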