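import Pool.Agent.FRS.L4
import Pool.Agent.FRS.KF
import Pool.Agent.FRS.KG
import Pool.Agent.ORD.Def

/-!
# FRS [L5]: the first cohomology of the whole group
-/

set_option autoImplicit false

namespace Pool.Agent.FRS

open Pool.Agent.MP_6fb7ad_al Pool.Agent.ORD

variable {p : ℕ} [Fact p.Prime] {F : Type} [Group F] [TopologicalSpace F] [IsTopologicalGroup F]

omit [TopologicalSpace F] [IsTopologicalGroup F] in
/-- the action of `F ⧸ E₁` on a stable subspace of the vectors fixed by `E₁` -/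
theorem l5_rho {E₁ : Subgroup F} [hE₁ : E₁.Normal] {M : Type} [AddCommGroup M]
    [Module (ZMod p) M] (α : F →* Module.End (ZMod p) M) (M₁ : Submodule (ZMod p) M)
    (hst : ∀ a, ∀ m ∈ M₁, α a m ∈ M₁) (hfix : ∀ e ∈ E₁, ∀ m ∈ M₁, α e m = m) :
    ∃ ρ : (F ⧸ E₁) →* Module.End (ZMod p) M₁, ∀ (a : F) (m : M₁),
      ((ρ (QuotientGroup.mk a) m : M₁) : M) = α a m := by
  let ρ₀ : F →* Module.End (ZMod p) M₁ :=
    { toFun := fun a => (α a).restrict fun m hm => hst a m hm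
      map_one' := by
        refine LinearMap.ext fun m => Subtype.ext ?_
        show α 1 (m : M) = m
        rw [map_one]
        rfl
      map_mul' := fun a b => by
        refine LinearMap.ext fun m => Subtype.ext ?_
        show α (a * b) (m : M) = α a (α b m)
        rw [map_mul]
        rfl }
  have h0 : ∀ a ∈ E₁, ρ₀ a = 1 := by
    intro a ha
    refine LinearMap.ext fun m => Subtype.ext ?_
    exact hfix a ha m m.2
  exact ⟨QuotientGroup.lift E₁ ρ₀ h0, fun a m => rfl⟩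

/-- crossed homomorphisms of a finite group into a projective module are trivial -/
theorem l5_coh {P : Type} [Group P] [Fintype P] {M : Type} [AddCommGroup M]
    [Module (ZMod p) M] (ρ : P →* Module.End (ZMod p) M) (h : PJ ρ ⊤) (c : P → M)
    (hc : ∀ a b, c (a * b) = c a + ρ a (c b)) : ∃ m, ∀ a, c a = ρ a m - m := by
  obtain ⟨l, hl⟩ := h
  have e1 : ∀ m : M, ∑ h : P, ρ h (l (ρ h⁻¹ m)) = m := by
    intro m
    have h2 := congrArg (fun f : Module.End (ZMod p) M => f m) hl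
    simp only [PTr, LinearMap.sum_apply, Module.End.mul_apply, Module.End.one_apply,
      Subgroup.mem_top, Finset.filter_true] at h2
    exact h2
  refine ⟨∑ h : P, ρ h (l (c h⁻¹)), fun x => ?_⟩
  have e2 : ρ x (∑ h : P, ρ h (l (c h⁻¹))) = ∑ k : P, ρ k (l (c (k⁻¹ * x))) := by
    rw [map_sum]
    have e3 : ∀ h : P, ρ x (ρ h (l (c h⁻¹))) = ρ (x * h) (l (c ((x * h)⁻¹ * x))) := by
      intro h
      have e4 : (x * h)⁻¹ * x = h⁻¹ := by group
      rw [e4, map_mul]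
      rfl
    rw [Finset.sum_congr rfl fun h _ => e3 h]
    exact Fintype.sum_equiv (Equiv.mulLeft x) _ (fun k => ρ k (l (c (k⁻¹ * x)))) fun h => rfl
  have e5 : ∑ k : P, ρ k (l (c (k⁻¹ * x))) =
      ∑ k : P, ρ k (l (c k⁻¹)) + ∑ k : P, ρ k (l (ρ k⁻¹ (c x))) := by
    rw [← Finset.sum_add_distrib]
    refine Finset.sum_congr rfl fun k _ => ?_
    rw [hc, map_add, map_add]
  rw [e2, e5, e1]
  abel

/-- Let `E` be open normal in the pro-`p` group `F`, `L ≤ E` closed normal in `F` and suppose that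
`x ^ p ∈ L` implies `x ∈ E`. Let `𝔑` be a module on which `L` acts trivially with `H¹(E / L, 𝔑) = 0`.
Then `H¹(F / L, 𝔑) = 0`.
Proof. Given `c`, take `K₁` from `exists_open_of` (KG, for `Q = F`, `K = L`, `W = E`) and let
`E₁ = K₁ ⊓ (W ⊔ L)`: open normal in `F`, `L ≤ E₁ ≤ E`, `x ^ p ∈ E₁` implies `x ∈ E`, and `c`
vanishes on `E₁`. Let `P = F ⧸ E₁` (finite `p`-group, `quot_fin`), `M₁ = 𝔑 ⊓ fx α E₁`, with the
action of `P` induced by `α` (compare `kd_rho` in KD; `M₁` is stable as `E₁` is normal), and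
`D = E.map (QuotientGroup.mk' E₁)`. `PJ ρ D` holds by `PJ_sub` (KF) and `pj_of_h1` (L4): a crossed
homomorphism `c'` of `D` into `M₁` gives one of `E` into `𝔑` vanishing on `E₁`, so it is
`a ↦ α a m - m`, and `m` is fixed by `E₁`. By `FT` (KF) `PJ ρ ⊤`: `∑ h, ρ h * l * ρ h⁻¹ = 1`. The
values of `c` lie in `M₁` (`c (e * x) = α e (c x)` and `c (e * x) = c (x * (x⁻¹ * e * x)) = c x` for
`e ∈ E₁`) and `c` factors over `P`, `c x = c' (mk x)`. With `m = ∑ h, ρ h (l (c' h⁻¹))`: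
`ρ x m = ∑ h, ρ (x * h) (l (c' h⁻¹)) = ∑ k, ρ k (l (c' (k⁻¹ * x))) =
∑ k, ρ k (l (c' k⁻¹ + ρ k⁻¹ (c' x))) = m + c' x`. -/
theorem h1_all_FT (hF : IsProP p F) {L E : Subgroup F} (hL : L.Normal)
    (hLc : IsClosed (L : Set F)) (hLE : L ≤ E) (hE : ON E) (hT : ∀ x : F, x ^ p ∈ L → x ∈ E)
    {M : Type} [AddCommGroup M] [Module (ZMod p) M] (α : F →* Module.End (ZMod p) M)
    (𝔑 : Submodule (ZMod p) M) (hst : ∀ a, ∀ m ∈ 𝔑, α a m ∈ 𝔑)
    (hk : ∀ v ∈ L, ∀ m ∈ 𝔑, α v m = m)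
    (h1 : ∀ c : F → M, (∀ a ∈ E, c a ∈ 𝔑) →
      (∀ a ∈ E, ∀ b ∈ E, c (a * b) = c a + α a (c b)) → (∀ v ∈ L, c v = 0) →
      (∃ W : Subgroup F, ON W ∧ ∀ w ∈ W, w ∈ E → c w = 0) → ∃ m ∈ 𝔑, ∀ a ∈ E, c a = α a m - m) :
    ∀ c : F → M, (∀ f, c f ∈ 𝔑) → (∀ f g, c (f * g) = c f + α f (c g)) →
      (∀ v ∈ L, c v = 0) → (∃ W : Subgroup F, ON W ∧ ∀ w ∈ W, c w = 0) →
      ∃ m ∈ 𝔑, ∀ f, c f = α f m - m := by
  classical
  intro c hc1 hc2 hc3 hc4
  obtain ⟨W, hW, hcW⟩ := hc4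
  obtain ⟨K₁, hK₁, hLK, hKE, hKp⟩ := exists_open_of hF hL hLc hE.2 hLE hT
  have hWn := hW.1
  have hK₁n := hK₁.1
  obtain ⟨E₁, hE₁def⟩ : ∃ E₁ : Subgroup F, E₁ = K₁ ⊓ (W ⊔ L) := ⟨_, rfl⟩
  have hE₁ : ON E₁ := by
    rw [hE₁def]
    exact hK₁.inf ⟨Subgroup.sup_normal _ _, Subgroup.isOpen_mono le_sup_left hW.2⟩
  have hn : E₁.Normal := hE₁.1
  have hLE₁ : L ≤ E₁ := by
    rw [hE₁def]
    exact le_inf hLK le_sup_right
  have hE₁E : E₁ ≤ E := by
    rw [hE₁def]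
    exact inf_le_left.trans hKE
  have hel : ∀ x : F, x ^ p ∈ E₁ → x ∈ E := by
    intro x hx
    rw [hE₁def] at hx
    exact hKp x hx.1
  have hcE : ∀ e ∈ E₁, c e = 0 := by
    intro e he
    rw [hE₁def] at he
    have h2 : e ∈ W ⊔ L := he.2
    rw [← SetLike.mem_coe, Subgroup.mul_normal W L] at h2
    obtain ⟨w, hw, v, hv, rfl⟩ := h2
    show c (w * v) = 0
    rw [hc2, hcW w hw, hc3 v hv, map_zero, add_zero]
  obtain ⟨hfin, hpg⟩ := quot_fin hF E₁ hE₁.2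
  have hft : Fintype (F ⧸ E₁) := Fintype.ofFinite _
  obtain ⟨M₁, hM₁⟩ : ∃ M₁ : Submodule (ZMod p) M, ∀ m, m ∈ M₁ ↔ m ∈ 𝔑 ∧ ∀ e ∈ E₁, α e m = m :=
    ⟨𝔑 ⊓ fx α E₁, fun m => Iff.rfl⟩
  have hst₁ : ∀ a, ∀ m ∈ M₁, α a m ∈ M₁ := by
    intro a m hm
    rw [hM₁] at hm ⊢
    refine ⟨hst a m hm.1, fun e he => ?_⟩
    have e1 : α e (α a m) = α a (α (a⁻¹ * e * a) m) := by
      have h2 : α (e * a) m = α (a * (a⁻¹ * e * a)) m := by
        congr 2
        group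
      rw [map_mul, map_mul α a] at h2
      exact h2
    rw [e1, hm.2 _ (hE₁.conj he a)]
  obtain ⟨ρ, hρ⟩ := l5_rho (p := p) (E₁ := E₁) α M₁ hst₁ fun e he m hm => ((hM₁ m).1 hm).2 e he
  have hmemD : ∀ a : F, (QuotientGroup.mk a : F ⧸ E₁) ∈ E.map (QuotientGroup.mk' E₁) ↔
      a ∈ E := by
    intro a
    constructor
    · rintro ⟨e, he, hea⟩
      have h2 : (QuotientGroup.mk e : F ⧸ E₁) = QuotientGroup.mk a := hea
      rw [QuotientGroup.eq] at h2
      have h3 := E.mul_mem he (hE₁E h2)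
      rwa [mul_inv_cancel_left] at h3
    · intro ha
      exact ⟨a, ha, rfl⟩
  obtain ⟨D, hDdef⟩ : ∃ D : Subgroup (F ⧸ E₁), D = E.map (QuotientGroup.mk' E₁) := ⟨_, rfl⟩
  rw [← hDdef] at hmemD
  -- the subgroup
  have hPD : PJ ρ D := by
    have h2 : PJ (ρ.comp D.subtype) ⊤ := by
      refine pj_of_h1 (hpg.to_subgroup D) (ρ.comp D.subtype) fun c' hc' => ?_
      have hc'1 : c' 1 = 0 := by
        have h3 := hc' 1 1
        rw [mul_one, map_one] at h3
        exact left_eq_add.mp h3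
      obtain ⟨cE, hcE0⟩ : ∃ cE : F → M, ∀ (a : F) (ha : a ∈ E),
          cE a = (c' ⟨QuotientGroup.mk a, (hmemD a).2 ha⟩ : M₁) :=
        ⟨fun a => if ha : a ∈ E then ((c' ⟨QuotientGroup.mk a, (hmemD a).2 ha⟩ : M₁) : M) else 0,
          fun a ha => dif_pos ha⟩
      have hcE1 : ∀ e ∈ E₁, cE e = 0 := by
        intro e he
        rw [hcE0 e (hE₁E he)]
        have h4 : (⟨QuotientGroup.mk e, (hmemD e).2 (hE₁E he)⟩ : D) = 1 :=
          Subtype.ext ((QuotientGroup.eq_one_iff e).2 he)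
        rw [h4, hc'1]
        rfl
      obtain ⟨m, hm, hma⟩ := h1 cE (by
          intro a ha
          rw [hcE0 a ha]
          exact ((hM₁ _).1 (c' ⟨QuotientGroup.mk a, (hmemD a).2 ha⟩).2).1) (by
          intro a ha b hb
          rw [hcE0 a ha, hcE0 b hb, hcE0 _ (E.mul_mem ha hb)]
          have h3 := congrArg Subtype.val (hc' ⟨QuotientGroup.mk a, (hmemD a).2 ha⟩
            ⟨QuotientGroup.mk b, (hmemD b).2 hb⟩)
          refine Eq.trans ?_ (h3.trans ?_)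
          · rfl
          · exact congrArg (fun t => (c' ⟨QuotientGroup.mk a, (hmemD a).2 ha⟩ : M₁).1 + t)
              (hρ a _)) (fun v hv => hcE1 v (hLE₁ hv))
        ⟨E₁, hE₁, fun w hw _ => hcE1 w hw⟩
      have hmM : m ∈ M₁ := by
        rw [hM₁]
        refine ⟨hm, fun e he => ?_⟩
        have h3 := hma e (hE₁E he)
        rw [hcE1 e he] at h3
        exact (sub_eq_zero.1 h3.symm)
      refine ⟨⟨m, hmM⟩, ?_⟩
      rintro ⟨q, hq⟩
      obtain ⟨x, rfl⟩ := QuotientGroup.mk_surjective q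
      have hx : x ∈ E := (hmemD x).1 hq
      apply Subtype.ext
      have h3 := hma x hx
      rw [hcE0 x hx] at h3
      refine h3.trans ?_
      exact congrArg (fun t => t - m) (hρ x ⟨m, hmM⟩).symm
    rw [PJ_sub, ← MonoidHom.range_eq_map, Subgroup.range_subtype] at h2
    exact h2
  -- the whole group
  have hPT : PJ ρ ⊤ := by
    refine FT hpg ρ D hPD fun g hg => ?_
    obtain ⟨x, rfl⟩ := QuotientGroup.mk_surjective g
    rw [hmemD]
    apply hel
    rw [← QuotientGroup.eq_one_iff]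
    exact hg
  have hcM : ∀ x : F, c x ∈ M₁ := by
    intro x
    rw [hM₁]
    refine ⟨hc1 x, fun e he => ?_⟩
    have h2 := hc2 e x
    rw [hcE e he, zero_add] at h2
    have h3 : c (e * x) = c x := by
      have e1 : e * x = x * (x⁻¹ * e * x) := by group
      rw [e1, hc2, hcE _ (hE₁.conj he x), map_zero, add_zero]
    rw [← h2, h3]
  have hout : ∀ x : F, c (QuotientGroup.mk x : F ⧸ E₁).out = c x := by
    intro x
    have h2 : (QuotientGroup.mk (QuotientGroup.mk x : F ⧸ E₁).out : F ⧸ E₁) =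
        QuotientGroup.mk x := Quotient.out_eq _
    rw [QuotientGroup.eq] at h2
    have h3 := hc2 (QuotientGroup.mk x : F ⧸ E₁).out
      ((QuotientGroup.mk x : F ⧸ E₁).out⁻¹ * x)
    rw [mul_inv_cancel_left, hcE _ h2, map_zero, add_zero] at h3
    exact h3.symm
  obtain ⟨m, hm⟩ := l5_coh ρ hPT (fun q => (⟨c q.out, hcM _⟩ : M₁)) (by
    intro a b
    obtain ⟨x, rfl⟩ := QuotientGroup.mk_surjective a
    obtain ⟨y, rfl⟩ := QuotientGroup.mk_surjective b
    apply Subtype.ext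
    have h2 : (QuotientGroup.mk x : F ⧸ E₁) * QuotientGroup.mk y = QuotientGroup.mk (x * y) := rfl
    rw [h2]
    show c (QuotientGroup.mk (x * y) : F ⧸ E₁).out = c (QuotientGroup.mk x : F ⧸ E₁).out +
      ((ρ (QuotientGroup.mk x) (⟨c (QuotientGroup.mk y : F ⧸ E₁).out, hcM _⟩ : M₁) : M₁) : M)
    rw [hρ]
    show c (QuotientGroup.mk (x * y) : F ⧸ E₁).out = c (QuotientGroup.mk x : F ⧸ E₁).out +
      α x (c (QuotientGroup.mk y : F ⧸ E₁).out)
    rw [hout, hout, hout, hc2])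
  refine ⟨m, ((hM₁ _).1 m.2).1, fun f => ?_⟩
  have h2 := congrArg Subtype.val (hm (QuotientGroup.mk f))
  have h3 : c (QuotientGroup.mk f : F ⧸ E₁).out =
      ((ρ (QuotientGroup.mk f) m : M₁) : M) - m := h2
  rw [hρ, hout] at h3
  exact h3

end Pool.Agent.FRS
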