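import Pool.Agent.FRS.L4
import Pool.Agent.FRS.L5

/-!
# FRS [M6]: fixed vectors are transfers
-/

set_option autoImplicit false

namespace Pool.Agent.FRS

open Pool.Agent.MP_6fb7ad_al Pool.Agent.ORD

variable {p : ℕ} [Fact p.Prime] {F : Type} [Group F] [TopologicalSpace F] [IsTopologicalGroup F]

/-- Let `E` be open in the pro-`p` group `F` (not necessarily normal), `L ≤ E` closed normal in `F`
and suppose that `x ^ p ∈ L` implies `x ∈ E`. Let `𝔑` be a discrete module on which `L` acts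
trivially with `H¹(E / L, 𝔑) = 0`. Then every vector of `𝔑` fixed by `F` is the transfer of a vector
fixed by `E`.
Proof (compare the proof of `h1_all_FT` in L5, whose lemmas can be used). Take `E₁` from
`exists_open_of` (KG, for `Q = F`, `K = L`, `W = E`): open normal, `L ≤ E₁ ≤ E`, `x ^ p ∈ E₁` implies
`x ∈ E`. Let `P = F ⧸ E₁` (finite `p`-group, `quot_fin`), `M₁ = 𝔑 ⊓ fx α E₁` with the action `ρ` of
`P` induced by `α`, and `D = E.map (QuotientGroup.mk' E₁)` (a subgroup). `PJ ρ D` holds by `PJ_sub`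
(KF) and `pj_of_h1` (L4): a crossed homomorphism of `D` into `M₁` gives one of `E` into `𝔑`
vanishing on `E₁`, so it is `a ↦ α a m - m`, and `m` is fixed by `E₁`. By `FT` (KF) `PJ ρ ⊤`:
`∑ h, ρ h * l * ρ h⁻¹ = 1`. Given `κ`, let `m = ∑ d ∈ D, ρ d (l κ)`; it is fixed by `D`, and
`∑ q : F ⧸ E, α q.out m = ∑ h : P, ρ h (l κ) = ∑ h, ρ h (l (ρ h⁻¹ κ)) = κ`: every element of `P` is
uniquely `mk q.out * d` with `q : F ⧸ E`, `d ∈ D`. -/
theorem fixed_tr (hF : IsProP p F) {L E : Subgroup F} (hL : L.Normal)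
    (hLc : IsClosed (L : Set F)) (hLE : L ≤ E) (hE : IsOpen (E : Set F)) [Fintype (F ⧸ E)]
    (hT : ∀ x : F, x ^ p ∈ L → x ∈ E)
    {M : Type} [AddCommGroup M] [Module (ZMod p) M] (α : F →* Module.End (ZMod p) M)
    (𝔑 : Submodule (ZMod p) M) (hst : ∀ a, ∀ m ∈ 𝔑, α a m ∈ 𝔑)
    (hk : ∀ v ∈ L, ∀ m ∈ 𝔑, α v m = m)
    (h1 : ∀ c : F → M, (∀ a ∈ E, c a ∈ 𝔑) →
      (∀ a ∈ E, ∀ b ∈ E, c (a * b) = c a + α a (c b)) → (∀ v ∈ L, c v = 0) →
      (∃ W : Subgroup F, ON W ∧ ∀ w ∈ W, w ∈ E → c w = 0) → ∃ m ∈ 𝔑, ∀ a ∈ E, c a = α a m - m) :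
    ∀ κ ∈ 𝔑, (∀ a, α a κ = κ) →
      ∃ m ∈ 𝔑, (∀ a ∈ E, α a m = m) ∧ ∑ q : F ⧸ E, α q.out m = κ := by
  classical
  intro κ hκ hκF
  obtain ⟨E₁, hE₁, hLE₁, hE₁E, hel⟩ := exists_open_of hF hL hLc hE hLE hT
  have hn : E₁.Normal := hE₁.1
  obtain ⟨hfin, hpg⟩ := quot_fin hF E₁ hE₁.2
  have hft : Fintype (F ⧸ E₁) := Fintype.ofFinite _
  obtain ⟨M₁, hM₁⟩ : ∃ M₁ : Submodule (ZMod p) M, ∀ m, m ∈ M₁ ↔ m ∈ 𝔑 ∧ ∀ e ∈ E₁, α e m = m :=
    ⟨𝔑 ⊓ fx α E₁, fun m => Iff.rfl⟩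
  have hst₁ : ∀ a, ∀ m ∈ M₁, α a m ∈ M₁ := by
    intro a m hm
    rw [hM₁] at hm ⊢
    refine ⟨hst a m hm.1, fun e he => ?_⟩
    have e1 : α e (α a m) = α a (α (a⁻¹ * e * a) m) := by
      have h2 : α (e * a) m = α (a * (a⁻¹ * e * a)) m := by
        congr 2
        group
      rw [map_mul, map_mul α a] at h2
      exact h2
    rw [e1, hm.2 _ (hE₁.conj he a)]
  obtain ⟨ρ, hρ⟩ := l5_rho (p := p) (E₁ := E₁) α M₁ hst₁ fun e he m hm => ((hM₁ m).1 hm).2 e he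
  have hmemD : ∀ a : F, (QuotientGroup.mk a : F ⧸ E₁) ∈ E.map (QuotientGroup.mk' E₁) ↔
      a ∈ E := by
    intro a
    constructor
    · rintro ⟨e, he, hea⟩
      have h2 : (QuotientGroup.mk e : F ⧸ E₁) = QuotientGroup.mk a := hea
      rw [QuotientGroup.eq] at h2
      have h3 := E.mul_mem he (hE₁E h2)
      rwa [mul_inv_cancel_left] at h3
    · intro ha
      exact ⟨a, ha, rfl⟩
  obtain ⟨D, hDdef⟩ : ∃ D : Subgroup (F ⧸ E₁), D = E.map (QuotientGroup.mk' E₁) := ⟨_, rfl⟩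
  rw [← hDdef] at hmemD
  -- the subgroup
  have hPD : PJ ρ D := by
    have h2 : PJ (ρ.comp D.subtype) ⊤ := by
      refine pj_of_h1 (hpg.to_subgroup D) (ρ.comp D.subtype) fun c' hc' => ?_
      have hc'1 : c' 1 = 0 := by
        have h3 := hc' 1 1
        rw [mul_one, map_one] at h3
        exact left_eq_add.mp h3
      obtain ⟨cE, hcE0⟩ : ∃ cE : F → M, ∀ (a : F) (ha : a ∈ E),
          cE a = (c' ⟨QuotientGroup.mk a, (hmemD a).2 ha⟩ : M₁) :=
        ⟨fun a => if ha : a ∈ E then ((c' ⟨QuotientGroup.mk a, (hmemD a).2 ha⟩ : M₁) : M) else 0,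
          fun a ha => dif_pos ha⟩
      have hcE1 : ∀ e ∈ E₁, cE e = 0 := by
        intro e he
        rw [hcE0 e (hE₁E he)]
        have h4 : (⟨QuotientGroup.mk e, (hmemD e).2 (hE₁E he)⟩ : D) = 1 :=
          Subtype.ext ((QuotientGroup.eq_one_iff e).2 he)
        rw [h4, hc'1]
        rfl
      obtain ⟨m, hm, hma⟩ := h1 cE (by
          intro a ha
          rw [hcE0 a ha]
          exact ((hM₁ _).1 (c' ⟨QuotientGroup.mk a, (hmemD a).2 ha⟩).2).1) (by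
          intro a ha b hb
          rw [hcE0 a ha, hcE0 b hb, hcE0 _ (E.mul_mem ha hb)]
          have h3 := congrArg Subtype.val (hc' ⟨QuotientGroup.mk a, (hmemD a).2 ha⟩
            ⟨QuotientGroup.mk b, (hmemD b).2 hb⟩)
          refine Eq.trans ?_ (h3.trans ?_)
          · rfl
          · exact congrArg (fun t => (c' ⟨QuotientGroup.mk a, (hmemD a).2 ha⟩ : M₁).1 + t)
              (hρ a _)) (fun v hv => hcE1 v (hLE₁ hv))
        ⟨E₁, hE₁, fun w hw _ => hcE1 w hw⟩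
      have hmM : m ∈ M₁ := by
        rw [hM₁]
        refine ⟨hm, fun e he => ?_⟩
        have h3 := hma e (hE₁E he)
        rw [hcE1 e he] at h3
        exact (sub_eq_zero.1 h3.symm)
      refine ⟨⟨m, hmM⟩, ?_⟩
      rintro ⟨q, hq⟩
      obtain ⟨x, rfl⟩ := QuotientGroup.mk_surjective q
      have hx : x ∈ E := (hmemD x).1 hq
      apply Subtype.ext
      have h3 := hma x hx
      rw [hcE0 x hx] at h3
      refine h3.trans ?_
      exact congrArg (fun t => t - m) (hρ x ⟨m, hmM⟩).symm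
    rw [PJ_sub, ← MonoidHom.range_eq_map, Subgroup.range_subtype] at h2
    exact h2
  -- the whole group
  have hPT : PJ ρ ⊤ := by
    refine FT hpg ρ D hPD fun g hg => ?_
    obtain ⟨x, rfl⟩ := QuotientGroup.mk_surjective g
    rw [hmemD]
    apply hel
    rw [← QuotientGroup.eq_one_iff]
    exact hg
  obtain ⟨l, hl⟩ := hPT
  have hl1 : ∀ m : M₁, ∑ h : F ⧸ E₁, ρ h (l (ρ h⁻¹ m)) = m := by
    intro m
    rw [← l4_PTr, hl]
    rfl
  have hκM : κ ∈ M₁ := (hM₁ κ).2 ⟨hκ, fun e _ => hκF e⟩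
  have hκρ : ∀ h : F ⧸ E₁, ρ h ⟨κ, hκM⟩ = ⟨κ, hκM⟩ := by
    intro h
    obtain ⟨x, rfl⟩ := QuotientGroup.mk_surjective h
    apply Subtype.ext
    rw [hρ]
    exact hκF x
  have hsum : ∑ h : F ⧸ E₁, ρ h (l ⟨κ, hκM⟩) = ⟨κ, hκM⟩ := by
    have h2 := hl1 ⟨κ, hκM⟩
    rw [Finset.sum_congr rfl fun h _ => by rw [hκρ h⁻¹]] at h2
    exact h2
  have hmulρ : ∀ (a b : F ⧸ E₁) (m : M₁), ρ (a * b) m = ρ a (ρ b m) := by
    intro a b m
    rw [map_mul]
    rfl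
  obtain ⟨m, hm⟩ : ∃ m : M₁, m = ∑ d : D, ρ d (l ⟨κ, hκM⟩) := ⟨_, rfl⟩
  have hfixE : ∀ d₀ ∈ D, ρ d₀ m = m := by
    intro d₀ hd₀
    rw [hm, map_sum]
    refine Fintype.sum_equiv (Equiv.mulLeft (⟨d₀, hd₀⟩ : D)) _ _ fun d => ?_
    rw [← hmulρ]
    rfl
  refine ⟨m, ((hM₁ _).1 m.2).1, ?_, ?_⟩
  · intro a ha
    rw [← hρ, hfixE _ ((hmemD a).2 ha)]
  · have hbij : Function.Bijective fun x : (F ⧸ E) × D =>
        (QuotientGroup.mk x.1.out : F ⧸ E₁) * (x.2 : F ⧸ E₁) := by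
      constructor
      · rintro ⟨q, d⟩ ⟨q', d'⟩ hqd
        change (QuotientGroup.mk q.out : F ⧸ E₁) * (d : F ⧸ E₁) =
          (QuotientGroup.mk q'.out : F ⧸ E₁) * (d' : F ⧸ E₁) at hqd
        have h2 : (QuotientGroup.mk (q.out⁻¹ * q'.out) : F ⧸ E₁) = (d : F ⧸ E₁) * (d' : F ⧸ E₁)⁻¹ := by
          have h3 : (QuotientGroup.mk (q.out⁻¹ * q'.out) : F ⧸ E₁) =
              (QuotientGroup.mk q.out : F ⧸ E₁)⁻¹ * QuotientGroup.mk q'.out := rfl
          rw [h3, inv_mul_eq_iff_eq_mul, ← mul_assoc, hqd, mul_inv_cancel_right]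
        have h4 : q.out⁻¹ * q'.out ∈ E := by
          rw [← hmemD, h2]
          exact D.mul_mem d.2 (D.inv_mem d'.2)
        have h5 : q = q' := by
          rw [← QuotientGroup.out_eq' q, ← QuotientGroup.out_eq' q']
          exact QuotientGroup.eq.2 h4
        subst h5
        have h6 : d = d' := Subtype.ext (mul_left_cancel hqd)
        rw [h6]
      · intro h
        obtain ⟨x, rfl⟩ := QuotientGroup.mk_surjective h
        have h2 : (QuotientGroup.mk x : F ⧸ E).out⁻¹ * x ∈ E :=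
          QuotientGroup.eq.1 (QuotientGroup.out_eq' _)
        refine ⟨(QuotientGroup.mk x, ⟨QuotientGroup.mk ((QuotientGroup.mk x : F ⧸ E).out⁻¹ * x),
          (hmemD _).2 h2⟩), ?_⟩
        show (QuotientGroup.mk (QuotientGroup.mk x : F ⧸ E).out : F ⧸ E₁) *
          QuotientGroup.mk ((QuotientGroup.mk x : F ⧸ E).out⁻¹ * x) = QuotientGroup.mk x
        have h3 : (QuotientGroup.mk (QuotientGroup.mk x : F ⧸ E).out : F ⧸ E₁) *
          QuotientGroup.mk ((QuotientGroup.mk x : F ⧸ E).out⁻¹ * x) = QuotientGroup.mk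
            ((QuotientGroup.mk x : F ⧸ E).out * ((QuotientGroup.mk x : F ⧸ E).out⁻¹ * x)) := rfl
        rw [h3, mul_inv_cancel_left]
    have h2 : ∑ q : F ⧸ E, ρ (QuotientGroup.mk q.out) m = ⟨κ, hκM⟩ := by
      rw [← hsum, ← Function.Bijective.sum_comp hbij (fun h => ρ h (l ⟨κ, hκM⟩)),
        Fintype.sum_prod_type]
      refine Finset.sum_congr rfl fun q _ => ?_
      rw [hm, map_sum]
      exact Finset.sum_congr rfl fun d _ => (hmulρ _ _ _).symm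
    have h3 := congrArg Subtype.val h2
    rw [Submodule.coe_sum] at h3
    refine Eq.trans ?_ h3
    exact Finset.sum_congr rfl fun q _ => (hρ _ _).symm

end Pool.Agent.FRS
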