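import Pool.Agent.FRS.L7

/-!
# FRS [M7]: the property N1 on an open subgroup, general case
-/

set_option autoImplicit false

namespace Pool.Agent.FRS

open Pool.Agent.MP_6fb7ad_al Pool.Agent.ORD

variable {p : ℕ} [Fact p.Prime] {F : Type} [Group F] [TopologicalSpace F] [IsTopologicalGroup F]

theorem m7_ex_mem {p : ℕ} [Fact p.Prime] {F : Type} [Group F] [TopologicalSpace F]
    [IsTopologicalGroup F] (hF : IsProP p F) {V E : Subgroup F} (hVE : V ≤ E)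
    (hE : IsOpen (E : Set F)) {φ : E → ZMod p} (hφ : φ ∈ C1 p (⊤ : Subgroup E) (V.subgroupOf E)) :
    l7_ex p E φ ∈ C1 p E V := by
  obtain ⟨-, h2, W, hW, h3⟩ := mem_C1.1 hφ
  have ho : IsOpen ((W.map E.subtype : Subgroup F) : Set F) := by
    rw [Subgroup.coe_map]
    exact hE.isOpenMap_subtype_val _ hW.2
  obtain ⟨W', w1, w2, w3⟩ := exists_normal_le hF _ ho (Subgroup.one_mem _)
  refine mem_C1.2 ⟨fun x hx => l7_ex_neg φ hx, fun x v hv => ?_, W', ⟨w1, w2⟩, fun x w hw => ?_⟩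
  · exact l7_ex_mul φ x ⟨v, hVE hv⟩ fun y => h2 y _ (Subgroup.mem_subgroupOf.2 hv)
  · obtain ⟨w', hw', rfl⟩ := Subgroup.mem_map.1 (w3 hw)
    exact l7_ex_mul φ x w' fun y => h3 y w' hw'

/-- `N1_of_sub` (L7) for an open subgroup `E` that is not necessarily normal. Copy the proof of
`N1_of_sub`; where the normality of `E` is used to make an open normal subgroup of `F` (like
`W ⊓ E`), use instead an open normal subgroup of `F` contained in `E` (`exists_normal_le`). -/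
theorem N1_of_sub_open (hF : IsProP p F) {V E : Subgroup F} (hV : V.Normal) (hVE : V ≤ E)
    (hE : IsOpen (E : Set F)) (h : N1 p (⊤ : Subgroup E) (V.subgroupOf E)) : N1 p E V := by
  intro ε h1 h2 h3 ψ hψ
  have hz : ∀ φ ∈ C1 p E V, l7_ex p E (l7_rs p E φ) = φ := fun φ hφ => l7_ex_rs (mem_C1.1 hφ).1
  obtain ⟨φ', hφ', e⟩ := h (l7_rs p E ∘ₗ ε ∘ₗ l7_ex p E)
    (fun φ hφ => l7_rs_mem (h1 _ (m7_ex_mem hF hVE hE hφ)))
    (fun a _ φ hφ => by
      show l7_rs p E (ε (l7_ex p E (rr p a φ))) = rr p a (l7_rs p E (ε (l7_ex p E φ)))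
      rw [l7_ex_rr, h2 a a.2 _ (m7_ex_mem hF hVE hE hφ), l7_rs_rr])
    (by
      obtain ⟨φ, hφ, hne⟩ := h3
      refine ⟨l7_rs p E φ, l7_rs_mem hφ, fun e0 => hne ?_⟩
      have e1 : l7_rs p E (ε (l7_ex p E (l7_rs p E φ))) = 0 := e0
      rw [hz φ hφ] at e1
      rw [← hz _ (h1 φ hφ), e1, map_zero])
    (l7_rs p E ψ) (l7_rs_mem hψ)
  have e2 : l7_rs p E (ε (l7_ex p E φ')) = l7_rs p E ψ := e
  refine ⟨l7_ex p E φ', m7_ex_mem hF hVE hE hφ', ?_⟩
  rw [← hz _ (h1 _ (m7_ex_mem hF hVE hE hφ')), e2, hz ψ hψ]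

end Pool.Agent.FRS
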