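import Pool.Agent.FRS.M4
import Pool.Agent.FRS.M6
import Pool.Agent.FRS.M7
import Pool.Agent.FRS.O7
import Pool.Agent.FRS.L9

/-!
# FRS [M8]: torsion-free quotients and open subgroups of any index
-/

set_option autoImplicit false

namespace Pool.Agent.FRS

open Pool.Agent.MP_6fb7ad_al Pool.Agent.ORD

section

variable {p : ℕ} [Fact p.Prime] {Q : Type} [Group Q] [TopologicalSpace Q] [IsTopologicalGroup Q]

/-- Let `U` be an open subgroup of the pro-`p` group `Q` with `dim H²(U) ≤ 1`, `N ≤ U` closed normal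
in `Q`, such that every `q` with `q ^ p ∈ N` lies in `U` and `𝔽_p⟦U / N⟧` has no zero divisors. Then
`Q` has one relator. Proof (compare `dstep_one` in L8 and `step` in ORD.H0): `π : F → Q` from
`exists_min`, `E = U.comap π` (open), `L = N.comap π`, `R = π.ker`. `N1 p E L` by `N1_of_sub_open`
(M7) and `N1_top` for `π.subgroupComap U` as in `dstep_one`; `hdim` by `dim_le`; `h1_Rs_open` (O7)
gives the hypothesis `h1` of `fixed_tr` (M6) for `α = cj p`, `𝔑 = Rs p L R`: every `F`-fixed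
`κ ∈ Rs p L R` is `∑ q : F ⧸ E, cj p q.out m` with `m ∈ Rs p L R` fixed by `E`. By `transfer_open`
(M4) such a sum is `0` if `m ∈ Rs p E R`. Now let `θ₁ θ₂ ∈ Hm p R` be fixed by `F`. Case 1: every
`E`-fixed element of `Rs p L R` lies in `Rs p E R`. By `hdim` some combination of `θ₁ θ₂` lies in
`Rs p E R ≤ Rs p L R` (`Rs_mono`), so it is `0`. Case 2: some `E`-fixed `x₀ ∈ Rs p L R` is not in
`Rs p E R`; then all `E`-fixed elements of `Hm p R` lie in `Rs p L R` (`hmem` in the proof of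
`step`), `θᵢ` is the transfer of `mᵢ`, some combination of `m₁ m₂` lies in `Rs p E R`, and the same
combination of `θ₁ θ₂` is `0`. Finish with `exists_rel`. (`Fintype (F ⧸ E)`:
`Subgroup.quotient_finite_of_isOpen`, `Fintype.ofFinite`.) -/
theorem dstep_open (hQ : IsProP p Q) (N : Subgroup Q) (hN : N.Normal)
    (hNc : IsClosed (N : Set Q)) (U : Subgroup Q) (hUo : IsOpen (U : Set Q)) (hNU : N ≤ U)
    (hT : ∀ q : Q, q ^ p ∈ N → q ∈ U) (hND : NZD p U (N.subgroupOf U))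
    (hr : Module.rank (ZMod p) (H2 p U) ≤ 1) : OneRelator p Q := by
  have hT2 : T2Space Q := hQ.t2
  obtain ⟨X, F, _, _, _, i, π, hF, hπ, hs, hmin⟩ := exists_min (p := p) hQ
  have hFp := hF.proP
  have hT2F : T2Space F := hFp.t2
  have hFc : CompactSpace F := hFp.compact
  have hRn : π.ker.Normal := inferInstance
  have hRc : IsClosed (π.ker : Set F) := isClosed_singleton.preimage hπ
  have hVn : (N.comap π).Normal := hN.comap π
  have hRV : π.ker ≤ N.comap π := by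
    intro x hx
    rw [Subgroup.mem_comap, MonoidHom.mem_ker.1 hx]
    exact N.one_mem
  have hVE : N.comap π ≤ U.comap π := fun x hx => hNU hx
  have hRE : π.ker ≤ U.comap π := hRV.trans hVE
  have hE : IsOpen ((U.comap π : Subgroup F) : Set F) := hUo.preimage hπ
  have hfin : Finite (F ⧸ U.comap π) := Subgroup.quotient_finite_of_isOpen _ hE
  have hft : Fintype (F ⧸ U.comap π) := Fintype.ofFinite _
  have hN1 : N1 p (U.comap π) (N.comap π) := by
    have hEc : IsClosed ((U.comap π : Subgroup F) : Set F) := Subgroup.isClosed_of_isOpen _ hE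
    have hEp : IsProP p (U.comap π) := isProP_sub hFp (U.comap π) hEc
    have hc : Continuous (π.subgroupComap U) :=
      Continuous.subtype_mk (hπ.comp continuous_subtype_val) _
    have hsj : Function.Surjective (π.subgroupComap U) := by
      rintro ⟨y, hy⟩
      obtain ⟨x, hx⟩ := hs y
      refine ⟨⟨x, ?_⟩, Subtype.ext hx⟩
      rw [Subgroup.mem_comap, hx]
      exact hy
    exact N1_of_sub_open hFp hVn hVE hE
      (N1_top hEp (π.subgroupComap U) hc hsj (N.subgroupOf U) hND)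
  have hdim := dim_le (p := p) hFp π hπ hs U hUo hr
  have hdim' : ∀ θ₁ ∈ Hm p π.ker, ∀ θ₂ ∈ Hm p π.ker, (∀ a ∈ U.comap π, cj p a θ₁ = θ₁) →
      (∀ a ∈ U.comap π, cj p a θ₂ = θ₂) → ∃ c₁ c₂ : ZMod p, (c₁ ≠ 0 ∨ c₂ ≠ 0) ∧
      ∃ h ∈ Hm p (U.comap π), c₁ • θ₁ + c₂ • θ₂ = ind p π.ker h :=
    fun θ₁ h₁ θ₂ h₂ k₁ k₂ => hdim θ₁ θ₂ h₁ h₂ k₁ k₂
  have hTE : ∀ x : F, x ^ p ∈ N.comap π → x ∈ U.comap π := by
    intro x hx
    rw [Subgroup.mem_comap] at hx ⊢
    apply hT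
    rw [map_pow] at hx
    exact hx
  -- fixed elements of `Rs` are transfers
  have hex := fixed_tr hFp hVn (hNc.preimage hπ) hVE hE hTE (cj p) (Rs p (N.comap π) π.ker)
    (fun a m hm => cj_mem_Rs hVn hRn hm a) (fun v hv m hm => Rs_fx hRV hRn hm hv)
    (fun c h1 h2 h3 h4 => h1_Rs_open hF hRn hRc hVn hRV hVE hE hN1 hdim' c h1 h2 h3 h4)
  -- elements of `Rs` extending to `E` are killed by the transfer
  have htr : ∀ θ ∈ Rs p (U.comap π) π.ker, ∑ q : F ⧸ U.comap π, cj p q.out θ = 0 := by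
    rintro θ ⟨h, hh, rfl⟩
    exact transfer_open hFp hE hRn hRE hmin hh
  have hd : ∀ θ₁ ∈ Hm p π.ker, ∀ θ₂ ∈ Hm p π.ker, (∀ a, cj p a θ₁ = θ₁) →
      (∀ a, cj p a θ₂ = θ₂) →
      ∃ c₁ c₂ : ZMod p, (c₁ ≠ 0 ∨ c₂ ≠ 0) ∧ c₁ • θ₁ + c₂ • θ₂ = 0 := by
    intro θ₁ h₁ θ₂ h₂ k₁ k₂
    by_cases hα : ∀ θ ∈ Rs p (N.comap π) π.ker, (∀ a ∈ U.comap π, cj p a θ = θ) →
        θ ∈ Rs p (U.comap π) π.ker
    · obtain ⟨c₁, c₂, hc, h, h3, h4⟩ := hdim' θ₁ h₁ θ₂ h₂ (fun a _ => k₁ a) (fun a _ => k₂ a)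
      refine ⟨c₁, c₂, hc, ?_⟩
      have h5 : c₁ • θ₁ + c₂ • θ₂ ∈ Rs p (N.comap π) π.ker := by
        rw [h4]
        exact Rs_mono hRV hVE ⟨h, h3, rfl⟩
      have h6 : ∀ a, cj p a (c₁ • θ₁ + c₂ • θ₂) = c₁ • θ₁ + c₂ • θ₂ := by
        intro a
        rw [map_add, map_smul, map_smul, k₁, k₂]
      obtain ⟨y, hy, hy1, hy2⟩ := hex _ h5 h6
      rw [← hy2]
      exact htr y (hα y hy hy1)
    · push Not at hα
      obtain ⟨x₀, hx1, hx2, hx3⟩ := hα
      have hx1' := Rs_le_Hm hRV hx1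
      have hmem : ∀ θ ∈ Hm p π.ker, (∀ a ∈ U.comap π, cj p a θ = θ) →
          θ ∈ Rs p (N.comap π) π.ker := by
        intro θ hθ hθ'
        obtain ⟨c₁, c₂, hc, h, h3, h4⟩ := hdim' θ hθ x₀ hx1' hθ' hx2
        have h5 : c₁ • θ + c₂ • x₀ ∈ Rs p (U.comap π) π.ker := by
          rw [h4]
          exact ⟨h, h3, rfl⟩
        have hc1 : c₁ ≠ 0 := by
          rintro rfl
          have hc2 : c₂ ≠ 0 := hc.resolve_left fun h => h rfl
          apply hx3
          rw [zero_smul, zero_add] at h5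
          have h6 := (Rs p (U.comap π) π.ker).smul_mem c₂⁻¹ h5
          rwa [smul_smul, inv_mul_cancel₀ hc2, one_smul] at h6
        have h6 : θ = c₁⁻¹ • (c₁ • θ + c₂ • x₀) - (c₁⁻¹ * c₂) • x₀ := by
          rw [smul_add, smul_smul, smul_smul, inv_mul_cancel₀ hc1, one_smul]
          abel
        rw [h6]
        exact Submodule.sub_mem _ (Submodule.smul_mem _ _ (Rs_mono hRV hVE h5))
          (Submodule.smul_mem _ _ hx1)
      obtain ⟨y₁, hy1, hy1', hy1''⟩ := hex θ₁ (hmem θ₁ h₁ fun a _ => k₁ a) k₁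
      obtain ⟨y₂, hy2, hy2', hy2''⟩ := hex θ₂ (hmem θ₂ h₂ fun a _ => k₂ a) k₂
      obtain ⟨c₁, c₂, hc, h, h3, h4⟩ := hdim' y₁ (Rs_le_Hm hRV hy1) y₂ (Rs_le_Hm hRV hy2)
        hy1' hy2'
      refine ⟨c₁, c₂, hc, ?_⟩
      have h7 : ∑ q : F ⧸ U.comap π, cj p q.out (c₁ • y₁ + c₂ • y₂) = c₁ • θ₁ + c₂ • θ₂ := by
        rw [← hy1'', ← hy2'', Finset.smul_sum, Finset.smul_sum, ← Finset.sum_add_distrib]
        refine Finset.sum_congr rfl fun q _ => ?_
        rw [map_add, map_smul, map_smul]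
      rw [← h7, h4]
      exact htr _ ⟨h, h3, rfl⟩
  obtain ⟨r, hr1, hr2⟩ := exists_rel hFp π hd
  exact ⟨X, F, inferInstance, inferInstance, inferInstance, i, r, π, hF, hπ, hs, hr1, hr2⟩

end

section

variable {p : ℕ} [Fact p.Prime] {G : Type} [Group G] [TopologicalSpace G] [IsTopologicalGroup G]

/-- `dstep_rank` (L9) for open subgroups of any index: as there (transport of `NZD` and of the rank
from `U` to `U.subgroupOf V`), with `dstep_open`. -/
theorem dstep_full (hG : IsProP p G) {V U : Subgroup G} (hV : IsClosed (V : Set G)) (hUV : U ≤ V)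
    (hUo : IsOpen ((U.subgroupOf V : Subgroup V) : Set V))
    {K : Subgroup G} (hKU : K ≤ U)
    (hKc : IsClosed (K : Set G)) (hKn : ∀ v ∈ V, ∀ k ∈ K, v * k * v⁻¹ ∈ K)
    (hT : ∀ v ∈ V, v ^ p ∈ K → v ∈ U) (hND : NZD p U (K.subgroupOf U))
    (hr : Module.rank (ZMod p) (H2 p U) ≤ 1) : Module.rank (ZMod p) (H2 p V) ≤ 1 := by
  have hVp : IsProP p V := isProP_sub hG V hV
  have hT2 : T2Space V := hVp.t2
  have h1 : Module.rank (ZMod p) (H2 p (U.subgroupOf V)) ≤ 1 :=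
    (rank_H2_le hUV (U.subgroupOf V) fun x => Subgroup.mem_subgroupOf).trans hr
  have hK' : K.subgroupOf V ≤ U.subgroupOf V := fun x hx =>
    Subgroup.mem_subgroupOf.2 (hKU (Subgroup.mem_subgroupOf.1 hx))
  have hKn' : (K.subgroupOf V).Normal := by
    refine ⟨fun k hk v => ?_⟩
    exact Subgroup.mem_subgroupOf.2 (hKn v v.2 k (Subgroup.mem_subgroupOf.1 hk))
  have hKc' : IsClosed ((K.subgroupOf V : Subgroup V) : Set V) :=
    hKc.preimage continuous_subtype_val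
  have h2 : NZD p ↥(U.subgroupOf V) ((K.subgroupOf V).subgroupOf (U.subgroupOf V)) :=
    l9_transport (l9_e hUV) ((continuous_subtype_val.subtype_mk _).subtype_mk _)
      ((continuous_subtype_val.comp continuous_subtype_val).subtype_mk _) _ (K.subgroupOf U)
      (fun _ => Iff.rfl) hND
  refine rank_le_one (dstep_open hVp (K.subgroupOf V) hKn' hKc' (U.subgroupOf V) hUo hK'
    (fun q hq => ?_) h2 h1)
  exact Subgroup.mem_subgroupOf.2 (hT q q.2 (Subgroup.mem_subgroupOf.1 hq))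

end

end Pool.Agent.FRS
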