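import Pool.Agent.FRS.StR
import Pool.Agent.ORD.St

/-!
# FRS: the definition of the steps with a normal subgroup
-/

set_option autoImplicit false

namespace Pool.Agent.FRS.St

/-- `W` is an open subgroup of the subgroup `V` of `G`, and there is a closed subgroup `K` of `W`,
normalized by `V`, such that every `v ∈ V` with `v ^ p ∈ K` lies in `W` and one of the following
holds: the algebra `𝔽_p⟦W / K⟧` has no zero divisors; the restriction
`H²(W, 𝔽_p) → H²(K, 𝔽_p)` is injective. -/
def KStep (p : ℕ) {G : Type} [Group G] [TopologicalSpace G] (V W : Subgroup G) : Prop :=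
  W ≤ V ∧ IsOpen ((W.subgroupOf V : Subgroup V) : Set V) ∧
    ∃ (K : Subgroup G) (h : K ≤ W), IsClosed (K : Set G) ∧ (∀ v ∈ V, ∀ k ∈ K, v * k * v⁻¹ ∈ K) ∧
      (∀ v ∈ V, v ^ p ∈ K → v ∈ W) ∧
      (ORD.St.NZD p W (K.subgroupOf W) ∨
        ∀ f : W → W → ZMod p, Coc p W f → Cob p h f → Cob p le_rfl f)

end Pool.Agent.FRS.St
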