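import Pool.Agent.FRS.F2
import Pool.Agent.FRS.L2
import Pool.Agent.FRS.M8
import Pool.Agent.FRS.StK
import Pool.Agent.ORD.I4

/-!
# FRS [F5]: the main theorem
-/

set_option autoImplicit false

namespace Pool.Agent.FRS

open Pool.Agent.MP_6fb7ad_al Pool.Agent.ORD

variable {p : ℕ} [Fact p.Prime] {G : Type} [Group G] [TopologicalSpace G] [IsTopologicalGroup G]

theorem kstep_rank (hG : IsProP p G) {V U : Subgroup G} (hV : IsClosed (V : Set G))
    (h : St.KStep p V U) (hr : Module.rank (ZMod p) (H2 p U) ≤ 1) :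
    Module.rank (ZMod p) (H2 p V) ≤ 1 := by
  obtain ⟨hUV, hUo, K, hKU, hKc, hKn, hT, h⟩ := h
  rcases h with h | h
  · exact dstep_full hG hV hUV hUo hKU hKc hKn hT (nzd_of h) hr
  · exact rstep_any hG hV hUV hUo hKU hKc hKn hT h hr

theorem mainK (hG : IsProP p G) (U : Subgroup G)
    (hU : Relation.ReflTransGen (fun V W => St.FStep p V W ∨ St.KStep p V W ∨
      ORD.St.ResStep V W) ⊤ U) (h : OneRelator p U) : OneRelator p G := by
  have hT2 := hG.t2
  refine oneRelator_of_rank_le hG (rank_top.trans ?_)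
  have key : IsClosed (U : Set G) ∧ (Module.rank (ZMod p) (H2 p U) ≤ 1 →
      Module.rank (ZMod p) (H2 p (⊤ : Subgroup G)) ≤ 1) := by
    clear h
    induction hU with
    | refl => exact ⟨isClosed_univ, id⟩
    | @tail V' U' h1 h2 ih =>
      have hcl : ∀ (h3 : U' ≤ V') (h4 : IsOpen ((U'.subgroupOf V' : Subgroup V') : Set V')),
          IsClosed (U' : Set G) := by
        intro h3 h4
        have h5 : (U' : Set G) = Subtype.val '' ((U'.subgroupOf V' : Subgroup V') : Set V') := by
          ext x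
          constructor
          · intro hx
            exact ⟨⟨x, h3 hx⟩, hx, rfl⟩
          · rintro ⟨y, hy, rfl⟩
            exact hy
        rw [h5]
        exact ih.1.isClosedMap_subtype_val _ (Subgroup.isClosed_of_isOpen (U'.subgroupOf V') h4)
      rcases h2 with h2 | h2 | h2
      · exact ⟨hcl h2.1 h2.2.1, fun h3 => ih.2 (fstep_rank hG ih.1 h2 h3)⟩
      · exact ⟨hcl h2.1 h2.2.1, fun h3 => ih.2 (kstep_rank hG ih.1 h2 h3)⟩
      · exact ⟨hcl h2.1 h2.2.1, fun h3 => ih.2 (dom_rank hG ih.1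
          (nstep_nstep0 ih.1 (res_nstep hG ih.1 (resStep_of h2))) h3)⟩
  exact key.2 (rank_le_one h)

end Pool.Agent.FRS
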