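import Mathlib

/-!
# FRS [K0]: relative traces
-/

set_option autoImplicit false

namespace Pool.Agent.FRS

section

variable {p : ℕ} {P : Type} [Group P] [Fintype P] {M : Type} [AddCommGroup M] [Module (ZMod p) M]

open Classical in
/-- The sum of the conjugates of `l` by the elements of the subgroup `H`. -/
noncomputable def PTr (ρ : P →* Module.End (ZMod p) M) (H : Subgroup P)
    (l : Module.End (ZMod p) M) : Module.End (ZMod p) M :=
  ∑ h ∈ Finset.univ.filter (· ∈ H), ρ h * l * ρ h⁻¹

/-- The identity is the trace of an endomorphism (so `M` is a projective `H`-module). -/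
def PJ (ρ : P →* Module.End (ZMod p) M) (H : Subgroup P) : Prop :=
  ∃ l : Module.End (ZMod p) M, PTr ρ H l = 1

end

end Pool.Agent.FRS
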