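import Pool.Agent.FRS.K0

/-!
# FRS [KA]: modules of a finite `p`-group in which every fixed vector is a norm
-/

set_option autoImplicit false

namespace Pool.Agent.FRS

variable {p : ℕ} [Fact p.Prime] {D : Type} [Group D] [Fintype D] {M : Type} [AddCommGroup M]
  [Module (ZMod p) M]

/-- A nonzero stable subspace contains a nonzero fixed vector. -/
theorem ka_fixed {M' : Type} [AddCommGroup M'] [Module (ZMod p) M'] (hD : IsPGroup p D)
    (ρ : D →* Module.End (ZMod p) M') (W : Submodule (ZMod p) M')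
    (hW : ∀ d, ∀ w ∈ W, ρ d w ∈ W) (hne : W ≠ ⊥) :
    ∃ w ∈ W, w ≠ 0 ∧ ∀ d, ρ d w = w := by
  classical
  obtain ⟨w, hw, hw0⟩ := (Submodule.ne_bot_iff W).mp hne
  let U : Submodule (ZMod p) M' := Submodule.span (ZMod p) (Set.range fun d => ρ d w)
  have hUW : U ≤ W := by
    rw [Submodule.span_le]
    rintro _ ⟨d, rfl⟩
    exact hW d w hw
  have hU : ∀ a, ∀ u ∈ U, ρ a u ∈ U := by
    intro a u hu
    have h1 : U ≤ U.comap (ρ a) := by
      rw [Submodule.span_le]
      rintro _ ⟨d, rfl⟩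
      refine Submodule.subset_span ⟨a * d, ?_⟩
      change ρ (a * d) w = ρ a (ρ d w)
      rw [map_mul]; rfl
    exact h1 hu
  have hwU : w ∈ U := Submodule.subset_span ⟨1, by simp⟩
  have hfin : Module.Finite (ZMod p) U :=
    Module.Finite.span_of_finite (ZMod p) (Set.finite_range _)
  have hfinU : Finite U := Module.finite_of_finite (ZMod p)
  let _ : MulAction D U :=
    { smul := fun d u => ⟨ρ d u, hU d u u.2⟩
      one_smul := fun u => Subtype.ext (by change ρ 1 (u : M') = u; simp)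
      mul_smul := fun a b u => Subtype.ext (by
        change ρ (a * b) (u : M') = ρ a (ρ b (u : M'))
        rw [map_mul]; rfl) }
  have hsm : ∀ (d : D) (u : U), ((d • u : U) : M') = ρ d u := fun _ _ => rfl
  have hcard : p ∣ Nat.card U := by
    have hnt : Nontrivial U := ⟨⟨⟨w, hwU⟩, 0, fun h => hw0 (congrArg Subtype.val h)⟩⟩
    have hpos : 0 < Module.finrank (ZMod p) U := Module.finrank_pos
    let _ := Fintype.ofFinite U
    rw [Nat.card_eq_fintype_card, Module.card_eq_pow_finrank (K := ZMod p) (V := U), ZMod.card]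
    exact dvd_pow_self p hpos.ne'
  obtain ⟨b, hb, hb0⟩ := hD.exists_fixed_point_of_prime_dvd_card_of_fixed_point U hcard
    (a := (0 : U)) (fun d => Subtype.ext (by rw [hsm]; simp))
  refine ⟨b, hUW b.2, fun h => hb0 (Subtype.ext h.symm), fun d => ?_⟩
  have h1 := hb d
  rw [← hsm, h1]

/-- Let `D` be a finite `p`-group and `M` a (possibly infinite dimensional) `D`-module over `ZMod p`
in which every fixed vector is a norm. Then `M` is free, and `1` is the trace of an endomorphism.
Proof. (1) A nonzero `D`-stable subspace of `M` contains a nonzero fixed vector (`D` is a finite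
`p`-group, the span of the orbit of a vector is a finite set on which `D` acts, and the number of
fixed points is divisible by `p`; `IsPGroup.card_modEq_card_fixedPoints`, see `exists_fixed` in
Pool.Agent.ORD.D1 or `IsPGroup.exists_fixed_point_of_prime_dvd_card_of_fixed_point`).
(2) Choose a basis `(v_b)` of the space of fixed vectors and `m_b` with
`∑ d, ρ d m_b = v_b` (linearly: there is a linear map `μ` from the fixed vectors to `M` with
`∑ d, ρ d (μ v) = v`). (3) Let `C` be the space of all functions `D → Fix`, `Φ : C → M`,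
`Φ φ = ∑ d, ρ d (μ (φ d))`, with `D` acting on `C` by `(a φ) d = φ (a⁻¹ d)`; `Φ` is equivariant, and
injective: otherwise the kernel contains a nonzero fixed vector of `C` by (1), a constant function
`φ = v`, and `Φ φ = v ≠ 0`. (4) Let `e₁` be the projector of `C` given by
`(e₁ φ) d = if d = 1 then φ d else 0`; the trace of `e₁` on `C` is `1`. Let `s : M → C` be a linear
left inverse of `Φ` (`LinearMap.exists_leftInverse_of_injective`) and `l₀ = Φ e₁ s`, `S = PTr l₀`,
which is equivariant. On the image of `Φ`: `s Φ = 1`, so `∑ ρ d Φ e₁ s ρ d⁻¹ Φ φ =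
∑ Φ d e₁ s Φ d⁻¹ φ = ∑ Φ d e₁ d⁻¹ φ = Φ φ`, so `S = 1` on the image of `Φ`, which contains all fixed
vectors. Hence `S` is injective on fixed vectors, so injective by (1) (its kernel is stable). The
image of `S` is in the image of `Φ` (as `Φ` is equivariant), so `S (S m - m) = 0` since
`S (S m) = S m`. So `S m = m`. -/
theorem pj_of_norm (hD : IsPGroup p D) (ρ : D →* Module.End (ZMod p) M)
    (h : ∀ m, (∀ d, ρ d m = m) → ∃ m', ∑ d, ρ d m' = m) : PJ ρ ⊤ := by
  classical
  -- the fixed vectors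
  let Fx : Submodule (ZMod p) M :=
    { carrier := {m | ∀ d, ρ d m = m}
      add_mem' := fun {a b} ha hb d => by rw [map_add, ha d, hb d]
      zero_mem' := fun d => map_zero _
      smul_mem' := fun c m hm d => by rw [map_smul, hm d] }
  have hFx : ∀ (v : Fx) d, ρ d (v : M) = v := fun v => v.2
  -- the norm
  let Nm : M →ₗ[ZMod p] M := ∑ d, ρ d
  have hNm : ∀ m, Nm m = ∑ d, ρ d m := fun m => LinearMap.sum_apply _ _ _
  have hmul : ∀ a b m, ρ (a * b) m = ρ a (ρ b m) := fun a b m => by rw [map_mul]; rfl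
  have hNmF : ∀ m, Nm m ∈ Fx := by
    intro m a
    rw [hNm, map_sum, ← Equiv.sum_comp (Equiv.mulLeft a) (fun d => ρ d m)]
    exact Finset.sum_congr rfl fun d _ => (hmul a d m).symm
  let Nm' : M →ₗ[ZMod p] Fx := Nm.codRestrict Fx hNmF
  have hsurj : LinearMap.range Nm' = ⊤ := by
    rw [LinearMap.range_eq_top]
    intro v
    obtain ⟨m', hm'⟩ := h v v.2
    exact ⟨m', Subtype.ext (by change Nm m' = v; rw [hNm, hm'])⟩
  obtain ⟨μ, hμ⟩ := LinearMap.exists_rightInverse_of_surjective Nm' hsurj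
  have hμ' : ∀ v : Fx, ∑ d, ρ d (μ v) = v := by
    intro v
    have h1 := congrArg Subtype.val (LinearMap.congr_fun hμ v)
    change Nm (μ v) = v at h1
    rw [← hNm, h1]
  -- the free module
  let ρC : D →* Module.End (ZMod p) (D → Fx) :=
    { toFun := fun a =>
        { toFun := fun φ d => φ (a⁻¹ * d)
          map_add' := fun _ _ => rfl
          map_smul' := fun _ _ => rfl }
      map_one' := by
        refine LinearMap.ext fun φ => funext fun d => ?_
        change φ (1⁻¹ * d) = φ d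
        rw [inv_one, one_mul]
      map_mul' := fun a b => by
        refine LinearMap.ext fun φ => funext fun d => ?_
        change φ ((a * b)⁻¹ * d) = φ (b⁻¹ * (a⁻¹ * d))
        rw [mul_inv_rev, mul_assoc] }
  have hρC : ∀ a φ d, ρC a φ d = φ (a⁻¹ * d) := fun _ _ _ => rfl
  let Φ : (D → Fx) →ₗ[ZMod p] M :=
    { toFun := fun φ => ∑ d, ρ d (μ (φ d))
      map_add' := fun φ ψ => by
        rw [← Finset.sum_add_distrib]
        exact Finset.sum_congr rfl fun d _ => by rw [Pi.add_apply, map_add, map_add]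
      map_smul' := fun c φ => by
        rw [RingHom.id_apply, Finset.smul_sum]
        exact Finset.sum_congr rfl fun d _ => by rw [Pi.smul_apply, map_smul, map_smul] }
  have hΦ : ∀ φ, Φ φ = ∑ d, ρ d (μ (φ d)) := fun _ => rfl
  have hequi : ∀ a φ, Φ (ρC a φ) = ρ a (Φ φ) := by
    intro a φ
    rw [hΦ, hΦ, map_sum, ← Equiv.sum_comp (Equiv.mulLeft a)]
    refine Finset.sum_congr rfl fun d _ => ?_
    change ρ (a * d) (μ (φ (a⁻¹ * (a * d)))) = _
    rw [inv_mul_cancel_left, hmul]
  have hinj : Function.Injective Φ := by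
    rw [← LinearMap.ker_eq_bot]
    by_contra hne
    obtain ⟨φ, hφ, hφ0, hφf⟩ := ka_fixed hD ρC (LinearMap.ker Φ) (fun d φ hφ => by
      rw [LinearMap.mem_ker] at hφ ⊢
      rw [hequi, hφ, map_zero]) hne
    have hconst : ∀ d, φ d = φ 1 := by
      intro d
      have h1 := congrFun (hφf d) d
      rw [hρC, inv_mul_cancel] at h1
      exact h1.symm
    have h2 : Φ φ = (φ 1 : M) := by
      rw [hΦ, ← hμ' (φ 1)]
      exact Finset.sum_congr rfl fun d _ => by rw [hconst d]
    rw [LinearMap.mem_ker.mp hφ] at h2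
    apply hφ0
    funext d
    rw [hconst d]
    exact Subtype.ext h2.symm
  obtain ⟨s, hs⟩ := LinearMap.exists_leftInverse_of_injective Φ (LinearMap.ker_eq_bot.mpr hinj)
  have hs' : ∀ φ, s (Φ φ) = φ := fun φ => LinearMap.congr_fun hs φ
  let e₁ : (D → Fx) →ₗ[ZMod p] (D → Fx) :=
    { toFun := fun φ d => if d = 1 then φ d else 0
      map_add' := fun φ ψ => by
        funext d
        by_cases hd : d = 1 <;> simp [hd]
      map_smul' := fun c φ => by
        funext d
        by_cases hd : d = 1 <;> simp [hd] }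
  have he₁ : ∀ φ d, e₁ φ d = if d = 1 then φ d else 0 := fun _ _ => rfl
  let l₀ : Module.End (ZMod p) M := Φ ∘ₗ e₁ ∘ₗ s
  have hl₀ : ∀ m, l₀ m = Φ (e₁ (s m)) := fun _ => rfl
  have hS : ∀ m, PTr ρ ⊤ l₀ m = ∑ a, ρ a (l₀ (ρ a⁻¹ m)) := by
    intro m
    unfold PTr
    rw [LinearMap.sum_apply]
    have h1 : (Finset.univ.filter fun a : D => a ∈ (⊤ : Subgroup D)) = Finset.univ := by
      ext a; simp
    rw [h1]
    rfl
  have hSΦ : ∀ φ, PTr ρ ⊤ l₀ (Φ φ) = Φ φ := by
    intro φ
    rw [hS]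
    have h1 : ∀ a, ρ a (l₀ (ρ a⁻¹ (Φ φ))) = Φ (ρC a (e₁ (ρC a⁻¹ φ))) := by
      intro a
      rw [hl₀, ← hequi a⁻¹ φ, hs', hequi a]
    rw [Finset.sum_congr rfl fun a _ => h1 a, ← map_sum]
    congr 1
    funext d
    rw [Finset.sum_apply]
    have h2 : ∀ a, ρC a (e₁ (ρC a⁻¹ φ)) d = if a = d then φ d else 0 := by
      intro a
      rw [hρC, he₁, hρC, inv_inv, mul_inv_cancel_left]
      by_cases hd : a = d
      · subst hd; simp
      · rw [if_neg hd, if_neg]
        intro h3
        exact hd (inv_mul_eq_one.mp h3)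
    rw [Finset.sum_congr rfl fun a _ => h2 a]
    simp
  have hFxΦ : ∀ v : Fx, Φ (fun _ => v) = v := fun v => by rw [hΦ, hμ']
  have hSrange : ∀ m, ∃ φ, PTr ρ ⊤ l₀ m = Φ φ := by
    intro m
    refine ⟨∑ a, ρC a (e₁ (s (ρ a⁻¹ m))), ?_⟩
    rw [hS, map_sum]
    exact Finset.sum_congr rfl fun a _ => by rw [hl₀, hequi]
  have hSequi : ∀ b m, PTr ρ ⊤ l₀ (ρ b m) = ρ b (PTr ρ ⊤ l₀ m) := by
    intro b m
    rw [hS, hS, map_sum, ← Equiv.sum_comp (Equiv.mulLeft b)]
    refine Finset.sum_congr rfl fun a _ => ?_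
    change ρ (b * a) (l₀ (ρ (b * a)⁻¹ (ρ b m))) = _
    have h1 : ρ (b * a)⁻¹ (ρ b m) = ρ a⁻¹ m := by
      rw [← hmul, mul_inv_rev, inv_mul_cancel_right]
    rw [hmul, h1]
  have hSinj : Function.Injective (PTr ρ ⊤ l₀) := by
    rw [← LinearMap.ker_eq_bot]
    by_contra hne
    obtain ⟨v, hv, hv0, hvf⟩ := ka_fixed hD ρ (LinearMap.ker (PTr ρ ⊤ l₀)) (fun d m hm => by
      rw [LinearMap.mem_ker] at hm ⊢
      rw [hSequi, hm, map_zero]) hne
    have h1 : PTr ρ ⊤ l₀ v = v := by
      have h2 := hSΦ (fun _ => (⟨v, hvf⟩ : Fx))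
      rw [hFxΦ] at h2
      exact h2
    rw [LinearMap.mem_ker.mp hv] at h1
    exact hv0 h1.symm
  refine ⟨l₀, ?_⟩
  ext m
  apply hSinj
  obtain ⟨φ, hφ⟩ := hSrange m
  rw [hφ, hSΦ, Module.End.one_apply, hφ]

end Pool.Agent.FRS
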