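import Pool.Agent.FRS.D1
import Pool.Agent.ORD.A1
import Pool.Agent.ORD.A2
import Pool.Agent.ORD.B2
import Pool.Agent.ORD.A4
import Pool.Agent.ORD.S2

/-!
# FRS [KB]: corestriction of characters is onto in a free pro-`p` group
-/

set_option autoImplicit false

namespace Pool.Agent.FRS

open Pool.Agent.MP_6fb7ad_al Pool.Agent.ORD

variable {p : ℕ} [Fact p.Prime] {X F : Type} [Group F] [TopologicalSpace F]
  [IsTopologicalGroup F] {i : X → F}

omit [TopologicalSpace F] [IsTopologicalGroup F] in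
theorem kb_out {E E₁ : Subgroup F} (h1 : E₁ ≤ E) [E₁.Normal] {q : F ⧸ E₁}
    (hq : q ∈ E.map (QuotientGroup.mk' E₁)) : q.out ∈ E := by
  obtain ⟨e, he, rfl⟩ := hq
  obtain ⟨u, hu⟩ := QuotientGroup.mk_out_eq_mul E₁ e
  show (QuotientGroup.mk e : F ⧸ E₁).out ∈ E
  rw [hu]
  exact E.mul_mem he (h1 u.2)

omit [TopologicalSpace F] [IsTopologicalGroup F] in
/-- `v * q.out` is the representative of `mk v * q` up to `E₁` -/
theorem kb_mul_out {E₁ : Subgroup F} [E₁.Normal] (v : F) (q : F ⧸ E₁) :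
    ∃ u ∈ E₁, v * q.out = ((QuotientGroup.mk v : F ⧸ E₁) * q).out * u := by
  refine ⟨((QuotientGroup.mk v : F ⧸ E₁) * q).out⁻¹ * (v * q.out), ?_, by group⟩
  rw [← QuotientGroup.eq, QuotientGroup.out_eq', QuotientGroup.mk_mul, QuotientGroup.out_eq']

open Classical in
/-- the partition of unity -/
noncomputable def kb_c (p : ℕ) (E E₁ : Subgroup F) (y : F) : ZMod p :=
  if (QuotientGroup.mk y : F ⧸ E₁) = QuotientGroup.mk (QuotientGroup.mk y : F ⧸ E).out then 1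
  else 0

omit [TopologicalSpace F] [IsTopologicalGroup F] in
theorem kb_c_inv {E E₁ : Subgroup F} (h1 : E₁ ≤ E) (y v : F) (hv : v ∈ E₁) :
    kb_c p E E₁ (y * v) = kb_c p E E₁ y := by
  have e1 : (QuotientGroup.mk (y * v) : F ⧸ E₁) = QuotientGroup.mk y := by
    rw [QuotientGroup.eq]
    have : (y * v)⁻¹ * y = v⁻¹ := by group
    rw [this]
    exact E₁.inv_mem hv
  have e2 : (QuotientGroup.mk (y * v) : F ⧸ E) = QuotientGroup.mk y := by
    rw [QuotientGroup.eq]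
    have : (y * v)⁻¹ * y = v⁻¹ := by group
    rw [this]
    exact E.inv_mem (h1 hv)
  unfold kb_c
  rw [e1, e2]

open Classical in
omit [TopologicalSpace F] [IsTopologicalGroup F] in
theorem kb_c_sum {E E₁ : Subgroup F} (h1 : E₁ ≤ E) [E₁.Normal] [Fintype (F ⧸ E₁)] (y : F) :
    ∑ q ∈ Finset.univ.filter (· ∈ E.map (QuotientGroup.mk' E₁)), kb_c p E E₁ (y * q.out) = 1 := by
  obtain ⟨u, hu⟩ := QuotientGroup.mk_out_eq_mul E y
  have key : ∀ q ∈ Finset.univ.filter (· ∈ E.map (QuotientGroup.mk' E₁)),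
      kb_c p E E₁ (y * q.out) = if q = QuotientGroup.mk (u : F) then 1 else 0 := by
    intro q hq
    have hqE := kb_out h1 (Finset.mem_filter.1 hq).2
    have e2 : (QuotientGroup.mk (y * q.out) : F ⧸ E) = QuotientGroup.mk y := by
      rw [QuotientGroup.eq]
      have : (y * q.out)⁻¹ * y = (q.out)⁻¹ := by group
      rw [this]
      exact E.inv_mem hqE
    unfold kb_c
    rw [e2, hu]
    have e3 : (QuotientGroup.mk (y * q.out) : F ⧸ E₁) = QuotientGroup.mk (y * u) ↔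
        q = QuotientGroup.mk (u : F) := by
      rw [QuotientGroup.mk_mul, QuotientGroup.mk_mul, mul_right_inj, QuotientGroup.out_eq']
    by_cases hc : q = QuotientGroup.mk (u : F)
    · rw [if_pos hc, if_pos (e3.2 hc)]
    · rw [if_neg hc, if_neg fun h => hc (e3.1 h)]
  rw [Finset.sum_congr rfl key, Finset.sum_ite_eq', if_pos]
  rw [Finset.mem_filter]
  exact ⟨Finset.mem_univ _, ⟨u, u.2, rfl⟩⟩

open Classical in
/-- Let `E₁ ≤ E` be open normal subgroups of the free pro-`p` group `F`. Every `h ∈ Hm p E`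
(continuous homomorphism `E → ZMod p`) is, on `E₁`, the sum of the conjugates of some
`h' ∈ Hm p E₁` over `E / E₁` (the sum is over the elements `q` of `F / E₁` lying in `E / E₁`).
Proof. By `exists_sh` (B2) there is `z ∈ Bc p E` with `z v 1 = h v` for `v ∈ E`. Let
`φ x = z (i x) ∈ C1 p ⊤ E` (`Bc_restr`, A4: `φ ∈ Cc p X ⊤ E`). Choose a function `c : F → ZMod p`,
right `E₁`-invariant, with `∑ q ∈ E / E₁, c (y * q.out) = 1` for all `y`: for example
`c y = 1` if `y` and `(y : F ⧸ E).out` lie in the same coset of `E₁` and `0` otherwise. Then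
`φ' x y = φ x y * c y` lies in `Cc p X ⊤ E₁`, and by `exists_Bc` (A2) there is `z' ∈ Bc p E₁` with
`z' (i x) = φ' x`. The function `z'' f y = ∑ q ∈ E / E₁, z' f (y * q.out)` lies in `Bc p E` (it is
right `E`-invariant, as right multiplication by an element of `E` permutes the cosets of `E₁` in
`E`), and agrees with `z` at the `i x`, so `z'' = z` (`Bc_ext`, A1, applied to `z'' - z`). Let
`h' v = z' v 1` for `v ∈ E₁` and `0` otherwise: `h' ∈ Hm p E₁` (additive as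
`z' (v * w) 1 = z' v 1 + z' w v⁻¹` and `z' w v⁻¹ = z' w 1` by right invariance under `E₁`).
For `v ∈ E₁` and `e ∈ E`: `z' (e⁻¹ * v * e) 1 = z' e⁻¹ 1 + z' v e + z' e (v⁻¹ * e)`, and
`v⁻¹ * e = e * (e⁻¹ * v⁻¹ * e)`, so `z' e (v⁻¹ * e) = z' e e`; and
`0 = z' 1 1 = z' e⁻¹ 1 + z' e e`. So `h' (e⁻¹ * v * e) = z' v e`, and the sum over `q` is
`∑ z' v q.out = z'' v 1 = z v 1 = h v`. -/
theorem cor_surj (hF : IsFreeProP p i) {E E₁ : Subgroup F} (hE : ON E) (hE₁ : ON E₁)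
    (h1 : E₁ ≤ E) [E₁.Normal] [Fintype (F ⧸ E₁)] {h : F → ZMod p} (hh : h ∈ Hm p E) :
    ∃ h' ∈ Hm p E₁, ∀ v ∈ E₁, h v =
      ∑ q ∈ Finset.univ.filter (· ∈ E.map (QuotientGroup.mk' E₁)), h' (q.out⁻¹ * v * q.out) := by
  have hEn : E.Normal := hE.1
  obtain ⟨z, hz, hzh⟩ := exists_sh hE.1 hh
  obtain ⟨z1, z2, z3⟩ := mem_Bc.1 hz
  -- the family on the basis
  have hφ : (fun x y => z (i x) y * kb_c p E E₁ y) ∈ Cc p X ⊤ E₁ := by
    have h2 := mem_Cc.1 (Bc_restr hF hz)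
    refine mem_Cc.2 ⟨fun x => mem_C1.2 ⟨fun y hy => absurd (Subgroup.mem_top y) hy,
      fun y v hv => ?_, E₁, hE₁, fun y v hv => ?_⟩, h2.2.subset fun x hx e => hx ?_⟩
    · show z (i x) (y * v) * kb_c p E E₁ (y * v) = z (i x) y * kb_c p E E₁ y
      rw [z2 _ _ _ (h1 hv), kb_c_inv h1 y v hv]
    · show z (i x) (y * v) * kb_c p E E₁ (y * v) = z (i x) y * kb_c p E E₁ y
      rw [z2 _ _ _ (h1 hv), kb_c_inv h1 y v hv]
    · funext y
      have e1 : z (i x) y = 0 := congrFun e y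
      show z (i x) y * kb_c p E E₁ y = 0
      rw [e1, zero_mul]
  obtain ⟨z', hz', hzi⟩ := exists_Bc hF hE₁.1 hφ
  obtain ⟨y1, y2, W, hW, y3, y4⟩ := mem_Bc.1 hz'
  set Q : Finset (F ⧸ E₁) := Finset.univ.filter (· ∈ E.map (QuotientGroup.mk' E₁)) with hQ
  -- the transfer of the cocycle
  have hB : (fun f y => ∑ q ∈ Q, z' f (y * q.out)) ∈ Bc p E := by
    refine mem_Bc.2 ⟨fun f g x => ?_, fun f x v hv => ?_, W, hW, fun w hw x => ?_,
      fun w hw f x => ?_⟩
    · show ∑ q ∈ Q, z' (f * g) (x * q.out) = ∑ q ∈ Q, z' f (x * q.out) +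
        ∑ q ∈ Q, z' g (f⁻¹ * x * q.out)
      rw [← Finset.sum_add_distrib]
      refine Finset.sum_congr rfl fun q _ => ?_
      rw [y1, mul_assoc f⁻¹ x q.out]
    · show ∑ q ∈ Q, z' f (x * v * q.out) = ∑ q ∈ Q, z' f (x * q.out)
      refine Finset.sum_equiv (Equiv.mulLeft (QuotientGroup.mk v : F ⧸ E₁)) (fun q => ?_)
        (fun q _ => ?_)
      · rw [hQ, Finset.mem_filter, Finset.mem_filter]
        have hvm : (QuotientGroup.mk v : F ⧸ E₁) ∈ E.map (QuotientGroup.mk' E₁) := ⟨v, hv, rfl⟩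
        constructor
        · intro h
          exact ⟨Finset.mem_univ _, Subgroup.mul_mem _ hvm h.2⟩
        · intro h
          exact ⟨Finset.mem_univ _, (Subgroup.mul_mem_cancel_left _ hvm).1 h.2⟩
      · obtain ⟨u, hu, e⟩ := kb_mul_out v q
        show z' f (x * v * q.out) = z' f (x * ((QuotientGroup.mk v : F ⧸ E₁) * q).out)
        rw [mul_assoc, e, ← mul_assoc, y2 _ _ _ hu]
    · exact Finset.sum_eq_zero fun q _ => y3 w hw _
    · show ∑ q ∈ Q, z' f (x * w * q.out) = ∑ q ∈ Q, z' f (x * q.out)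
      refine Finset.sum_congr rfl fun q _ => ?_
      have e : x * w * q.out = x * q.out * (q.out⁻¹ * w * q.out) := by group
      rw [e, y4 _ (hW.conj hw _)]
  have hzz : (fun f y => ∑ q ∈ Q, z' f (y * q.out)) = z := by
    have h2 : (fun f y => ∑ q ∈ Q, z' f (y * q.out)) - z = 0 := by
      refine Bc_ext hF ((Bc p E).sub_mem hB hz) (fun x => ?_)
      funext y
      show ∑ q ∈ Q, z' (i x) (y * q.out) - z (i x) y = 0
      rw [hzi x]
      have e1 : ∀ q ∈ Q, z (i x) (y * q.out) * kb_c p E E₁ (y * q.out) =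
          z (i x) y * kb_c p E E₁ (y * q.out) := by
        intro q hq
        rw [hQ] at hq
        rw [z2 _ _ _ (kb_out h1 (Finset.mem_filter.1 hq).2)]
      show ∑ q ∈ Q, z (i x) (y * q.out) * kb_c p E E₁ (y * q.out) - z (i x) y = 0
      rw [Finset.sum_congr rfl e1, ← Finset.mul_sum, hQ, kb_c_sum h1 y, mul_one, sub_self]
    exact sub_eq_zero.1 h2
  have hcj : ∀ v ∈ E₁, ∀ e : F, e⁻¹ * v * e ∈ E₁ := fun v hv e => hE₁.conj hv e
  refine ⟨qq p E₁ z', mem_Hm.2 ⟨fun x hx => qq_of_notMem hx z', fun x hx y hy => ?_, W ⊓ E₁,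
    hW.inf hE₁, fun w hw => ?_⟩, fun v hv => ?_⟩
  · rw [qq_of_mem hx, qq_of_mem hy, qq_of_mem (E₁.mul_mem hx hy), y1]
    have e1 : z' y (x⁻¹ * 1) = z' y 1 := by
      rw [mul_one, ← one_mul x⁻¹]
      exact y2 _ _ _ (E₁.inv_mem hx)
    rw [e1]
  · rw [qq_of_mem hw.2]
    exact y3 w hw.1 1
  · have e1 : ∀ q ∈ Q, qq p E₁ z' (q.out⁻¹ * v * q.out) = z' v (1 * q.out) := by
      intro q _
      rw [qq_of_mem (hcj v hv _), one_mul, Bc_conj hE₁.1 hz' hv]
    rw [Finset.sum_congr rfl e1, ← hzh v (h1 hv)]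
    exact (congrFun (congrFun hzz v) 1).symm

end Pool.Agent.FRS
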