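import Pool.Agent.FRS.KA
import Pool.Agent.FRS.KB
import Pool.Agent.FRS.KF
import Pool.Agent.ORD.H1
import Pool.Agent.ORD.D1

/-!
# FRS [KD]: no extendable homomorphism on the relators
-/

set_option autoImplicit false

namespace Pool.Agent.FRS

open Pool.Agent.MP_6fb7ad_al Pool.Agent.ORD

variable {p : ℕ} [Fact p.Prime] {X F : Type} [Group F] [TopologicalSpace F]
  [IsTopologicalGroup F] {i : X → F}

theorem kd_range_sum {N : Type} [AddCommMonoid N] (ψ : ℕ → N) :
    ∑ j ∈ Finset.range p, ψ j = ∑ c : ZMod p, ψ c.val := by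
  have hp : NeZero p := ⟨(Fact.out : p.Prime).ne_zero⟩
  refine Finset.sum_nbij' (fun j => (j : ZMod p)) (fun c => c.val) (fun _ _ => Finset.mem_univ _)
    (fun c _ => Finset.mem_range.2 (ZMod.val_lt c)) (fun j hj => ?_) (fun c _ => ?_)
    (fun j hj => ?_)
  · exact ZMod.val_natCast_of_lt (Finset.mem_range.1 hj)
  · exact ZMod.natCast_zmod_val c
  · rw [ZMod.val_natCast_of_lt (Finset.mem_range.1 hj)]

/-- a finite `p`-group has a nonzero fixed vector in every nonzero module -/
theorem kd_fixed {P : Type} [Group P] [Finite P] (hP : IsPGroup p P) {M : Type} [AddCommGroup M]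
    [Module (ZMod p) M] (ρ : P →* Module.End (ZMod p) M) (m : M) (hm : m ≠ 0) :
    ∃ m', m' ≠ 0 ∧ ∀ q, ρ q m' = m' := by
  classical
  let S : Submodule (ZMod p) M := Submodule.span (ZMod p) (Set.range fun q : P => ρ q m)
  have hSfin : Finite S := by
    have : Module.Finite (ZMod p) S := Module.Finite.span_of_finite (ZMod p) (Set.finite_range _)
    exact Module.finite_of_finite (ZMod p)
  have hS : ∀ a : P, ∀ x ∈ S, ρ a x ∈ S := by
    intro a x hx
    have h1 : S ≤ S.comap (ρ a) := by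
      refine Submodule.span_le.2 ?_
      rintro y ⟨b, rfl⟩
      show ρ a (ρ b m) ∈ S
      refine Submodule.subset_span ⟨a * b, ?_⟩
      show ρ (a * b) m = ρ a (ρ b m)
      rw [map_mul]; rfl
    exact h1 hx
  have hmS : m ∈ S := Submodule.subset_span ⟨1, by
    show ρ 1 m = m
    rw [map_one]; rfl⟩
  let act : MulAction P S :=
    { smul := fun a x => ⟨ρ a x, hS a x x.2⟩
      one_smul := fun x => Subtype.ext (by
        show ρ 1 (x : M) = x
        rw [map_one]
        rfl)
      mul_smul := fun a b x => Subtype.ext (by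
        show ρ (a * b) (x : M) = ρ a (ρ b x)
        rw [map_mul]
        rfl) }
  have hact : ∀ (a : P) (x : S), ((a • x : S) : M) = ρ a x := fun a x => rfl
  have hdvd : p ∣ Nat.card S := by
    have h1 : addOrderOf (⟨m, hmS⟩ : S) = p := by
      apply addOrderOf_eq_prime
      · apply Subtype.ext
        show p • m = 0
        rw [← Nat.cast_smul_eq_nsmul (ZMod p), ZMod.natCast_self, zero_smul]
      · intro h
        exact hm (congrArg Subtype.val h)
    have h2 := addOrderOf_dvd_natCard (⟨m, hmS⟩ : S)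
    rw [h1] at h2
    exact h2
  have hfix0 : (0 : S) ∈ MulAction.fixedPoints P S := by
    intro a
    apply Subtype.ext
    rw [hact]
    exact map_zero (ρ a)
  obtain ⟨x, hx, hne⟩ := hP.exists_fixed_point_of_prime_dvd_card_of_fixed_point S hdvd hfix0
  refine ⟨x.1, fun h => hne (Subtype.ext h.symm), fun q => ?_⟩
  have h1 := congrArg Subtype.val (hx q)
  rw [hact] at h1
  exact h1

/-- the action of `F ⧸ E₁` -/
theorem kd_rho {E₁ R : Subgroup F} [hE₁ : E₁.Normal] (hR : R.Normal) (hRE₁ : R ≤ E₁) :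
    ∃ ρ : (F ⧸ E₁) →* Module.End (ZMod p) (Rs p E₁ R), ∀ (a : F) (m : Rs p E₁ R),
      ((ρ (QuotientGroup.mk a) m : Rs p E₁ R) : F → ZMod p) = cj p a m := by
  let ρ₀ : F →* Module.End (ZMod p) (Rs p E₁ R) :=
    { toFun := fun a => (cj p a).restrict fun θ hθ => cj_mem_Rs hE₁ hR hθ a
      map_one' := by
        refine LinearMap.ext fun m => Subtype.ext ?_
        show cj p 1 (m : F → ZMod p) = m
        rw [map_one]
        rfl
      map_mul' := fun a b => by
        refine LinearMap.ext fun m => Subtype.ext ?_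
        show cj p (a * b) (m : F → ZMod p) = cj p a (cj p b m)
        rw [map_mul]
        rfl }
  have h0 : ∀ a ∈ E₁, ρ₀ a = 1 := by
    intro a ha
    refine LinearMap.ext fun m => Subtype.ext ?_
    exact Rs_fx hRE₁ hR m.2 ha
  exact ⟨QuotientGroup.lift E₁ ρ₀ h0, fun a m => rfl⟩

/-- Let `E` be the kernel of the character `χ` of the free pro-`p` group `F`, `E₁ ≤ E` open normal
in `F`, `R ≤ E₁` normal in `F` and killed by all characters of `F`. Suppose that every `x ∈ F` with
`x ^ p ∈ E₁` lies in `E`, and that every `E`-invariant element of `Rs p E₁ R` (restrictions to `R`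
of the elements of `Hm p E₁`) lies in `Rs p E R`. Then `Rs p E₁ R = 0`, so `Rs p E R = 0`.
Proof. Let `P = F ⧸ E₁` (a finite `p`-group, `quot_fin`), `M = ↥(Rs p E₁ R)` with the action of `P`
induced by `cj` (`cj_mem_Rs`; `E₁` acts trivially by `Rs_fx`; `QuotientGroup.lift`), so
`(ρ q m) = cj p q.out m`; `D = E.map (QuotientGroup.mk' E₁)`. (1) `PJ ρ D`: by `pj_of_norm` (KA) for
the group `D` and `ρ.comp D.subtype`: a fixed vector `m` is `E`-invariant, so `m = ind p R h` with
`h ∈ Hm p E`; take `h'` from `cor_surj` (KB); `m' = ind p R h'` satisfies `∑ q ∈ D, ρ q m' = m`.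
(2) `PJ ρ ⊤` by `FT` (KF). (3) If `κ ∈ M` is fixed by all of `F` then `κ = PTr ρ ⊤ l κ =
∑ q, ρ q (l κ) = ∑ j < p, cj p (t ^ j) (N (l κ))` with `N m = ∑ q ∈ D, ρ q m` (the elements of `P`
are uniquely `t ^ j * d`, `j < p`, `d ∈ D`), and `N (l κ)` is `D`-fixed, so it is in `Rs p E R`, and
`κ = ((cj p t - 1) ^ (p - 1)) (N (l κ)) = 0` by `pow_p` (G4a) and `transfer` (H1). (4) A nonzero
`F`-stable subspace of functions with smooth action contains a nonzero fixed vector (`exists_fixed`
in ORD.D1, applied to the span of the finite orbit of a nonzero element of `Rs p E₁ R`). -/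
theorem Rs_zero (hF : IsFreeProP p i) {E E₁ R : Subgroup F} (hE : ON E) (hE₁ : ON E₁)
    (h1 : E₁ ≤ E) (hR : R.Normal) (hRE₁ : R ≤ E₁)
    (χ : F → ZMod p) (hχ : IsChar p χ) (hEχ : ∀ x, x ∈ E ↔ χ x = 0) (t : F) (ht : χ t = 1)
    (hmin : ∀ g : F → ZMod p, IsChar p g → ∀ r ∈ R, g r = 0)
    (hel : ∀ x : F, x ^ p ∈ E₁ → x ∈ E)
    (hN : ∀ θ ∈ Rs p E₁ R, (∀ a ∈ E, cj p a θ = θ) → θ ∈ Rs p E R)
    (θ : F → ZMod p) (hθ : θ ∈ Rs p E₁ R) : θ = 0 := by
  classical
  have hn : E₁.Normal := hE₁.1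
  obtain ⟨hfin, hpg⟩ := quot_fin hF.proP E₁ hE₁.2
  have hft : Fintype (F ⧸ E₁) := Fintype.ofFinite _
  obtain ⟨ρ, hρ⟩ := kd_rho (p := p) (E₁ := E₁) hR hRE₁
  have hρ' : ∀ (q : F ⧸ E₁) (m : Rs p E₁ R),
      ((ρ q m : Rs p E₁ R) : F → ZMod p) = cj p q.out m := by
    intro q m
    have h2 : (QuotientGroup.mk q.out : F ⧸ E₁) = q := Quotient.out_eq q
    conv_lhs => rw [← h2]
    exact hρ _ _
  have hmemD : ∀ a : F, (QuotientGroup.mk a : F ⧸ E₁) ∈ E.map (QuotientGroup.mk' E₁) ↔
      a ∈ E := by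
    intro a
    constructor
    · rintro ⟨e, he, hea⟩
      have h2 : (QuotientGroup.mk e : F ⧸ E₁) = QuotientGroup.mk a := hea
      rw [QuotientGroup.eq] at h2
      have h3 := E.mul_mem he (h1 h2)
      rwa [mul_inv_cancel_left] at h3
    · intro ha
      exact ⟨a, ha, rfl⟩
  obtain ⟨D, hDdef⟩ : ∃ D : Subgroup (F ⧸ E₁), D = E.map (QuotientGroup.mk' E₁) := ⟨_, rfl⟩
  rw [← hDdef] at hmemD
  -- step 1
  have hDn : ∀ m : Rs p E₁ R, (∀ d : D, (ρ.comp D.subtype) d m = m) →
      ∃ m', ∑ d : D, (ρ.comp D.subtype) d m' = m := by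
    intro m hm
    have hmE : ∀ a ∈ E, cj p a (m : F → ZMod p) = m := by
      intro a ha
      have h2 := hm ⟨QuotientGroup.mk a, (hmemD a).2 ha⟩
      have h3 := congrArg Subtype.val h2
      exact (hρ a m).symm.trans h3
    obtain ⟨h, hh, hhm⟩ := hN m m.2 hmE
    obtain ⟨h', hh', hsum⟩ := cor_surj hF hE hE₁ h1 hh
    refine ⟨⟨ind p R h', h', hh', rfl⟩, ?_⟩
    apply Subtype.ext
    rw [← hhm]
    rw [AddSubmonoidClass.coe_finsetSum]
    funext x
    rw [Finset.sum_apply]
    have e1 : ∀ d : D, (((ρ.comp D.subtype) d (⟨ind p R h', h', hh', rfl⟩ : Rs p E₁ R) :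
        Rs p E₁ R) : F → ZMod p) x = ind p R h' ((d : F ⧸ E₁).out⁻¹ * x * (d : F ⧸ E₁).out) := by
      intro d
      have h2 := congrFun (hρ' (d : F ⧸ E₁) ⟨ind p R h', h', hh', rfl⟩) x
      exact h2
    rw [Finset.sum_congr rfl fun d _ => e1 d]
    by_cases hx : x ∈ R
    · rw [ind_of_mem hx, hsum x (hRE₁ hx), ← hDdef]
      rw [Finset.sum_subtype (Finset.univ.filter (· ∈ D)) (p := (· ∈ D)) (by
        intro q
        simp) (fun q => h' (q.out⁻¹ * x * q.out))]
      refine Finset.sum_congr rfl fun d _ => ?_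
      exact ind_of_mem ((nc hR _ x).2 hx) h'
    · rw [ind_of_notMem hx]
      refine Finset.sum_eq_zero fun d _ => ?_
      exact ind_of_notMem (fun hc => hx ((nc hR _ x).1 hc)) h'
  have hPD : PJ ρ D := by
    obtain ⟨l, hl⟩ := pj_of_norm (hpg.to_subgroup D) (ρ.comp D.subtype) hDn
    refine ⟨l, ?_⟩
    rw [← hl]
    unfold PTr
    rw [Finset.sum_subtype (Finset.univ.filter (· ∈ D)) (p := (· ∈ D)) (by
        intro q
        simp) (fun q => ρ q * l * ρ q⁻¹)]
    rw [Finset.filter_true_of_mem (fun d _ => Subgroup.mem_top d)]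
    rfl
  -- step 2
  have hPT : PJ ρ ⊤ := by
    refine FT hpg ρ D hPD fun g hg => ?_
    obtain ⟨x, rfl⟩ := QuotientGroup.mk_surjective g
    rw [hmemD]
    apply hel
    rw [← QuotientGroup.eq_one_iff]
    exact hg
  -- step 3
  have hχ1 : χ 1 = 0 := by
    have := hχ.mul 1 1
    rw [mul_one] at this
    exact left_eq_add.mp this
  have hχi : ∀ f, χ f⁻¹ = - χ f := by
    intro f
    have h1 := hχ.mul f⁻¹ f
    rw [inv_mul_cancel, hχ1] at h1
    exact (neg_eq_of_add_eq_zero_left h1.symm).symm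
  have hχt : ∀ n : ℕ, χ (t ^ n) = n := by
    intro n
    induction n with
    | zero => rw [pow_zero, Nat.cast_zero, hχ1]
    | succ n ih => rw [pow_succ, hχ.mul, ih, ht, Nat.cast_succ]
  have hpz : NeZero p := ⟨(Fact.out : p.Prime).ne_zero⟩
  have hbar : ∀ a : F, χ (QuotientGroup.mk a : F ⧸ E₁).out = χ a := by
    intro a
    have h2 : (QuotientGroup.mk (QuotientGroup.mk a : F ⧸ E₁).out : F ⧸ E₁) =
        QuotientGroup.mk a := Quotient.out_eq _
    rw [QuotientGroup.eq] at h2
    have h3 := (hEχ _).1 (h1 h2)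
    rw [hχ.mul, hχi] at h3
    exact (eq_of_neg_add_eq_zero h3)
  have key : ∀ κ : Rs p E₁ R, (∀ q, ρ q κ = κ) → κ = 0 := by
    intro κ hκ
    obtain ⟨l, hl⟩ := hPT
    have e1 : ∑ q : F ⧸ E₁, ρ q (l κ) = κ := by
      have h2 := congrArg (fun f : Module.End (ZMod p) (Rs p E₁ R) => f κ) hl
      simp only [PTr, LinearMap.sum_apply, Module.End.mul_apply, hκ, Module.End.one_apply,
        Subgroup.mem_top, Finset.filter_true] at h2
      exact h2
    obtain ⟨v, hv⟩ : ∃ v, v = l κ := ⟨_, rfl⟩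
    rw [← hv] at e1
    obtain ⟨Nv, hNv⟩ : ∃ Nv, Nv = ∑ d ∈ Finset.univ.filter (· ∈ D), ρ d v := ⟨_, rfl⟩
    have hNfix : ∀ a ∈ E, cj p a (Nv : F → ZMod p) = Nv := by
      intro a ha
      rw [← hρ a Nv]
      congr 1
      rw [hNv, map_sum]
      have e2 : ∀ d, ρ (QuotientGroup.mk a) (ρ d v) = ρ (QuotientGroup.mk a * d) v := by
        intro d
        rw [map_mul]
        rfl
      rw [Finset.sum_congr rfl fun d _ => e2 d]
      refine Finset.sum_nbij' (fun d => QuotientGroup.mk a * d)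
        (fun d => (QuotientGroup.mk a)⁻¹ * d) ?_ ?_ ?_ ?_ ?_
      · intro d hd
        simp only [Finset.mem_filter, Finset.mem_univ, true_and] at hd ⊢
        exact D.mul_mem ((hmemD a).2 ha) hd
      · intro d hd
        simp only [Finset.mem_filter, Finset.mem_univ, true_and] at hd ⊢
        exact D.mul_mem (D.inv_mem ((hmemD a).2 ha)) hd
      · intro d _
        exact inv_mul_cancel_left _ _
      · intro d _
        exact mul_inv_cancel_left _ _
      · intro d _
        rfl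
    obtain ⟨h, hh, hhN⟩ := hN Nv Nv.2 hNfix
    have e3 : ∀ c : ZMod p, ∑ q ∈ Finset.univ.filter (fun q : F ⧸ E₁ => χ q.out = c), ρ q v =
        ρ (QuotientGroup.mk (t ^ c.val)) Nv := by
      intro c
      rw [hNv, map_sum]
      have e2 : ∀ d, ρ (QuotientGroup.mk (t ^ c.val)) (ρ d v) =
          ρ (QuotientGroup.mk (t ^ c.val) * d) v := by
        intro d
        rw [map_mul]
        rfl
      rw [Finset.sum_congr rfl fun d _ => e2 d]
      refine Finset.sum_nbij' (fun q => (QuotientGroup.mk (t ^ c.val))⁻¹ * q)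
        (fun d => QuotientGroup.mk (t ^ c.val) * d) ?_ ?_ ?_ ?_ ?_
      · intro q hq
        simp only [Finset.mem_filter, Finset.mem_univ, true_and] at hq ⊢
        obtain ⟨x, rfl⟩ := QuotientGroup.mk_surjective q
        have h2 : ((QuotientGroup.mk (t ^ c.val) : F ⧸ E₁))⁻¹ * QuotientGroup.mk x =
            QuotientGroup.mk ((t ^ c.val)⁻¹ * x) := rfl
        rw [h2, hmemD, hEχ, hχ.mul, hχi, hχt, ZMod.natCast_zmod_val]
        rw [hbar] at hq
        rw [hq, neg_add_cancel]
      · intro d hd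
        simp only [Finset.mem_filter, Finset.mem_univ, true_and] at hd ⊢
        obtain ⟨x, rfl⟩ := QuotientGroup.mk_surjective d
        have h2 : (QuotientGroup.mk (t ^ c.val) : F ⧸ E₁) * QuotientGroup.mk x =
            QuotientGroup.mk (t ^ c.val * x) := rfl
        rw [h2, hbar, hχ.mul, hχt, ZMod.natCast_zmod_val]
        rw [hmemD, hEχ] at hd
        rw [hd, add_zero]
      · intro q _
        exact mul_inv_cancel_left _ _
      · intro d _
        exact inv_mul_cancel_left _ _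
      · intro q _
        rw [mul_inv_cancel_left]
    have e4 : (κ : F → ZMod p) = ∑ j ∈ Finset.range p, cj p (t ^ j) (ind p R h) := by
      rw [kd_range_sum (p := p) (fun j => cj p (t ^ j) (ind p R h))]
      have e5 : κ = ∑ c : ZMod p, ρ (QuotientGroup.mk (t ^ c.val)) Nv := by
        rw [← e1, ← Finset.sum_fiberwise Finset.univ (fun q : F ⧸ E₁ => χ q.out)
          (fun q => ρ q v)]
        exact Finset.sum_congr rfl fun c _ => e3 c
      have e6 := congrArg Subtype.val e5
      rw [AddSubmonoidClass.coe_finsetSum] at e6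
      rw [e6]
      refine Finset.sum_congr rfl fun c _ => ?_
      rw [hρ, hhN]
    have e7 := transfer hE χ hχ hEχ t ht hR (hRE₁.trans h1) hmin hh
    rw [(pow_p (cj p t)).2, LinearMap.sum_apply] at e7
    apply Subtype.ext
    rw [e4]
    refine Eq.trans ?_ e7
    refine Finset.sum_congr rfl fun j _ => ?_
    rw [← map_pow]
  -- step 4
  by_contra hne
  obtain ⟨m', hm', hfix⟩ := kd_fixed hpg ρ ⟨θ, hθ⟩ (fun h => hne (congrArg Subtype.val h))
  exact hm' (key m' hfix)

end Pool.Agent.FRS
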