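import Pool.Agent.FRS.K0

/-!
# FRS [T2]: families of endomorphisms on a `P`-set
-/

set_option autoImplicit false

namespace Pool.Agent.FRS

section

variable {p : ℕ} {P : Type} [Group P] [Fintype P] {M : Type} [AddCommGroup M] [Module (ZMod p) M]

theorem PTr_eq (ρ : P →* Module.End (ZMod p) M) (H : Subgroup P) (l : Module.End (ZMod p) M)
    [DecidablePred (· ∈ H)] : PTr ρ H l = ∑ h : P, if h ∈ H then ρ h * l * ρ h⁻¹ else 0 := by
  classical
  rw [PTr, Finset.sum_filter]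
  refine Finset.sum_congr rfl fun h _ => ?_
  by_cases hh : h ∈ H
  · rw [if_pos hh, if_pos hh]
  · rw [if_neg hh, if_neg hh]

theorem exists_famZ (ρ : P →* Module.End (ZMod p) M)
    (hprop : ∀ H : Subgroup P, H ≠ ⊤ → PJ ρ H) (Z : Type) [MulAction P Z] :
    ∃ l : Z → Module.End (ZMod p) M, ∀ z, MulAction.stabilizer P z ≠ ⊤ →
      ∑ h : P, ρ h * l (h⁻¹ • z) * ρ h⁻¹ = 1 := by
  classical
  let rep : Z → Z := fun z => (Quotient.mk (MulAction.orbitRel P Z) z).out
  have hrep : ∀ z, ∃ h : P, h • rep z = z := by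
    intro z
    have h1 : (MulAction.orbitRel P Z) (rep z) z := Quotient.mk_out (s := MulAction.orbitRel P Z) z
    have h2 : (MulAction.orbitRel P Z) z (rep z) := (MulAction.orbitRel P Z).symm h1
    obtain ⟨h, hh⟩ := (MulAction.orbitRel_apply).1 h2
    exact ⟨h, hh⟩
  have hrep2 : ∀ (h : P) z, rep (h • z) = rep z := by
    intro h z
    show (Quotient.mk (MulAction.orbitRel P Z) (h • z)).out =
      (Quotient.mk (MulAction.orbitRel P Z) z).out
    congr 1
    exact Quotient.sound ((MulAction.orbitRel_apply).2 ⟨h, rfl⟩)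
  have hl0 : ∀ z : Z, ∃ l0 : Module.End (ZMod p) M, MulAction.stabilizer P z ≠ ⊤ →
      PTr ρ (MulAction.stabilizer P z) l0 = 1 := by
    intro z
    by_cases hz : MulAction.stabilizer P z = ⊤
    · exact ⟨0, fun h => absurd hz h⟩
    · obtain ⟨l0, h0⟩ := hprop _ hz
      exact ⟨l0, fun _ => h0⟩
  choose l0 hl0 using hl0
  refine ⟨fun z => if rep z = z then l0 z else 0, fun z hz => ?_⟩
  obtain ⟨h1, hh1⟩ := hrep z
  have hst : MulAction.stabilizer P (rep z) ≠ ⊤ := by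
    intro h2
    apply hz
    rw [eq_top_iff]
    intro a _
    have h3 : h1⁻¹ * a * h1 ∈ MulAction.stabilizer P (rep z) := by
      rw [h2]
      exact Subgroup.mem_top _
    rw [MulAction.mem_stabilizer_iff] at h3 ⊢
    have h4 : a • h1 • rep z = h1 • (h1⁻¹ * a * h1) • rep z := by
      rw [smul_smul, smul_smul]
      congr 1
      group
    rw [h3] at h4
    rwa [hh1] at h4
  have h2 : ∑ h : P, ρ h * (if rep (h⁻¹ • z) = h⁻¹ • z then l0 (h⁻¹ • z) else 0) * ρ h⁻¹ =
      ∑ s : P, ρ h1 * (if s ∈ MulAction.stabilizer P (rep z) then ρ s * l0 (rep z) * ρ s⁻¹ else 0) *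
        ρ h1⁻¹ := by
    refine Fintype.sum_equiv (Equiv.mulLeft h1).symm _ _ fun h => ?_
    have e1 : (Equiv.mulLeft h1).symm h = h1⁻¹ * h := rfl
    rw [e1]
    have e2 : h⁻¹ • z = (h1⁻¹ * h)⁻¹ • rep z := by
      have e3 : h⁻¹ • z = h⁻¹ • h1 • rep z := by rw [hh1]
      rw [e3, smul_smul]
      congr 1
      group
    by_cases hs : h1⁻¹ * h ∈ MulAction.stabilizer P (rep z)
    · have hs' : (h1⁻¹ * h)⁻¹ ∈ MulAction.stabilizer P (rep z) := inv_mem hs
      have e4 : h⁻¹ • z = rep z := by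
        rw [e2]
        exact hs'
      rw [if_pos hs, e4]
      have e5 : rep (rep z) = rep z := by
        rw [← e4, hrep2, e4]
      rw [if_pos e5]
      have e6 : h = h1 * (h1⁻¹ * h) := by group
      have e7 : h⁻¹ = (h1⁻¹ * h)⁻¹ * h1⁻¹ := by group
      calc ρ h * l0 (rep z) * ρ h⁻¹ = ρ (h1 * (h1⁻¹ * h)) * l0 (rep z) *
            ρ ((h1⁻¹ * h)⁻¹ * h1⁻¹) := by rw [← e6, ← e7]
        _ = _ := by
          rw [map_mul ρ h1 (h1⁻¹ * h), map_mul ρ (h1⁻¹ * h)⁻¹ h1⁻¹]
          simp only [mul_assoc]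
    · rw [if_neg hs, if_neg, mul_zero, zero_mul, mul_zero, zero_mul]
      intro e3
      apply hs
      rw [hrep2, e2] at e3
      have e4 : (h1⁻¹ * h)⁻¹ ∈ MulAction.stabilizer P (rep z) := e3.symm
      exact inv_inv (h1⁻¹ * h) ▸ inv_mem e4
  rw [h2, ← Finset.sum_mul, ← Finset.mul_sum]
  have h3 := hl0 (rep z) hst
  rw [PTr_eq] at h3
  rw [h3, mul_one, ← map_mul, mul_inv_cancel, map_one]

end

end Pool.Agent.FRS
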