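import Pool.Agent.FRS.T1
import Pool.Agent.FRS.T2
import Pool.Agent.ORD.G4a

/-!
# FRS [T3]: functions on the torsor
-/

set_option autoImplicit false

namespace Pool.Agent.FRS

section YY

variable {P : Type} [Group P]

/-- functions with `y (x * g) = y x + 1` -/
def YY (n : ℕ) (g : P) : Type := {y : P → ZMod n // ∀ x, y (x * g) = y x + 1}

variable {n : ℕ} {g : P}

instance : MulAction P (YY n g) where
  smul h y := ⟨fun x => y.1 (h⁻¹ * x), fun x => by
    show y.1 (h⁻¹ * (x * g)) = y.1 (h⁻¹ * x) + 1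
    rw [← mul_assoc, y.2]⟩
  one_smul y := Subtype.ext (funext fun x => by
    show y.1 (1⁻¹ * x) = y.1 x
    rw [inv_one, one_mul])
  mul_smul a b y := Subtype.ext (funext fun x => by
    show y.1 ((a * b)⁻¹ * x) = y.1 (b⁻¹ * (a⁻¹ * x))
    rw [mul_inv_rev, mul_assoc])

theorem smul_val (h : P) (y : YY n g) (x : P) : (h • y).1 x = y.1 (h⁻¹ * x) := rfl

theorem mk_mul (x : P) : ((x * g : P) : P ⧸ Subgroup.zpowers g) = x := by
  refine QuotientGroup.eq.2 ?_
  have e : (x * g)⁻¹ * x = g⁻¹ := by group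
  rw [e]
  exact inv_mem (Subgroup.mem_zpowers g)

/-- shift by a function on the cosets -/
def sh (a : P ⧸ Subgroup.zpowers g → ZMod n) (y : YY n g) : YY n g :=
  ⟨fun x => y.1 x + a x, fun x => by
    show y.1 (x * g) + a ((x * g : P) : P ⧸ Subgroup.zpowers g) = y.1 x + a x + 1
    rw [mk_mul, y.2]
    ring⟩

theorem sh_val (a : P ⧸ Subgroup.zpowers g → ZMod n) (y : YY n g) (x : P) :
    (sh a y).1 x = y.1 x + a x := rfl

theorem sh_sh (a b : P ⧸ Subgroup.zpowers g → ZMod n) (y : YY n g) :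
    sh a (sh b y) = sh (b + a) y :=
  Subtype.ext (funext fun x => by
    rw [sh_val, sh_val, sh_val, Pi.add_apply, add_assoc])

theorem smul_sh (h : P) (a : P ⧸ Subgroup.zpowers g → ZMod n) (y : YY n g) :
    h • sh a y = sh (fun c => a (h⁻¹ • c)) (h • y) :=
  Subtype.ext (funext fun x => by
    rw [sh_val, smul_val, smul_val, sh_val]
    rfl)

theorem smul_ne (hn : (1 : ZMod n) ≠ 0) (y : YY n g) : g • y ≠ y := by
  intro h
  have h1 : (g • y).1 g = y.1 g := by rw [h]
  rw [smul_val, inv_mul_cancel] at h1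
  have h2 := y.2 1
  rw [one_mul] at h2
  rw [h2] at h1
  apply hn
  have h3 : y.1 1 + 0 = y.1 1 + 1 := by rw [add_zero]; exact h1
  exact (add_left_cancel h3).symm

/-- two elements differ by a shift -/
theorem exists_sh' (y y' : YY n g) : ∃ a : P ⧸ Subgroup.zpowers g → ZMod n, y' = sh a y := by
  have hk : ∀ (k : ℤ) (x : P), y'.1 (x * g ^ k) - y.1 (x * g ^ k) = y'.1 x - y.1 x := by
    intro k
    induction k using Int.induction_on with
    | zero => intro x; rw [zpow_zero, mul_one]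
    | succ k ih =>
      intro x
      rw [zpow_add, zpow_one, ← mul_assoc, y.2, y'.2, ← ih x]
      ring
    | pred k ih =>
      intro x
      have e : x * g ^ (-(k : ℤ)) = x * g ^ (-(k : ℤ) - 1) * g := by
        rw [zpow_sub, zpow_one]
        group
      have h1 := ih x
      rw [e, y.2, y'.2] at h1
      rw [← h1]
      ring
  refine ⟨fun c => y'.1 c.out - y.1 c.out, Subtype.ext (funext fun x => ?_)⟩
  rw [sh_val]
  obtain ⟨k, hk'⟩ : ∃ k : ℤ, ((x : P ⧸ Subgroup.zpowers g).out) = x * g ^ k := by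
    have h1 : x⁻¹ * (x : P ⧸ Subgroup.zpowers g).out ∈ Subgroup.zpowers g :=
      QuotientGroup.eq.1 (QuotientGroup.out_eq' _).symm
    obtain ⟨k, hk⟩ := Subgroup.mem_zpowers_iff.1 h1
    exact ⟨k, by rw [hk]; group⟩
  rw [hk', hk]
  ring

open Classical in
/-- the function with value `k` at `c` and zero elsewhere -/
noncomputable def ec (c : P ⧸ Subgroup.zpowers g) (k : ZMod n) : P ⧸ Subgroup.zpowers g → ZMod n :=
  fun c' => if c' = c then k else 0

theorem ec_self (c : P ⧸ Subgroup.zpowers g) (k : ZMod n) : ec c k c = k := if_pos rfl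

theorem ec_ne {c c' : P ⧸ Subgroup.zpowers g} (h : c' ≠ c) (k : ZMod n) : ec c k c' = 0 :=
  if_neg h

theorem ec_add (c : P ⧸ Subgroup.zpowers g) (k l : ZMod n) : ec c k + ec c l = ec c (k + l) := by
  funext c'
  rw [Pi.add_apply]
  by_cases h : c' = c
  · rw [h, ec_self, ec_self, ec_self]
  · rw [ec_ne h, ec_ne h, ec_ne h, add_zero]

theorem ec_smul (h : P) (c : P ⧸ Subgroup.zpowers g) (k : ZMod n) :
    (fun c' => ec (h • c) k (h • c')) = ec c k := by
  funext c'
  by_cases hc : c' = c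
  · rw [hc, ec_self, ec_self]
  · rw [ec_ne hc, ec_ne fun e => hc (smul_left_cancel h e)]

end YY

section ops

variable {p : ℕ} {P : Type} [Group P] {M : Type} [AddCommGroup M] [Module (ZMod p) M] {n : ℕ}
  {g : P}

/-- pull back -/
def Pb (p : ℕ) (M : Type) [AddCommGroup M] [Module (ZMod p) M]
    (a : P ⧸ Subgroup.zpowers g → ZMod n) : Module.End (ZMod p) (YY n g → M) :=
  LinearMap.funLeft (ZMod p) M (sh a)

theorem Pb_apply (a : P ⧸ Subgroup.zpowers g → ZMod n) (f : YY n g → M) (y : YY n g) :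
    Pb p M a f y = f (sh a y) := rfl

theorem Pb_mul (a b : P ⧸ Subgroup.zpowers g → ZMod n) :
    Pb p M a * Pb p M b = Pb p M (a + b) := by
  ext f y
  rw [Module.End.mul_apply, Pb_apply, Pb_apply, Pb_apply, sh_sh]

theorem Pb_comm (a b : P ⧸ Subgroup.zpowers g → ZMod n) : Commute (Pb p M a) (Pb p M b) := by
  rw [Commute, SemiconjBy, Pb_mul, Pb_mul, add_comm]

theorem Pb_zero : Pb p M (0 : P ⧸ Subgroup.zpowers g → ZMod n) = 1 := by
  ext f y
  rw [Pb_apply, Module.End.one_apply]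
  congr 1
  exact Subtype.ext (funext fun x => by rw [sh_val, Pi.zero_apply, add_zero])

theorem Pb_pow (c : P ⧸ Subgroup.zpowers g) (k : ℕ) :
    Pb p M (ec c (1 : ZMod n)) ^ k = Pb p M (ec c (k : ZMod n)) := by
  induction k with
  | zero =>
    have e : ec c ((0 : ℕ) : ZMod n) = 0 := by
      funext c'
      rw [Nat.cast_zero, Pi.zero_apply]
      by_cases h : c' = c
      · rw [h, ec_self]
      · rw [ec_ne h]
    rw [pow_zero, e, Pb_zero]
  | succ k ih => rw [pow_succ, ih, Pb_mul, ec_add, Nat.cast_succ]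

/-- multiplication by a function -/
def Mu {Z : Type} (M : Type) [AddCommGroup M] [Module (ZMod p) M] (d : Z → ZMod p) :
    Module.End (ZMod p) (Z → M) where
  toFun f y := d y • f y
  map_add' _ _ := funext fun _ => smul_add _ _ _
  map_smul' _ _ := funext fun _ => smul_comm _ _ _

theorem Mu_apply {Z : Type} (d : Z → ZMod p) (f : Z → M) (y : Z) : Mu M d f y = d y • f y := rfl

/-- pointwise action of an endomorphism depending on the point -/
def Pt {Z : Type} (l : Z → Module.End (ZMod p) M) : Module.End (ZMod p) (Z → M) where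
  toFun f y := l y (f y)
  map_add' _ _ := funext fun _ => map_add _ _ _
  map_smul' _ _ := funext fun _ => map_smul _ _ _

theorem Pt_apply {Z : Type} (l : Z → Module.End (ZMod p) M) (f : Z → M) (y : Z) :
    Pt l f y = l y (f y) := rfl

/-- the action on functions -/
def Ac (ρ : P →* Module.End (ZMod p) M) (Z : Type) [MulAction P Z] :
    P →* Module.End (ZMod p) (Z → M) where
  toFun h :=
    { toFun := fun f y => ρ h (f (h⁻¹ • y))
      map_add' := fun _ _ => funext fun _ => map_add _ _ _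
      map_smul' := fun _ _ => funext fun _ => map_smul _ _ _ }
  map_one' := by
    ext f y
    show ρ 1 (f ((1 : P)⁻¹ • y)) = f y
    rw [map_one, inv_one, one_smul, Module.End.one_apply]
  map_mul' a b := by
    ext f y
    show ρ (a * b) (f ((a * b)⁻¹ • y)) = ρ a (ρ b (f (b⁻¹ • a⁻¹ • y)))
    rw [map_mul, mul_inv_rev, mul_smul, Module.End.mul_apply]

theorem Ac_apply (ρ : P →* Module.End (ZMod p) M) {Z : Type} [MulAction P Z] (h : P) (f : Z → M)
    (y : Z) : Ac ρ Z h f y = ρ h (f (h⁻¹ • y)) := rfl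

theorem Ac_Pb (ρ : P →* Module.End (ZMod p) M) (h : P) (c : P ⧸ Subgroup.zpowers g)
    (k : ZMod n) : Ac ρ (YY n g) h * Pb p M (ec c k) = Pb p M (ec (h • c) k) * Ac ρ (YY n g) h := by
  ext f y
  rw [Module.End.mul_apply, Module.End.mul_apply, Pb_apply, Ac_apply, Ac_apply, Pb_apply, smul_sh,
    inv_inv, ec_smul]

/-- the difference operator -/
noncomputable def ta (p : ℕ) (M : Type) [AddCommGroup M] [Module (ZMod p) M]
    (c : P ⧸ Subgroup.zpowers g) : Module.End (ZMod p) (YY n g → M) := Pb p M (ec c 1) - 1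

theorem ta_apply (c : P ⧸ Subgroup.zpowers g) (f : YY n g → M) (y : YY n g) :
    ta p M c f y = f (sh (ec c 1) y) - f y := rfl

theorem ta_pow [Fact p.Prime] (c : P ⧸ Subgroup.zpowers g) :
    (ta p M c : Module.End (ZMod p) (YY n g → M)) ^ p = Pb p M (ec c (p : ZMod n)) - 1 := by
  rw [ta, (ORD.pow_p _).1, Pb_pow]

theorem ta_pow_apply [Fact p.Prime] (c : P ⧸ Subgroup.zpowers g) (f : YY n g → M) (y : YY n g) :
    (ta p M c ^ p : Module.End (ZMod p) (YY n g → M)) f y = f (sh (ec c (p : ZMod n)) y) - f y := by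
  rw [ta_pow]
  rfl

theorem ta_comm (c c' : P ⧸ Subgroup.zpowers g) :
    Commute (ta p M c : Module.End (ZMod p) (YY n g → M)) (ta p M c') :=
  ((Pb_comm _ _).sub_left (Commute.one_left _)).sub_right (Commute.one_right _)

theorem Ac_ta (ρ : P →* Module.End (ZMod p) M) (h : P) (c : P ⧸ Subgroup.zpowers g) :
    Ac ρ (YY n g) h * ta p M c = ta p M (h • c) * Ac ρ (YY n g) h := by
  rw [ta, ta, mul_sub, sub_mul, Ac_Pb, mul_one, one_mul]

theorem Ac_ta_pow (ρ : P →* Module.End (ZMod p) M) (h : P) (c : P ⧸ Subgroup.zpowers g) (k : ℕ) :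
    Ac ρ (YY n g) h * ta p M c ^ k = ta p M (h • c) ^ k * Ac ρ (YY n g) h := by
  induction k with
  | zero => rw [pow_zero, pow_zero, one_mul, mul_one]
  | succ k ih => rw [pow_succ, pow_succ, ← mul_assoc, ih, mul_assoc, Ac_ta, ← mul_assoc]

end ops

section dig

variable {p : ℕ} [Fact p.Prime] {P : Type} [Group P] {M : Type} [AddCommGroup M]
  [Module (ZMod p) M] {g : P}

/-- the second digit -/
def dig (p : ℕ) (a : ZMod (p ^ 2)) : ZMod p := ((a.val / p : ℕ) : ZMod p)

theorem dig_nat (k : ℕ) : dig p (k : ZMod (p ^ 2)) = ((k / p : ℕ) : ZMod p) := by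
  rw [dig, ZMod.val_natCast, pow_two, Nat.mod_mul_right_div_self, ZMod.natCast_mod]

theorem dig_add (a : ZMod (p ^ 2)) : dig p (a + (p : ZMod (p ^ 2))) = dig p a + 1 := by
  have hp : 0 < p := (Fact.out : p.Prime).pos
  have hne : NeZero (p ^ 2) := ⟨(pow_pos hp 2).ne'⟩
  obtain ⟨k, rfl⟩ : ∃ k : ℕ, (k : ZMod (p ^ 2)) = a := ⟨a.val, ZMod.natCast_zmod_val a⟩
  rw [← Nat.cast_add, dig_nat, dig_nat, Nat.add_div_right _ hp, Nat.cast_succ]

/-- multiplication by the second digit -/
noncomputable def Dc (p : ℕ) [Fact p.Prime] (M : Type) [AddCommGroup M] [Module (ZMod p) M]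
    (c : P ⧸ Subgroup.zpowers g) : Module.End (ZMod p) (YY (p ^ 2) g → M) :=
  Mu M fun y => dig p (y.1 c.out)

theorem Dc_comm (c c' : P ⧸ Subgroup.zpowers g) :
    Commute (Dc p M c) (Dc p M c') := by
  refine LinearMap.ext fun f => funext fun y => ?_
  rw [Module.End.mul_apply, Module.End.mul_apply, Dc, Dc, Mu_apply, Mu_apply, Mu_apply, Mu_apply,
    smul_comm]

theorem Dc_Pb {c c' : P ⧸ Subgroup.zpowers g} (h : c ≠ c') (k : ZMod (p ^ 2)) :
    Commute (Dc p M c) (Pb p M (ec c' k)) := by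
  refine LinearMap.ext fun f => funext fun y => ?_
  rw [Module.End.mul_apply, Module.End.mul_apply, Dc, Pb_apply, Mu_apply, Mu_apply, Pb_apply,
    sh_val, QuotientGroup.out_eq', ec_ne h, add_zero]

theorem Dc_ta {c c' : P ⧸ Subgroup.zpowers g} (h : c ≠ c') : Commute (Dc p M c) (ta p M c') :=
  (Dc_Pb h 1).sub_right (Commute.one_right _)

theorem ta_Dc (c : P ⧸ Subgroup.zpowers g) (w : YY (p ^ 2) g → M)
    (h : (ta p M c ^ p) w = 0) : (ta p M c ^ p) (Dc p M c w) = w := by
  funext y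
  have h1 := congrFun h y
  rw [ta_pow_apply, Pi.zero_apply, sub_eq_zero] at h1
  rw [ta_pow_apply, Dc, Mu_apply, Mu_apply, sh_val, QuotientGroup.out_eq', ec_self, dig_add, h1,
    ← sub_smul, add_sub_cancel_left, one_smul]

theorem ops1 (ρ : P →* Module.End (ZMod p) M) :
    Ops (Ac ρ (YY (p ^ 2) g)) (fun c : P ⧸ Subgroup.zpowers g => ta p M c ^ p)
      (fun c => ta p M c) (fun c => Dc p M c) where
  uu c c' := (ta_comm c c').pow_pow p p
  uv c c' := (ta_comm c c').pow_left p
  bb c c' := Dc_comm c c'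
  bu c c' h := (Dc_ta h).pow_right p
  bv c c' h := Dc_ta h
  ub c w h := ta_Dc c w (by
    have h' : ta p M c w = 0 := h
    have e := LinearMap.congr_fun
      (pow_sub_one_mul (Fact.out : p.Prime).ne_zero (ta p M c)) w
    rw [← e, Module.End.mul_apply, h', map_zero])
  Au h c := Ac_ta_pow ρ h c p
  Av h c := Ac_ta ρ h c

theorem ops2 (ρ : P →* Module.End (ZMod p) M) :
    Ops (Ac ρ (YY (p ^ 2) g)) (fun c : P ⧸ Subgroup.zpowers g => ta p M c)
      (fun c => ta p M c ^ p) (fun c => ta p M c ^ (p - 1) * Dc p M c) where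
  uu c c' := ta_comm c c'
  uv c c' := (ta_comm c c').pow_right p
  bb c c' := by
    by_cases h : c = c'
    · rw [h]
    · exact (((ta_comm c c').pow_pow _ _).mul_right ((Dc_ta (Ne.symm h)).pow_right _).symm).mul_left
        ((((Dc_ta h).pow_right _)).mul_right (Dc_comm c c'))
  bu c c' h := ((ta_comm c c').pow_left _).mul_left (Dc_ta h)
  bv c c' h := ((ta_comm c c').pow_pow _ _).mul_left ((Dc_ta h).pow_right _)
  ub c w h := by
    have e := LinearMap.congr_fun
      (mul_pow_sub_one (Fact.out : p.Prime).ne_zero (ta p M c)) (Dc p M c w)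
    exact e.trans (ta_Dc c w h)
  Au h c := Ac_ta ρ h c
  Av h c := Ac_ta_pow ρ h c p

end dig

end Pool.Agent.FRS
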