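import Pool.Agent.FRS.KA
import Pool.Agent.FRS.T3

/-!
# FRS [L4]: modules of a finite `p`-group with trivial first cohomology
-/

set_option autoImplicit false

namespace Pool.Agent.FRS

variable {p : ℕ} [Fact p.Prime] {D : Type} [Group D] [Fintype D] {M : Type} [AddCommGroup M]
  [Module (ZMod p) M]

/-- The trace as a sum. -/
theorem l4_PTr (ρ : D →* Module.End (ZMod p) M) (l : Module.End (ZMod p) M) (m : M) :
    PTr ρ ⊤ l m = ∑ a, ρ a (l (ρ a⁻¹ m)) := by
  classical
  unfold PTr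
  rw [LinearMap.sum_apply]
  have h1 : (Finset.univ.filter fun a : D => a ∈ (⊤ : Subgroup D)) = Finset.univ := by
    ext a; simp
  rw [h1]
  rfl

theorem l4_mul (ρ : D →* Module.End (ZMod p) M) (a b : D) (m : M) :
    ρ (a * b) m = ρ a (ρ b m) := by
  rw [map_mul]; rfl

/-- A module of a finite `p`-group with trivial first cohomology is free.
Proof. Let `I = D → M` with the action `A = Ac ρ D` (T3: `(A h f) y = ρ h (f (h⁻¹ * y))`, `D` acting
on itself by left multiplication), `ι = ` constant functions `M → I` (equivariant), `e f y = ` `f y`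
if `y = 1` and `0` otherwise; `∑ h, A h * e * A h⁻¹ = 1`. Let `M' = I ⧸ range ι` with the induced
action `ρ'` and `q : I → M'`. (1) Every fixed vector of `M'` is a norm: let `q f` be fixed; then
`A h f - f = ι (c h)` with a crossed homomorphism `c`, `c h = ρ h m - m`, `f' = f - ι m` is fixed by
`D`, `f' = ∑ h, A h (e f')`, so `q f = q f' = ∑ h, ρ' h (q (e f'))`. (2) By `pj_of_norm` (KA) there
is `l'` with `∑ h, ρ' h * l' * ρ' h⁻¹ = 1`. Let `s : M' → I` be linear with `q s = 1` and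
`S = ∑ h, A h s l' ρ' h⁻¹`, equivariant, `q S = 1`. (3) `f - S (q f)` lies in the range of `ι`; let
`r : I → M` be linear with `ι (r f) = f - S (q f)`: it is equivariant and `r (ι m) = m`. (4)
`l = r e ι` satisfies `∑ h, ρ h l ρ h⁻¹ m = r (∑ h, A h e A h⁻¹ (ι m)) = r (ι m) = m`. -/
theorem pj_of_h1 (hD : IsPGroup p D) (ρ : D →* Module.End (ZMod p) M)
    (h : ∀ c : D → M, (∀ a b, c (a * b) = c a + ρ a (c b)) → ∃ m, ∀ a, c a = ρ a m - m) :
    PJ ρ ⊤ := by
  classical
  let A : D →* Module.End (ZMod p) (D → M) := Ac ρ D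
  have hA : ∀ (a : D) (f : D → M) (y : D), A a f y = ρ a (f (a⁻¹ * y)) := fun _ _ _ => rfl
  let ι : M →ₗ[ZMod p] (D → M) :=
    { toFun := fun m _ => m
      map_add' := fun _ _ => rfl
      map_smul' := fun _ _ => rfl }
  have hι : ∀ m y, ι m y = m := fun _ _ => rfl
  have hιinj : ∀ {m m' : M}, ι m = ι m' → m = m' := fun {m m'} h1 => congrFun h1 1
  have hAι : ∀ a m, A a (ι m) = ι (ρ a m) := fun a m => rfl
  let e : (D → M) →ₗ[ZMod p] (D → M) :=
    { toFun := fun f y => if y = 1 then f y else 0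
      map_add' := fun f g => by
        funext y
        by_cases hy : y = 1 <;> simp [hy]
      map_smul' := fun c f => by
        funext y
        by_cases hy : y = 1 <;> simp [hy] }
  have he : ∀ f y, e f y = if y = 1 then f y else 0 := fun _ _ => rfl
  have hρinv : ∀ (a : D) (m : M), ρ a (ρ a⁻¹ m) = m := by
    intro a m
    rw [← l4_mul, mul_inv_cancel, map_one]; rfl
  have hsum : ∀ f : D → M, ∑ a, A a (e (A a⁻¹ f)) = f := by
    intro f
    funext y
    rw [Finset.sum_apply]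
    have h2 : ∀ a, A a (e (A a⁻¹ f)) y = if a = y then f y else 0 := by
      intro a
      rw [hA, he]
      by_cases hy : a = y
      · subst hy
        rw [if_pos (inv_mul_cancel a), if_pos rfl, hA, hρinv, inv_inv, inv_mul_cancel, mul_one]
      · rw [if_neg hy, if_neg, map_zero]
        intro h3
        exact hy (inv_mul_eq_one.mp h3)
    rw [Finset.sum_congr rfl fun a _ => h2 a]
    simp
  -- the quotient
  let N : Submodule (ZMod p) (D → M) := LinearMap.range ι
  have hN : ∀ a, N ≤ N.comap (A a) := by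
    rintro a _ ⟨m, rfl⟩
    exact ⟨ρ a m, (hAι a m).symm⟩
  let ρ' : D →* Module.End (ZMod p) ((D → M) ⧸ N) :=
    { toFun := fun a => N.mapQ N (A a) (hN a)
      map_one' := by
        apply Submodule.linearMap_qext
        refine LinearMap.ext fun f => ?_
        change N.mkQ (A 1 f) = N.mkQ f
        rw [map_one]; rfl
      map_mul' := fun a b => by
        apply Submodule.linearMap_qext
        refine LinearMap.ext fun f => ?_
        change N.mkQ (A (a * b) f) = N.mkQ (A a (A b f))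
        rw [map_mul]; rfl }
  have hρ' : ∀ a f, ρ' a (N.mkQ f) = N.mkQ (A a f) := fun _ _ => rfl
  have hq : ∀ f, N.mkQ f = 0 ↔ ∃ m, ι m = f := by
    intro f
    rw [Submodule.mkQ_apply, Submodule.Quotient.mk_eq_zero]
    rfl
  have hnorm : ∀ m', (∀ d, ρ' d m' = m') → ∃ m'', ∑ d, ρ' d m'' = m' := by
    intro m' hm'
    obtain ⟨f, rfl⟩ := N.mkQ_surjective m'
    have h1 : ∀ a, ∃ m, ι m = A a f - f := by
      intro a
      rw [← hq, map_sub, ← hρ', hm' a, sub_self]
    choose c hc using h1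
    obtain ⟨m, hm⟩ := h c (fun a b => by
      apply hιinj
      rw [hc, map_add, hc, ← hAι, hc, map_sub, l4_mul]
      abel)
    have hf' : ∀ a, A a (f - ι m) = f - ι m := by
      intro a
      rw [map_sub, hAι]
      have h2 : A a f = f + ι (c a) := by rw [hc]; abel
      rw [h2, hm, map_sub]
      abel
    refine ⟨N.mkQ (e (f - ι m)), ?_⟩
    have h3 := hsum (f - ι m)
    rw [Finset.sum_congr rfl fun a _ => by rw [hf' a⁻¹]] at h3
    have h4 : N.mkQ f = N.mkQ (f - ι m) := by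
      rw [map_sub, (hq (ι m)).mpr ⟨m, rfl⟩, sub_zero]
    rw [h4]
    conv_rhs => rw [← h3]
    rw [map_sum]
    exact Finset.sum_congr rfl fun a _ => hρ' a _
  obtain ⟨l', hl'⟩ := pj_of_norm hD ρ' hnorm
  have hl'' : ∀ m', ∑ a, ρ' a (l' (ρ' a⁻¹ m')) = m' := by
    intro m'
    rw [← l4_PTr, hl']; rfl
  obtain ⟨s, hs⟩ := LinearMap.exists_rightInverse_of_surjective N.mkQ
    (LinearMap.range_eq_top.mpr N.mkQ_surjective)
  have hs' : ∀ m', N.mkQ (s m') = m' := fun m' => LinearMap.congr_fun hs m'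
  let S : ((D → M) ⧸ N) →ₗ[ZMod p] (D → M) := ∑ a, (A a) ∘ₗ s ∘ₗ l' ∘ₗ (ρ' a⁻¹)
  have hS : ∀ m', S m' = ∑ a, A a (s (l' (ρ' a⁻¹ m'))) := fun m' => by
    change (∑ a, (A a) ∘ₗ s ∘ₗ l' ∘ₗ (ρ' a⁻¹)) m' = _
    rw [LinearMap.sum_apply]; rfl
  have hqS : ∀ m', N.mkQ (S m') = m' := by
    intro m'
    rw [hS, map_sum]
    conv_rhs => rw [← hl'' m']
    exact Finset.sum_congr rfl fun a _ => by rw [← hρ', hs']
  have hSeq : ∀ b m', S (ρ' b m') = A b (S m') := by
    intro b m'
    rw [hS, hS, map_sum, ← Equiv.sum_comp (Equiv.mulLeft b)]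
    refine Finset.sum_congr rfl fun a _ => ?_
    change A (b * a) (s (l' (ρ' (b * a)⁻¹ (ρ' b m')))) = _
    rw [l4_mul A, ← l4_mul ρ', mul_inv_rev, inv_mul_cancel_right]
  -- the retraction
  let r : (D → M) →ₗ[ZMod p] M := (LinearMap.proj 1) ∘ₗ (LinearMap.id - S ∘ₗ N.mkQ)
  have hr : ∀ f, r f = (f - S (N.mkQ f)) 1 := fun _ => rfl
  have hιr : ∀ f, ι (r f) = f - S (N.mkQ f) := by
    intro f
    obtain ⟨m, hm⟩ := (hq (f - S (N.mkQ f))).mp (by rw [map_sub, hqS, sub_self])
    rw [hr, ← hm, hι]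
  have hrA : ∀ a f, r (A a f) = ρ a (r f) := by
    intro a f
    apply hιinj
    rw [hιr, ← hAι, hιr, map_sub, ← hρ', hSeq]
  have hrι : ∀ m, r (ι m) = m := by
    intro m
    apply hιinj
    rw [hιr, (hq (ι m)).mpr ⟨m, rfl⟩, map_zero, sub_zero]
  refine ⟨r ∘ₗ e ∘ₗ ι, ?_⟩
  ext m
  rw [l4_PTr, Module.End.one_apply]
  have h5 : ∀ a, ρ a ((r ∘ₗ e ∘ₗ ι) (ρ a⁻¹ m)) = r (A a (e (A a⁻¹ (ι m)))) := by
    intro a
    rw [hrA, hAι]; rfl
  rw [Finset.sum_congr rfl fun a _ => h5 a, ← map_sum, hsum, hrι]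

end Pool.Agent.FRS
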