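import Pool.Agent.ORD.N1

/-!
# FRS [L6]: group algebras without zero divisors and torsion
-/

set_option autoImplicit false

namespace Pool.Agent.FRS

open Pool.Agent.MP_6fb7ad_al Pool.Agent.ORD

variable {p : ℕ} [Fact p.Prime] {Q : Type} [Group Q] [TopologicalSpace Q] [IsTopologicalGroup Q]

/-- If `𝔽_p⟦Q / N⟧` has no zero divisors then `Q / N` has no elements of order `p`.
Proof. Let `q ^ p ∈ N`, `q ∉ N`. Let `μ φ = ∑ j < p, φ (q ^ j)` and `ν φ = φ q - φ 1`. No `q ^ j` with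
`0 < j < p` lies in `N` (else `q ∈ N`, as `j` is prime to `p`), so there is an open normal subgroup
`W` with `q ^ j ∉ W ⊔ N` for `0 < j < p` (`exists_sep`); the indicator function `φ₀` of
`W ⊔ N` lies in `LC p Q N` (it is locally constant as `W ⊔ N` is open and closed) and
`μ φ₀ = 1`, `ν φ₀ = -1`. But for `φ ∈ LC p Q N`
`ν (fun y => μ (fun x => φ (x * y))) = ∑ j < p, φ (q ^ j * q) - ∑ j < p, φ (q ^ j)
= φ (q ^ p) - φ 1 = 0`. -/
theorem nzd_tf (hQ : IsProP p Q) (N : Subgroup Q) (hN : N.Normal) (hNc : IsClosed (N : Set Q))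
    (h : NZD p Q N) (q : Q) (hq : q ^ p ∈ N) : q ∈ N := by
  classical
  by_contra hqN
  have hp : p.Prime := Fact.out
  have hord : orderOf (q : Q ⧸ N) = p := by
    apply orderOf_eq_prime
    · rw [← QuotientGroup.mk_pow]
      exact (QuotientGroup.eq_one_iff _).2 hq
    · intro h1
      exact hqN ((QuotientGroup.eq_one_iff _).1 h1)
  have hj : ∀ j : ℕ, 0 < j → j < p → q ^ j ∉ N := by
    intro j h1 h2 h3
    have h4 : (q : Q ⧸ N) ^ j = 1 := by
      rw [← QuotientGroup.mk_pow]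
      exact (QuotientGroup.eq_one_iff _).2 h3
    have h5 := orderOf_dvd_of_pow_eq_one h4
    rw [hord] at h5
    exact absurd (Nat.le_of_dvd h1 h5) (by omega)
  obtain ⟨W, hWn, hWo, hWs⟩ := exists_normal_le hQ
    (⋂ j ∈ Finset.Ioo 0 p, {w : Q | q ^ j * w ∉ N})
    (isOpen_biInter_finset (fun j _ =>
      hNc.isOpen_compl.preimage (continuous_const.mul continuous_id)))
    (by
      simp only [Set.mem_iInter, Finset.mem_Ioo, Set.mem_ofPred_eq, mul_one]
      intro j h1
      exact hj j h1.1 h1.2)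
  have hsep : ∀ j : ℕ, 0 < j → j < p → q ^ j ∉ N ⊔ W := by
    intro j h1 h2 h3
    have h4 : q ^ j ∈ ((N ⊔ W : Subgroup Q) : Set Q) := h3
    rw [Subgroup.mul_normal] at h4
    obtain ⟨n, hn, w, hw, e⟩ := Set.mem_mul.1 h4
    have h5 := hWs (W.inv_mem hw)
    simp only [Set.mem_iInter, Finset.mem_Ioo, Set.mem_ofPred_eq] at h5
    apply h5 j ⟨h1, h2⟩
    rw [← e, mul_inv_cancel_right]
    exact hn
  set φ₀ : Q → ZMod p := fun x => if x ∈ N ⊔ W then 1 else 0 with hφ₀
  have hLC : φ₀ ∈ LC p Q N := by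
    refine ⟨?_, ?_⟩
    · rw [IsLocallyConstant.iff_exists_open]
      intro x
      refine ⟨{y : Q | x⁻¹ * y ∈ W}, hWo.preimage (continuous_const.mul continuous_id), ?_, ?_⟩
      · show x⁻¹ * x ∈ W
        rw [inv_mul_cancel]
        exact W.one_mem
      · intro y hy
        have hy' : x⁻¹ * y ∈ N ⊔ W := (le_sup_right : W ≤ N ⊔ W) hy
        have e : y ∈ N ⊔ W ↔ x ∈ N ⊔ W := by
          have e2 : y = x * (x⁻¹ * y) := by group
          rw [e2]
          exact Subgroup.mul_mem_cancel_right _ hy'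
        simp only [hφ₀, e]
    · intro x n hn
      have hn' : n ∈ N ⊔ W := (le_sup_left : N ≤ N ⊔ W) hn
      simp only [hφ₀, Subgroup.mul_mem_cancel_right _ hn']
  have h1 : φ₀ 1 = 1 := by
    simp only [hφ₀, Subgroup.one_mem, if_true]
  have hpj : ∀ j : ℕ, 0 < j → j < p → φ₀ (q ^ j) = 0 := by
    intro j h1 h2
    simp only [hφ₀, hsep j h1 h2, if_false]
  set pr : Q → ((Q → ZMod p) →ₗ[ZMod p] ZMod p) := fun x => LinearMap.proj x with hpr
  set μ : (Q → ZMod p) →ₗ[ZMod p] ZMod p := ∑ j ∈ Finset.range p, pr (q ^ j) with hμ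
  have μ_apply : ∀ f : Q → ZMod p, μ f = ∑ j ∈ Finset.range p, f (q ^ j) := by
    intro f
    rw [hμ, LinearMap.sum_apply]
    rfl
  set ν : (Q → ZMod p) →ₗ[ZMod p] ZMod p := pr q - pr 1 with hν
  have ν_apply : ∀ f : Q → ZMod p, ν f = f q - f 1 := by
    intro f
    rw [hν, LinearMap.sub_apply]
    rfl
  obtain ⟨φ, hφ, hne⟩ := h μ ν
    ⟨φ₀, hLC, by
      rw [μ_apply, Finset.sum_eq_single 0]
      · rw [pow_zero, h1]
        exact one_ne_zero
      · intro j hj1 hj2
        exact hpj j (Nat.pos_of_ne_zero hj2) (Finset.mem_range.1 hj1)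
      · intro hcon
        exact absurd (Finset.mem_range.2 hp.pos) hcon⟩
    ⟨φ₀, hLC, by
      rw [ν_apply, h1]
      have := hpj 1 one_pos hp.one_lt
      rw [pow_one] at this
      rw [this, zero_sub]
      exact neg_ne_zero.2 one_ne_zero⟩
  apply hne
  rw [ν_apply, μ_apply, μ_apply, ← Finset.sum_sub_distrib]
  have e : ∀ j ∈ Finset.range p, φ (q ^ j * q) - φ (q ^ j * 1) = φ (q ^ (j + 1)) - φ (q ^ j) := by
    intro j _
    rw [mul_one, pow_succ]
  rw [Finset.sum_congr rfl e, Finset.sum_range_sub (fun j => φ (q ^ j)), pow_zero]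
  have := hφ.2 1 (q ^ p) hq
  rw [one_mul] at this
  rw [this, sub_self]

end Pool.Agent.FRS
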