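import Pool.Agent.ORD.N0
import Pool.Agent.ORD.S2

/-!
# FRS [L7]: the property N1 on an open subgroup
-/

set_option autoImplicit false

namespace Pool.Agent.FRS

open Pool.Agent.MP_6fb7ad_al Pool.Agent.ORD

variable {p : ℕ} [Fact p.Prime] {F : Type} [Group F] [TopologicalSpace F] [IsTopologicalGroup F]

/-- extension by zero -/
noncomputable def l7_ex (p : ℕ) {F : Type} [Group F] (E : Subgroup F) :
    (E → ZMod p) →ₗ[ZMod p] (F → ZMod p) := by
  classical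
  exact
    { toFun := fun φ x => if h : x ∈ E then φ ⟨x, h⟩ else 0
      map_add' := fun φ ψ => by
        funext x
        by_cases h : x ∈ E
        · simp only [dif_pos h, Pi.add_apply]
        · simp only [dif_neg h, Pi.add_apply, add_zero]
      map_smul' := fun c φ => by
        funext x
        by_cases h : x ∈ E
        · simp only [dif_pos h, Pi.smul_apply, RingHom.id_apply]
        · simp only [dif_neg h, Pi.smul_apply, smul_zero] }

theorem l7_ex_pos {p : ℕ} {F : Type} [Group F] {E : Subgroup F} (φ : E → ZMod p) {x : F}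
    (h : x ∈ E) : l7_ex p E φ x = φ ⟨x, h⟩ := dif_pos h

theorem l7_ex_neg {p : ℕ} {F : Type} [Group F] {E : Subgroup F} (φ : E → ZMod p) {x : F}
    (h : x ∉ E) : l7_ex p E φ x = 0 := dif_neg h

/-- restriction -/
def l7_rs (p : ℕ) {F : Type} [Group F] (E : Subgroup F) :
    (F → ZMod p) →ₗ[ZMod p] (E → ZMod p) where
  toFun φ x := φ x
  map_add' _ _ := rfl
  map_smul' _ _ := rfl

theorem l7_rs_ex {p : ℕ} {F : Type} [Group F] {E : Subgroup F} (φ : E → ZMod p) :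
    l7_rs p E (l7_ex p E φ) = φ := by
  funext x
  show l7_ex p E φ x = φ x
  rw [l7_ex_pos φ x.2]

theorem l7_ex_rs {p : ℕ} {F : Type} [Group F] {E : Subgroup F} {φ : F → ZMod p}
    (hφ : ∀ x, x ∉ E → φ x = 0) : l7_ex p E (l7_rs p E φ) = φ := by
  funext x
  by_cases h : x ∈ E
  · rw [l7_ex_pos _ h]
    rfl
  · rw [l7_ex_neg _ h, hφ x h]

theorem l7_mul_not {F : Type} [Group F] {E : Subgroup F} {x v : F} (hv : v ∈ E) (hx : x ∉ E) :
    x * v ∉ E := by
  intro h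
  apply hx
  have := E.mul_mem h (E.inv_mem hv)
  rwa [mul_inv_cancel_right] at this

theorem l7_ex_mul {p : ℕ} {F : Type} [Group F] {E : Subgroup F} (φ : E → ZMod p) (x : F)
    (v : E) (h : ∀ y : E, φ (y * v) = φ y) : l7_ex p E φ (x * v) = l7_ex p E φ x := by
  by_cases hx : x ∈ E
  · rw [l7_ex_pos φ (E.mul_mem hx v.2), l7_ex_pos φ hx]
    exact h ⟨x, hx⟩
  · rw [l7_ex_neg φ (l7_mul_not v.2 hx), l7_ex_neg φ hx]

theorem l7_ex_mem {p : ℕ} [Fact p.Prime] {F : Type} [Group F] [TopologicalSpace F]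
    [IsTopologicalGroup F] (hF : IsProP p F) {V E : Subgroup F} (hVE : V ≤ E) (hE : ON E)
    {φ : E → ZMod p} (hφ : φ ∈ C1 p (⊤ : Subgroup E) (V.subgroupOf E)) :
    l7_ex p E φ ∈ C1 p E V := by
  obtain ⟨-, h2, W, hW, h3⟩ := mem_C1.1 hφ
  have ho : IsOpen ((W.map E.subtype : Subgroup F) : Set F) := by
    rw [Subgroup.coe_map]
    exact hE.2.isOpenMap_subtype_val _ hW.2
  obtain ⟨W', w1, w2, w3⟩ := exists_normal_le hF _ ho (Subgroup.one_mem _)
  refine mem_C1.2 ⟨fun x hx => l7_ex_neg φ hx, fun x v hv => ?_, W', ⟨w1, w2⟩, fun x w hw => ?_⟩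
  · exact l7_ex_mul φ x ⟨v, hVE hv⟩ fun y => h2 y _ (Subgroup.mem_subgroupOf.2 hv)
  · obtain ⟨w', hw', rfl⟩ := Subgroup.mem_map.1 (w3 hw)
    exact l7_ex_mul φ x w' fun y => h3 y w' hw'

theorem l7_rs_mem {p : ℕ} [Fact p.Prime] {F : Type} [Group F] [TopologicalSpace F]
    [IsTopologicalGroup F] {V E : Subgroup F} {φ : F → ZMod p} (hφ : φ ∈ C1 p E V) :
    l7_rs p E φ ∈ C1 p (⊤ : Subgroup E) (V.subgroupOf E) := by
  obtain ⟨-, h2, W, hW, h3⟩ := mem_C1.1 hφ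
  have hn : W.Normal := hW.1
  refine mem_C1.2 ⟨fun x hx => absurd (Subgroup.mem_top x) hx, fun x v hv => ?_,
    W.subgroupOf E, ⟨inferInstance, ?_⟩, fun x w hw => ?_⟩
  · exact h2 x v (Subgroup.mem_subgroupOf.1 hv)
  · exact hW.2.preimage continuous_subtype_val
  · exact h3 x w (Subgroup.mem_subgroupOf.1 hw)

theorem l7_rs_rr {p : ℕ} {F : Type} [Group F] [TopologicalSpace F]
    {E : Subgroup F} (a : E) (φ : F → ZMod p) :
    l7_rs p E (rr p (a : F) φ) = rr p a (l7_rs p E φ) := rfl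

theorem l7_ex_rr {p : ℕ} {F : Type} [Group F] [TopologicalSpace F]
    {E : Subgroup F} (a : E) (φ : E → ZMod p) :
    l7_ex p E (rr p a φ) = rr p (a : F) (l7_ex p E φ) := by
  funext x
  show _ = l7_ex p E φ (x * a)
  by_cases hx : x ∈ E
  · rw [l7_ex_pos _ hx, l7_ex_pos _ (E.mul_mem hx a.2)]
    rfl
  · rw [l7_ex_neg _ hx, l7_ex_neg _ (l7_mul_not a.2 hx)]

/-- Transport of `N1` from the group `E` to the functions on `F` that vanish outside of `E`
(extension by zero `ex : (E → ZMod p) → (F → ZMod p)` and restriction `rs`: `rs (ex φ) = φ`, and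
`ex (rs φ) = φ` for `φ ∈ C1 p E V`; `ex` maps `C1 p ⊤ (V.subgroupOf E)` onto `C1 p E V`: for the
smoothness use `exists_normal_le`, an open normal subgroup of `E` is open in `F` and contains an
open normal subgroup of `F`). Given `ε` on `F → ZMod p` apply the hypothesis to `rs ∘ ε ∘ ex`. -/
theorem N1_of_sub (hF : IsProP p F) {V E : Subgroup F} (hV : V.Normal) (hVE : V ≤ E) (hE : ON E)
    (h : N1 p (⊤ : Subgroup E) (V.subgroupOf E)) : N1 p E V := by
  intro ε h1 h2 h3 ψ hψ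
  have hz : ∀ φ ∈ C1 p E V, l7_ex p E (l7_rs p E φ) = φ := fun φ hφ => l7_ex_rs (mem_C1.1 hφ).1
  obtain ⟨φ', hφ', e⟩ := h (l7_rs p E ∘ₗ ε ∘ₗ l7_ex p E)
    (fun φ hφ => l7_rs_mem (h1 _ (l7_ex_mem hF hVE hE hφ)))
    (fun a _ φ hφ => by
      show l7_rs p E (ε (l7_ex p E (rr p a φ))) = rr p a (l7_rs p E (ε (l7_ex p E φ)))
      rw [l7_ex_rr, h2 a a.2 _ (l7_ex_mem hF hVE hE hφ), l7_rs_rr])
    (by
      obtain ⟨φ, hφ, hne⟩ := h3
      refine ⟨l7_rs p E φ, l7_rs_mem hφ, fun e0 => hne ?_⟩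
      have e1 : l7_rs p E (ε (l7_ex p E (l7_rs p E φ))) = 0 := e0
      rw [hz φ hφ] at e1
      rw [← hz _ (h1 φ hφ), e1, map_zero])
    (l7_rs p E ψ) (l7_rs_mem hψ)
  have e2 : l7_rs p E (ε (l7_ex p E φ')) = l7_rs p E ψ := e
  refine ⟨l7_ex p E φ', l7_ex_mem hF hVE hE hφ', ?_⟩
  rw [← hz _ (h1 _ (l7_ex_mem hF hVE hE hφ')), e2, hz ψ hψ]

end Pool.Agent.FRS
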