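import Pool.Agent.FRS.L5
import Pool.Agent.FRS.L6
import Pool.Agent.FRS.L7
import Pool.Agent.ORD.I2

/-!
# FRS [L8]: the step of index `p` with a torsion-free quotient
-/

set_option autoImplicit false

namespace Pool.Agent.FRS

open Pool.Agent.MP_6fb7ad_al Pool.Agent.ORD

section

variable {p : ℕ} [Fact p.Prime] {Q : Type} [Group Q] [TopologicalSpace Q] [IsTopologicalGroup Q]

/-- The theorem `step` of ORD.H0 without the hypothesis on the cohomological dimension: copy its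
proof with the following changes. `hN1 : N1 p (U.comap π) (N.comap π)` comes from `N1_of_sub` (L7)
and `N1_top` applied to `π.subgroupComap U : U.comap π →* U` (a continuous surjection, `isProP_sub`)
and `N.subgroupOf U`. `hH` comes from `h1_all_FT` (L5) with `L = N.comap π`, `E = U.comap π`
(`x ^ p ∈ N.comap π` implies `χ (π x) = 0` by `hT`) and `h1_Rs`. -/
theorem dstep_one (hQ : IsProP p Q) (N : Subgroup Q) (hN : N.Normal)
    (hNc : IsClosed (N : Set Q)) (χ : Q → ZMod p) (hχ : IsChar p χ) (hNχ : ∀ n ∈ N, χ n = 0)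
    (q₀ : Q) (hq₀ : χ q₀ ≠ 0) (hT : ∀ q : Q, q ^ p ∈ N → χ q = 0) (U : Subgroup Q)
    (hU : ∀ q, q ∈ U ↔ χ q = 0) (hND : NZD p U (N.subgroupOf U))
    (hr : Module.rank (ZMod p) (H2 p U) ≤ 1) : OneRelator p Q := by
  have hT2 : T2Space Q := hQ.t2
  obtain ⟨X, F, _, _, _, i, π, hF, hπ, hs, hmin⟩ := exists_min (p := p) hQ
  have hFp := hF.proP
  have hT2F : T2Space F := hFp.t2
  -- an element of value one
  obtain ⟨t', ht'⟩ : ∃ t' : Q, χ t' = 1 := by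
    have hpow : ∀ n : ℕ, χ (q₀ ^ n) = n * χ q₀ := by
      intro n
      induction n with
      | zero => rw [pow_zero, char_one hχ, Nat.cast_zero, zero_mul]
      | succ n ih =>
        rw [pow_succ, hχ.mul, ih]
        push_cast
        ring
    refine ⟨q₀ ^ ((χ q₀)⁻¹).val, ?_⟩
    rw [hpow, ZMod.natCast_zmod_val, inv_mul_cancel₀ hq₀]
  obtain ⟨t, rfl⟩ := hs t'
  have hUo : IsOpen (U : Set Q) := by
    have h1 : (U : Set Q) = χ ⁻¹' {0} := by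
      ext q
      exact hU q
    rw [h1]
    exact hχ.lc _
  have hRn : π.ker.Normal := inferInstance
  have hRc : IsClosed (π.ker : Set F) := isClosed_singleton.preimage hπ
  have hVn : (N.comap π).Normal := hN.comap π
  have hRV : π.ker ≤ N.comap π := by
    intro x hx
    rw [Subgroup.mem_comap, MonoidHom.mem_ker.1 hx]
    exact N.one_mem
  have hEχ : ∀ x, x ∈ U.comap π ↔ χ (π x) = 0 := fun x => hU _
  have hVE : N.comap π ≤ U.comap π := fun x hx => (hEχ x).2 (hNχ _ hx)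
  have hRE : π.ker ≤ U.comap π := hRV.trans hVE
  have hχF : IsChar p (fun x => χ (π x)) :=
    ⟨hχ.lc.comp_continuous hπ, fun a b => by rw [map_mul, hχ.mul]⟩
  have hUn : U.Normal := by
    refine ⟨fun n hn g => ?_⟩
    rw [hU] at hn ⊢
    have h1 := hχ.mul g g⁻¹
    rw [mul_inv_cancel, char_one hχ] at h1
    rw [hχ.mul, hχ.mul, hn, add_zero, ← h1]
  have hE : ON (U.comap π) := ⟨hUn.comap π, hUo.preimage hπ⟩
  have hN1 : N1 p (U.comap π) (N.comap π) := by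
    have hEc : IsClosed ((U.comap π : Subgroup F) : Set F) := Subgroup.isClosed_of_isOpen _ hE.2
    have hEp : IsProP p (U.comap π) := isProP_sub hFp (U.comap π) hEc
    have hc : Continuous (π.subgroupComap U) :=
      Continuous.subtype_mk (hπ.comp continuous_subtype_val) _
    have hsj : Function.Surjective (π.subgroupComap U) := by
      rintro ⟨y, hy⟩
      obtain ⟨x, hx⟩ := hs y
      refine ⟨⟨x, ?_⟩, Subtype.ext hx⟩
      rw [Subgroup.mem_comap, hx]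
      exact hy
    exact N1_of_sub hFp hVn hVE hE (N1_top hEp (π.subgroupComap U) hc hsj (N.subgroupOf U) hND)
  have hdim := dim_le (p := p) hFp π hπ hs U hUo hr
  have hdim' : ∀ θ₁ ∈ Hm p π.ker, ∀ θ₂ ∈ Hm p π.ker, (∀ a ∈ U.comap π, cj p a θ₁ = θ₁) →
      (∀ a ∈ U.comap π, cj p a θ₂ = θ₂) → ∃ c₁ c₂ : ZMod p, (c₁ ≠ 0 ∨ c₂ ≠ 0) ∧
      ∃ h ∈ Hm p (U.comap π), c₁ • θ₁ + c₂ • θ₂ = ind p π.ker h :=
    fun θ₁ h₁ θ₂ h₂ k₁ k₂ => hdim θ₁ θ₂ h₁ h₂ k₁ k₂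
  -- cohomology of `Rs`
  have hsm : ∀ m ∈ Rs p (N.comap π) π.ker, ∃ W : Subgroup F, ON W ∧ ∀ w ∈ W, cj p w m = m :=
    fun m hm => smooth_Hm hRn (Rs_le_Hm hRV hm)
  have hTE : ∀ x : F, x ^ p ∈ N.comap π → x ∈ U.comap π := by
    intro x hx
    rw [hEχ]
    apply hT
    rw [Subgroup.mem_comap, map_pow] at hx
    exact hx
  have hH := h1_all_FT hFp hVn (hNc.preimage hπ) hVE hE hTE (cj p) (Rs p (N.comap π) π.ker)
    (fun a m hm => cj_mem_Rs hVn hRn hm a) (fun v hv m hm => Rs_fx hRV hRn hm hv)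
    (fun c h1 h2 h3 h4 => h1_Rs hF hRn hRc hVn hRV hVE hE (fun x => χ (π x)) hχF hEχ t ht' hN1
        hdim' c h1 h2 h3 h4)
  have hex := exact1 (cj p) (Rs p (N.comap π) π.ker) (fun a m hm => cj_mem_Rs hVn hRn hm a) hVE hE
    (fun x => χ (π x)) hχF hEχ t ht' hH
  have hex2 := exact2 (cj p t) (Rs p (N.comap π) π.ker ⊓ fx (cj p) (U.comap π)) (by
    rintro y ⟨hy1, hy2⟩ hy3
    obtain ⟨y', h1, h2, h3⟩ := hex y hy1 hy2 hy3
    exact ⟨y', ⟨h1, h2⟩, h3⟩)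
  -- elements of `Rs` extending to `E` are killed by the norm
  have htr : ∀ θ ∈ Rs p (U.comap π) π.ker, ((cj p t - 1) ^ (p - 1)) θ = 0 := by
    rintro θ ⟨h, hh, rfl⟩
    exact transfer hE (fun x => χ (π x)) hχF hEχ t ht' hRn hRE hmin hh
  have hd : ∀ θ₁ ∈ Hm p π.ker, ∀ θ₂ ∈ Hm p π.ker, (∀ a, cj p a θ₁ = θ₁) →
      (∀ a, cj p a θ₂ = θ₂) →
      ∃ c₁ c₂ : ZMod p, (c₁ ≠ 0 ∨ c₂ ≠ 0) ∧ c₁ • θ₁ + c₂ • θ₂ = 0 := by
    intro θ₁ h₁ θ₂ h₂ k₁ k₂
    by_cases hα : ∀ θ ∈ Rs p (N.comap π) π.ker, (∀ a ∈ U.comap π, cj p a θ = θ) →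
        θ ∈ Rs p (U.comap π) π.ker
    · obtain ⟨c₁, c₂, hc, h, h3, h4⟩ := hdim' θ₁ h₁ θ₂ h₂ (fun a _ => k₁ a) (fun a _ => k₂ a)
      refine ⟨c₁, c₂, hc, ?_⟩
      have h5 : c₁ • θ₁ + c₂ • θ₂ ∈ Rs p (N.comap π) π.ker := by
        rw [h4]
        exact Rs_mono hRV hVE ⟨h, h3, rfl⟩
      have h6 : ∀ a, cj p a (c₁ • θ₁ + c₂ • θ₂) = c₁ • θ₁ + c₂ • θ₂ := by
        intro a
        rw [map_add, map_smul, map_smul, k₁, k₂]
      obtain ⟨y, hy, hy'⟩ := hex2 _ ⟨h5, fun a _ => h6 a⟩ (h6 t)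
      rw [← hy']
      exact htr y (hα y hy.1 hy.2)
    · push Not at hα
      obtain ⟨x₀, hx1, hx2, hx3⟩ := hα
      have hx1' := Rs_le_Hm hRV hx1
      have hmem : ∀ θ ∈ Hm p π.ker, (∀ a ∈ U.comap π, cj p a θ = θ) →
          θ ∈ Rs p (N.comap π) π.ker := by
        intro θ hθ hθ'
        obtain ⟨c₁, c₂, hc, h, h3, h4⟩ := hdim' θ hθ x₀ hx1' hθ' hx2
        have h5 : c₁ • θ + c₂ • x₀ ∈ Rs p (U.comap π) π.ker := by
          rw [h4]
          exact ⟨h, h3, rfl⟩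
        have hc1 : c₁ ≠ 0 := by
          rintro rfl
          have hc2 : c₂ ≠ 0 := hc.resolve_left fun h => h rfl
          apply hx3
          rw [zero_smul, zero_add] at h5
          have h6 := (Rs p (U.comap π) π.ker).smul_mem c₂⁻¹ h5
          rwa [smul_smul, inv_mul_cancel₀ hc2, one_smul] at h6
        have h6 : θ = c₁⁻¹ • (c₁ • θ + c₂ • x₀) - (c₁⁻¹ * c₂) • x₀ := by
          rw [smul_add, smul_smul, smul_smul, inv_mul_cancel₀ hc1, one_smul]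
          abel
        rw [h6]
        exact Submodule.sub_mem _ (Submodule.smul_mem _ _ (Rs_mono hRV hVE h5))
          (Submodule.smul_mem _ _ hx1)
      obtain ⟨y₁, ⟨hy1, hy1'⟩, hy1''⟩ := hex2 θ₁ ⟨hmem θ₁ h₁ fun a _ => k₁ a, fun a _ => k₁ a⟩
        (k₁ t)
      obtain ⟨y₂, ⟨hy2, hy2'⟩, hy2''⟩ := hex2 θ₂ ⟨hmem θ₂ h₂ fun a _ => k₂ a, fun a _ => k₂ a⟩
        (k₂ t)
      obtain ⟨c₁, c₂, hc, h, h3, h4⟩ := hdim' y₁ (Rs_le_Hm hRV hy1) y₂ (Rs_le_Hm hRV hy2)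
        hy1' hy2'
      refine ⟨c₁, c₂, hc, ?_⟩
      rw [← hy1'', ← hy2'', ← map_smul, ← map_smul, ← map_add, h4]
      exact htr _ ⟨h, h3, rfl⟩
  obtain ⟨r, hr1, hr2⟩ := exists_rel hFp π hd
  exact ⟨X, F, inferInstance, inferInstance, inferInstance, i, r, π, hF, hπ, hs, hr1, hr2⟩

end

end Pool.Agent.FRS
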