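import Pool.Agent.ORD.H1

/-!
# FRS [M4]: the transfer from an open subgroup
-/

set_option autoImplicit false

namespace Pool.Agent.FRS

open Pool.Agent.MP_6fb7ad_al Pool.Agent.ORD

variable {p : ℕ} [Fact p.Prime] {F : Type} [Group F] [TopologicalSpace F] [IsTopologicalGroup F]

/-- Let `E` be open in the pro-`p` group `F` (not necessarily normal), `R ≤ E` normal in `F` and
killed by all characters of `F`, `h` a homomorphism of `E`. Then the sum of the conjugates of the
restriction of `h` to `R` over `F / E` is zero. Proof. The transfer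
`g y = ∑ q : F ⧸ E, h ((y • q).out⁻¹ * y * q.out)` is additive: `g (y * y') =
∑ q, h ((y • y' • q).out⁻¹ * y * (y' • q).out) + ∑ q, h ((y' • q).out⁻¹ * y' * q.out)` and the first
sum is `g y` as `q ↦ y' • q` is a bijection of `F ⧸ E` (`(y • q).out⁻¹ * y * q.out ∈ E` since both
`(y • q).out` and `y * q.out` represent `y • q`). It vanishes on an open normal subgroup: let `h`
vanish on the open normal subgroup `W` and let `W' ≤ W ⊓ E` be open normal in `F`
(`exists_normal_le`); for `w ∈ W'` one has `w • q = q` and `q.out⁻¹ * w * q.out ∈ W'`. So `g` is a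
character of `F` (`IsChar`), `g r = 0` for `r ∈ R` by `hmin`. For `r ∈ R` also `r • q = q`, so
`g r = ∑ q, h (q.out⁻¹ * r * q.out)`, which is the value at `r` of the sum in the statement. Outside
of `R` all terms are zero (`R` is normal). -/
theorem transfer_open (hF : IsProP p F) {E R : Subgroup F} (hE : IsOpen (E : Set F))
    [Fintype (F ⧸ E)] (hR : R.Normal) (hRE : R ≤ E)
    (hmin : ∀ g : F → ZMod p, IsChar p g → ∀ r ∈ R, g r = 0) {h : F → ZMod p} (hh : h ∈ Hm p E) :
    ∑ q : F ⧸ E, cj p q.out (ind p R h) = 0 := by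
  classical
  obtain ⟨h1, h2, W, hW, h3⟩ := mem_Hm.mp hh
  obtain ⟨W', hWn, hWo, hWsub⟩ := exists_normal_le hF ((W ⊓ E : Subgroup F) : Set F)
    (hW.2.inter hE) (Subgroup.one_mem _)
  set g : F → ZMod p := fun y => ∑ q : F ⧸ E, h ((y • q).out⁻¹ * y * q.out) with hg
  have hmk : ∀ (y : F) (q : F ⧸ E), (((y * q.out : F)) : F ⧸ E) = y • q := by
    intro y q
    have e : (((y * q.out : F)) : F ⧸ E) = y • ((q.out : F) : F ⧸ E) := rfl
    rw [e, QuotientGroup.out_eq']
  have hmemE : ∀ (y : F) (q : F ⧸ E), (y • q).out⁻¹ * y * q.out ∈ E := by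
    intro y q
    have e : ((((y • q).out : F)) : F ⧸ E) = ((y * q.out : F) : F ⧸ E) := by
      rw [QuotientGroup.out_eq', hmk]
    have := QuotientGroup.eq.mp e
    rwa [← mul_assoc] at this
  have hfix : ∀ (y : F) (q : F ⧸ E), q.out⁻¹ * y * q.out ∈ E → y • q = q := by
    intro y q hy
    rw [← hmk y q]
    have e : ((q.out : F) : F ⧸ E) = ((y * q.out : F) : F ⧸ E) := by
      refine QuotientGroup.eq.mpr ?_
      rwa [← mul_assoc]
    rw [← e, QuotientGroup.out_eq']
  have hadd : ∀ y y', g (y * y') = g y + g y' := by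
    intro y y'
    have e1 : g y = ∑ q : F ⧸ E, h ((y • (y' • q)).out⁻¹ * y * (y' • q).out) :=
      (Equiv.sum_comp (MulAction.toPerm y' : Equiv.Perm (F ⧸ E))
        (fun q => h ((y • q).out⁻¹ * y * q.out))).symm
    rw [e1]
    simp only [hg]
    rw [← Finset.sum_add_distrib]
    refine Finset.sum_congr rfl fun q _ => ?_
    rw [← h2 _ (hmemE y (y' • q)) _ (hmemE y' q), mul_smul]
    congr 1
    group
  have hconj : ∀ w ∈ W', ∀ a : F, a⁻¹ * w * a ∈ W' := by
    intro w hw a
    have := hWn.conj_mem w hw a⁻¹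
    rwa [inv_inv] at this
  have hvan : ∀ w ∈ W', g w = 0 := by
    intro w hw
    simp only [hg]
    refine Finset.sum_eq_zero fun q _ => ?_
    have hm := hWsub (hconj w hw q.out)
    rw [hfix w q hm.2]
    exact h3 _ hm.1
  have hchar : IsChar p g := by
    refine ⟨?_, hadd⟩
    rw [IsLocallyConstant.iff_eventually_eq]
    intro x
    have ho : IsOpen {y : F | x⁻¹ * y ∈ W'} :=
      hWo.preimage (continuous_const.mul continuous_id)
    have hx : x ∈ {y : F | x⁻¹ * y ∈ W'} := by
      show x⁻¹ * x ∈ W'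
      rw [inv_mul_cancel]
      exact W'.one_mem
    filter_upwards [ho.mem_nhds hx] with y hy
    have e : y = x * (x⁻¹ * y) := by group
    rw [e, hadd, hvan _ hy, add_zero]
  funext x
  rw [Finset.sum_apply, Pi.zero_apply]
  have e1 : ∀ q : F ⧸ E, (cj p q.out (ind p R h)) x = ind p R h (q.out⁻¹ * x * q.out) :=
    fun q => rfl
  rw [Finset.sum_congr rfl fun q _ => e1 q]
  by_cases hx : x ∈ R
  · rw [← hmin g hchar x hx]
    simp only [hg]
    refine Finset.sum_congr rfl fun q _ => ?_
    have hm : q.out⁻¹ * x * q.out ∈ R := by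
      have := hR.conj_mem x hx q.out⁻¹
      rwa [inv_inv] at this
    rw [ind_of_mem hm, hfix x q (hRE hm)]
  · refine Finset.sum_eq_zero fun q _ => ?_
    refine ind_of_notMem (fun hn => hx ?_) h
    have := hR.conj_mem _ hn q.out
    have e3 : q.out * (q.out⁻¹ * x * q.out) * q.out⁻¹ = x := by group
    rwa [e3] at this

end Pool.Agent.FRS
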