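import Pool.Agent.ORD.S3
import Pool.Agent.ORD.B2

/-!
# FRS [O1]: cocycles and evaluation for open subgroups
-/

set_option autoImplicit false

namespace Pool.Agent.FRS

open Pool.Agent.MP_6fb7ad_al Pool.Agent.ORD

variable {p : ℕ} [Fact p.Prime] {F : Type} [Group F] [TopologicalSpace F] [IsTopologicalGroup F]

theorem o_mem_mul {E : Subgroup F} {x a : F} (ha : a ∈ E) : x * a ∈ E ↔ x ∈ E :=
  ⟨fun h => by simpa using E.mul_mem h (E.inv_mem ha), fun h => E.mul_mem h ha⟩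

theorem o_ev_mem_Cc {I : Type} {V E : Subgroup F} {E₀ : Subgroup F} (hE : ON E₀) (h0 : E₀ ≤ E) (hVE : V ≤ E) {y : I → F}
    (hy : ∀ W : Subgroup F, ON W → {i | y i ∉ W}.Finite) {z : F → F → ZMod p} (hz : z ∈ Bc p V) :
    ev p y E z ∈ Cc p I E V := by
  obtain ⟨-, h2, W, hW, h3, h4⟩ := mem_Bc.1 hz
  refine mem_Cc.2 ⟨fun i => mem_C1.2 ⟨fun x hx => ev_of_notMem y hx z i, fun x v hv => ?_,
    W ⊓ E₀, hW.inf hE, fun x w hw => ?_⟩, (hy W hW).subset fun i hi hiW => hi ?_⟩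
  · by_cases hx : x ∈ E
    · rw [ev_of_mem y hx, ev_of_mem y ((o_mem_mul (hVE hv)).2 hx)]
      exact h2 _ x v hv
    · rw [ev_of_notMem y hx, ev_of_notMem y (fun h => hx ((o_mem_mul (hVE hv)).1 h))]
  · by_cases hx : x ∈ E
    · rw [ev_of_mem y hx, ev_of_mem y ((o_mem_mul (h0 hw.2)).2 hx)]
      exact h4 w hw.1 _ x
    · rw [ev_of_notMem y hx, ev_of_notMem y (fun h => hx ((o_mem_mul (h0 hw.2)).1 h))]
  · ext x
    by_cases hx : x ∈ E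
    · rw [ev_of_mem y hx]
      exact h3 _ hiW x
    · rw [ev_of_notMem y hx]
      rfl

/-- the chosen representative of the coset of `x` -/
noncomputable def o_sg (P : Subgroup F) (x : F) : F := (QuotientGroup.mk x : F ⧸ P).out

omit [TopologicalSpace F] [IsTopologicalGroup F] in
theorem o_sg_mul (P : Subgroup F) {x u : F} (hu : u ∈ P) :
    o_sg P (x * u) = o_sg P x := by
  unfold o_sg
  congr 1
  rw [QuotientGroup.eq]
  have : (x * u)⁻¹ * x = u⁻¹ := by group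
  rw [this]
  exact P.inv_mem hu

omit [TopologicalSpace F] [IsTopologicalGroup F] in
theorem o_sg_eq (P : Subgroup F) (x : F) : ∃ u ∈ P, o_sg P x = x * u := by
  obtain ⟨u, hu⟩ := QuotientGroup.mk_out_eq_mul P x
  exact ⟨u, u.2, hu⟩

omit [TopologicalSpace F] [IsTopologicalGroup F] in
theorem o_arg (P : Subgroup F) (f x : F) :
    (o_sg P x)⁻¹ * f * o_sg P (f⁻¹ * x) ∈ P := by
  obtain ⟨a, ha, ea⟩ := o_sg_eq P x
  obtain ⟨b, hb, eb⟩ := o_sg_eq P (f⁻¹ * x)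
  rw [ea, eb]
  have : (x * a)⁻¹ * f * (f⁻¹ * x * b) = a⁻¹ * b := by group
  rw [this]
  exact P.mul_mem (P.inv_mem ha) hb


theorem o_exists_sh {E E₀ : Subgroup F} (hE : ON E₀) (h0 : E₀ ≤ E) {h : F → ZMod p}
    (hh : h ∈ Hm p E) : ∃ z ∈ Bc p E, ∀ v ∈ E, z v 1 = h v := by
  obtain ⟨-, hadd, W, hW, hW0⟩ := mem_Hm.1 hh
  have h10 : h 1 = 0 := by
    have := hadd 1 E.one_mem 1 E.one_mem
    rw [one_mul] at this
    exact left_eq_add.1 this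
  have hsl : ∀ w ∈ E₀, ∀ x, o_sg E (w⁻¹ * x) = o_sg E x := by
    intro w hw x
    have e : w⁻¹ * x = x * (x⁻¹ * w⁻¹ * x) := by group
    rw [e]
    exact o_sg_mul E (h0 (hE.conj (E₀.inv_mem hw) x))
  have hsl1 : ∀ v ∈ E, o_sg E (v⁻¹ * 1) = o_sg E 1 := by
    intro v hv
    have e : v⁻¹ * 1 = 1 * v⁻¹ := by group
    rw [e]
    exact o_sg_mul E (E.inv_mem hv)
  refine ⟨fun f x => h ((o_sg E x)⁻¹ * f * o_sg E (f⁻¹ * x)), ?_, ?_⟩
  · refine mem_Bc.2 ⟨?_, ?_, W ⊓ E₀, hW.inf hE, ?_, ?_⟩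
    · intro f g x
      show h ((o_sg E x)⁻¹ * (f * g) * o_sg E ((f * g)⁻¹ * x)) =
        h ((o_sg E x)⁻¹ * f * o_sg E (f⁻¹ * x)) +
        h ((o_sg E (f⁻¹ * x))⁻¹ * g * o_sg E (g⁻¹ * (f⁻¹ * x)))
      rw [← hadd _ (o_arg E f x) _ (o_arg E g (f⁻¹ * x))]
      congr 1
      have e : (f * g)⁻¹ * x = g⁻¹ * (f⁻¹ * x) := by group
      rw [e]
      group
    · intro f x v hv
      show h ((o_sg E (x * v))⁻¹ * f * o_sg E (f⁻¹ * (x * v))) =
        h ((o_sg E x)⁻¹ * f * o_sg E (f⁻¹ * x))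
      rw [o_sg_mul E hv, ← mul_assoc f⁻¹ x v, o_sg_mul E hv]
    · intro w hw x
      show h ((o_sg E x)⁻¹ * w * o_sg E (w⁻¹ * x)) = 0
      rw [hsl w hw.2 x]
      exact hW0 _ (hW.conj hw.1 _)
    · intro w hw f x
      show h ((o_sg E (x * w))⁻¹ * f * o_sg E (f⁻¹ * (x * w))) =
        h ((o_sg E x)⁻¹ * f * o_sg E (f⁻¹ * x))
      rw [o_sg_mul E (h0 hw.2), ← mul_assoc f⁻¹ x w, o_sg_mul E (h0 hw.2)]
  · intro v hv
    show h ((o_sg E 1)⁻¹ * v * o_sg E (v⁻¹ * 1)) = h v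
    rw [hsl1 v hv]
    obtain ⟨a, ha, ea⟩ := o_sg_eq E (1 : F)
    rw [one_mul] at ea
    rw [ea, hadd _ (E.mul_mem (E.inv_mem ha) hv) _ ha, hadd _ (E.inv_mem ha) _ hv]
    have h2 : h a⁻¹ + h a = 0 := by
      rw [← hadd _ (E.inv_mem ha) _ ha, inv_mul_cancel, h10]
    calc h a⁻¹ + h v + h a = (h a⁻¹ + h a) + h v := by ring
      _ = h v := by rw [h2, zero_add]

end Pool.Agent.FRS
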