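import Pool.Agent.FRS.O1
import Pool.Agent.ORD.A4

/-!
# FRS [O2]: equivariant maps into cocycles, open subgroups
-/

set_option autoImplicit false

namespace Pool.Agent.FRS

open Pool.Agent.MP_6fb7ad_al Pool.Agent.ORD

variable {p : ℕ} [Fact p.Prime] {F : Type} [Group F] [TopologicalSpace F] [IsTopologicalGroup F]

theorem o_exists_sig {X : Type} {i : X → F} (hF : IsFreeProP p i) {V E E₀ : Subgroup F}
    (hV : V.Normal) (hVE : V ≤ E) (hE : ON E₀) (h0 : E₀ ≤ E) {z₁ : F → F → ZMod p}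
    (hz₁ : z₁ ∈ Bc p E) :
    ∃ σ : (F → ZMod p) →ₗ[ZMod p] (F → F → ZMod p),
      (∀ φ ∈ C1 p E V, σ φ ∈ Bc p V) ∧
      (∀ a ∈ E, ∀ φ ∈ C1 p E V, σ (rr p a φ) = rh p F a (σ φ)) ∧ σ (one1 p E) = z₁ := by
  obtain ⟨g, hg1, hg2, hg3⟩ := exists_gb hF hV (V := V)
  obtain ⟨h1, h2, W₁, hW₁, h3, h4⟩ := mem_Bc.1 hz₁
  let m : (F → ZMod p) →ₗ[ZMod p] (X → F → ZMod p) :=
    { toFun := fun φ x y => z₁ (i x) y * φ ((o_sg E y)⁻¹ * y)
      map_add' := fun φ ψ => by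
        funext x y
        simp only [Pi.add_apply, mul_add]
      map_smul' := fun c φ => by
        funext x y
        simp only [Pi.smul_apply, smul_eq_mul, RingHom.id_apply]
        ring }
  have hm : ∀ φ x y, m φ x y = z₁ (i x) y * φ ((o_sg E y)⁻¹ * y) := fun _ _ _ => rfl
  have hmC : ∀ φ ∈ C1 p E V, m φ ∈ Cc p X ⊤ V := by
    intro φ hφ
    obtain ⟨k1, k2, W, hW, k3⟩ := mem_C1.1 hφ
    refine mem_Cc.2 ⟨fun x => mem_C1.2 ⟨fun y hy => absurd (Subgroup.mem_top y) hy,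
      fun y v hv => ?_, E₀ ⊓ W, hE.inf hW, fun y w hw => ?_⟩, ?_⟩
    · rw [hm, hm, h2 (i x) y v (hVE hv), o_sg_mul E (hVE hv), ← mul_assoc, k2 _ v hv]
    · rw [hm, hm, h2 (i x) y w (h0 hw.1), o_sg_mul E (h0 hw.1), ← mul_assoc, k3 _ w hw.2]
    · refine ((mem_Cc.1 (Bc_restr hF hz₁)).2).subset fun x hx hx' => hx ?_
      funext y
      rw [hm]
      have h5 : z₁ (i x) = 0 := hx'
      rw [h5, Pi.zero_apply, zero_mul]
  refine ⟨g ∘ₗ m, fun φ hφ => (hg1 _ (hmC φ hφ)).1, fun a ha φ hφ => ?_, ?_⟩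
  · have h5 : m (rr p a φ) = rh p X a (m φ) := by
      funext x y
      rw [rh_apply, hm, hm, rr_apply, h2 (i x) y a ha, o_sg_mul E ha, ← mul_assoc]
    rw [LinearMap.comp_apply, LinearMap.comp_apply, h5, hg3 a _ (hmC φ hφ)]
  · have h5 : m (one1 p E) = fun x => z₁ (i x) := by
      funext x y
      have h7 : (o_sg E y)⁻¹ * y ∈ E := by
        obtain ⟨u, hu, e⟩ := o_sg_eq E y
        have e2 : (y * u)⁻¹ * y = u⁻¹ := by group
        rw [e, e2]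
        exact E.inv_mem hu
      rw [hm, one1_of_mem h7, mul_one]
    rw [LinearMap.comp_apply, h5, hg2 z₁ (Bc_mono hVE hz₁)]

end Pool.Agent.FRS
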