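import Pool.Agent.FRS.O1
import Pool.Agent.ORD.A4
import Pool.Agent.ORD.N0

/-!
# FRS [O3]: nonzero equivariant maps of cocycles are onto, open subgroups
-/

set_option autoImplicit false

namespace Pool.Agent.FRS

open Pool.Agent.MP_6fb7ad_al Pool.Agent.ORD

variable {p : ℕ} [Fact p.Prime] {F : Type} [Group F] [TopologicalSpace F] [IsTopologicalGroup F]

open Classical in
/-- the family concentrated at `x₀` and on the coset `c` -/
noncomputable def o_fam {F : Type} [Group F] {X : Type} (E : Subgroup F) (x₀ : X)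
    (c : F ⧸ E) : (F → ZMod p) →ₗ[ZMod p] (X → F → ZMod p) where
  toFun φ x y := if x = x₀ ∧ (y : F ⧸ E) = c then φ (c.out⁻¹ * y) else 0
  map_add' φ ψ := by
    ext x y
    simp only [Pi.add_apply]
    split_ifs <;> simp
  map_smul' a φ := by
    ext x y
    simp only [Pi.smul_apply, RingHom.id_apply]
    split_ifs <;> simp

open Classical in
theorem o_fam_apply {F : Type} [Group F] {X : Type} (E : Subgroup F) (x₀ : X)
    (c : F ⧸ E) (φ : F → ZMod p) (x : X) (y : F) :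
    o_fam E x₀ c φ x y = if x = x₀ ∧ (y : F ⧸ E) = c then φ (c.out⁻¹ * y) else 0 := rfl

theorem o_onto_of_ne {X : Type} {i : X → F} (hF : IsFreeProP p i) {V E E₀ : Subgroup F}
    (hV : V.Normal) (hVE : V ≤ E) (hE : ON E₀) (h0 : E₀ ≤ E) (hN : N1 p E V)
    (L : (F → F → ZMod p) →ₗ[ZMod p] (F → ZMod p)) (hL : ∀ z ∈ Bc p V, L z ∈ C1 p E V)
    (hL' : ∀ a ∈ E, ∀ z ∈ Bc p V, L (rh p F a z) = rr p a (L z))
    (hne : ∃ z ∈ Bc p V, L z ≠ 0) :
    ∀ ψ ∈ C1 p E V, ∃ z ∈ Bc p V, L z = ψ := by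
  classical
  have hcomp : CompactSpace F := hF.proP.compact
  have hEo : IsOpen (E : Set F) := Subgroup.isOpen_mono h0 hE.2
  have hfin : Finite (F ⧸ E) := Subgroup.quotient_finite_of_isOpen _ hEo
  have hfin2 : Fintype (F ⧸ E) := Fintype.ofFinite _
  obtain ⟨g, hg1, hg2, hg3⟩ := exists_gb hF hV
  have hmulE : ∀ y, ∀ a ∈ E, ((y * a : F) : F ⧸ E) = y := by
    intro y a ha
    refine QuotientGroup.eq.2 ?_
    have e : (y * a)⁻¹ * y = a⁻¹ := by group
    rw [e]
    exact E.inv_mem ha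
  -- membership of the families
  have hfam : ∀ (x₀ : X) (c : F ⧸ E), ∀ φ ∈ C1 p E V, o_fam E x₀ c φ ∈ Cc p X ⊤ V := by
    rintro x₀ c φ ⟨h1, h2, W, hW, h3⟩
    refine ⟨fun x => ⟨fun y hy => absurd (Subgroup.mem_top y) hy, fun y v hv => ?_, W ⊓ E₀,
      hW.inf hE, fun y w hw => ?_⟩, (Set.finite_singleton x₀).subset fun x hx => ?_⟩
    · rw [o_fam_apply, o_fam_apply, hmulE y v (hVE hv), ← mul_assoc, h2 _ v hv]
    · rw [o_fam_apply, o_fam_apply, hmulE y w (h0 hw.2), ← mul_assoc, h3 _ w hw.1]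
    · by_contra hc
      apply hx
      funext y
      rw [o_fam_apply, if_neg (fun h => hc h.1)]
      rfl
  have hequi : ∀ (x₀ : X) (c : F ⧸ E), ∀ a ∈ E, ∀ φ : F → ZMod p,
      o_fam E x₀ c (rr p a φ) = rh p X a (o_fam E x₀ c φ) := by
    intro x₀ c a ha φ
    funext x y
    rw [rh_apply, o_fam_apply, o_fam_apply, hmulE y a ha, rr_apply, mul_assoc]
  -- the endomorphisms
  by_cases hz : ∀ (x₀ : X) (c : F ⧸ E), ∀ φ ∈ C1 p E V, L (g (o_fam E x₀ c φ)) = 0
  · exfalso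
    obtain ⟨z, hz1, hz2⟩ := hne
    apply hz2
    have hΦ := Bc_restr hF hz1
    obtain ⟨k1, k2, W, hW, k3, k4⟩ := mem_Bc.1 hz1
    let ph : X → F ⧸ E → F → ZMod p := fun x₀ c y =>
      if y ∈ E then z (i x₀) (c.out * y) else 0
    have hph : ∀ x₀ c, ph x₀ c ∈ C1 p E V := by
      intro x₀ c
      refine ⟨fun y hy => if_neg hy, fun y v hv => ?_, W ⊓ E₀, hW.inf hE, fun y w hw => ?_⟩
      · have e1 : y * v ∈ E ↔ y ∈ E := o_mem_mul (hVE hv)
        show (if y * v ∈ E then z (i x₀) (c.out * (y * v)) else 0) =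
          if y ∈ E then z (i x₀) (c.out * y) else 0
        simp only [e1]
        rw [← mul_assoc, k2 _ _ v hv]
      · have e1 : y * w ∈ E ↔ y ∈ E := o_mem_mul (h0 hw.2)
        show (if y * w ∈ E then z (i x₀) (c.out * (y * w)) else 0) =
          if y ∈ E then z (i x₀) (c.out * y) else 0
        simp only [e1]
        rw [← mul_assoc, k4 w hw.1]
    have hsum : (fun x => z (i x)) =
        ∑ x₀ ∈ hΦ.2.toFinset, ∑ c : F ⧸ E, o_fam E x₀ c (ph x₀ c) := by
      funext x y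
      simp only [Finset.sum_apply, o_fam_apply]
      have hmem : (y : F ⧸ E).out⁻¹ * y ∈ E := QuotientGroup.eq.1 (QuotientGroup.out_eq' _)
      have hinner : ∀ x₀ : X, (∑ c : F ⧸ E, if x = x₀ ∧ (y : F ⧸ E) = c then
          ph x₀ c (c.out⁻¹ * y) else 0) = if x = x₀ then z (i x₀) y else 0 := by
        intro x₀
        by_cases hx : x = x₀
        · simp only [hx, true_and, if_true]
          rw [Finset.sum_ite_eq Finset.univ (y : F ⧸ E) (fun c => ph x₀ c (c.out⁻¹ * y)),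
            if_pos (Finset.mem_univ _)]
          show (if (y : F ⧸ E).out⁻¹ * y ∈ E then
            z (i x₀) ((y : F ⧸ E).out * ((y : F ⧸ E).out⁻¹ * y)) else 0) = z (i x₀) y
          rw [if_pos hmem, mul_inv_cancel_left]
        · simp only [hx, false_and, if_false, Finset.sum_const_zero]
      rw [Finset.sum_congr rfl fun x₀ _ => hinner x₀,
        Finset.sum_ite_eq hΦ.2.toFinset x (fun x₀ => z (i x₀) y)]
      by_cases hx : z (i x) = 0
      · rw [if_neg (by simp [hx]), hx]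
        rfl
      · rw [if_pos (by simpa using hx)]
    rw [← hg2 z hz1, hsum, map_sum, map_sum]
    refine Finset.sum_eq_zero fun x₀ _ => ?_
    rw [map_sum, map_sum]
    exact Finset.sum_eq_zero fun c _ => hz x₀ c _ (hph x₀ c)
  · push Not at hz
    obtain ⟨x₀, c, φ₀, hφ₀, hne₀⟩ := hz
    intro ψ hψ
    obtain ⟨φ, hφ, hφ'⟩ := hN (L ∘ₗ g ∘ₗ o_fam E x₀ c)
      (fun φ hφ => hL _ (hg1 _ (hfam x₀ c φ hφ)).1)
      (fun a ha φ hφ => by
        show L (g (o_fam E x₀ c (rr p a φ))) = rr p a (L (g (o_fam E x₀ c φ)))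
        rw [hequi x₀ c a ha φ, hg3 a _ (hfam x₀ c φ hφ), hL' a ha _ (hg1 _ (hfam x₀ c φ hφ)).1])
      ⟨φ₀, hφ₀, hne₀⟩ ψ hψ
    exact ⟨g (o_fam E x₀ c φ), (hg1 _ (hfam x₀ c φ hφ)).1, hφ'⟩

end Pool.Agent.FRS
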