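import Pool.Agent.FRS.O4
import Pool.Agent.FRS.O3
import Pool.Agent.ORD.E3

/-!
# FRS [O5]: the last coordinate and the first cohomology of Cc, open subgroups
-/

set_option autoImplicit false

namespace Pool.Agent.FRS

open Pool.Agent.MP_6fb7ad_al Pool.Agent.ORD

variable {p : ℕ} [Fact p.Prime] {F : Type} [Group F] [TopologicalSpace F] [IsTopologicalGroup F]

theorem o_st2 {X : Type} {i : X → F} (hF : IsFreeProP p i) {V E E₀ : Subgroup F}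
    (hV : V.Normal) (hVE : V ≤ E) (hE : ON E₀) (h0 : E₀ ≤ E) {I : Type} (y : I → F)
    (hy : ∀ W : Subgroup F, ON W → {b | y b ∉ W}.Finite)
    (τ : (I → F → ZMod p) →ₗ[ZMod p] (F → F → ZMod p))
    (h1 : ∀ φ ∈ Cc p I E V, τ φ ∈ Bc p V ∧ ev p y E (τ φ) = φ)
    (h2 : ∀ a ∈ E, ∀ φ ∈ Cc p I E V, τ (rh p I a φ) = rh p F a (τ φ)) (hN : N1 p E V) (s : F)
    (z₀ : F → F → ZMod p) (hz₀ : z₀ ∈ Bc p V) (hz0 : ev p y E z₀ = 0) (hs : z₀ s 1 ≠ 0) :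
    ∀ ψ ∈ C1 p E V, ∃ z ∈ Bc p V, ev p y E z = 0 ∧ ∀ x ∈ E, z s x = ψ x := by
  have hu : ∀ W : Subgroup F, ON W → {b : Unit | (fun _ : Unit => s) b ∉ W}.Finite :=
    fun W _ => Set.toFinite _
  let L₀ : (F → F → ZMod p) →ₗ[ZMod p] (F → F → ZMod p) := LinearMap.id - τ ∘ₗ ev p y E
  have hL₀ : ∀ z, L₀ z = z - τ (ev p y E z) := fun _ => rfl
  have hmem : ∀ z ∈ Bc p V, L₀ z ∈ Bc p V := fun z hz =>
    (Bc p V).sub_mem hz (h1 _ (o_ev_mem_Cc hE h0 hVE hy hz)).1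
  have hev : ∀ z ∈ Bc p V, ev p y E (L₀ z) = 0 := by
    intro z hz
    rw [hL₀, map_sub, (h1 _ (o_ev_mem_Cc hE h0 hVE hy hz)).2, sub_self]
  let L : (F → F → ZMod p) →ₗ[ZMod p] (F → ZMod p) :=
    (LinearMap.proj (R := ZMod p) (φ := fun _ : Unit => F → ZMod p) ()) ∘ₗ
      ev p (fun _ : Unit => s) E ∘ₗ L₀
  have hLd : ∀ z, L z = ev p (fun _ : Unit => s) E (L₀ z) () := fun _ => rfl
  have key := o_onto_of_ne hF hV hVE hE h0 hN L ?_ ?_ ?_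
  · intro ψ hψ
    obtain ⟨z, hz, hz'⟩ := key ψ hψ
    refine ⟨L₀ z, hmem z hz, hev z hz, fun x hx => ?_⟩
    rw [← hz', hLd, ev_of_mem _ hx]
  · intro z hz
    exact (o_ev_mem_Cc hE h0 hVE hu (hmem z hz)).1 ()
  · intro a ha z hz
    have e1 : L₀ (rh p F a z) = rh p F a (L₀ z) := by
      rw [hL₀, hL₀, ev_rh y ha, h2 a ha _ (o_ev_mem_Cc hE h0 hVE hy hz), map_sub]
    rw [hLd, hLd, e1, ev_rh _ ha]
    rfl
  · refine ⟨z₀, hz₀, fun hc => hs ?_⟩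
    have e1 : L₀ z₀ = z₀ := by
      rw [hL₀, hz0, map_zero, sub_zero]
    rw [hLd, e1] at hc
    have e2 := congrFun hc 1
    rw [ev_of_mem _ E.one_mem] at e2
    exact e2

theorem o_h1_Cc (hF : IsProP p F) {V E E₀ : Subgroup F} (hV : V.Normal) (hVE : V ≤ E) (hE : ON E₀)
    (h0 : E₀ ≤ E)
    {I : Type} (c : F → I → F → ZMod p) (hc : ∀ a ∈ E, c a ∈ Cc p I E V)
    (hmul : ∀ a ∈ E, ∀ b ∈ E, c (a * b) = c a + rh p I a (c b)) (hv : ∀ v ∈ V, c v = 0)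
    (hs : ∃ W : Subgroup F, ON W ∧ ∀ w ∈ W, w ∈ E → c w = 0) :
    ∃ ψ ∈ Cc p I E V, ∀ a ∈ E, c a = rh p I a ψ - ψ := by
  classical
  obtain ⟨W, hW, hWc⟩ := hs
  have hWE : ON (W ⊓ E₀) := hW.inf hE
  have hcw : ∀ x ∈ E, ∀ w ∈ W ⊓ E₀, c (x * w) = c x := by
    intro x hx w hw
    rw [hmul x hx w (h0 hw.2), hWc w hw.1 (h0 hw.2), map_zero, add_zero]
  have hcv : ∀ x ∈ E, ∀ v ∈ V, c (x * v) = c x := by
    intro x hx v hv'
    rw [hmul x hx v (hVE hv'), hv v hv', map_zero, add_zero]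
  have hmem : ∀ x, ∀ w ∈ E, (x * w ∈ E ↔ x ∈ E) := fun x w hw => E.mul_mem_cancel_right hw
  let ψ : I → F → ZMod p := fun j x => if x ∈ E then c x j 1 else 0
  have hψ1 : ∀ j, ∀ x ∈ E, ψ j x = c x j 1 := fun j x hx => if_pos hx
  have hψ0 : ∀ j, ∀ x, x ∉ E → ψ j x = 0 := fun j x hx => if_neg hx
  refine ⟨ψ, ⟨fun j => ⟨hψ0 j, fun x v hv' => ?_, W ⊓ E₀, hWE, fun x w hw => ?_⟩, ?_⟩, ?_⟩
  · by_cases hx : x ∈ E
    · rw [hψ1 j x hx, hψ1 j _ ((hmem x v (hVE hv')).2 hx), hcv x hx v hv']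
    · rw [hψ0 j x hx, hψ0 j _ fun h => hx ((hmem x v (hVE hv')).1 h)]
  · by_cases hx : x ∈ E
    · rw [hψ1 j x hx, hψ1 j _ ((hmem x w (h0 hw.2)).2 hx), hcw x hx w hw]
    · rw [hψ0 j x hx, hψ0 j _ fun h => hx ((hmem x w (h0 hw.2)).1 h)]
  · have := hWE.1
    have := (quot_fin hF (W ⊓ E₀) hWE.2).1
    let S : F ⧸ (W ⊓ E₀) → Set I := fun q => {j | ∃ x ∈ E, (QuotientGroup.mk x : F ⧸ (W ⊓ E₀)) = q ∧ c x j ≠ 0}
    have hS : ∀ q, (S q).Finite := by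
      intro q
      by_cases hq : ∃ x ∈ E, (QuotientGroup.mk x : F ⧸ (W ⊓ E₀)) = q
      · obtain ⟨x₀, hx₀, hq₀⟩ := hq
        refine (hc x₀ hx₀).2.subset ?_
        rintro j ⟨x, hx, hxq, hj⟩
        have e1 : x₀⁻¹ * x ∈ W ⊓ E₀ := by
          rw [← QuotientGroup.eq, hq₀, hxq]
        have e2 := hcw x₀ hx₀ _ e1
        rw [mul_inv_cancel_left] at e2
        rw [e2] at hj
        exact hj
      · have : S q = ∅ := by
          ext j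
          simp only [Set.mem_empty_iff_false, iff_false]
          rintro ⟨x, hx, hxq, -⟩
          exact hq ⟨x, hx, hxq⟩
        rw [this]
        exact Set.finite_empty
    refine (Set.finite_iUnion hS).subset fun j hj => ?_
    have hj' : ψ j ≠ 0 := hj
    obtain ⟨x, hx⟩ := Function.ne_iff.1 hj'
    have hxE : x ∈ E := by
      by_contra h
      exact hx (hψ0 j x h)
    rw [hψ1 j x hxE] at hx
    rw [Set.mem_iUnion]
    refine ⟨QuotientGroup.mk x, x, hxE, rfl, fun h => hx ?_⟩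
    rw [h]
    rfl
  · intro a ha
    ext j x
    show c a j x = ψ j (x * a) - ψ j x
    by_cases hx : x ∈ E
    · rw [hψ1 j x hx, hψ1 j _ ((hmem x a ha).2 hx), hmul x hx a ha]
      show c a j x = c x j 1 + c a j (1 * x) - c x j 1
      rw [one_mul]
      ring
    · rw [hψ0 j x hx, hψ0 j _ fun h => hx ((hmem x a ha).1 h), ((hc a ha).1 j).1 x hx, sub_zero]

end Pool.Agent.FRS
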