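import Pool.Agent.FRS.O5
import Pool.Agent.ORD.E6

/-!
# FRS [O6]: the module Rs is cofree, open subgroups
-/

set_option autoImplicit false

namespace Pool.Agent.FRS

open Pool.Agent.MP_6fb7ad_al Pool.Agent.ORD

variable {p : ℕ} [Fact p.Prime] {F : Type} [Group F] [TopologicalSpace F] [IsTopologicalGroup F]

theorem o_zf_val {R E : Subgroup F} (hR : R.Normal) (hRE : R ≤ E)
    {z : F → F → ZMod p} {h : F → ZMod p} (hz : z ∈ Bc p E) (hzh : ∀ v ∈ E, z v 1 = h v) {r : F}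
    (hr : r ∈ R) {x : F} (hfix : ∀ a ∈ E, cj p a (ind p R h) = ind p R h) (hx : x ∈ E) :
    z r x = h r := by
  have hr' : x⁻¹ * r * x ∈ R := by
    have := hR.conj_mem r hr x⁻¹
    rwa [inv_inv] at this
  obtain ⟨h1, h2, -⟩ := mem_Bc.1 hz
  have e1 : z r x = z r 1 := by
    have := h2 r 1 x hx
    rwa [one_mul] at this
  rw [e1, hzh _ (hRE hr)]

theorem o_key {X : Type} {i : X → F} (hF : IsFreeProP p i) {R V E E₀ : Subgroup F}
    (hR : R.Normal) (hRc : IsClosed (R : Set F)) (hV : V.Normal) (hRV : R ≤ V)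
    (hVE : V ≤ E) (hE : ON E₀) (h0 : E₀ ≤ E) (hN : N1 p E V)
    (hdim : ∀ θ₁ ∈ Hm p R, ∀ θ₂ ∈ Hm p R, (∀ a ∈ E, cj p a θ₁ = θ₁) →
      (∀ a ∈ E, cj p a θ₂ = θ₂) → ∃ c₁ c₂ : ZMod p, (c₁ ≠ 0 ∨ c₂ ≠ 0) ∧
      ∃ h ∈ Hm p E, c₁ • θ₁ + c₂ • θ₂ = ind p R h) :
    ∃ (B : Type) (y : B → F), (∀ b, y b ∈ R) ∧
      (∀ W : Subgroup F, ON W → {b | y b ∉ W}.Finite) ∧
      (∀ θ ∈ Rs p V R, evc p y E θ = 0 → θ = 0) ∧
      ∀ φ ∈ Cc p B E V, ∃ z ∈ Bc p V, ev p y E z = φ := by
  classical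
  have hEc : IsClosed (E : Set F) := E.isClosed_of_isOpen (Subgroup.isOpen_mono h0 hE.2)
  have hE' : IsProP p E := isProP_sub hF.proP E hEc
  have hRE : R ≤ E := hRV.trans hVE
  have hfixE : ∀ θ ∈ Rs p E R, ∀ a ∈ E, cj p a θ = θ := fun θ hθ a ha => Rs_fx hRE hR hθ ha
  let bs := Module.Basis.ofVectorSpace (ZMod p) (Rs p E R)
  -- the family of cocycles
  have hex : ∀ j, ∃ h ∈ Hm p E, ind p R h = (bs j : F → ZMod p) := fun j => (bs j).2
  choose hh hh1 hh2 using hex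
  have hex2 : ∀ j, ∃ z ∈ Bc p E, ∀ v ∈ E, z v 1 = hh j v := fun j => o_exists_sh hE h0 (hh1 j)
  choose zf hz1 hz2 using hex2
  have hzv : ∀ j, ∀ r ∈ R, ∀ x ∈ E, zf j r x = (bs j : F → ZMod p) r := by
    intro j r hr x hx
    rw [o_zf_val hR hRE (hz1 j) (hz2 j) hr (by rw [hh2 j]; exact hfixE _ (bs j).2) hx,
      ← hh2 j, ind_of_mem hr]
  have hli : LinearIndependent (ZMod p) (fun j => (bs j : F → ZMod p)) :=
    bs.linearIndependent.map' (Rs p E R).subtype (Rs p E R).ker_subtype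
  have hsp : ∀ θ ∈ Rs p E R, θ ∈ Submodule.span (ZMod p)
      (Set.range fun j => (bs j : F → ZMod p)) := by
    intro θ hθ
    have h1 := bs.mem_span ⟨θ, hθ⟩
    have h2 := Submodule.mem_map_of_mem (f := (Rs p E R).subtype) h1
    rw [Submodule.map_span, ← Set.range_comp] at h2
    exact h2
  by_cases hα : ∀ θ ∈ Rs p V R, (∀ a ∈ E, cj p a θ = θ) → θ ∈ Rs p E R
  · obtain ⟨y, y1, y2, y3, y4⟩ := exists_fam hF.proP hRc (fun j => (bs j : F → ZMod p))
      (fun j => Rs_le_Hm hRE (bs j).2) hli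
    refine ⟨_, y, y1, y4, ?_, ?_⟩
    · exact evc_inj hF.proP hR hV hRV hE' y _ y2 y3 fun θ hθ hθ' => hsp θ (hα θ hθ hθ')
    · obtain ⟨τ, t1, -⟩ := o_st1 hF hV hVE hE h0 y y4 zf hz1
        (fun j x hx => by rw [hzv j _ (y1 j) x hx, y2])
        (fun j j' hj x hx => by rw [hzv j _ (y1 j') x hx, y3 j' j (Ne.symm hj)])
      exact fun φ hφ => ⟨τ φ, t1 φ hφ⟩
  · push Not at hα
    obtain ⟨x₀, hx1, hx2, hx3⟩ := hα
    obtain ⟨h₀, hh₀, rfl⟩ := hx1
    have hx1 : ind p R h₀ ∈ Rs p V R := ⟨h₀, hh₀, rfl⟩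
    obtain ⟨z₀, hz₀, hz₀'⟩ := exists_sh hV hh₀
    have hz₀v : ∀ r ∈ R, ∀ x ∈ E, z₀ r x = ind p R h₀ r := by
      intro r hr x hx
      rw [zf_val hR hV hRV hz₀ hz₀' hr (E := E) hx2 hx, ind_of_mem hr]
    let e : Option _ → F → ZMod p := fun o => o.elim (ind p R h₀) (fun j => (bs j : F → ZMod p))
    have he0 : e none = ind p R h₀ := rfl
    have hes : ∀ j, e (some j) = (bs j : F → ZMod p) := fun _ => rfl
    have hli2 : LinearIndependent (ZMod p) e := by
      refine linearIndependent_option.2 ⟨hli, fun hc => hx3 ?_⟩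
      refine Submodule.span_le.2 ?_ hc
      rintro _ ⟨j, rfl⟩
      exact (bs j).2
    have hsp2 : ∀ θ ∈ Rs p V R, (∀ a ∈ E, cj p a θ = θ) →
        θ ∈ Submodule.span (ZMod p) (Set.range e) := by
      intro θ hθ hθ'
      have hsub : Submodule.span (ZMod p) (Set.range fun j => (bs j : F → ZMod p)) ≤
          Submodule.span (ZMod p) (Set.range e) := by
        refine Submodule.span_mono ?_
        rintro _ ⟨j, rfl⟩
        exact ⟨some j, rfl⟩
      obtain ⟨c₁, c₂, hc, h, h3, h4⟩ := hdim θ (Rs_le_Hm hRV hθ) _ (Rs_le_Hm hRV hx1) hθ' hx2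
      have h5 : c₁ • θ + c₂ • ind p R h₀ ∈ Rs p E R := by
        rw [h4]
        exact ⟨h, h3, rfl⟩
      have hc1 : c₁ ≠ 0 := by
        rintro rfl
        have hc2 : c₂ ≠ 0 := hc.resolve_left fun h => h rfl
        apply hx3
        rw [zero_smul, zero_add] at h5
        have h6 := (Rs p E R).smul_mem c₂⁻¹ h5
        rwa [smul_smul, inv_mul_cancel₀ hc2, one_smul] at h6
      have h6 : θ = c₁⁻¹ • (c₁ • θ + c₂ • ind p R h₀) - (c₁⁻¹ * c₂) • ind p R h₀ := by
        rw [smul_add, smul_smul, smul_smul, inv_mul_cancel₀ hc1, one_smul]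
        abel
      rw [h6]
      refine Submodule.sub_mem _ (Submodule.smul_mem _ _ (hsub (hsp _ h5)))
        (Submodule.smul_mem _ _ (Submodule.subset_span ⟨none, rfl⟩))
    obtain ⟨y, y1, y2, y3, y4⟩ := exists_fam hF.proP hRc e
      (fun o => by
        cases o with
        | none => exact Rs_le_Hm hRV hx1
        | some j => exact Rs_le_Hm hRE (bs j).2) hli2
    have y4' : ∀ W : Subgroup F, ON W → {b | y (some b) ∉ W}.Finite := fun W hW =>
      (y4 W hW).preimage (Option.some_injective _).injOn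
    refine ⟨_, y, y1, y4, evc_inj hF.proP hR hV hRV hE' y e y2 y3 hsp2, ?_⟩
    obtain ⟨τ, t1, t2⟩ := o_st1 hF hV hVE hE h0 (fun j => y (some j)) y4' zf hz1
      (fun j x hx => by rw [hzv j _ (y1 _) x hx, ← hes, y2])
      (fun j j' hj x hx => by
        rw [hzv j _ (y1 _) x hx, ← hes, y3 (some j') (some j) (fun h => hj (Option.some_injective _ h).symm)])
    have hz00 : ev p (fun j => y (some j)) E z₀ = 0 := by
      funext j x
      by_cases hx : x ∈ E
      · rw [ev_of_mem _ hx, hz₀v _ (y1 _) x hx, ← he0, y3 (some j) none (by simp)]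
        rfl
      · rw [ev_of_notMem _ hx]
        rfl
    have st := o_st2 hF hV hVE hE h0 (fun j => y (some j)) y4' τ t1 t2 hN (y none) z₀ hz₀
      hz00 (by
        rw [hz₀v _ (y1 _) 1 E.one_mem, ← he0, y2]
        exact one_ne_zero)
    intro φ hφ
    have hφ' : (fun j => φ (some j)) ∈ Cc p _ E V :=
      ⟨fun j => hφ.1 _, hφ.2.preimage (Option.some_injective _).injOn⟩
    have hz5 := t1 _ hφ'
    have hψ : φ none - (ev p (fun _ : Unit => y none) E (τ fun j => φ (some j))) () ∈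
        C1 p E V := by
      refine (C1 p E V).sub_mem (hφ.1 _) ?_
      exact (o_ev_mem_Cc hE h0 hVE (fun W _ => Set.toFinite _) hz5.1).1 ()
    obtain ⟨z, g1, g2, g3⟩ := st _ hψ
    refine ⟨(τ fun j => φ (some j)) + z, (Bc p V).add_mem hz5.1 g1, ?_⟩
    funext o x
    by_cases hx : x ∈ E
    · rw [ev_of_mem _ hx]
      cases o with
      | none =>
        have g4 := g3 x hx
        rw [Pi.sub_apply, ev_of_mem _ hx] at g4
        show (τ fun j => φ (some j)) (y none) x + z (y none) x = _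
        rw [g4]
        ring
      | some j =>
        have g5 := congrFun (congrFun hz5.2 j) x
        have g6 := congrFun (congrFun g2 j) x
        rw [ev_of_mem _ hx] at g5 g6
        show (τ fun j => φ (some j)) (y (some j)) x + z (y (some j)) x = _
        rw [g5, g6]
        exact add_zero _
    · rw [ev_of_notMem _ hx, (hφ.1 o).1 x hx]

end Pool.Agent.FRS
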