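import Mathlib

/-!
# FRS [T1]: filtrations by commuting operators permuted by a finite group
-/

set_option autoImplicit false

namespace Pool.Agent.FRS

open scoped Pointwise

section

variable {k : Type} [CommRing k] {V : Type} [AddCommGroup V] [Module k V] {X : Type}

/-- the product of the commuting operators `f c`, `c ∈ S` -/
noncomputable def nP (f : X → Module.End k V) (hf : ∀ c c', Commute (f c) (f c')) (S : Finset X) :
    Module.End k V :=
  S.noncommProd f fun _ _ _ _ _ => hf _ _

variable {f : X → Module.End k V} (hf : ∀ c c', Commute (f c) (f c'))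

theorem nP_empty : nP f hf ∅ = 1 := Finset.noncommProd_empty _ _

theorem nP_insert [DecidableEq X] {c : X} {S : Finset X} (h : c ∉ S) :
    nP f hf (insert c S) = f c * nP f hf S :=
  Finset.noncommProd_insert_of_notMem _ _ _ _ h

theorem nP_erase [DecidableEq X] {c : X} {S : Finset X} (h : c ∈ S) :
    nP f hf S = f c * nP f hf (S.erase c) := by
  rw [← nP_insert hf (Finset.notMem_erase c S), Finset.insert_erase h]

theorem nP_comm {g : Module.End k V} {S : Finset X} (h : ∀ c ∈ S, Commute g (f c)) :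
    Commute g (nP f hf S) :=
  Finset.noncommProd_commute _ _ _ _ h

end

section

variable {k : Type} [CommRing k] {V : Type} [AddCommGroup V] [Module k V] {P : Type} [Group P]
  {X : Type} [MulAction P X]

/-- The list of relations between the operators. -/
structure Ops (A : P →* Module.End k V) (u v b : X → Module.End k V) : Prop where
  uu : ∀ c c', Commute (u c) (u c')
  uv : ∀ c c', Commute (u c) (v c')
  bb : ∀ c c', Commute (b c) (b c')
  bu : ∀ c c', c ≠ c' → Commute (b c) (u c')
  bv : ∀ c c', c ≠ c' → Commute (b c) (v c')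
  ub : ∀ c w, v c w = 0 → u c (b c w) = w
  Au : ∀ h c, A h * u c = u (h • c) * A h
  Av : ∀ h c, A h * v c = v (h • c) * A h

variable {A : P →* Module.End k V} {u v b : X → Module.End k V} (O : Ops A u v b)

include O

theorem commute_apply {g h : Module.End k V} (hc : Commute g h) (w : V) : g (h w) = h (g w) :=
  LinearMap.congr_fun hc w

/-- The filtration. -/
def Fi (u v : X → Module.End k V) (hu : ∀ c c', Commute (u c) (u c')) (i : ℕ) (f : V) : Prop :=
  (∀ c, u c (v c f) = 0) ∧ ∀ S : Finset X, S.card = i → nP u hu S f = 0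

/-- The graded pieces. -/
def Ws (u v : X → Module.End k V) (S : Finset X) (w : V) : Prop :=
  (∀ c ∈ S, v c w = 0) ∧ ∀ c, c ∉ S → u c w = 0

/-- The trace. -/
noncomputable def TrA [Fintype P] (A : P →* Module.End k V) (L : Module.End k V) :
    Module.End k V := ∑ h, A h * L * A h⁻¹

omit O [MulAction P X] in
theorem TrA_apply [Fintype P] (L : Module.End k V) (f : V) :
    TrA A L f = ∑ h, A h (L (A h⁻¹ f)) := by
  rw [TrA, LinearMap.sum_apply]
  rfl

omit O [MulAction P X] in
theorem TrA_comm [Fintype P] (L : Module.End k V) (g : P) : A g * TrA A L = TrA A L * A g := by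
  rw [TrA, Finset.mul_sum, Finset.sum_mul]
  refine Fintype.sum_equiv (Equiv.mulLeft g) _ _ fun h => ?_
  show A g * (A h * L * A h⁻¹) = A (g * h) * L * A (g * h)⁻¹ * A g
  rw [mul_assoc (A (g * h) * L), ← map_mul, map_mul A g h]
  have e : (g * h)⁻¹ * g = h⁻¹ := by group
  rw [e]
  simp only [mul_assoc]

omit O [MulAction P X] in
theorem TrA_mul [Fintype P] (L N : Module.End k V) (hN : ∀ g, A g * N = N * A g) :
    TrA A (L * N) = TrA A L * N := by
  rw [TrA, TrA, Finset.sum_mul]
  refine Finset.sum_congr rfl fun h _ => ?_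
  rw [mul_assoc (A h * L), hN h⁻¹]
  simp only [mul_assoc]

/-- The condition on the operators `L S`. -/
def HL [Fintype P] [DecidableEq X] (A : P →* Module.End k V) (u v : X → Module.End k V)
    (L : Finset X → Module.End k V) (i : ℕ) : Prop :=
  ∀ S : Finset X, S.card = i → (∀ w, Ws u v S w → Ws u v S (L S w)) ∧
    ∀ w, Ws u v S w → ∑ h : P, A h (L (h⁻¹ • S) (A h⁻¹ w)) = w

/-- The operator. -/
noncomputable def Lam [Fintype X] [DecidableEq X] (u b : X → Module.End k V)
    (hu : ∀ c c', Commute (u c) (u c')) (hb : ∀ c c', Commute (b c) (b c'))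
    (L : Finset X → Module.End k V) (i : ℕ) : Module.End k V :=
  ∑ S ∈ Finset.powersetCard i Finset.univ, nP b hb S * L S * nP u hu S

theorem nP_smul [DecidableEq X] (h : P) (S : Finset X) :
    A h * nP u O.uu S = nP u O.uu (h • S) * A h := by
  induction S using Finset.induction_on with
  | empty => rw [Finset.smul_finset_empty, nP_empty, one_mul, mul_one]
  | insert c S hc ih =>
    have hc' : h • c ∉ h • S := by rwa [Finset.smul_mem_smul_finset_iff]
    rw [Finset.smul_finset_insert, nP_insert O.uu hc, nP_insert O.uu hc', ← mul_assoc, O.Au,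
      mul_assoc, ih, mul_assoc]

theorem Ws_of [DecidableEq X] {i : ℕ} {f : V} (hf : Fi u v O.uu (i + 1) f) {S : Finset X}
    (hS : S.card = i) : Ws u v S (nP u O.uu S f) := by
  refine ⟨fun c hc => ?_, fun c hc => ?_⟩
  · rw [nP_erase O.uu hc, Module.End.mul_apply, commute_apply O (O.uv c c).symm,
      commute_apply O (nP_comm O.uu fun c' _ => (O.uv c' c).symm),
      commute_apply O (nP_comm O.uu fun c' _ => O.uu c c'), hf.1 c, map_zero]
  · have h1 := hf.2 (insert c S) (by rw [Finset.card_insert_of_notMem hc, hS])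
    rw [nP_insert O.uu hc, Module.End.mul_apply] at h1
    exact h1

theorem UB [DecidableEq X] (S : Finset X) (w : V) (h : ∀ c ∈ S, v c w = 0) :
    nP u O.uu S (nP b O.bb S w) = w := by
  induction S using Finset.induction_on with
  | empty => rw [nP_empty, nP_empty, Module.End.one_apply, Module.End.one_apply]
  | insert c S hc ih =>
    have h1 := ih fun c' hc' => h c' (Finset.mem_insert_of_mem hc')
    have h2 : Commute (b c) (nP u O.uu S) :=
      nP_comm O.uu fun c' hc' => O.bu c c' fun e => hc (by rw [e]; exact hc')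
    rw [nP_insert O.uu hc, nP_insert O.bb hc, Module.End.mul_apply, Module.End.mul_apply,
      ← commute_apply O h2, h1]
    exact O.ub c w (h c (Finset.mem_insert_self c S))

theorem ucB [DecidableEq X] {S : Finset X} {w : V} (h : Ws u v S w) {c : X} (hc : c ∉ S) :
    u c (nP b O.bb S w) = 0 := by
  have h2 : Commute (u c) (nP b O.bb S) :=
    nP_comm O.bb fun c' hc' => (O.bu c' c fun e => hc (by rw [← e]; exact hc')).symm
  rw [commute_apply O h2, h.2 c hc, map_zero]

theorem uvB [DecidableEq X] {S : Finset X} {w : V} (h : Ws u v S w) (c : X) :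
    u c (v c (nP b O.bb S w)) = 0 := by
  by_cases hc : c ∈ S
  · have h2 : Commute (v c) (nP b O.bb (S.erase c)) :=
      nP_comm O.bb fun c' hc' => (O.bv c' c (Finset.ne_of_mem_erase hc')).symm
    rw [commute_apply O (O.uv c c), nP_erase O.bb hc, Module.End.mul_apply, O.ub c,
      commute_apply O h2, h.1 c hc, map_zero]
    rw [commute_apply O h2, h.1 c hc, map_zero]
  · have h2 : Commute (v c) (nP b O.bb S) :=
      nP_comm O.bb fun c' hc' => (O.bv c' c fun e => hc (by rw [← e]; exact hc')).symm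
    rw [commute_apply O (O.uv c c), ucB O h hc, map_zero]

theorem UB_zero [DecidableEq X] {S S' : Finset X} {w : V} (h : Ws u v S w) {c : X} (hc : c ∉ S)
    (hc' : c ∈ S') : nP u O.uu S' (nP b O.bb S w) = 0 := by
  have h2 : Commute (u c) (nP u O.uu (S'.erase c)) := nP_comm O.uu fun c' _ => O.uu c c'
  rw [nP_erase O.uu hc', Module.End.mul_apply, commute_apply O h2, ucB O h hc, map_zero]

theorem Fi_zero {i : ℕ} : Fi u v O.uu i 0 :=
  ⟨fun c => by rw [map_zero, map_zero], fun S _ => map_zero _⟩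

theorem Fi_add {i : ℕ} {f g : V} (hf : Fi u v O.uu i f) (hg : Fi u v O.uu i g) :
    Fi u v O.uu i (f + g) :=
  ⟨fun c => by rw [map_add, map_add, hf.1, hg.1, add_zero],
    fun S hS => by rw [map_add, hf.2 S hS, hg.2 S hS, add_zero]⟩

theorem Fi_sub {i : ℕ} {f g : V} (hf : Fi u v O.uu i f) (hg : Fi u v O.uu i g) :
    Fi u v O.uu i (f - g) :=
  ⟨fun c => by rw [map_sub, map_sub, hf.1, hg.1, sub_zero],
    fun S hS => by rw [map_sub, hf.2 S hS, hg.2 S hS, sub_zero]⟩

theorem Fi_sum {i : ℕ} {ι : Type} (s : Finset ι) (f : ι → V) (hf : ∀ j ∈ s, Fi u v O.uu i (f j)) :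
    Fi u v O.uu i (∑ j ∈ s, f j) := by
  classical
  induction s using Finset.induction_on with
  | empty => rw [Finset.sum_empty]; exact Fi_zero O
  | insert j s hj ih =>
    rw [Finset.sum_insert hj]
    exact Fi_add O (hf j (Finset.mem_insert_self j s))
      (ih fun l hl => hf l (Finset.mem_insert_of_mem hl))

theorem Fi_act [DecidableEq X] {i : ℕ} {f : V} (hf : Fi u v O.uu i f) (h : P) :
    Fi u v O.uu i (A h f) := by
  refine ⟨fun c => ?_, fun S hS => ?_⟩
  · have e1 : u c (v c (A h f)) = A h (u (h⁻¹ • c) (v (h⁻¹ • c) f)) := by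
      have e2 := LinearMap.congr_fun (O.Av h (h⁻¹ • c)) f
      have e3 := LinearMap.congr_fun (O.Au h (h⁻¹ • c)) (v (h⁻¹ • c) f)
      rw [smul_inv_smul, Module.End.mul_apply, Module.End.mul_apply] at e2 e3
      rw [← e2, ← e3]
    rw [e1, hf.1, map_zero]
  · have e3 := LinearMap.congr_fun (nP_smul O h (h⁻¹ • S)) f
    rw [smul_inv_smul, Module.End.mul_apply, Module.End.mul_apply] at e3
    rw [← e3, hf.2 _ (by rw [Finset.card_smul_finset, hS]), map_zero]

theorem Fi_succ [DecidableEq X] {i : ℕ} {f : V} (hf : Fi u v O.uu i f) :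
    Fi u v O.uu (i + 1) f := by
  refine ⟨hf.1, fun S hS => ?_⟩
  obtain ⟨c, hc⟩ := Finset.card_pos.1 (by rw [hS]; exact Nat.succ_pos i)
  rw [nP_erase O.uu hc, Module.End.mul_apply,
    hf.2 (S.erase c) (by rw [Finset.card_erase_of_mem hc, hS]; rfl), map_zero]

theorem Fi_mono [DecidableEq X] {i j : ℕ} (hij : i ≤ j) {f : V} (hf : Fi u v O.uu i f) :
    Fi u v O.uu j f := by
  induction hij with
  | refl => exact hf
  | step _ ih => exact Fi_succ O ih

section

variable [Fintype P] [Fintype X] [DecidableEq X] (L : Finset X → Module.End k V)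

omit [Fintype P] in
theorem Lam_apply (i : ℕ) (f : V) : Lam u b O.uu O.bb L i f =
    ∑ S ∈ Finset.powersetCard i Finset.univ, nP b O.bb S (L S (nP u O.uu S f)) := by
  rw [Lam, LinearMap.sum_apply]
  rfl

theorem Lam_mem {i : ℕ} (hL : HL A u v L i) {f : V} (hf : Fi u v O.uu (i + 1) f) :
    Fi u v O.uu (i + 1) (Lam u b O.uu O.bb L i f) := by
  rw [Lam_apply O]
  refine Fi_sum O _ _ fun S hS => ?_
  have hS' := (Finset.mem_powersetCard.1 hS).2
  have hw := (hL S hS').1 _ (Ws_of O hf hS')
  refine ⟨fun c => uvB O hw c, fun S' hS'' => ?_⟩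
  have hns : ¬ S' ⊆ S := by
    intro h
    have := Finset.card_le_card h
    omega
  obtain ⟨c, hc1, hc2⟩ := Finset.not_subset.1 hns
  exact UB_zero O hw hc2 hc1

theorem U_Lam {i : ℕ} (hL : HL A u v L i) {f : V} (hf : Fi u v O.uu (i + 1) f) {S' : Finset X}
    (hS' : S'.card = i) :
    nP u O.uu S' (Lam u b O.uu O.bb L i f) = L S' (nP u O.uu S' f) := by
  rw [Lam_apply O, map_sum, Finset.sum_eq_single S']
  · have hw := (hL S' hS').1 _ (Ws_of O hf hS')
    exact UB O S' _ hw.1
  · intro S hS hne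
    have hS2 := (Finset.mem_powersetCard.1 hS).2
    have hw := (hL S hS2).1 _ (Ws_of O hf hS2)
    have hns : ¬ S' ⊆ S := by
      intro h
      exact hne (Finset.eq_of_subset_of_card_le h (by omega)).symm
    obtain ⟨c, hc1, hc2⟩ := Finset.not_subset.1 hns
    exact UB_zero O hw hc2 hc1
  · intro h
    exact absurd (Finset.mem_powersetCard.2 ⟨Finset.subset_univ _, hS'⟩) h

theorem Tr_Lam_sub {i : ℕ} (hL : HL A u v L i) {f : V} (hf : Fi u v O.uu (i + 1) f) :
    Fi u v O.uu i (TrA A (Lam u b O.uu O.bb L i) f - f) := by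
  have h1 : Fi u v O.uu (i + 1) (TrA A (Lam u b O.uu O.bb L i) f) := by
    rw [TrA_apply]
    exact Fi_sum O _ _ fun h _ => Fi_act O (Lam_mem O L hL (Fi_act O hf _)) _
  refine ⟨(Fi_sub O h1 hf).1, fun S hS => ?_⟩
  rw [map_sub, TrA_apply, map_sum]
  have h2 : ∀ h : P, nP u O.uu S (A h (Lam u b O.uu O.bb L i (A h⁻¹ f))) =
      A h (L (h⁻¹ • S) (A h⁻¹ (nP u O.uu S f))) := by
    intro h
    have e3 := LinearMap.congr_fun (nP_smul O h (h⁻¹ • S)) (Lam u b O.uu O.bb L i (A h⁻¹ f))
    rw [smul_inv_smul, Module.End.mul_apply, Module.End.mul_apply] at e3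
    have e4 := LinearMap.congr_fun (nP_smul O h⁻¹ S) f
    rw [Module.End.mul_apply, Module.End.mul_apply] at e4
    rw [← e3, U_Lam O L hL (Fi_act O hf _) (by rw [Finset.card_smul_finset, hS]), e4]
  rw [Finset.sum_congr rfl fun h _ => h2 h, (hL S hS).2 _ (Ws_of O hf hS), sub_self]

theorem Tr_Lam_zero {i : ℕ} {f : V} (hf : Fi u v O.uu i f) :
    TrA A (Lam u b O.uu O.bb L i) f = 0 := by
  rw [TrA_apply]
  refine Finset.sum_eq_zero fun h _ => ?_
  rw [Lam_apply O]
  have h1 := Fi_act O hf h⁻¹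
  rw [Finset.sum_eq_zero, map_zero]
  intro S hS
  rw [h1.2 S (Finset.mem_powersetCard.1 hS).2, map_zero, map_zero]

/-- The first conclusion: the identity of the `n`-th step is a trace. -/
theorem corA (n : ℕ) (hL : ∀ i < n, HL A u v L i) : ∃ Λ : Module.End k V,
    (∀ f, Fi u v O.uu n f → Fi u v O.uu n (Λ f)) ∧ ∀ f, Fi u v O.uu n f → TrA A Λ f = f := by
  induction n with
  | zero =>
    refine ⟨0, fun f _ => Fi_zero O, fun f hf => ?_⟩
    have h1 := hf.2 ∅ Finset.card_empty
    rw [nP_empty, Module.End.one_apply] at h1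
    rw [h1, map_zero]
  | succ n ih =>
    obtain ⟨Λ', h1, h2⟩ := ih fun i hi => hL i (Nat.lt_succ_of_lt hi)
    have hLn := hL n (Nat.lt_succ_self n)
    let N : Module.End k V := TrA A (Lam u b O.uu O.bb L n) - 1
    have hN : ∀ g, A g * N = N * A g := by
      intro g
      show A g * (TrA A (Lam u b O.uu O.bb L n) - 1) = (TrA A (Lam u b O.uu O.bb L n) - 1) * A g
      rw [mul_sub, sub_mul, TrA_comm, mul_one, one_mul]
    have hNf : ∀ f, Fi u v O.uu (n + 1) f → Fi u v O.uu n (N f) := fun f hf =>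
      Tr_Lam_sub O L hLn hf
    refine ⟨Lam u b O.uu O.bb L n - Λ' * N, fun f hf => ?_, fun f hf => ?_⟩
    · rw [LinearMap.sub_apply, Module.End.mul_apply]
      exact Fi_sub O (Lam_mem O L hLn hf) (Fi_succ O (h1 _ (hNf f hf)))
    · have e1 : TrA A (Lam u b O.uu O.bb L n - Λ' * N) =
          TrA A (Lam u b O.uu O.bb L n) - TrA A Λ' * N := by
        rw [← TrA_mul Λ' N hN, TrA, TrA, TrA, ← Finset.sum_sub_distrib]
        refine Finset.sum_congr rfl fun h _ => ?_
        rw [mul_sub, sub_mul]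
      rw [e1, LinearMap.sub_apply, Module.End.mul_apply, h2 _ (hNf f hf)]
      show TrA A (Lam u b O.uu O.bb L n) f - (TrA A (Lam u b O.uu O.bb L n) f - f) = f
      rw [sub_sub_cancel]

/-- The second conclusion: an equivariant retraction onto the first step. -/
theorem corB (n : ℕ) (hL : ∀ i, 1 ≤ i → i ≤ n → HL A u v L i) : ∃ r : Module.End k V,
    (∀ g, A g * r = r * A g) ∧ (∀ f, Fi u v O.uu (n + 1) f → Fi u v O.uu 1 (r f)) ∧
    ∀ f, Fi u v O.uu 1 f → r f = f := by
  induction n with
  | zero => exact ⟨1, fun g => by rw [mul_one, one_mul], fun f hf => hf, fun f _ => rfl⟩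
  | succ n ih =>
    obtain ⟨r, h1, h2, h3⟩ := ih fun i hi hi' => hL i hi (Nat.le_succ_of_le hi')
    have hLn := hL (n + 1) (Nat.le_add_left 1 n) le_rfl
    refine ⟨r * (1 - TrA A (Lam u b O.uu O.bb L (n + 1))), fun g => ?_, fun f hf => ?_,
      fun f hf => ?_⟩
    · rw [← mul_assoc, h1, mul_assoc, mul_assoc r, mul_sub, sub_mul, TrA_comm, mul_one, one_mul]
    · rw [Module.End.mul_apply]
      refine h2 _ ?_
      have h4 := Tr_Lam_sub O L hLn hf
      rw [LinearMap.sub_apply, Module.End.one_apply, ← neg_sub]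
      refine ⟨fun c => ?_, fun S hS => ?_⟩
      · rw [map_neg, map_neg, h4.1, neg_zero]
      · rw [map_neg, h4.2 S hS, neg_zero]
    · rw [Module.End.mul_apply, LinearMap.sub_apply, Module.End.one_apply,
        Tr_Lam_zero O L (Fi_mono O (Nat.le_add_left 1 n) hf), sub_zero, h3 f hf]

end

end

end Pool.Agent.FRS
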