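import Pool.Agent.FRS.T3

/-!
# FRS [T4]: the local operators
-/

set_option autoImplicit false

namespace Pool.Agent.FRS

open scoped Pointwise

section

variable {p : ℕ} [Fact p.Prime] {P : Type} [Group P] {M : Type} [AddCommGroup M]
  [Module (ZMod p) M] {g : P}

/-- reduction modulo `p` -/
def red (y : YY (p ^ 2) g) : YY p g :=
  ⟨fun x => ZMod.castHom (dvd_pow_self p two_ne_zero) (ZMod p) (y.1 x), fun x => by
    show ZMod.castHom (dvd_pow_self p two_ne_zero) (ZMod p) (y.1 (x * g)) =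
      ZMod.castHom (dvd_pow_self p two_ne_zero) (ZMod p) (y.1 x) + 1
    rw [y.2, map_add, map_one]⟩

theorem red_smul (h : P) (y : YY (p ^ 2) g) : red (h • y) = h • red y := rfl

theorem red_sh (c : P ⧸ Subgroup.zpowers g) (y : YY (p ^ 2) g) :
    red (sh (ec c (p : ZMod (p ^ 2))) y) = red y := by
  refine Subtype.ext (funext fun x => ?_)
  show ZMod.castHom (dvd_pow_self p two_ne_zero) (ZMod p) (y.1 x + ec c (p : ZMod (p ^ 2)) x) =
    ZMod.castHom (dvd_pow_self p two_ne_zero) (ZMod p) (y.1 x)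
  have h1 : ZMod.castHom (dvd_pow_self p two_ne_zero) (ZMod p) (ec c (p : ZMod (p ^ 2)) x) = 0 := by
    by_cases h : ((x : P ⧸ Subgroup.zpowers g)) = c
    · rw [h, ec_self, map_natCast, ZMod.natCast_self]
    · rw [ec_ne h, map_zero]
  rw [map_add, h1, add_zero]

theorem base_mem (lb : YY p g → Module.End (ZMod p) M) (w : YY (p ^ 2) g → M)
    (hw : ∀ c : P ⧸ Subgroup.zpowers g, (ta p M c ^ p) w = 0) (c : P ⧸ Subgroup.zpowers g) :
    (ta p M c ^ p) (Pt (fun y => lb (red y)) w) = 0 := by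
  funext y
  have h1 := congrFun (hw c) y
  rw [ta_pow_apply, Pi.zero_apply, sub_eq_zero] at h1
  rw [ta_pow_apply, Pt_apply, Pt_apply, red_sh, h1, sub_self, Pi.zero_apply]

theorem base_tr [Fintype P] (ρ : P →* Module.End (ZMod p) M) (lb : YY p g → Module.End (ZMod p) M)
    (hlb : ∀ z, ∑ h : P, ρ h * lb (h⁻¹ • z) * ρ h⁻¹ = 1) (w : YY (p ^ 2) g → M) :
    ∑ h : P, Ac ρ (YY (p ^ 2) g) h (Pt (fun y => lb (red y)) (Ac ρ (YY (p ^ 2) g) h⁻¹ w)) = w := by
  funext y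
  rw [Finset.sum_apply]
  have h1 := LinearMap.congr_fun (hlb (red y)) (w y)
  rw [LinearMap.sum_apply, Module.End.one_apply] at h1
  rw [← h1]
  refine Finset.sum_congr rfl fun h _ => ?_
  rw [Ac_apply, Pt_apply, Ac_apply, smul_smul, inv_inv, mul_inv_cancel, one_smul, red_smul]
  rfl

theorem cst_ta (l : Module.End (ZMod p) M) (w : YY (p ^ 2) g → M) (c : P ⧸ Subgroup.zpowers g) :
    ta p M c (Pt (fun _ => l) w) = Pt (fun _ => l) (ta p M c w) := by
  funext y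
  rw [ta_apply, Pt_apply, Pt_apply, Pt_apply, ta_apply, map_sub]

theorem cst_ta_pow (l : Module.End (ZMod p) M) (w : YY (p ^ 2) g → M)
    (c : P ⧸ Subgroup.zpowers g) :
    (ta p M c ^ p) (Pt (fun _ => l) w) = Pt (fun _ => l) ((ta p M c ^ p) w) := by
  funext y
  rw [ta_pow_apply, Pt_apply, Pt_apply, Pt_apply, ta_pow_apply, map_sub]

theorem cst_tr [Fintype P] (ρ : P →* Module.End (ZMod p) M) (l : P → Module.End (ZMod p) M)
    (hl : ∑ h : P, ρ h * l h * ρ h⁻¹ = 1) (w : YY (p ^ 2) g → M) :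
    ∑ h : P, Ac ρ (YY (p ^ 2) g) h (Pt (fun _ => l h) (Ac ρ (YY (p ^ 2) g) h⁻¹ w)) = w := by
  funext y
  rw [Finset.sum_apply]
  have h1 := LinearMap.congr_fun hl (w y)
  rw [LinearMap.sum_apply, Module.End.one_apply] at h1
  rw [← h1]
  refine Finset.sum_congr rfl fun h _ => ?_
  rw [Ac_apply, Pt_apply, Ac_apply, smul_smul, inv_inv, mul_inv_cancel, one_smul]
  rfl

open Classical in
/-- the local operators -/
noncomputable def LL (lb : YY p g → Module.End (ZMod p) M)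
    (lf : Finset (P ⧸ Subgroup.zpowers g) → Module.End (ZMod p) M)
    (S : Finset (P ⧸ Subgroup.zpowers g)) : Module.End (ZMod p) (YY (p ^ 2) g → M) :=
  if S = ∅ ∨ ∀ c, c ∈ S then Pt (fun y => lb (red y)) else Pt (fun _ => lf S)

variable (lb : YY p g → Module.End (ZMod p) M)
  (lf : Finset (P ⧸ Subgroup.zpowers g) → Module.End (ZMod p) M)

theorem LL_pos {S : Finset (P ⧸ Subgroup.zpowers g)} (h : S = ∅ ∨ ∀ c, c ∈ S) :
    LL lb lf S = Pt (fun y => lb (red y)) := if_pos h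

theorem LL_neg {S : Finset (P ⧸ Subgroup.zpowers g)} (h : ¬ (S = ∅ ∨ ∀ c, c ∈ S)) :
    LL lb lf S = Pt (fun _ => lf S) := if_neg h

theorem full_smul [DecidableEq (P ⧸ Subgroup.zpowers g)] {S : Finset (P ⧸ Subgroup.zpowers g)}
    (h : P) (hS : S = ∅ ∨ ∀ c, c ∈ S) : h • S = ∅ ∨ ∀ c, c ∈ h • S := by
  rcases hS with hS | hS
  · left
    rw [hS, Finset.smul_finset_empty]
  · right
    intro c
    rw [← Finset.inv_smul_mem_iff]
    exact hS _

theorem HL_gen [Fintype P] [DecidableEq (P ⧸ Subgroup.zpowers g)]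
    (ρ : P →* Module.End (ZMod p) M)
    (hlb : ∀ z, ∑ h : P, ρ h * lb (h⁻¹ • z) * ρ h⁻¹ = 1)
    (hlf : ∀ S : Finset (P ⧸ Subgroup.zpowers g), ¬ (S = ∅ ∨ ∀ c, c ∈ S) →
      ∑ h : P, ρ h * lf (h⁻¹ • S) * ρ h⁻¹ = 1)
    (u v : P ⧸ Subgroup.zpowers g → Module.End (ZMod p) (YY (p ^ 2) g → M))
    (hu : ∀ (c : P ⧸ Subgroup.zpowers g) (l : Module.End (ZMod p) M) (w : YY (p ^ 2) g → M),
      u c (Pt (fun _ => l) w) = Pt (fun _ => l) (u c w))
    (hv : ∀ (c : P ⧸ Subgroup.zpowers g) (l : Module.End (ZMod p) M) (w : YY (p ^ 2) g → M),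
      v c (Pt (fun _ => l) w) = Pt (fun _ => l) (v c w))
    (S : Finset (P ⧸ Subgroup.zpowers g))
    (hS : (S = ∅ ∨ ∀ c, c ∈ S) → ∀ w, Ws u v S w ↔
      ∀ c : P ⧸ Subgroup.zpowers g, (ta p M c ^ p) w = 0) :
    (∀ w, Ws u v S w → Ws u v S (LL lb lf S w)) ∧
      ∀ w, Ws u v S w →
        ∑ h : P, Ac ρ (YY (p ^ 2) g) h (LL lb lf (h⁻¹ • S) (Ac ρ (YY (p ^ 2) g) h⁻¹ w)) = w := by
  by_cases hf : S = ∅ ∨ ∀ c, c ∈ S
  · refine ⟨fun w hw => ?_, fun w _ => ?_⟩
    · rw [LL_pos lb lf hf, hS hf]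
      exact base_mem lb w ((hS hf w).1 hw)
    · have h1 : ∀ h : P, LL lb lf (h⁻¹ • S) = Pt (fun y => lb (red y)) := fun h =>
        LL_pos lb lf (full_smul h⁻¹ hf)
      simp only [h1]
      exact base_tr ρ lb hlb w
  · refine ⟨fun w hw => ?_, fun w _ => ?_⟩
    · rw [LL_neg lb lf hf]
      refine ⟨fun c hc => ?_, fun c hc => ?_⟩
      · rw [hv, hw.1 c hc]
        funext y
        rw [Pt_apply, Pi.zero_apply, map_zero]
      · rw [hu, hw.2 c hc]
        funext y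
        rw [Pt_apply, Pi.zero_apply, map_zero]
    · have h1 : ∀ h : P, LL lb lf (h⁻¹ • S) = Pt (fun _ => lf (h⁻¹ • S)) := fun h =>
        LL_neg lb lf fun hh => hf (by
          have h2 := full_smul h hh
          rwa [smul_inv_smul] at h2)
      simp only [h1]
      exact cst_tr ρ (fun h => lf (h⁻¹ • S)) (hlf S hf) w

end

end Pool.Agent.FRS
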