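import Pool.Agent.FRS.T4

/-!
# FRS [T5]: an element of order divisible by `p ^ 2`
-/

set_option autoImplicit false

namespace Pool.Agent.FRS

open scoped Pointwise

section

variable {P : Type} [Group P] {g : P}

theorem YY_nonempty {n : ℕ} (hn : n ∣ orderOf g) : Nonempty (YY n g) := by
  have hex : ∀ x : P, ∃ k : ℤ, (x : P ⧸ Subgroup.zpowers g).out * g ^ k = x := by
    intro x
    have h1 : (x : P ⧸ Subgroup.zpowers g).out⁻¹ * x ∈ Subgroup.zpowers g :=
      QuotientGroup.eq.1 (QuotientGroup.out_eq' _)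
    obtain ⟨k, hk⟩ := Subgroup.mem_zpowers_iff.1 h1
    exact ⟨k, by rw [hk]; group⟩
  choose k hk using hex
  refine ⟨⟨fun x => (k x : ZMod n), fun x => ?_⟩⟩
  show ((k (x * g) : ℤ) : ZMod n) = (k x : ZMod n) + 1
  have h1 := hk (x * g)
  rw [mk_mul] at h1
  have h2 : g ^ k (x * g) = g ^ (k x + 1) := by
    have h3 : (x : P ⧸ Subgroup.zpowers g).out * g ^ k (x * g) =
        (x : P ⧸ Subgroup.zpowers g).out * g ^ (k x + 1) := by
      rw [h1, zpow_add, zpow_one, ← mul_assoc, hk x]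
    exact mul_left_cancel h3
  have h4 : k (x * g) ≡ k x + 1 [ZMOD orderOf g] := zpow_eq_zpow_iff_modEq.1 h2
  have h5 : k (x * g) ≡ k x + 1 [ZMOD n] := h4.of_dvd (Int.natCast_dvd_natCast.2 hn)
  have h6 := (ZMod.intCast_eq_intCast_iff (k (x * g)) (k x + 1) n).2 h5
  rw [h6]
  push_cast
  rfl

end

section

variable {p : ℕ} [Fact p.Prime] {P : Type} [Group P] {M : Type} [AddCommGroup M]
  [Module (ZMod p) M] {g : P}

/-- constant functions -/
def Cst (p : ℕ) (M Z : Type) [AddCommGroup M] [Module (ZMod p) M] : M →ₗ[ZMod p] (Z → M) :=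
  LinearMap.pi fun _ => LinearMap.id

theorem Cst_apply {Z : Type} (m : M) (z : Z) : Cst p M Z m z = m := rfl

theorem ta_Cst (m : M) (c : P ⧸ Subgroup.zpowers g) :
    ta p M c (Cst p M (YY (p ^ 2) g) m) = 0 := by
  funext y
  rw [ta_apply, Cst_apply, Cst_apply, sub_self, Pi.zero_apply]

theorem ta_pow_Cst (m : M) (c : P ⧸ Subgroup.zpowers g) :
    (ta p M c ^ p) (Cst p M (YY (p ^ 2) g) m) = 0 := by
  funext y
  rw [ta_pow_apply, Cst_apply, Cst_apply, sub_self, Pi.zero_apply]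

theorem nP_zero {V X : Type} [AddCommGroup V] [Module (ZMod p) V] {u : X → Module.End (ZMod p) V}
    (hu : ∀ c c', Commute (u c) (u c')) {f : V} (hf : ∀ c, u c f = 0) {S : Finset X}
    (hS : S.Nonempty) : nP u hu S f = 0 := by
  classical
  obtain ⟨c, hc⟩ := hS
  have h2 : Commute (u c) (nP u hu (S.erase c)) := nP_comm hu fun c' _ => hu c c'
  rw [nP_erase hu hc]
  have h3 := LinearMap.congr_fun h2 f
  rw [Module.End.mul_apply] at h3
  rw [Module.End.mul_apply, h3, Module.End.mul_apply, hf, map_zero]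

/-- A function killed by all difference operators is constant. -/
theorem const_of [Finite P] {f : YY (p ^ 2) g → M}
    (hf : ∀ c : P ⧸ Subgroup.zpowers g, ta p M c f = 0) (y y' : YY (p ^ 2) g) : f y' = f y := by
  classical
  have hfin : Fintype (P ⧸ Subgroup.zpowers g) := Fintype.ofFinite _
  have hne : NeZero (p ^ 2) := ⟨(pow_pos (Fact.out : p.Prime).pos 2).ne'⟩
  have h1 : ∀ (c : P ⧸ Subgroup.zpowers g) (y : YY (p ^ 2) g), f (sh (ec c 1) y) = f y := by
    intro c y
    have h2 := congrFun (hf c) y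
    rwa [ta_apply, Pi.zero_apply, sub_eq_zero] at h2
  have h2 : ∀ (c : P ⧸ Subgroup.zpowers g) (k : ℕ) (y : YY (p ^ 2) g),
      f (sh (ec c (k : ZMod (p ^ 2))) y) = f y := by
    intro c k
    induction k with
    | zero =>
      intro y
      congr 1
      refine Subtype.ext (funext fun x => ?_)
      rw [sh_val]
      by_cases h : ((x : P ⧸ Subgroup.zpowers g)) = c
      · rw [h, ec_self, Nat.cast_zero, add_zero]
      · rw [ec_ne h, add_zero]
    | succ k ih =>
      intro y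
      have h3 := h1 c (sh (ec c (k : ZMod (p ^ 2))) y)
      rw [sh_sh, ec_add, ih] at h3
      rw [Nat.cast_succ]
      exact h3
  have h3 : ∀ (a : P ⧸ Subgroup.zpowers g → ZMod (p ^ 2)) (s : Finset (P ⧸ Subgroup.zpowers g))
      (y : YY (p ^ 2) g), f (sh (∑ c ∈ s, ec c (a c)) y) = f y := by
    intro a s
    induction s using Finset.induction_on with
    | empty =>
      intro y
      rw [Finset.sum_empty]
      congr 1
      exact Subtype.ext (funext fun x => by rw [sh_val, Pi.zero_apply, add_zero])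
    | insert c s hc ih =>
      intro y
      rw [Finset.sum_insert hc, ← sh_sh, ih]
      have h4 := h2 c (a c).val y
      rwa [ZMod.natCast_zmod_val] at h4
  obtain ⟨a, rfl⟩ := exists_sh' y y'
  have h4 : a = ∑ c, ec c (a c) := by
    funext x
    rw [Finset.sum_apply, Finset.sum_eq_single x]
    · rw [ec_self]
    · intro c _ hc
      exact ec_ne (Ne.symm hc) _
    · intro h
      exact absurd (Finset.mem_univ x) h
  rw [h4]
  exact h3 a _ y

theorem KT [Fintype P] (ρ : P →* Module.End (ZMod p) M) (g : P) (hg : p ^ 2 ∣ orderOf g)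
    (hprop : ∀ H : Subgroup P, H ≠ ⊤ → PJ ρ H) : PJ ρ ⊤ := by
  classical
  have hfin : Fintype (P ⧸ Subgroup.zpowers g) := Fintype.ofFinite _
  have hp : p.Prime := Fact.out
  obtain ⟨y0⟩ := YY_nonempty hg
  -- the families
  obtain ⟨lb, hlb⟩ := exists_famZ ρ hprop (YY p g)
  obtain ⟨lf, hlf⟩ := exists_famZ ρ hprop (Finset (P ⧸ Subgroup.zpowers g))
  have hne1 : (1 : ZMod p) ≠ 0 := one_ne_zero
  have hlb' : ∀ z, ∑ h : P, ρ h * lb (h⁻¹ • z) * ρ h⁻¹ = 1 := by
    intro z
    refine hlb z fun h => smul_ne hne1 z ?_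
    have h1 : g ∈ MulAction.stabilizer P z := by
      rw [h]
      exact Subgroup.mem_top _
    exact h1
  have hlf' : ∀ S : Finset (P ⧸ Subgroup.zpowers g), ¬ (S = ∅ ∨ ∀ c, c ∈ S) →
      ∑ h : P, ρ h * lf (h⁻¹ • S) * ρ h⁻¹ = 1 := by
    intro S hS
    refine hlf S fun h => hS ?_
    by_cases hS' : S = ∅
    · exact Or.inl hS'
    · right
      intro c
      obtain ⟨c0, hc0⟩ := Finset.nonempty_iff_ne_empty.2 hS'
      obtain ⟨a, ha⟩ := MulAction.exists_smul_eq P c0 c
      have h1 : a ∈ MulAction.stabilizer P S := by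
        rw [h]
        exact Subgroup.mem_top _
      have h2 : a • S = S := h1
      rw [← h2, ← ha]
      exact Finset.smul_mem_smul_finset hc0
  have hcard : 1 ≤ Fintype.card (P ⧸ Subgroup.zpowers g) :=
    Fintype.card_pos_iff.2 ⟨((1 : P) : P ⧸ Subgroup.zpowers g)⟩
  obtain ⟨Λ, hΛ1, hΛ2⟩ := corA (ops1 ρ) (LL lb lf) (Fintype.card (P ⧸ Subgroup.zpowers g))
    fun i hi S hS => by
      refine HL_gen lb lf ρ hlb' hlf' _ _ (fun c l w => cst_ta_pow l w c)
        (fun c l w => cst_ta l w c) S fun hf w => ?_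
      have hS' : S = ∅ := by
        rcases hf with hf | hf
        · exact hf
        · exfalso
          have h1 : S = Finset.univ := Finset.eq_univ_iff_forall.2 hf
          rw [h1, Finset.card_univ] at hS
          omega
      rw [hS']
      exact ⟨fun h c => h.2 c (Finset.notMem_empty c),
        fun h => ⟨fun c hc => absurd hc (Finset.notMem_empty c), fun c _ => h c⟩⟩
  obtain ⟨r, hr1, hr2, hr3⟩ := corB (ops2 ρ) (LL lb lf) (Fintype.card (P ⧸ Subgroup.zpowers g))
    fun i hi hi' S hS => by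
      refine HL_gen lb lf ρ hlb' hlf' _ _ (fun c l w => cst_ta l w c)
        (fun c l w => cst_ta_pow l w c) S fun hf w => ?_
      have hS' : ∀ c, c ∈ S := by
        rcases hf with hf | hf
        · exfalso
          rw [hf, Finset.card_empty] at hS
          omega
        · exact hf
      exact ⟨fun h c => h.1 c (hS' c), fun h => ⟨fun c _ => h c, fun c hc => absurd (hS' c) hc⟩⟩
  -- the constant functions
  have hC1 : ∀ m : M, Fi (fun c : P ⧸ Subgroup.zpowers g => ta p M c ^ p) (fun c => ta p M c)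
      (ops1 ρ).uu (Fintype.card (P ⧸ Subgroup.zpowers g)) (Cst p M (YY (p ^ 2) g) m) := by
    intro m
    refine ⟨fun c => ?_, fun S hS => ?_⟩
    · show (ta p M c ^ p) (ta p M c (Cst p M (YY (p ^ 2) g) m)) = 0
      rw [ta_Cst, map_zero]
    · exact nP_zero (ops1 ρ).uu (fun c => ta_pow_Cst m c) (Finset.card_pos.1 (by omega))
  have hC2 : ∀ m : M, Fi (fun c : P ⧸ Subgroup.zpowers g => ta p M c) (fun c => ta p M c ^ p)
      (ops2 ρ).uu 1 (Cst p M (YY (p ^ 2) g) m) := by
    intro m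
    refine ⟨fun c => ?_, fun S hS => ?_⟩
    · show ta p M c ((ta p M c ^ p) (Cst p M (YY (p ^ 2) g) m)) = 0
      rw [ta_pow_Cst, map_zero]
    · exact nP_zero (ops2 ρ).uu (fun c => ta_Cst m c) (Finset.card_pos.1 (by omega))
  have h12 : ∀ f, Fi (fun c : P ⧸ Subgroup.zpowers g => ta p M c ^ p) (fun c => ta p M c)
      (ops1 ρ).uu (Fintype.card (P ⧸ Subgroup.zpowers g)) f →
      Fi (fun c : P ⧸ Subgroup.zpowers g => ta p M c) (fun c => ta p M c ^ p)
      (ops2 ρ).uu (Fintype.card (P ⧸ Subgroup.zpowers g) + 1) f := by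
    intro f hf
    refine ⟨fun c => ?_, fun S hS => ?_⟩
    · have h1 := LinearMap.congr_fun ((ops1 ρ).uv c c) f
      exact h1.symm.trans (hf.1 c)
    · have h1 := Finset.card_le_univ S
      omega
  have hconst : ∀ f, Fi (fun c : P ⧸ Subgroup.zpowers g => ta p M c) (fun c => ta p M c ^ p)
      (ops2 ρ).uu 1 f → ∀ y y', f y' = f y := by
    intro f hf y y'
    refine const_of (fun c => ?_) y y'
    have h1 := hf.2 {c} (Finset.card_singleton c)
    rw [nP, Finset.noncommProd_singleton] at h1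
    exact h1
  refine ⟨(LinearMap.proj y0).comp ((r * Λ).comp (Cst p M (YY (p ^ 2) g))), ?_⟩
  rw [PTr_eq]
  refine LinearMap.ext fun m => ?_
  rw [LinearMap.sum_apply, Module.End.one_apply]
  have h1 : ∀ h : P, (if h ∈ (⊤ : Subgroup P) then
      ρ h * ((LinearMap.proj y0).comp ((r * Λ).comp (Cst p M (YY (p ^ 2) g)))) * ρ h⁻¹ else 0) m =
      (r (Ac ρ (YY (p ^ 2) g) h (Λ (Ac ρ (YY (p ^ 2) g) h⁻¹
        (Cst p M (YY (p ^ 2) g) m))))) y0 := by
    intro h
    rw [if_pos (Subgroup.mem_top h)]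
    show ρ h ((r (Λ (Cst p M (YY (p ^ 2) g) (ρ h⁻¹ m)))) y0) = _
    have e1 : Cst p M (YY (p ^ 2) g) (ρ h⁻¹ m) =
        Ac ρ (YY (p ^ 2) g) h⁻¹ (Cst p M (YY (p ^ 2) g) m) := rfl
    have e2 := hconst _ (hr2 _ (h12 _ (hΛ1 _ (hC1 (ρ h⁻¹ m))))) y0 (h⁻¹ • y0)
    have e3 := LinearMap.congr_fun (hr1 h) (Λ (Cst p M (YY (p ^ 2) g) (ρ h⁻¹ m)))
    rw [Module.End.mul_apply, Module.End.mul_apply] at e3
    rw [← e1, ← e3, Ac_apply, e2]
  rw [Finset.sum_congr rfl fun h _ => h1 h, ← Finset.sum_apply, ← map_sum, ← TrA_apply,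
    hΛ2 _ (hC1 m), hr3 _ (hC2 m), Cst_apply]

end

end Pool.Agent.FRS
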